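import Pool.Agent.LibQGr.R_BAS

/-! Rows AVG: averaging operators, the Haar measure, Fubini over the layers. -/

open MeasureTheory Set Filter Topology

namespace QGr


theorem AVG_int {Y : Type} [TopologicalSpace Y] [CompactSpace Y] [MeasurableSpace Y]
    [OpensMeasurableSpace Y] (μ : Measure Y) [IsFiniteMeasure μ] (F : Y → ℝ) (hF : Continuous F) :
    Integrable F μ :=
  hF.integrable_of_hasCompactSupport (HasCompactSupport.of_compactSpace F)

theorem AVG_fc (N : ℕ) : FirstCountableTopology (Uni N) := by
  have : SecondCountableTopology (Matrix (Fin N) (Fin N) ℂ) :=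
    inferInstanceAs (SecondCountableTopology (Fin N → Fin N → ℂ))
  have : SecondCountableTopology (Uni N) :=
    TopologicalSpace.Subtype.secondCountableTopology
      (Matrix.unitaryGroup (Fin N) ℂ : Set (Matrix (Fin N) (Fin N) ℂ))
  infer_instance

theorem avg_cont {N : ℕ} (O : Orth N) (f : Uni N → ℝ) (hf : Continuous f) :
    Continuous (avg O f) := by
  have h : Continuous (Function.uncurry fun (g : Uni N) (t : Fin N → UnitAddCircle) =>
      f (dg t * cx O * g)) := by
    refine hf.comp ?_
    exact ((dg_cont.comp continuous_snd).mul continuous_const).mul continuous_fst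
  have := AVG_fc N
  have h2 := continuous_parametric_integral_of_continuous (μ := volume) h
    (isCompact_univ (X := Fin N → UnitAddCircle))
  simp only [Measure.restrict_univ] at h2
  exact h2

theorem down_cont {N : ℕ} (O : ℕ → Orth N) (m : ℕ) (f : Uni N → ℝ) (hf : Continuous f) :
    Continuous (down O m f) := by
  induction m generalizing f with
  | zero => exact hf
  | succ m ih => exact ih _ (avg_cont (O m) f hf)

theorem avg_haar {N : ℕ} (O : Orth N) (f : Uni N → ℝ) (hf : Continuous f) :
    ∫ A, avg O f A ∂(haarU N) = ∫ A, f A ∂(haarU N) := by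
  have : IsProbabilityMeasure (haarU N) :=
    ⟨by
      unfold haarU
      exact Measure.haarMeasure_self⟩
  have : (haarU N).IsMulLeftInvariant := by
    unfold haarU
    infer_instance
  have h : Continuous (Function.uncurry fun (g : Uni N) (t : Fin N → UnitAddCircle) =>
      f (dg t * cx O * g)) := by
    refine hf.comp ?_
    exact ((dg_cont.comp continuous_snd).mul continuous_const).mul continuous_fst
  unfold avg
  rw [integral_integral_swap]
  · have h1 : ∀ t : Fin N → UnitAddCircle,
        ∫ A, f (dg t * cx O * A) ∂(haarU N) = ∫ A, f A ∂(haarU N) := fun t =>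
      integral_mul_left_eq_self f _
    simp only [h1]
    simp
  · exact AVG_int _ _ h

theorem snoc_int {X : Type} [TopologicalSpace X] [CompactSpace X] [SecondCountableTopology X]
    [MeasureSpace X] [BorelSpace X] [IsProbabilityMeasure (volume : Measure X)] (M : ℕ)
    (f : (Fin (M + 1) → X) → ℝ) (hf : Continuous f) :
    ∫ θ, f θ = ∫ θ : Fin M → X, ∫ t : X, f (Fin.snoc θ t) := by
  have hmp := (volume_preserving_piFinSuccAbove (fun _ : Fin (M + 1) => X) (Fin.last M)).symm
  have h1 := hmp.integral_comp (MeasurableEquiv.measurableEmbedding _) f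
  rw [← h1]
  have hc : Continuous fun q : X × (Fin M → X) =>
      f ((MeasurableEquiv.piFinSuccAbove (fun _ : Fin (M + 1) => X) (Fin.last M)).symm q) := by
    refine hf.comp ?_
    refine continuous_pi fun i => ?_
    refine Fin.lastCases ?_ (fun i => ?_) i
    · simpa [MeasurableEquiv.piFinSuccAbove] using continuous_fst
    · have h3 : Continuous fun a : X × (Fin M → X) => a.2 i :=
        (continuous_apply i).comp continuous_snd
      simpa [MeasurableEquiv.piFinSuccAbove] using h3
  have h2 := integral_prod_symm _ (AVG_int (volume : Measure (X × (Fin M → X))) _ hc)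
  refine h2.trans ?_
  refine integral_congr_ae (Filter.Eventually.of_forall fun θ => ?_)
  refine integral_congr_ae (Filter.Eventually.of_forall fun t => ?_)
  have h4 : (MeasurableEquiv.piFinSuccAbove (fun _ : Fin (M + 1) => X) (Fin.last M)).symm (t, θ) =
      Fin.snoc θ t := by
    simp [MeasurableEquiv.piFinSuccAbove]
    rfl
  exact congrArg f h4

theorem fub {N : ℕ} (O : ℕ → Orth N) (m : ℕ) (f : Uni N → ℝ) (hf : Continuous f) :
    ∫ θ, f (tr O m θ) = ∫ t, down O m f (dg t) := by
  induction m generalizing f with
  | zero =>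
    have hc : Continuous fun θ : Fin (0 + 1) → Fin N → UnitAddCircle => f (tr O 0 θ) :=
      hf.comp (tr_cont O 0)
    rw [snoc_int 0 _ hc]
    have h1 : ∀ (θ : Fin 0 → Fin N → UnitAddCircle) (t : Fin N → UnitAddCircle),
        tr O 0 (Fin.snoc θ t) = dg t := by
      intro θ t
      rfl
    simp [h1, down]
  | succ m ih =>
    have hc : Continuous fun θ : Fin (m + 1 + 1) → Fin N → UnitAddCircle =>
        f (tr O (m + 1) θ) := hf.comp (tr_cont O (m + 1))
    rw [snoc_int (m + 1) _ hc]
    have h1 : ∀ (θ : Fin (m + 1) → Fin N → UnitAddCircle)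
        (t : Fin N → UnitAddCircle),
        tr O (m + 1) (Fin.snoc θ t) = dg t * cx (O m) * tr O m θ := by
      intro θ t
      simp [tr]
    simp only [h1]
    exact ih (avg (O m) f) (avg_cont (O m) f hf)

end QGr
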