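import Pool.Agent.LibQGr.R_BAS

/-! ROW DS : the Frobenius distance on the unitary group. -/

open MeasureTheory Set Filter Topology

namespace QGr

theorem DS_trace {N : ℕ} (M : Matrix (Fin N) (Fin N) ℂ) :
    ((∑ i, ∑ j, ‖M i j‖ ^ 2 : ℝ) : ℂ) = Matrix.trace (M.conjTranspose * M) := by
  rw [Matrix.trace, Finset.sum_comm]
  push_cast
  refine Finset.sum_congr rfl fun j _ => ?_
  rw [Matrix.diag_apply, Matrix.mul_apply]
  refine Finset.sum_congr rfl fun i _ => ?_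
  rw [Matrix.conjTranspose_apply, Complex.star_def, mul_comm, Complex.mul_conj,
    Complex.normSq_eq_norm_sq]
  push_cast
  rfl

theorem DS_left {N : ℕ} (U : Uni N) (M : Matrix (Fin N) (Fin N) ℂ) :
    ∑ i, ∑ j, ‖(U.1 * M) i j‖ ^ 2 = ∑ i, ∑ j, ‖M i j‖ ^ 2 := by
  have h : ((∑ i, ∑ j, ‖(U.1 * M) i j‖ ^ 2 : ℝ) : ℂ) = ((∑ i, ∑ j, ‖M i j‖ ^ 2 : ℝ) : ℂ) := by
    rw [DS_trace, DS_trace, Matrix.conjTranspose_mul]
    have hU : U.1.conjTranspose * U.1 = 1 := Matrix.mem_unitaryGroup_iff'.1 U.2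
    rw [Matrix.mul_assoc, ← Matrix.mul_assoc U.1.conjTranspose, hU, Matrix.one_mul]
  exact_mod_cast h

theorem DS_right {N : ℕ} (U : Uni N) (M : Matrix (Fin N) (Fin N) ℂ) :
    ∑ i, ∑ j, ‖(M * U.1) i j‖ ^ 2 = ∑ i, ∑ j, ‖M i j‖ ^ 2 := by
  have h : ((∑ i, ∑ j, ‖(M * U.1) i j‖ ^ 2 : ℝ) : ℂ) = ((∑ i, ∑ j, ‖M i j‖ ^ 2 : ℝ) : ℂ) := by
    rw [DS_trace, DS_trace, Matrix.conjTranspose_mul, Matrix.mul_assoc, Matrix.trace_mul_comm]
    have hU : U.1 * U.1.conjTranspose = 1 := Matrix.mem_unitaryGroup_iff.1 U.2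
    rw [Matrix.mul_assoc, Matrix.mul_assoc, hU, Matrix.mul_one]
  exact_mod_cast h

theorem ds_left {N : ℕ} (U A B : Uni N) : ds (U * A) (U * B) = ds A B := by
  unfold ds
  have h : ∀ i j, (U * A).1 i j - (U * B).1 i j = (U.1 * (A.1 - B.1)) i j := by
    intro i j
    rw [Matrix.mul_sub]
    rfl
  simp only [h]
  exact DS_left U _

theorem ds_right {N : ℕ} (U A B : Uni N) : ds (A * U) (B * U) = ds A B := by
  unfold ds
  have h : ∀ i j, (A * U).1 i j - (B * U).1 i j = ((A.1 - B.1) * U.1) i j := by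
    intro i j
    rw [Matrix.sub_mul]
    rfl
  simp only [h]
  exact DS_right U _

theorem ds_cont {N : ℕ} : Continuous fun q : Uni N × Uni N => ds q.1 q.2 := by
  unfold ds
  have h1 : ∀ i j : Fin N, Continuous fun q : Uni N × Uni N => q.1.1 i j := fun i j =>
    ((continuous_subtype_val.comp continuous_fst)).matrix_elem i j
  have h2 : ∀ i j : Fin N, Continuous fun q : Uni N × Uni N => q.2.1 i j := fun i j =>
    ((continuous_subtype_val.comp continuous_snd)).matrix_elem i j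
  exact continuous_finsetSum _ fun i _ => continuous_finsetSum _ fun j _ =>
    (((h1 i j).sub (h2 i j)).norm).pow 2

theorem ds_tri {N : ℕ} (A B C : Uni N) : ds A C ≤ 2 * (ds A B + ds B C) := by
  unfold ds
  rw [← Finset.sum_add_distrib, Finset.mul_sum]
  refine Finset.sum_le_sum fun i _ => ?_
  rw [← Finset.sum_add_distrib, Finset.mul_sum]
  refine Finset.sum_le_sum fun j _ => ?_
  have h1 : ‖A.1 i j - C.1 i j‖ ≤ ‖A.1 i j - B.1 i j‖ + ‖B.1 i j - C.1 i j‖ := by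
    calc ‖A.1 i j - C.1 i j‖ = ‖(A.1 i j - B.1 i j) + (B.1 i j - C.1 i j)‖ := by
          congr 1; ring
      _ ≤ _ := norm_add_le _ _
  have h2 := norm_nonneg (A.1 i j - C.1 i j)
  nlinarith [sq_nonneg (‖A.1 i j - B.1 i j‖ - ‖B.1 i j - C.1 i j‖),
    mul_self_le_mul_self h2 h1]

theorem DS_nonneg {N : ℕ} (A B : Uni N) : 0 ≤ ds A B :=
  Finset.sum_nonneg fun _ _ => Finset.sum_nonneg fun _ _ => by positivity

theorem DS_zero {N : ℕ} {A B : Uni N} (h : ds A B = 0) : A = B := by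
  apply Subtype.ext
  ext i j
  have h1 : ∑ j, ‖A.1 i j - B.1 i j‖ ^ 2 = 0 :=
    (Finset.sum_eq_zero_iff_of_nonneg fun i _ =>
      Finset.sum_nonneg fun _ _ => by positivity).1 h i (Finset.mem_univ _)
  have h2 : ‖A.1 i j - B.1 i j‖ ^ 2 = 0 :=
    (Finset.sum_eq_zero_iff_of_nonneg fun j _ => by positivity).1 h1 j (Finset.mem_univ _)
  have h3 : ‖A.1 i j - B.1 i j‖ = 0 := pow_eq_zero_iff (two_ne_zero) |>.1 h2
  exact sub_eq_zero.1 (norm_eq_zero.1 h3)

theorem ds_unif {N : ℕ} (f : Uni N → ℝ) (hf : Continuous f) (ε : ℝ) (hε : 0 < ε) :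
    ∃ δ > 0, ∀ A B : Uni N, ds A B < δ → |f A - f B| < ε := by
  set K : Set (Uni N × Uni N) := {q | ε ≤ |f q.1 - f q.2|} with hK
  have hc : IsClosed K := isClosed_le continuous_const
    (((hf.comp continuous_fst).sub (hf.comp continuous_snd)).abs)
  rcases K.eq_empty_or_nonempty with h0 | h0
  · refine ⟨1, one_pos, fun A B _ => ?_⟩
    by_contra h
    have : (A, B) ∈ K := not_lt.1 h
    rw [h0] at this
    exact this
  · obtain ⟨q, hq, hmin⟩ := hc.isCompact.exists_isMinOn h0 ds_cont.continuousOn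
    have hpos : 0 < ds q.1 q.2 := by
      refine lt_of_le_of_ne (DS_nonneg _ _) fun h => ?_
      have h1 := DS_zero h.symm
      have h2 : ε ≤ |f q.1 - f q.2| := hq
      rw [h1, sub_self, abs_zero] at h2
      exact absurd hε (not_lt.2 h2)
    refine ⟨ds q.1 q.2, hpos, fun A B h => ?_⟩
    by_contra h1
    have h2 : (A, B) ∈ K := not_lt.1 h1
    have h3 : ds q.1 q.2 ≤ ds A B := isMinOn_iff.1 hmin (A, B) h2
    exact absurd h (not_lt.2 h3)

end QGr
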