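import Pool.Agent.LibQGr.Def2

open MeasureTheory Set Filter Topology

namespace QGr

theorem UDI_lam {N : ℕ} (W : Matrix (Fin N) (Fin N) ℂ) :
    ∃ z : ℂ, z * (starRingEnd ℂ) z = 1 ∧ (z • (1 : Matrix (Fin N) (Fin N) ℂ) - W).det ≠ 0 := by
  by_contra hcon
  push Not at hcon
  set f : ℕ → ℂ := fun t => ((t : ℂ) + Complex.I) / ((t : ℂ) - Complex.I) with hf
  have hne : ∀ t : ℕ, (t : ℂ) - Complex.I ≠ 0 := by
    intro t h
    have := congrArg Complex.im h
    simp at this
  have hne' : ∀ t : ℕ, (t : ℂ) + Complex.I ≠ 0 := by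
    intro t h
    have := congrArg Complex.im h
    simp at this
  have hinj : Function.Injective f := by
    intro s t h
    simp only [hf] at h
    rw [div_eq_div_iff (hne s) (hne t)] at h
    have h2 : 2 * Complex.I * ((t : ℂ) - s) = 0 := by linear_combination h
    have h3 : ((t : ℂ) - s) = 0 := by
      rcases mul_eq_zero.1 h2 with h | h
      · simp at h
      · exact h
    exact_mod_cast (sub_eq_zero.1 h3).symm
  have huni : ∀ t, f t * (starRingEnd ℂ) (f t) = 1 := by
    intro t
    simp only [hf, map_div₀, map_add, map_sub, Complex.conj_natCast, Complex.conj_I]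
    have h1 := hne t
    have h2 := hne' t
    rw [sub_neg_eq_add]
    field_simp
    ring
  have hroot : ∀ t, W.charpoly.IsRoot (f t) := by
    intro t
    rw [Polynomial.IsRoot.def, Matrix.eval_charpoly]
    have := hcon (f t) (huni t)
    rwa [Matrix.smul_one_eq_diagonal] at this
  have hinf : Set.Infinite {x | W.charpoly.IsRoot x} :=
    Set.infinite_of_injective_forall_mem hinj hroot
  exact (Matrix.charpoly_monic W).ne_zero (Polynomial.eq_zero_of_infinite_isRoot _ hinf)

theorem uni_diag {N : ℕ} (W : Uni N) : ∃ (V : Uni N) (φ : Fin N → ℝ),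
    W.1 = V.1 * (Matrix.diagonal fun a => Complex.exp (φ a * Complex.I)) * V.1.conjTranspose := by
  obtain ⟨z, hz, hdet⟩ := UDI_lam W.1
  set M := z • (1 : Matrix (Fin N) (Fin N) ℂ) - W.1 with hM
  have hu : IsUnit M.det := isUnit_iff_ne_zero.2 hdet
  have hMi : M * M⁻¹ = 1 := Matrix.mul_nonsing_inv _ hu
  have hiM : M⁻¹ * M = 1 := Matrix.nonsing_inv_mul _ hu
  have hW1 : W.1 * W.1.conjTranspose = 1 := by
    have := W.2
    rwa [Matrix.mem_unitaryGroup_iff, Matrix.star_eq_conjTranspose] at this
  have hW2 : W.1.conjTranspose * W.1 = 1 := by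
    have := W.2
    rwa [Matrix.mem_unitaryGroup_iff', Matrix.star_eq_conjTranspose] at this
  set P := z • (1 : Matrix (Fin N) (Fin N) ℂ) + W.1 with hP
  have hPH : P.conjTranspose * M = - (M.conjTranspose * P) := by
    have hz' : z * star z = 1 := hz
    rw [hP, hM]
    simp only [Matrix.conjTranspose_add, Matrix.conjTranspose_sub, Matrix.conjTranspose_smul,
      Matrix.conjTranspose_one, add_mul, mul_sub, mul_add, sub_mul, smul_mul_assoc, mul_smul_comm,
      one_mul, mul_one, hW2]
    have e : star z • z • (1 : Matrix (Fin N) (Fin N) ℂ) = 1 := by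
      rw [smul_smul, mul_comm, hz', one_smul]
    have e2 : z • star z • (1 : Matrix (Fin N) (Fin N) ℂ) = 1 := by
      rw [smul_smul, hz', one_smul]
    rw [smul_add, smul_sub, e2]
    abel
  obtain ⟨H, hH⟩ : ∃ H, H = Complex.I • (P * M⁻¹) := ⟨_, rfl⟩
  -- H is hermitian
  have hHM : H * M = Complex.I • P := by
    rw [hH, smul_mul_assoc, Matrix.mul_assoc, hiM, mul_one]
  have hMc : M.conjTranspose * M⁻¹.conjTranspose = 1 := by
    rw [← Matrix.conjTranspose_mul, hiM, Matrix.conjTranspose_one]
  have hMc' : M⁻¹.conjTranspose * M.conjTranspose = 1 := by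
    rw [← Matrix.conjTranspose_mul, hMi, Matrix.conjTranspose_one]
  have hherm : H.IsHermitian := by
    have h0 : M.conjTranspose * H.conjTranspose = -Complex.I • P.conjTranspose := by
      have := congrArg Matrix.conjTranspose hHM
      rw [Matrix.conjTranspose_mul, Matrix.conjTranspose_smul] at this
      rw [this, Complex.star_def, Complex.conj_I]
    have h1 : M.conjTranspose * H.conjTranspose * M = M.conjTranspose * H * M := by
      rw [h0, smul_mul_assoc, hPH, Matrix.mul_assoc, hHM, mul_smul_comm, smul_neg, neg_smul,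
        neg_neg]
    calc H.conjTranspose = (M⁻¹.conjTranspose * M.conjTranspose) * H.conjTranspose * (M * M⁻¹) := by
          rw [hMc', hMi, one_mul, mul_one]
      _ = M⁻¹.conjTranspose * (M.conjTranspose * H.conjTranspose * M) * M⁻¹ := by
          simp only [Matrix.mul_assoc]
      _ = M⁻¹.conjTranspose * (M.conjTranspose * H * M) * M⁻¹ := by rw [h1]
      _ = (M⁻¹.conjTranspose * M.conjTranspose) * H * (M * M⁻¹) := by
          simp only [Matrix.mul_assoc]
      _ = H := by rw [hMc', hMi, one_mul, mul_one]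
  -- spectral theorem for H
  set V : Uni N := hherm.eigenvectorUnitary with hV
  set d : Fin N → ℝ := hherm.eigenvalues with hd
  have hVV : V.1.conjTranspose * V.1 = 1 := by
    have := V.2
    rwa [Matrix.mem_unitaryGroup_iff', Matrix.star_eq_conjTranspose] at this
  have hVV' : V.1 * V.1.conjTranspose = 1 := by
    have := V.2
    rwa [Matrix.mem_unitaryGroup_iff, Matrix.star_eq_conjTranspose] at this
  have hspec : H = V.1 * (Matrix.diagonal fun a => (d a : ℂ)) * V.1.conjTranspose := by
    have := hherm.spectral_theorem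
    rw [Unitary.conjStarAlgAut_apply] at this
    rw [this]
    simp only [hV, hd, Matrix.star_eq_conjTranspose]
    rfl
  set X := V.1.conjTranspose * W.1 * V.1 with hX
  have hWX : W.1 = V.1 * X * V.1.conjTranspose := by
    rw [hX]
    calc W.1 = (V.1 * V.1.conjTranspose) * W.1 * (V.1 * V.1.conjTranspose) := by
          rw [hVV', one_mul, mul_one]
      _ = _ := by simp only [Matrix.mul_assoc]
  -- (H + i) W = z (H - i)
  have hHW : H * W.1 + Complex.I • W.1 = z • H - (Complex.I * z) • (1 : Matrix (Fin N) (Fin N) ℂ) := by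
    have : H * (z • (1 : Matrix (Fin N) (Fin N) ℂ) - W.1)
        = Complex.I • (z • (1 : Matrix (Fin N) (Fin N) ℂ) + W.1) := hHM
    rw [mul_sub, mul_smul_comm, mul_one, smul_add, smul_smul] at this
    rw [sub_eq_iff_eq_add.1 this]
    abel
  have hDX : (Matrix.diagonal fun a => (d a : ℂ)) * X + Complex.I • X
      = z • (Matrix.diagonal fun a => (d a : ℂ)) - (Complex.I * z) • (1 : Matrix (Fin N) (Fin N) ℂ) := by
    have h2 := congrArg (fun A => V.1.conjTranspose * A * V.1) hHW
    simp only [mul_add, add_mul, mul_sub, sub_mul, mul_smul_comm, smul_mul_assoc, mul_one, hVV] at h2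
    have e1 : V.1.conjTranspose * (H * W.1) * V.1 = (Matrix.diagonal fun a => (d a : ℂ)) * X := by
      rw [hspec, hX]
      calc V.1.conjTranspose * (V.1 * (Matrix.diagonal fun a => (d a : ℂ)) * V.1.conjTranspose * W.1) * V.1
          = (V.1.conjTranspose * V.1) * (Matrix.diagonal fun a => (d a : ℂ)) * (V.1.conjTranspose * W.1 * V.1) := by
            simp only [Matrix.mul_assoc]
        _ = _ := by rw [hVV, one_mul]
    have e2 : V.1.conjTranspose * H * V.1 = (Matrix.diagonal fun a => (d a : ℂ)) := by
      rw [hspec]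
      calc V.1.conjTranspose * (V.1 * (Matrix.diagonal fun a => (d a : ℂ)) * V.1.conjTranspose) * V.1
          = (V.1.conjTranspose * V.1) * (Matrix.diagonal fun a => (d a : ℂ)) * (V.1.conjTranspose * V.1) := by
            simp only [Matrix.mul_assoc]
        _ = _ := by rw [hVV, one_mul, mul_one]
    rw [e1, e2] at h2
    exact h2
  have hne : ∀ a, (d a : ℂ) + Complex.I ≠ 0 := by
    intro a h
    have := congrArg Complex.im h
    simp at this
  have hXd : X = Matrix.diagonal fun a => z * ((d a : ℂ) - Complex.I) / ((d a : ℂ) + Complex.I) := by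
    ext a b
    have := congrFun (congrFun hDX a) b
    simp only [Matrix.add_apply, Matrix.diagonal_mul, Matrix.smul_apply, Matrix.sub_apply,
      smul_eq_mul] at this
    by_cases hab : a = b
    · subst hab
      simp only [Matrix.diagonal_apply_eq, Matrix.one_apply_eq, mul_one] at this ⊢
      rw [eq_div_iff (hne a)]
      linear_combination this
    · simp only [Matrix.diagonal_apply_ne _ hab, Matrix.one_apply_ne hab, mul_zero, sub_zero] at this ⊢
      have h2 : ((d a : ℂ) + Complex.I) * X a b = 0 := by linear_combination this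
      exact (mul_eq_zero.1 h2).resolve_left (hne a)
  refine ⟨V, fun a => Complex.arg (z * ((d a : ℂ) - Complex.I) / ((d a : ℂ) + Complex.I)), ?_⟩
  rw [hWX, hXd]
  congr 3
  funext a
  have hn : ‖z * ((d a : ℂ) - Complex.I) / ((d a : ℂ) + Complex.I)‖ = 1 := by
    have hz1 : ‖z‖ = 1 := by
      rw [Complex.mul_conj] at hz
      have : Complex.normSq z = 1 := by exact_mod_cast hz
      rw [Complex.normSq_eq_norm_sq] at this
      nlinarith [norm_nonneg z]
    have hc : ‖(d a : ℂ) - Complex.I‖ = ‖(d a : ℂ) + Complex.I‖ := by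
      rw [← Complex.norm_conj ((d a : ℂ) + Complex.I)]
      congr 1
      simp [sub_eq_add_neg]
    rw [norm_div, norm_mul, hz1, one_mul, hc, div_self (norm_ne_zero_iff.2 (hne a))]
  have := Complex.norm_mul_exp_arg_mul_I (z * ((d a : ℂ) - Complex.I) / ((d a : ℂ) + Complex.I))
  rw [hn] at this
  rw [← this]
  simp

end QGr
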