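import Pool.Agent.LibQGr.Def3
import Pool.Agent.LibQGr.R_UDI

open MeasureTheory Set Filter Topology

namespace QGr


/-- The noncomputable coercion of the inverse. -/
theorem SKW_inv {N : ℕ} (A : Uni N) : (A⁻¹).1 = A.1.conjTranspose := rfl

theorem SKW_mul {N : ℕ} (A B : Uni N) : (A * B).1 = A.1 * B.1 := rfl

theorem SKW_one {N : ℕ} : (1 : Uni N).1 = 1 := rfl

theorem SKW_self {N : ℕ} (A : Uni N) : A.1 * A.1.conjTranspose = 1 := by
  have := A.2
  rw [Matrix.mem_unitaryGroup_iff, Matrix.star_eq_conjTranspose] at this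
  exact this

theorem SKW_self' {N : ℕ} (A : Uni N) : A.1.conjTranspose * A.1 = 1 := by
  have := A.2
  rw [Matrix.mem_unitaryGroup_iff', Matrix.star_eq_conjTranspose] at this
  exact this

theorem SKW_qot {N : ℕ} (X : Uni N) : qot X = N - (X.1.trace).re := by
  unfold qot Matrix.trace
  rw [Complex.re_sum]
  rfl

/-- Frobenius norm as a trace. -/
theorem SKW_frob {N : ℕ} (M : Matrix (Fin N) (Fin N) ℂ) :
    ∑ i, ∑ j, ‖M i j‖ ^ 2 = ((M * M.conjTranspose).trace).re := by
  unfold Matrix.trace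
  rw [Complex.re_sum]
  refine Finset.sum_congr rfl fun i _ => ?_
  rw [Matrix.diag_apply, Matrix.mul_apply, Complex.re_sum]
  refine Finset.sum_congr rfl fun j _ => ?_
  rw [Matrix.conjTranspose_apply, Complex.star_def, Complex.mul_conj, Complex.normSq_eq_norm_sq]
  exact (Complex.ofReal_re _).symm

theorem norm_ge (z : ℂ) (hz : ‖z‖ ≤ 1) : z.re + 1 / 2 * z.im ^ 2 ≤ ‖z‖ := by
  have h1 : ‖z‖ ^ 2 = z.re ^ 2 + z.im ^ 2 := by
    rw [← Complex.normSq_eq_norm_sq, Complex.normSq_apply]; ring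
  have h2 : z.re ≤ ‖z‖ := Complex.re_le_norm z
  nlinarith [mul_nonneg (sub_nonneg.2 h2) (by linarith : (0 : ℝ) ≤ 2 - (‖z‖ + z.re))]

theorem conj_zet {N : ℕ} (O : Orth N) (M : Uni N) (t : Fin N → UnitAddCircle) (i : Fin N) :
    (cx O * (dg t * M * (dg t)⁻¹) * (cx O)⁻¹).1 i i
      = zet (fun k j => (O.1 i k : ℂ) * M.1 k j * (O.1 i j : ℂ)) t := by
  unfold zet
  rw [SKW_mul, SKW_mul, SKW_mul, SKW_mul, SKW_inv, SKW_inv, Matrix.mul_apply]
  rw [Finset.sum_comm]
  refine Finset.sum_congr rfl fun j _ => ?_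
  rw [Matrix.mul_apply, Finset.sum_mul]
  refine Finset.sum_congr rfl fun k _ => ?_
  have h1 : ((dg t).1 * M.1 * (dg t).1.conjTranspose) k j
      = ((AddCircle.toCircle (t k) : Circle) : ℂ) * M.1 k j
        * (starRingEnd ℂ) ((AddCircle.toCircle (t j) : Circle) : ℂ) := by
    have h2 : (dg t).1 = Matrix.diagonal fun i => ((AddCircle.toCircle (t i) : Circle) : ℂ) := rfl
    rw [h2, Matrix.diagonal_conjTranspose, Matrix.mul_diagonal, Matrix.diagonal_mul]
    rfl
  rw [h1, Matrix.conjTranspose_apply, cx_apply, cx_apply, Complex.star_def, Complex.conj_ofReal]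
  ring

theorem skew {N : ℕ} (M : Uni N) (hM : qot M < 1) :
    4 * qot M ≤ ∑ i, ∑ j, ‖M.1 i j - (starRingEnd ℂ) (M.1 j i)‖ ^ 2 := by
  obtain ⟨V, φ, hV⟩ := uni_diag M
  have hq : qot M = ∑ a, (1 - Real.cos (φ a)) := by
    rw [SKW_qot, hV, Matrix.trace_mul_cycle, SKW_self' V, one_mul, Matrix.trace_diagonal,
      Complex.re_sum, Finset.sum_sub_distrib]
    simp [Complex.exp_ofReal_mul_I_re]
  have hf : ∑ i, ∑ j, ‖M.1 i j - (starRingEnd ℂ) (M.1 j i)‖ ^ 2
      = ∑ a, 4 * Real.sin (φ a) ^ 2 := by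
    have h1 : ∀ i j, M.1 i j - (starRingEnd ℂ) (M.1 j i) = (M.1 - M.1.conjTranspose) i j := by
      intro i j
      rw [Matrix.sub_apply, Matrix.conjTranspose_apply]
      rfl
    have h2 : M.1 - M.1.conjTranspose = V.1 * (Matrix.diagonal fun a =>
        (2 * Real.sin (φ a) : ℂ) * Complex.I) * V.1.conjTranspose := by
      rw [hV, Matrix.conjTranspose_mul, Matrix.conjTranspose_mul, Matrix.conjTranspose_conjTranspose,
        Matrix.diagonal_conjTranspose, ← Matrix.mul_assoc, ← Matrix.sub_mul, ← Matrix.mul_sub,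
        Matrix.diagonal_sub]
      congr 3
      ext a
      have e1 : star (fun a => Complex.exp (φ a * Complex.I)) a
          = Complex.exp (-(φ a * Complex.I)) := by
        rw [Pi.star_apply, Complex.star_def, ← Complex.exp_conj]
        simp
      rw [e1]
      apply Complex.ext
      · rw [Complex.sub_re, Complex.exp_ofReal_mul_I_re, ← neg_mul, ← Complex.ofReal_neg,
          Complex.exp_ofReal_mul_I_re]
        simp
      · rw [Complex.sub_im, Complex.exp_ofReal_mul_I_im, ← neg_mul, ← Complex.ofReal_neg,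
          Complex.exp_ofReal_mul_I_im]
        have e3 : ((2 * (Real.sin (φ a) : ℂ) * Complex.I)).im = 2 * Real.sin (φ a) := by
          rw [Complex.mul_I_im]
          rw [show (2 * (Real.sin (φ a) : ℂ)) = ((2 * Real.sin (φ a) : ℝ) : ℂ) by push_cast; rfl,
            Complex.ofReal_re]
        rw [e3, Real.sin_neg]
        ring
    simp_rw [h1]
    rw [SKW_frob, h2, Matrix.conjTranspose_mul, Matrix.conjTranspose_mul,
      Matrix.conjTranspose_conjTranspose, Matrix.diagonal_conjTranspose]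
    have h3 : ∀ D E : Matrix (Fin N) (Fin N) ℂ,
        V.1 * D * V.1.conjTranspose * (V.1 * (E * V.1.conjTranspose))
          = V.1 * (D * E) * V.1.conjTranspose := by
      intro D E
      calc V.1 * D * V.1.conjTranspose * (V.1 * (E * V.1.conjTranspose))
          = V.1 * D * (V.1.conjTranspose * V.1) * (E * V.1.conjTranspose) := by
            simp only [Matrix.mul_assoc]
        _ = V.1 * (D * E) * V.1.conjTranspose := by
            rw [SKW_self', Matrix.mul_one]
            simp only [Matrix.mul_assoc]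
    rw [h3, Matrix.trace_mul_cycle, SKW_self', one_mul, Matrix.diagonal_mul_diagonal,
      Matrix.trace_diagonal, Complex.re_sum]
    refine Finset.sum_congr rfl fun a _ => ?_
    rw [Pi.star_apply, Complex.star_def, Complex.mul_conj, Complex.normSq_eq_norm_sq]
    rw [Complex.ofReal_re, norm_mul, Complex.norm_I, mul_one]
    rw [show (2 * Real.sin (φ a) : ℂ) = ((2 * Real.sin (φ a) : ℝ) : ℂ) by push_cast; rfl,
      Complex.norm_real, Real.norm_eq_abs, sq_abs]
    ring
  rw [hf, hq, Finset.mul_sum]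
  refine Finset.sum_le_sum fun a _ => ?_
  have hc : 1 - Real.cos (φ a) < 1 := by
    refine lt_of_le_of_lt ?_ (hq ▸ hM)
    exact Finset.single_le_sum (f := fun a => 1 - Real.cos (φ a))
      (fun b _ => sub_nonneg.2 (Real.cos_le_one _)) (Finset.mem_univ a)
  have hs := Real.sin_sq (φ a)
  have hc1 := Real.cos_le_one (φ a)
  nlinarith [mul_nonneg (sub_nonneg.2 hc1) (by linarith : (0 : ℝ) ≤ Real.cos (φ a))]

theorem pot_le {N : ℕ} (X : Uni N) : pot X ≤ qot X := by
  unfold pot qot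
  have : ∑ i, (X.1 i i).re ≤ ∑ i, ‖X.1 i i‖ :=
    Finset.sum_le_sum fun i _ => Complex.re_le_norm _
  linarith

theorem pot_nonneg {N : ℕ} (X : Uni N) : 0 ≤ pot X := by
  unfold pot
  have h : ∑ i, ‖X.1 i i‖ ≤ ∑ _i : Fin N, (1 : ℝ) :=
    Finset.sum_le_sum fun i _ => entry_norm_bound_of_unitary X.2 i i
  simp at h
  linarith

theorem qot_conj {N : ℕ} (U X : Uni N) : qot (U * X * U⁻¹) = qot X := by
  rw [SKW_qot, SKW_qot, SKW_mul, SKW_mul, SKW_inv, Matrix.trace_mul_cycle, SKW_self', one_mul]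

theorem SKW_dg {N : ℕ} (s : Fin N → UnitAddCircle) (X : Uni N) (i j : Fin N) :
    (dg s * X).1 i j = ((AddCircle.toCircle (s i) : Circle) : ℂ) * X.1 i j := by
  rw [SKW_mul]
  have h2 : (dg s).1 = Matrix.diagonal fun i => ((AddCircle.toCircle (s i) : Circle) : ℂ) := rfl
  rw [h2, Matrix.diagonal_mul]

theorem pot_align {N : ℕ} (X : Uni N) : ∃ s : Fin N → UnitAddCircle,
    (∀ i, (dg s * X).1 i i = (‖(dg s * X).1 i i‖ : ℂ)) ∧ pot (dg s * X) = pot X ∧
      qot (dg s * X) = pot X := by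
  refine ⟨fun i => ((-(X.1 i i).arg / (2 * Real.pi) : ℝ) : UnitAddCircle), ?_⟩
  have h : ∀ i, (dg (fun i => ((-(X.1 i i).arg / (2 * Real.pi) : ℝ) : UnitAddCircle)) * X).1 i i
      = (‖X.1 i i‖ : ℂ) := by
    intro i
    rw [SKW_dg, AddCircle.toCircle_apply_mk, Circle.coe_exp]
    have h3 : (2 * Real.pi / 1 * (-(X.1 i i).arg / (2 * Real.pi)) : ℝ) = -(X.1 i i).arg := by
      have := Real.pi_pos
      field_simp
    rw [h3]
    conv_lhs => rw [← Complex.norm_mul_exp_arg_mul_I (X.1 i i)]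
    rw [mul_comm, mul_assoc, ← Complex.exp_add]
    simp
  have h2 : ∀ i, ‖(dg (fun i => ((-(X.1 i i).arg / (2 * Real.pi) : ℝ) : UnitAddCircle)) * X).1 i i‖
      = ‖X.1 i i‖ := by
    intro i
    rw [h i, Complex.norm_real, norm_norm]
  refine ⟨fun i => ?_, ?_, ?_⟩
  · rw [h2 i, h i]
  · unfold pot
    simp_rw [h2]
  · unfold pot qot
    simp_rw [h, Complex.ofReal_re]

theorem gamma_le {N : ℕ} (hN : 0 < N) (O : Orth N) (γ : ℝ) (hγ : Overlap γ O) : γ * N ≤ 1 := by
  have hr : ∀ z : Fin N, ∑ y, O.1 z y ^ 2 = 1 := by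
    intro z
    have h := O.2
    rw [Matrix.mem_orthogonalGroup_iff] at h
    have h2 := congrFun (congrFun h z) z
    rw [Matrix.mul_apply, Matrix.one_apply_eq] at h2
    rw [← h2]
    refine Finset.sum_congr rfl fun y _ => ?_
    rw [Matrix.transpose_apply, sq]
  have hc : ∀ x : Fin N, ∑ z, O.1 z x ^ 2 = 1 := by
    intro x
    have h := O.2
    rw [Matrix.mem_orthogonalGroup_iff'] at h
    have h2 := congrFun (congrFun h x) x
    rw [Matrix.mul_apply, Matrix.one_apply_eq] at h2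
    rw [← h2]
    refine Finset.sum_congr rfl fun y _ => ?_
    rw [Matrix.transpose_apply, sq]
  let x : Fin N := ⟨0, hN⟩
  have h1 : ∑ _y : Fin N, γ ≤ ∑ y, ∑ z, O.1 z x ^ 2 * O.1 z y ^ 2 :=
    Finset.sum_le_sum fun y _ => (hγ x y).1
  rw [Finset.sum_comm] at h1
  simp_rw [← Finset.mul_sum, hr, mul_one, hc] at h1
  simp at h1
  linarith

theorem ds_qot {N : ℕ} (A B : Uni N) : ds A B = 2 * qot (B * A⁻¹) := by
  have h1 : ds A B = (((A.1 - B.1) * (A.1 - B.1).conjTranspose).trace).re := by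
    rw [← SKW_frob]
    rfl
  have h2 : (A.1 - B.1) * (A.1 - B.1).conjTranspose
      = 1 - A.1 * B.1.conjTranspose - B.1 * A.1.conjTranspose + 1 := by
    rw [Matrix.conjTranspose_sub, Matrix.sub_mul, Matrix.mul_sub, Matrix.mul_sub, SKW_self,
      SKW_self]
    abel
  have h3 : ((A.1 * B.1.conjTranspose).trace).re = ((B.1 * A.1.conjTranspose).trace).re := by
    have : A.1 * B.1.conjTranspose = (B.1 * A.1.conjTranspose).conjTranspose := by
      rw [Matrix.conjTranspose_mul, Matrix.conjTranspose_conjTranspose]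
    rw [this, Matrix.trace_conjTranspose, Complex.star_def, Complex.conj_re]
  rw [h1, h2, SKW_qot, SKW_mul, SKW_inv, Matrix.trace_add, Matrix.trace_sub, Matrix.trace_sub,
    Matrix.trace_one, Complex.add_re, Complex.sub_re, Complex.sub_re, h3]
  simp
  ring

end QGr
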