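import Pool.Agent.LibQGr.R_CLB
import Pool.Agent.LibQGr.R_AVG
import Pool.Agent.LibQGr.R_DS
import Pool.Agent.LibQGr.R_UDI
import Pool.Agent.LibQGr.R_SKW

/-! Row HRT: rate of convergence to the Haar measure. -/

open MeasureTheory Set Filter Topology

namespace QGr


theorem haar_prob (N : ℕ) : IsProbabilityMeasure (haarU N) := by
  refine ⟨?_⟩
  unfold haarU
  exact Measure.haarMeasure_self

theorem HRT_down {N : ℕ} (hN : 0 < N) (O : ℕ → Orth N) (γ : ℝ) (h0 : 0 < γ)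
    (hγ : ∀ j, Overlap γ (O j)) (m : ℕ) : ∀ (g : Uni N → ℝ) (_ : Continuous g) (Λ : ℝ)
    (_ : 0 ≤ Λ) (_ : ∀ A B : Uni N, qot (B * A⁻¹) < 1 →
      |g A - g B| ≤ Λ * √(2 * pot (cx (O m) * (B * A⁻¹) * (cx (O m))⁻¹))) (A B : Uni N)
    (_ : qot (B * A⁻¹) < 1),
    |down O m g A - down O m g B| ≤ Λ * √(1 - γ / 2) ^ m * √(ds A B) := by
  induction m with
  | zero =>
    intro g _ Λ hΛ h A B hAB
    change |g A - g B| ≤ _
    rw [pow_zero, mul_one]
    refine (h A B hAB).trans (mul_le_mul_of_nonneg_left (Real.sqrt_le_sqrt ?_) hΛ)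
    rw [ds_qot]
    have h1 := pot_le (cx (O 0) * (B * A⁻¹) * (cx (O 0))⁻¹)
    rw [qot_conj] at h1
    linarith
  | succ m ih =>
    intro g hg Λ hΛ h A B hAB
    change |down O m (avg (O m) g) A - down O m (avg (O m) g) B| ≤ _
    have h1 := ih (avg (O m) g) (avg_cont _ _ hg) (Λ * √(1 - γ / 2))
      (mul_nonneg hΛ (Real.sqrt_nonneg _))
      (fun A B hAB => class_step hN (O m) (O (m + 1)) γ h0 (hγ _) g hg Λ hΛ h A B hAB) A B hAB
    refine h1.trans (le_of_eq ?_)
    rw [pow_succ]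
    ring

theorem down_near {N : ℕ} (hN : 0 < N) (O : ℕ → Orth N) (γ : ℝ) (h0 : 0 < γ)
    (hγ : ∀ j, Overlap γ (O j)) (f : Uni N → ℝ) (hf : Continuous f) (Λ : ℝ) (hΛ : 0 ≤ Λ)
    (hL : ∀ A B, |f A - f B| ≤ Λ * √(ds A B)) (m : ℕ) (A B : Uni N) (hAB : qot (B * A⁻¹) < 1) :
    |down O m f A - down O m f B| ≤ Λ * √(1 - γ / 2) ^ (m - 1) * √(ds A B) := by
  cases m with
  | zero =>
    change |f A - f B| ≤ Λ * √(1 - γ / 2) ^ 0 * √(ds A B)
    rw [pow_zero, mul_one]
    exact hL A B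
  | succ m =>
    exact HRT_down hN O γ h0 hγ m (avg (O m) f) (avg_cont _ _ hf) Λ hΛ
      (fun A B _ => class_base (O m) f hf Λ hΛ hL A B) A B hAB

theorem HRT_diag {N : ℕ} (W : Uni N) : ∃ (V : Uni N) (φ : Fin N → ℝ), (∀ a, |φ a| ≤ Real.pi) ∧
    W = V * dg (fun a => ((φ a / (2 * Real.pi) : ℝ) : UnitAddCircle)) * V⁻¹ := by
  obtain ⟨V, φ, h⟩ := uni_diag W
  refine ⟨V, fun a => Complex.arg (Complex.exp (φ a * Complex.I)), fun a => ?_, ?_⟩
  · rw [abs_le]
    exact ⟨(Complex.neg_pi_lt_arg _).le, Complex.arg_le_pi _⟩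
  · apply Subtype.ext
    change W.1 = V.1 * (Matrix.diagonal fun a => ((AddCircle.toCircle
      ((Complex.arg (Complex.exp (φ a * Complex.I)) / (2 * Real.pi) : ℝ) : UnitAddCircle) :
        Circle) : ℂ)) * V.1.conjTranspose
    rw [h]
    congr 2
    congr 1
    funext a
    rw [AddCircle.toCircle_apply_mk, Circle.coe_exp]
    have h1 : ((2 * Real.pi / 1 * (Complex.arg (Complex.exp (φ a * Complex.I)) /
        (2 * Real.pi)) : ℝ) : ℂ) = (Complex.arg (Complex.exp (φ a * Complex.I)) : ℂ) := by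
      congr 1
      field_simp
    rw [h1]
    have h2 := Complex.norm_mul_exp_arg_mul_I (Complex.exp (φ a * Complex.I))
    rw [Complex.norm_exp_ofReal_mul_I, Complex.ofReal_one, one_mul] at h2
    exact h2.symm

theorem HRT_dg_pow {N : ℕ} (t : Fin N → UnitAddCircle) (k : ℕ) : dg t ^ k = dg (k • t) := by
  induction k with
  | zero => rw [pow_zero, zero_smul, dg_zero]
  | succ k ih => rw [pow_succ, ih, succ_nsmul, dg_add]

theorem HRT_qot {N : ℕ} (ψ : Fin N → ℝ) :
    qot (dg (fun a => ((ψ a / (2 * Real.pi) : ℝ) : UnitAddCircle))) =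
      ∑ a, (1 - Real.cos (ψ a)) := by
  unfold qot
  rw [Finset.sum_sub_distrib]
  simp only [Finset.sum_const, Finset.card_univ, Fintype.card_fin, nsmul_eq_mul, mul_one]
  congr 1
  refine Finset.sum_congr rfl fun a _ => ?_
  change ((Matrix.diagonal fun i => ((AddCircle.toCircle
    (((ψ i / (2 * Real.pi) : ℝ)) : UnitAddCircle) : Circle) : ℂ)) a a).re = _
  rw [Matrix.diagonal_apply_eq, AddCircle.toCircle_apply_mk, Circle.coe_exp]
  have h1 : (2 * Real.pi / 1 * (ψ a / (2 * Real.pi)) : ℝ) = ψ a := by field_simp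
  rw [h1, Complex.exp_ofReal_mul_I_re]

/-- Every unitary matrix is a product of `3 N` small ones. -/
theorem chain {N : ℕ} (hN : 0 < N) (A B : Uni N) : ∃ C : ℕ → Uni N, C 0 = A ∧ C (3 * N) = B ∧
    ∀ k, qot (C (k + 1) * (C k)⁻¹) < 1 ∧ √(ds (C k) (C (k + 1))) ≤ 4 / 3 := by
  obtain ⟨V, φ, hφ, hV⟩ := HRT_diag (B * A⁻¹)
  have hN1 : (1 : ℝ) ≤ N := by exact_mod_cast hN
  have hN0 : (0 : ℝ) < N := by linarith
  set τ : Fin N → UnitAddCircle := fun a =>
    (((φ a / (3 * N)) / (2 * Real.pi) : ℝ) : UnitAddCircle) with hτ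
  have hq : qot (V * dg τ * V⁻¹) ≤ Real.pi ^ 2 / 18 := by
    rw [qot_conj, hτ, HRT_qot fun a => φ a / (3 * N)]
    have h1 : ∀ a, 1 - Real.cos (φ a / (3 * N)) ≤ Real.pi ^ 2 / 18 / N := by
      intro a
      have h2 := Real.one_sub_sq_div_two_le_cos (x := φ a / (3 * N))
      have h3 : φ a ^ 2 ≤ Real.pi ^ 2 := by
        rw [← sq_abs (φ a)]
        exact pow_le_pow_left₀ (abs_nonneg _) (hφ a) 2
      have h4 : (φ a / (3 * N)) ^ 2 / 2 ≤ Real.pi ^ 2 / 18 / N := by
        rw [div_pow, div_div, div_div, div_le_div_iff₀ (by positivity) (by positivity)]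
        have h5 : (N : ℝ) ≤ N ^ 2 := by nlinarith
        have h6 : φ a ^ 2 * N ≤ Real.pi ^ 2 * N ^ 2 :=
          mul_le_mul h3 h5 hN0.le (by positivity)
        nlinarith
      linarith
    calc ∑ a, (1 - Real.cos (φ a / (3 * N))) ≤ ∑ _a : Fin N, Real.pi ^ 2 / 18 / N :=
          Finset.sum_le_sum fun a _ => h1 a
      _ = Real.pi ^ 2 / 18 := by
          simp only [Finset.sum_const, Finset.card_univ, Fintype.card_fin, nsmul_eq_mul]
          field_simp
  have hpi := Real.pi_lt_d2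
  have hpi0 := Real.pi_pos
  have hpi2 : Real.pi ^ 2 < 10 := by nlinarith
  refine ⟨fun k => V * dg τ ^ k * V⁻¹ * A, ?_, ?_, ?_⟩
  · simp
  · change V * dg τ ^ (3 * N) * V⁻¹ * A = B
    rw [HRT_dg_pow]
    have h1 : (3 * N) • τ = fun a => ((φ a / (2 * Real.pi) : ℝ) : UnitAddCircle) := by
      funext a
      change (3 * N) • τ a = _
      rw [hτ]
      change (3 * N) • (((φ a / (3 * N)) / (2 * Real.pi) : ℝ) : UnitAddCircle) = _
      rw [← AddCircle.coe_nsmul]
      congr 1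
      rw [nsmul_eq_mul]
      push_cast
      field_simp
    rw [h1, ← hV]
    group
  · intro k
    have h1 : (V * dg τ ^ (k + 1) * V⁻¹ * A) * (V * dg τ ^ k * V⁻¹ * A)⁻¹ = V * dg τ * V⁻¹ := by
      rw [pow_succ']
      group
    refine ⟨?_, ?_⟩
    · simp only
      rw [h1]
      linarith
    · simp only
      rw [ds_qot, h1]
      rw [Real.sqrt_le_left (by norm_num)]
      nlinarith

theorem HRT_osc {N : ℕ} (hN : 0 < N) (O : ℕ → Orth N) (γ : ℝ) (h0 : 0 < γ)
    (hγ : ∀ j, Overlap γ (O j)) (f : Uni N → ℝ) (hf : Continuous f) (Λ : ℝ) (hΛ : 0 ≤ Λ)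
    (hL : ∀ A B, |f A - f B| ≤ Λ * √(ds A B)) (m : ℕ) (A B : Uni N) :
    |down O m f A - down O m f B| ≤ 4 * N * Λ * √(1 - γ / 2) ^ (m - 1) := by
  obtain ⟨C, hC0, hC1, hC⟩ := chain hN A B
  set c := Λ * √(1 - γ / 2) ^ (m - 1) with hc
  have hc0 : 0 ≤ c := mul_nonneg hΛ (pow_nonneg (Real.sqrt_nonneg _) _)
  have h1 : ∀ k, |down O m f (C k) - down O m f (C (k + 1))| ≤ c * (4 / 3) := fun k =>
    (down_near hN O γ h0 hγ f hf Λ hΛ hL m (C k) (C (k + 1)) (hC k).1).trans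
      (mul_le_mul_of_nonneg_left (hC k).2 hc0)
  have h2 : ∀ k : ℕ, |down O m f (C 0) - down O m f (C k)| ≤ k * (c * (4 / 3)) := by
    intro k
    induction k with
    | zero => simp
    | succ k ih =>
      have h3 := abs_sub_le (down O m f (C 0)) (down O m f (C k)) (down O m f (C (k + 1)))
      have h4 := h1 k
      push_cast
      linarith
  have h5 := h2 (3 * N)
  rw [hC0, hC1] at h5
  refine h5.trans (le_of_eq ?_)
  rw [hc]
  push_cast
  ring

theorem HRT_haar {N : ℕ} (O : ℕ → Orth N) (m : ℕ) : ∀ (f : Uni N → ℝ) (_ : Continuous f),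
    ∫ A, down O m f A ∂(haarU N) = ∫ A, f A ∂(haarU N) := by
  induction m with
  | zero => intro f _; rfl
  | succ m ih =>
    intro f hf
    change ∫ A, down O m (avg (O m) f) A ∂(haarU N) = _
    rw [ih _ (avg_cont _ _ hf), avg_haar _ _ hf]

theorem haar_rate {N : ℕ} (hN : 0 < N) (O : ℕ → Orth N) (γ : ℝ) (h0 : 0 < γ)
    (hγ : ∀ j, Overlap γ (O j)) (f : Uni N → ℝ) (hf : Continuous f) (Λ : ℝ) (hΛ : 0 ≤ Λ)
    (hL : ∀ A B, |f A - f B| ≤ Λ * √(ds A B)) (m : ℕ) :
    |(∫ θ, f (tr O m θ)) - ∫ A, f A ∂(haarU N)| ≤ 4 * N * Λ * √(1 - γ / 2) ^ (m - 1) := by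
  have := haar_prob N
  rw [fub O m f hf, ← HRT_haar O m f hf]
  set F := down O m f with hF
  have hFc : Continuous F := down_cont O m f hf
  set K := 4 * N * Λ * √(1 - γ / 2) ^ (m - 1) with hK
  have hosc : ∀ A B, |F A - F B| ≤ K := HRT_osc hN O γ h0 hγ f hf Λ hΛ hL m
  have hFi : Integrable F (haarU N) :=
    hFc.integrable_of_hasCompactSupport (HasCompactSupport.of_compactSpace F)
  have hGi : Integrable fun t : Fin N → UnitAddCircle => F (dg t) :=
    (hFc.comp dg_cont).integrable_of_hasCompactSupport (HasCompactSupport.of_compactSpace _)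
  set I := ∫ A, F A ∂(haarU N) with hI
  have h1 : ∀ x, |F x - I| ≤ K := by
    intro x
    have h2 : F x - I = ∫ A, (F x - F A) ∂(haarU N) := by
      rw [integral_sub (integrable_const _) hFi, integral_const]
      simp
      rfl
    rw [h2, ← Real.norm_eq_abs]
    have h3 := norm_integral_le_of_norm_le_const (μ := haarU N) (f := fun A => F x - F A)
      (C := K) (Eventually.of_forall fun A => by rw [Real.norm_eq_abs]; exact hosc x A)
    simpa using h3
  have h4 : (∫ t : Fin N → UnitAddCircle, F (dg t)) - I = ∫ t, (F (dg t) - I) := by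
    rw [integral_sub hGi (integrable_const _), integral_const]
    simp
  rw [h4, ← Real.norm_eq_abs]
  have h5 := norm_integral_le_of_norm_le_const
    (μ := (volume : Measure (Fin N → UnitAddCircle))) (f := fun t => F (dg t) - I)
    (C := K) (Eventually.of_forall fun t => by rw [Real.norm_eq_abs]; exact h1 _)
  simpa using h5

end QGr
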