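import Pool.Agent.LibQGr.Def2

/-! Row BAS: basic continuity statements. -/

open MeasureTheory Set Filter Topology

namespace QGr

theorem dg_cont {N : ℕ} : Continuous (dg : (Fin N → UnitAddCircle) → Uni N) := by
  refine Continuous.subtype_mk ?_ _
  refine Continuous.matrix_diagonal ?_
  refine continuous_pi fun i => ?_
  exact continuous_subtype_val.comp (AddCircle.continuous_toCircle.comp (continuous_apply i))

theorem dg_zero {N : ℕ} : dg (0 : Fin N → UnitAddCircle) = 1 := by
  apply Subtype.ext
  change (Matrix.diagonal fun i => ((AddCircle.toCircle ((0 : Fin N → UnitAddCircle) i) : Circle) : ℂ)) = 1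
  rw [← Matrix.diagonal_one]
  congr 1
  funext i
  simp

theorem dg_add {N : ℕ} (s t : Fin N → UnitAddCircle) : dg (s + t) = dg s * dg t := by
  apply Subtype.ext
  change (Matrix.diagonal fun i => ((AddCircle.toCircle ((s + t) i) : Circle) : ℂ)) =
    (Matrix.diagonal fun i => ((AddCircle.toCircle (s i) : Circle) : ℂ)) *
      (Matrix.diagonal fun i => ((AddCircle.toCircle (t i) : Circle) : ℂ))
  rw [Matrix.diagonal_mul_diagonal]
  congr 1
  funext i
  rw [Pi.add_apply, AddCircle.toCircle_add, Circle.coe_mul]

theorem sy_cont {N : ℕ} : Continuous (sy : Uni N → Uni N) := by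
  refine Continuous.subtype_mk ?_ _
  exact (continuous_subtype_val.matrix_transpose).matrix_mul continuous_subtype_val

theorem tr_cont {N : ℕ} (O : ℕ → Orth N) (m : ℕ) : Continuous (tr O m) := by
  induction m with
  | zero => exact dg_cont.comp (continuous_apply 0)
  | succ m ih =>
    change Continuous fun θ : Fin (m + 1 + 1) → Fin N → UnitAddCircle =>
      dg (θ (Fin.last (m + 1))) * cx (O m) * tr O m fun j => θ j.castSucc
    refine ((dg_cont.comp (continuous_apply _)).mul continuous_const).mul (ih.comp ?_)
    exact continuous_pi fun j => continuous_apply _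

theorem Bm_cont {N : ℕ} (O : ℕ → Orth N) (m : ℕ) (l : Fin (m + 1) → Fin N → ℝ) : Continuous (Bm O m l) := by
  induction m with
  | zero => exact continuous_const
  | succ m ih =>
    change Continuous fun θ : Fin (m + 1 + 1) → Fin N → UnitAddCircle =>
      (tr O (m + 1) θ).1.conjTranspose
        * (Matrix.diagonal fun i => (l (Fin.last (m + 1)) i : ℂ)) * (tr O (m + 1) θ).1
        + Bm O m (fun j => l j.castSucc) fun j => θ j.castSucc
    have h1 : Continuous fun θ : Fin (m + 1 + 1) → Fin N → UnitAddCircle =>
        (tr O (m + 1) θ).1 := continuous_subtype_val.comp (tr_cont O (m + 1))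
    refine Continuous.add ((h1.matrix_conjTranspose.matrix_mul continuous_const).matrix_mul h1) ?_
    exact (ih _).comp (continuous_pi fun j => continuous_apply _)

theorem fro_cont {N : ℕ} : Continuous (fro : Matrix (Fin N) (Fin N) ℂ → ℝ) := by
  unfold fro
  refine Real.continuous_sqrt.comp ?_
  refine continuous_finsetSum _ fun i _ => continuous_finsetSum _ fun j _ => ?_
  exact (continuous_norm.comp (continuous_id.matrix_elem i j)).pow 2

theorem dev_cont {N : ℕ} (O : ℕ → Orth N) (m : ℕ) (l : Fin (m + 1) → Fin N → ℝ) : Continuous (dev O m l) := by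
  unfold dev
  exact continuous_const.mul (fro_cont.comp ((Bm_cont O m l).sub continuous_const))

theorem fl_cont {N m : ℕ} (l : Fin (m + 1) → Fin N → ℝ) : Continuous (fl l) := by
  refine continuous_pi fun j => continuous_pi fun i => ?_
  change Continuous fun k : ℝ => ((k * l j i / (2 * Real.pi) : ℝ) : UnitAddCircle)
  exact (AddCircle.continuous_mk' 1).comp ((continuous_id.mul continuous_const).div_const _)

end QGr
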