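import Pool.Agent.LibQGr.R_UDI

open MeasureTheory Set Filter Topology

namespace QGr


theorem DEX_reindex {N : ℕ} {W V : Uni N} {f : Fin N → ℂ}
    (h : W.1 = V.1 * Matrix.diagonal f * V.1.conjTranspose) (σ : Equiv.Perm (Fin N)) :
    ∃ V' : Uni N, W.1 = V'.1 * Matrix.diagonal (f ∘ σ) * V'.1.conjTranspose := by
  have hmem : V.1.submatrix id σ ∈ Matrix.unitaryGroup (Fin N) ℂ := by
    rw [Matrix.mem_unitaryGroup_iff, Matrix.star_eq_conjTranspose, Matrix.conjTranspose_submatrix,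
      Matrix.submatrix_mul_equiv]
    have hV := V.2
    rw [Matrix.mem_unitaryGroup_iff, Matrix.star_eq_conjTranspose] at hV
    rw [hV, Matrix.submatrix_id_id]
  refine ⟨⟨V.1.submatrix id σ, hmem⟩, ?_⟩
  change W.1 = V.1.submatrix id σ * Matrix.diagonal (f ∘ σ) * (V.1.submatrix id σ).conjTranspose
  rw [← Matrix.submatrix_diagonal_equiv, Matrix.submatrix_mul_equiv,
    Matrix.conjTranspose_submatrix, Matrix.submatrix_mul_equiv, Matrix.submatrix_id_id]
  exact h

theorem DEX_per {N : ℕ} {F : ℤ → ℝ} (hF : ∀ p, F (p + N) = F p + 2 * Real.pi) (k p : ℤ) :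
    F (p + k * N) = F p + k * (2 * Real.pi) := by
  induction k using Int.induction_on with
  | zero => simp
  | succ k ih =>
    have h := hF (p + k * N)
    have e : p + ((k : ℤ) + 1) * N = p + k * N + N := by ring
    rw [e, h, ih]
    push_cast
    ring
  | pred k ih =>
    have h := hF (p + (-(k : ℤ) - 1) * N)
    have e : p + (-(k : ℤ) - 1) * N + N = p + -(k : ℤ) * N := by ring
    rw [e, ih] at h
    push_cast at h ⊢
    linarith

theorem DEX_sum {N : ℕ} {F : ℤ → ℝ} (hF : ∀ p, F (p + N) = F p + 2 * Real.pi) (s : ℤ) :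
    ∑ a ∈ Finset.range N, F (a + s) = ∑ a ∈ Finset.range N, F a + s * (2 * Real.pi) := by
  have step : ∀ s : ℤ, ∑ a ∈ Finset.range N, F (a + (s + 1))
      = ∑ a ∈ Finset.range N, F (a + s) + 2 * Real.pi := by
    intro s
    have h := Finset.sum_range_sub (fun a : ℕ => F (a + s)) N
    rw [Finset.sum_sub_distrib] at h
    have e : ∀ a : ℕ, F (((a + 1 : ℕ) : ℤ) + s) = F (a + (s + 1)) := by
      intro a
      congr 1
      push_cast
      ring
    simp only [e] at h
    have h2 := hF s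
    have e2 : ((N : ℤ) + s) = s + N := by ring
    rw [e2, h2] at h
    simp only [Nat.cast_zero, zero_add] at h
    linarith
  induction s using Int.induction_on with
  | zero => simp
  | succ k ih =>
    rw [step, ih]
    push_cast
    ring
  | pred k ih =>
    have h := step (-(k : ℤ) - 1)
    have e : (-(k : ℤ) - 1 + 1) = -(k : ℤ) := by ring
    rw [e, ih] at h
    push_cast at h ⊢
    linarith

/-- The shift by `s` modulo `N`. -/
theorem DEX_rot {N : ℕ} (hN : 0 < N) (s : ℤ) : ∃ σ : Equiv.Perm (Fin N), ∀ a : Fin N,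
    ∃ k : ℤ, ((a : ℕ) : ℤ) + s = ((σ a : ℕ) : ℤ) + k * N := by
  have hN' : (0 : ℤ) < N := by exact_mod_cast hN
  have hlt : ∀ a : Fin N, ((((a : ℕ) : ℤ) + s) % N).toNat < N := by
    intro a
    have h1 := Int.emod_nonneg (((a : ℕ) : ℤ) + s) hN'.ne'
    have h2 := Int.emod_lt_of_pos (((a : ℕ) : ℤ) + s) hN'
    omega
  set f : Fin N → Fin N := fun a => ⟨((((a : ℕ) : ℤ) + s) % N).toNat, hlt a⟩ with hf
  have hfv : ∀ a : Fin N, (((f a : Fin N) : ℕ) : ℤ) = (((a : ℕ) : ℤ) + s) % N := by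
    intro a
    change ((((((a : ℕ) : ℤ) + s) % N).toNat : ℕ) : ℤ) = _
    exact Int.toNat_of_nonneg (Int.emod_nonneg _ hN'.ne')
  have hinj : Function.Injective f := by
    intro a b hab
    have h1 : (((a : ℕ) : ℤ) + s) % N = (((b : ℕ) : ℤ) + s) % N := by
      rw [← hfv, ← hfv, hab]
    have h2 : (((a : ℕ) : ℤ)) % N = (((b : ℕ) : ℤ)) % N := by
      have := (Int.ModEq.add_right_cancel' s (show ((a : ℕ) : ℤ) + s ≡ ((b : ℕ) : ℤ) + s [ZMOD N] from h1))
      exact this
    rw [Int.emod_eq_of_lt (Int.natCast_nonneg _) (by exact_mod_cast a.isLt),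
      Int.emod_eq_of_lt (Int.natCast_nonneg _) (by exact_mod_cast b.isLt)] at h2
    exact Fin.ext (by exact_mod_cast h2)
  refine ⟨Equiv.ofBijective f (Finite.injective_iff_bijective.1 hinj), fun a => ?_⟩
  refine ⟨(((a : ℕ) : ℤ) + s) / N, ?_⟩
  rw [Equiv.ofBijective_apply, hfv, mul_comm]
  exact (Int.emod_add_mul_ediv _ _).symm

theorem DEX_exp (t : ℝ) (k : ℤ) :
    Complex.exp (((t + k * (2 * Real.pi) : ℝ) : ℂ) * Complex.I) = Complex.exp (t * Complex.I) := by
  have h := Complex.exp_periodic.int_mul k (t * Complex.I)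
  rw [← h]
  congr 1
  push_cast
  ring

theorem DEX_shift {N : ℕ} (hN : 0 < N) {W : Uni N} {F : ℤ → ℝ} (h : Dia W F) (s : ℤ) :
    Dia W fun p => F (p + s) := by
  refine ⟨fun p q hpq => h.mono (by omega), fun p => ?_, ?_⟩
  · have := h.per (p + s)
    rw [← this]
    congr 1
    ring
  · obtain ⟨V, hV⟩ := h.dia
    obtain ⟨σ, hσ⟩ := DEX_rot hN s
    obtain ⟨V', hV'⟩ := DEX_reindex hV σ
    refine ⟨V', ?_⟩
    rw [hV']
    congr 3
    funext a
    obtain ⟨k, hk⟩ := hσ a
    change Complex.exp (F ((σ a : ℕ) : ℤ) * Complex.I) = Complex.exp (F (((a : ℕ) : ℤ) + s) * Complex.I)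
    rw [hk, DEX_per h.per, DEX_exp]

theorem dia_exists {N : ℕ} (hN : 0 < N) (W : Uni N) (S : ℝ)
    (hS : W.1.det = Complex.exp (S * Complex.I)) :
    ∃ F, Dia W F ∧ ∑ a ∈ Finset.range N, F a = S := by
  obtain ⟨V, φ, hV⟩ := uni_diag W
  have hN' : (0 : ℤ) < N := by exact_mod_cast hN
  have h2π : (0 : ℝ) < 2 * Real.pi := by positivity
  -- the reduced phases
  set ψ : Fin N → ℝ := fun a => toIcoMod h2π 0 (φ a) with hψ
  have hψ0 : ∀ a, 0 ≤ ψ a := fun a => (toIcoMod_mem_Ico h2π 0 (φ a)).1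
  have hψ1 : ∀ a, ψ a < 2 * Real.pi := fun a => by
    have := (toIcoMod_mem_Ico h2π 0 (φ a)).2
    rwa [zero_add] at this
  have hψe : ∀ a, Complex.exp (φ a * Complex.I) = Complex.exp (ψ a * Complex.I) := by
    intro a
    have e : φ a = ψ a + (toIcoDiv h2π 0 (φ a) : ℝ) * (2 * Real.pi) := by
      have := toIcoMod_add_toIcoDiv_zsmul h2π 0 (φ a)
      rw [zsmul_eq_mul] at this
      exact this.symm
    rw [e, DEX_exp]
  have hfun : (fun a => Complex.exp (φ a * Complex.I)) = fun a => Complex.exp (ψ a * Complex.I) :=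
    funext hψe
  rw [hfun] at hV
  -- sorting
  obtain ⟨V1, hV1⟩ := DEX_reindex hV (Tuple.sort ψ)
  set χ : Fin N → ℝ := ψ ∘ Tuple.sort ψ with hχ
  have hχm : Monotone χ := Tuple.monotone_sort ψ
  have hχ0 : ∀ a, 0 ≤ χ a := fun a => hψ0 _
  have hχ1 : ∀ a, χ a < 2 * Real.pi := fun a => hψ1 _
  have hlt : ∀ p : ℤ, (p % N).toNat < N := by
    intro p
    have h1 := Int.emod_nonneg p hN'.ne'
    have h2 := Int.emod_lt_of_pos p hN'
    omega
  set F : ℤ → ℝ := fun p => χ ⟨(p % N).toNat, hlt p⟩ + (p / (N : ℤ) : ℤ) * (2 * Real.pi) with hF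
  have hFa : ∀ a : Fin N, F (a : ℕ) = χ a := by
    intro a
    have h1 : (((a : ℕ) : ℤ)) % N = ((a : ℕ) : ℤ) :=
      Int.emod_eq_of_lt (Int.natCast_nonneg _) (by exact_mod_cast a.isLt)
    have h2 : (((a : ℕ) : ℤ)) / N = 0 :=
      Int.ediv_eq_zero_of_lt (Int.natCast_nonneg _) (by exact_mod_cast a.isLt)
    have h3 : (⟨((((a : ℕ) : ℤ)) % N).toNat, hlt _⟩ : Fin N) = a := by
      apply Fin.ext
      change ((((a : ℕ) : ℤ)) % N).toNat = a
      rw [h1]
      rfl
    change χ ⟨((((a : ℕ) : ℤ)) % N).toNat, hlt _⟩ + (((((a : ℕ) : ℤ)) / (N : ℤ) : ℤ) : ℝ) * _ = _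
    rw [h3, h2]
    simp
  have hdia : Dia W F := by
    refine ⟨?_, ?_, ⟨V1, ?_⟩⟩
    · intro p q hpq
      have hd : p / (N : ℤ) ≤ q / N := Int.ediv_le_ediv hN' hpq
      rcases eq_or_lt_of_le hd with he | hlt'
      · have hm : p % N ≤ q % N := by
          have h1 := Int.emod_add_mul_ediv p N
          have h2 := Int.emod_add_mul_ediv q N
          rw [he] at h1
          omega
        have hm' : (⟨(p % N).toNat, hlt p⟩ : Fin N) ≤ ⟨(q % N).toNat, hlt q⟩ := by
          rw [Fin.mk_le_mk]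
          exact Int.toNat_le_toNat hm
        change χ _ + _ ≤ χ _ + _
        rw [he]
        have := hχm hm'
        linarith
      · change χ _ + _ ≤ χ _ + _
        have h1 := hχ1 ⟨(p % N).toNat, hlt p⟩
        have h2 := hχ0 ⟨(q % N).toNat, hlt q⟩
        have h3 : ((p / (N : ℤ) : ℤ) : ℝ) + 1 ≤ ((q / (N : ℤ) : ℤ) : ℝ) := by exact_mod_cast hlt'
        nlinarith
    · intro p
      have h1 : (p + N) % (N : ℤ) = p % N := Int.add_emod_right p N
      have h2 : (p + N) / (N : ℤ) = p / N + 1 := by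
        have := Int.add_mul_ediv_right p 1 hN'.ne'
        rwa [one_mul] at this
      change χ ⟨((p + N) % (N : ℤ)).toNat, hlt _⟩ + (((p + N) / (N : ℤ) : ℤ) : ℝ) * _ = χ _ + _ + _
      have h3 : (⟨((p + N) % (N : ℤ)).toNat, hlt _⟩ : Fin N) = ⟨(p % N).toNat, hlt p⟩ := by
        apply Fin.ext
        change ((p + N) % (N : ℤ)).toNat = (p % N).toNat
        rw [h1]
      rw [h3, h2]
      push_cast
      ring
    · rw [hV1]
      congr 3
      funext a
      change Complex.exp (ψ (Tuple.sort ψ a) * Complex.I) = Complex.exp (F ((a : ℕ) : ℤ) * Complex.I)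
      rw [hFa]
      rfl
  -- the determinant
  have hdet : W.1.det = Complex.exp (((∑ a ∈ Finset.range N, F a : ℝ) : ℂ) * Complex.I) := by
    obtain ⟨V2, hV2⟩ := hdia.dia
    have hV3 : V2.1.det * V2.1.conjTranspose.det = 1 := by
      rw [← Matrix.det_mul]
      have := V2.2
      rw [Matrix.mem_unitaryGroup_iff, Matrix.star_eq_conjTranspose] at this
      rw [this, Matrix.det_one]
    rw [hV2, Matrix.det_mul, Matrix.det_mul, Matrix.det_diagonal]
    have e : V2.1.det * (∏ a : Fin N, Complex.exp (F ((a : ℕ) : ℤ) * Complex.I))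
        * V2.1.conjTranspose.det = ∏ a : Fin N, Complex.exp (F ((a : ℕ) : ℤ) * Complex.I) := by
      linear_combination (∏ a : Fin N, Complex.exp (F ((a : ℕ) : ℤ) * Complex.I)) * hV3
    rw [e, ← Complex.exp_sum]
    congr 1
    rw [Finset.sum_range]
    push_cast
    rw [Finset.sum_mul]
  have hex : ∃ s : ℤ, S = ∑ a ∈ Finset.range N, F a + s * (2 * Real.pi) := by
    rw [hS, Complex.exp_eq_exp_iff_exists_int] at hdet
    obtain ⟨s, hs⟩ := hdet
    refine ⟨s, ?_⟩
    have h1 : ((S : ℝ) : ℂ) * Complex.I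
        = ((∑ a ∈ Finset.range N, F a + s * (2 * Real.pi) : ℝ) : ℂ) * Complex.I := by
      rw [hs]
      push_cast
      ring
    have h2 := mul_right_cancel₀ Complex.I_ne_zero h1
    exact_mod_cast h2
  obtain ⟨s, hs⟩ := hex
  exact ⟨fun p => F (p + s), DEX_shift hN hdia s, by rw [hs]; exact DEX_sum hdia.per s⟩

end QGr
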