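import Pool.Agent.LibQGr.Def2

/-! Row ENU. -/

open MeasureTheory Set Filter Topology

namespace QGr

theorem ENU_aux (κ κ' : ℕ → ℝ) (h' : Monotone κ')
    (hf : ∀ t, {n | κ n = t}.encard = {n | κ' n = t}.encard) (n : ℕ)
    (ih : ∀ m < n, κ m = κ' m) (hlt : κ n < κ' n) : False := by
  have hsub : {m | κ' m = κ n} ⊆ {m | κ m = κ n} := by
    intro m hm
    have hmn : m < n := by
      by_contra hge
      push Not at hge
      have h1 := h' hge
      have h2 : κ' m = κ n := hm
      linarith
    have h3 := ih m hmn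
    have h4 : κ' m = κ n := hm
    change κ m = κ n
    rw [h3, h4]
  have hfin : {m | κ' m = κ n}.Finite := by
    apply (Set.finite_Iio n).subset
    intro m hm
    change m < n
    by_contra hge
    push Not at hge
    have h1 := h' hge
    have h2 : κ' m = κ n := hm
    linarith
  have hne : {m | κ' m = κ n} ≠ {m | κ m = κ n} := by
    intro h
    have h1 : n ∈ {m | κ m = κ n} := rfl
    rw [← h] at h1
    have h2 : κ' n = κ n := h1
    linarith
  have hlt2 := hfin.encard_lt_encard (hsub.ssubset_of_ne hne)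
  rw [hf (κ n)] at hlt2
  exact lt_irrefl _ hlt2

/-- Two monotone enumerations with the same fibres are equal. -/
theorem enum_eq (κ κ' : ℕ → ℝ) (h : Monotone κ) (h' : Monotone κ')
    (hf : ∀ t, {n | κ n = t}.encard = {n | κ' n = t}.encard) : κ = κ' := by
  funext n
  induction n using Nat.strong_induction_on with
  | _ n ih =>
    rcases lt_trichotomy (κ n) (κ' n) with h1 | h1 | h1
    · exact (ENU_aux κ κ' h' hf n ih h1).elim
    · exact h1
    · exact (ENU_aux κ' κ h (fun t => (hf t).symm) n (fun m hm => (ih m hm).symm) h1).elim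

theorem ENU_per {N : ℕ} (y : ℤ → ℝ) (hy : ∀ p, y (p + N) = y p + N) (k : ℤ) :
    y (k * N) = y 0 + k * N := by
  induction k using Int.induction_on with
  | zero => simp
  | succ i ih =>
    have h1 := hy ((i : ℤ) * N)
    rw [ih] at h1
    have h2 : ((i : ℤ) + 1) * N = (i : ℤ) * N + N := by ring
    rw [h2, h1]
    push_cast
    ring
  | pred i ih =>
    have h1 := hy ((-(i : ℤ) - 1) * N)
    have h2 : (-(i : ℤ) - 1) * N + N = -(i : ℤ) * N := by ring
    rw [h2, ih] at h1
    push_cast at h1 ⊢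
    linarith

theorem ENU_first {N : ℕ} (hN : 0 < N) (y : ℤ → ℝ) (hm : Monotone y)
    (hy : ∀ p, y (p + N) = y p + N) : ∃ q : ℤ, 0 < y q ∧ ∀ p, 0 < y p → q ≤ p := by
  have hNr : (0 : ℝ) < N := by exact_mod_cast hN
  obtain ⟨k, hk⟩ := exists_int_gt (-(y 0) / N)
  obtain ⟨k', hk'⟩ := exists_int_lt (-(y 0) / N)
  have h1 : 0 < y (k * N) := by
    rw [ENU_per y hy k]
    rw [div_lt_iff₀ hNr] at hk
    linarith
  have h2 : y (k' * N) < 0 := by
    rw [ENU_per y hy k']
    rw [lt_div_iff₀ hNr] at hk'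
    linarith
  obtain ⟨q, hq1, hq2⟩ := Int.exists_least_of_bdd (P := fun p => 0 < y p)
    ⟨k' * N, fun z hz => by
      by_contra hlt
      push Not at hlt
      have := hm hlt.le
      linarith⟩ ⟨k * N, h1⟩
  exact ⟨q, hq1, hq2⟩

theorem ENU_right (y : ℤ → ℝ) (hm : Monotone y) (q : ℤ) (hq : 0 < y q)
    (hq' : ∀ p, 0 < y p → q ≤ p) (t : ℝ) :
    {n : ℕ | y (q + n) = t}.encard = if 0 < t then {p : ℤ | y p = t}.encard else 0 := by
  split_ifs with ht
  · have h1 : {p : ℤ | y p = t} = (fun n : ℕ => q + (n : ℤ)) '' {n : ℕ | y (q + n) = t} := by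
      ext p
      simp only [Set.mem_ofPred_eq, mem_image]
      constructor
      · intro hp
        have h2 := hq' p (by rw [hp]; exact ht)
        refine ⟨(p - q).toNat, ?_, ?_⟩
        · rw [Int.toNat_of_nonneg (by omega)]
          rw [← hp]
          congr 1
          ring
        · rw [Int.toNat_of_nonneg (by omega)]
          ring
      · rintro ⟨n, hn, rfl⟩
        exact hn
    rw [h1]
    refine (Function.Injective.encard_image ?_ _).symm
    intro a b hab
    simpa using hab
  · rw [Set.encard_eq_zero]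
    ext n
    simp only [Set.mem_ofPred_eq, mem_empty_iff_false, iff_false]
    intro hn
    have h2 := hm (show q ≤ q + (n : ℤ) by omega)
    rw [hn] at h2
    exact ht (lt_of_lt_of_le hq h2)

theorem ENU_left (y : ℤ → ℝ) (q : ℤ)
    (hq : ∀ p, q ≤ p → 0 < y p) (hq' : ∀ p, 0 < y p → q ≤ p) (t : ℝ) :
    {n : ℕ | -y (q - 1 - n) = t}.encard = if 0 ≤ t then {p : ℤ | y p = -t}.encard else 0 := by
  split_ifs with ht
  · have h1 : {p : ℤ | y p = -t} = (fun n : ℕ => q - 1 - (n : ℤ)) '' {n : ℕ | -y (q - 1 - n) = t} := by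
      ext p
      simp only [Set.mem_ofPred_eq, mem_image]
      constructor
      · intro hp
        have h2 : p < q := by
          by_contra hge
          push Not at hge
          have := hq p hge
          rw [hp] at this
          linarith
        refine ⟨(q - 1 - p).toNat, ?_, ?_⟩
        · rw [Int.toNat_of_nonneg (by omega)]
          have h3 : q - 1 - (q - 1 - p) = p := by ring
          rw [h3, hp]
          ring
        · rw [Int.toNat_of_nonneg (by omega)]
          ring
      · rintro ⟨n, hn, rfl⟩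
        rw [← hn]
        ring
    rw [h1]
    refine (Function.Injective.encard_image ?_ _).symm
    intro a b hab
    simpa using hab
  · rw [Set.encard_eq_zero]
    ext n
    simp only [Set.mem_ofPred_eq, mem_empty_iff_false, iff_false]
    intro hn
    have h3 : 0 < y (q - 1 - n) := by linarith
    have h4 := hq' _ h3
    omega

theorem phases_unique {N : ℕ} (hN : 0 < N) (W : Matrix (Fin N) (Fin N) ℂ) (y y' : ℤ → ℝ)
    (h : IsPhases W y) (h' : IsPhases W y') : ∃ s : ℤ, ∀ p, y' p = y (p + s) := by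
  obtain ⟨q, hq1, hq2⟩ := ENU_first hN y h.mono h.per
  obtain ⟨q', hq1', hq2'⟩ := ENU_first hN y' h'.mono h'.per
  have hf : ∀ t, {p | y p = t}.encard = {p | y' p = t}.encard := fun t => by
    rw [h.mult, h'.mult]
  have e1 : (fun n : ℕ => y' (q' + n)) = fun n : ℕ => y (q + n) := by
    apply enum_eq
    · intro a b hab
      exact h'.mono (by omega)
    · intro a b hab
      exact h.mono (by omega)
    · intro t
      rw [ENU_right y' h'.mono q' hq1' hq2' t, ENU_right y h.mono q hq1 hq2 t, hf]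
  have e2 : (fun n : ℕ => -y' (q' - 1 - n)) = fun n : ℕ => -y (q - 1 - n) := by
    apply enum_eq
    · intro a b hab
      exact neg_le_neg (h'.mono (by omega))
    · intro a b hab
      exact neg_le_neg (h.mono (by omega))
    · intro t
      rw [ENU_left y' q' (fun p hp => lt_of_lt_of_le hq1' (h'.mono hp)) hq2' t,
        ENU_left y q (fun p hp => lt_of_lt_of_le hq1 (h.mono hp)) hq2 t, hf]
  refine ⟨q - q', fun p => ?_⟩
  rcases le_or_gt q' p with hp | hp
  · have h1 := congrFun e1 (p - q').toNat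
    rw [Int.toNat_of_nonneg (by omega)] at h1
    have h2 : q' + (p - q') = p := by ring
    have h3 : q + (p - q') = p + (q - q') := by ring
    rw [h2, h3] at h1
    exact h1
  · have h1 := congrFun e2 (q' - 1 - p).toNat
    rw [Int.toNat_of_nonneg (by omega)] at h1
    have h2 : q' - 1 - (q' - 1 - p) = p := by ring
    have h3 : q - 1 - (q' - 1 - p) = p + (q - q') := by ring
    rw [h2, h3] at h1
    linarith

theorem ENU_shift1 {N : ℕ} (g : ℤ → ℝ) (hg : ∀ p, g (p + N) = g p) (s : ℤ) :
    ∑ a ∈ Finset.range N, g ((a : ℤ) + (s + 1)) = ∑ a ∈ Finset.range N, g ((a : ℤ) + s) := by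
  have h1 := Finset.sum_range_succ (fun a : ℕ => g ((a : ℤ) + s)) N
  have h2 := Finset.sum_range_succ' (fun a : ℕ => g ((a : ℤ) + s)) N
  have h3 : g ((N : ℤ) + s) = g ((0 : ℕ) + s) := by
    rw [add_comm, hg]
    simp
  have h4 : ∑ a ∈ Finset.range N, g ((a : ℤ) + (s + 1)) =
      ∑ a ∈ Finset.range N, g (((a + 1 : ℕ) : ℤ) + s) := by
    apply Finset.sum_congr rfl
    intro a _
    congr 1
    push_cast
    ring
  rw [h4]
  linarith

theorem ENU_shift {N : ℕ} (g : ℤ → ℝ) (hg : ∀ p, g (p + N) = g p) (s : ℤ) :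
    ∑ a ∈ Finset.range N, g ((a : ℤ) + s) = ∑ a ∈ Finset.range N, g (a : ℤ) := by
  induction s using Int.induction_on with
  | zero => simp
  | succ i ih => rw [ENU_shift1 g hg, ih]
  | pred i ih =>
    have h1 := ENU_shift1 g hg (-(i : ℤ) - 1)
    have h2 : -(i : ℤ) - 1 + 1 = -(i : ℤ) := by ring
    rw [h2] at h1
    rw [← h1, ih]

theorem loc_shift {N M : ℕ} (hN : 0 < N) (h : (Fin (2 * M + 1) → ℝ) → ℝ) (y : ℤ → ℝ)
    (hy : ∀ p, y (p + N) = y p + N) (s : ℤ) : loc N M h (fun p => y (p + s)) = loc N M h y := by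
  have hg : ∀ p : ℤ, (fun b : ℤ => h fun j => y (b + j - M) - y b) (p + N) =
      (fun b : ℤ => h fun j => y (b + j - M) - y b) p := by
    intro p
    simp only
    congr 1
    funext j
    have h1 : p + (N : ℤ) + (j : ℕ) - M = (p + (j : ℕ) - M) + N := by ring
    rw [h1, hy, hy]
    ring
  have h2 := ENU_shift (N := N) (fun b : ℤ => h fun j => y (b + j - M) - y b) hg s
  unfold loc
  rw [← h2]
  congr 1
  apply Finset.sum_congr rfl
  intro a _
  congr 1
  funext j
  have h3 : (a : ℤ) + (j : ℕ) - M + s = a + s + (j : ℕ) - M := by ring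
  change y ((a : ℤ) + (j : ℕ) - M + s) - y ((a : ℤ) + s) = _
  rw [h3]


theorem loc_phases {N M : ℕ} (hN : 0 < N) (h : (Fin (2 * M + 1) → ℝ) → ℝ)
    (W : Matrix (Fin N) (Fin N) ℂ) (y : ℤ → ℝ) (hy : IsPhases W y) :
    loc N M h y = loc N M h (phases W) := by
  have h1 : IsPhases W (phases W) := Classical.epsilon_spec (p := IsPhases W) ⟨y, hy⟩
  obtain ⟨s, hs⟩ := phases_unique hN W y (phases W) hy h1
  have h2 : phases W = fun p => y (p + s) := funext hs
  rw [h2, loc_shift hN h y hy.per s]

end QGr
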