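import Pool.Agent.LibQGr.R_DEX

/-! Row PHS: eigenphases from a diagonalisation. -/

open MeasureTheory Set Filter Topology

namespace QGr


theorem PHS_ker {N : ℕ} (M : Matrix (Fin N) (Fin N) ℂ) :
    Module.finrank ℂ (LinearMap.ker (Matrix.toLin' M)) + M.rank = N := by
  have h := LinearMap.finrank_range_add_finrank_ker (Matrix.toLin' M)
  have h2 : M.rank = Module.finrank ℂ (LinearMap.range (Matrix.toLin' M)) := rfl
  rw [h2]
  simp only [Module.finrank_fintype_fun_eq_card, Fintype.card_fin] at h
  omega

theorem PHS_diag {N : ℕ} (V : Uni N) (d : Fin N → ℂ) :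
    Module.finrank ℂ (LinearMap.ker (Matrix.toLin'
      (V.1 * Matrix.diagonal d * V.1.conjTranspose))) = Fintype.card {a // d a = 0} := by
  have hV : V.1 * V.1.conjTranspose = 1 := by
    have := V.2
    rw [Matrix.mem_unitaryGroup_iff] at this
    exact this
  have hd : IsUnit V.1.det := by
    have := congrArg Matrix.det hV
    rw [Matrix.det_mul, Matrix.det_one] at this
    exact IsUnit.of_mul_eq_one _ this
  have hd' : IsUnit V.1.conjTranspose.det := by
    have := congrArg Matrix.det hV
    rw [Matrix.det_mul, Matrix.det_one, mul_comm] at this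
    exact IsUnit.of_mul_eq_one _ this
  have h := PHS_ker (V.1 * Matrix.diagonal d * V.1.conjTranspose)
  rw [Matrix.rank_mul_eq_left_of_isUnit_det _ _ hd',
    Matrix.rank_mul_eq_right_of_isUnit_det _ _ hd, Matrix.rank_diagonal] at h
  have h2 := Fintype.card_subtype_compl fun a => d a = 0
  have h3 := Fintype.card_subtype_le fun a => d a = 0
  rw [Fintype.card_fin] at h2 h3
  have h4 : Fintype.card {a // d a ≠ 0} = Fintype.card {a // ¬ d a = 0} := rfl
  omega

theorem PHS_shift {N : ℕ} (F : ℤ → ℝ) (h : ∀ p, F (p + N) = F p + 2 * Real.pi) (k p : ℤ) :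
    F (p + k * N) = F p + k * (2 * Real.pi) := by
  induction k using Int.induction_on with
  | zero => simp
  | succ i ih =>
    have := h (p + i * N)
    rw [show p + (↑i + 1) * (N : ℤ) = p + i * N + N by ring, this, ih]
    push_cast
    ring
  | pred i ih =>
    have := h (p + (-(i : ℤ) - 1) * N)
    rw [show p + (-(i : ℤ) - 1) * (N : ℤ) + N = p + -(i : ℤ) * N by ring, ih] at this
    push_cast at this ⊢
    linarith

theorem dia_phases {N : ℕ} (hN : 0 < N) (W : Uni N) (F : ℤ → ℝ) (h : Dia W F) :
    IsPhases W.1 fun p => -(N / (2 * Real.pi)) * F (-p) := by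
  have hpi := Real.pi_pos
  have hN' : (0 : ℝ) < N := by exact_mod_cast hN
  have hc : 0 < (N / (2 * Real.pi) : ℝ) := by positivity
  refine ⟨?_, ?_, ?_⟩
  · intro p q hpq
    have := h.mono (neg_le_neg hpq)
    have h2 := mul_le_mul_of_nonneg_left this hc.le
    change -(N / (2 * Real.pi)) * F (-p) ≤ -(N / (2 * Real.pi)) * F (-q)
    linarith
  · intro p
    have h1 := h.per (-(p + N))
    rw [show -(p + (N : ℤ)) + N = -p by ring] at h1
    change -(N / (2 * Real.pi)) * F (-(p + N)) = -(N / (2 * Real.pi)) * F (-p) + N
    rw [h1]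
    field_simp
    ring
  · intro t
    obtain ⟨V, hV⟩ := h.dia
    set z : ℂ := Complex.exp (2 * Real.pi * t / N * Complex.I) with hz
    have hVV : V.1 * V.1.conjTranspose = 1 := by
      have := V.2
      rw [Matrix.mem_unitaryGroup_iff] at this
      exact this
    have e1 : 1 - z • W.1 = V.1 * (Matrix.diagonal fun a : Fin N =>
        (1 - z * Complex.exp (F (a : ℕ) * Complex.I))) * V.1.conjTranspose := by
      have e2 : (Matrix.diagonal fun a : Fin N =>
          (1 - z * Complex.exp (F (a : ℕ) * Complex.I)))
          = 1 - z • Matrix.diagonal fun a : Fin N => Complex.exp (F (a : ℕ) * Complex.I) := by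
        ext i j
        by_cases hij : i = j
        · subst hij; simp
        · simp [hij]
      rw [e2, hV, Matrix.mul_sub, Matrix.sub_mul, Matrix.mul_one, hVV, Matrix.mul_smul,
        Matrix.smul_mul]
    rw [e1, PHS_diag]
    -- the key equivalence
    have key : ∀ p : ℤ, 1 - z * Complex.exp (F p * Complex.I) = 0 ↔
        ∃ k : ℤ, F (p + k * N) = -(2 * Real.pi * t / N) := by
      intro p
      rw [sub_eq_zero, eq_comm, hz, ← Complex.exp_add, Complex.exp_eq_one_iff]
      constructor
      · rintro ⟨k, hk⟩
        refine ⟨-k, ?_⟩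
        rw [PHS_shift F h.per]
        have h3 : ((2 * Real.pi * t / N + F p : ℝ) : ℂ) * Complex.I
            = ((k * (2 * Real.pi) : ℝ) : ℂ) * Complex.I := by
          push_cast
          linear_combination hk
        have h4 := mul_right_cancel₀ Complex.I_ne_zero h3
        have h5 : (2 * Real.pi * t / N + F p : ℝ) = k * (2 * Real.pi) := by exact_mod_cast h4
        push_cast
        linarith
      · rintro ⟨k, hk⟩
        refine ⟨-k, ?_⟩
        rw [PHS_shift F h.per] at hk
        have h5 : (2 * Real.pi * t / N + F p : ℝ) = -k * (2 * Real.pi) := by linarith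
        have h4 : ((2 * Real.pi * t / N + F p : ℝ) : ℂ) = ((-k * (2 * Real.pi) : ℝ) : ℂ) := by
          rw [h5]
        push_cast at h4 ⊢
        linear_combination Complex.I * h4
    have hyt : ∀ p : ℤ, -(N / (2 * Real.pi)) * F (-p) = t ↔ F (-p) = -(2 * Real.pi * t / N) := by
      intro p
      constructor
      · intro h6
        rw [← h6]
        field_simp
      · intro h6
        rw [h6]
        field_simp
    -- the map `a ↦ a mod N`
    have hNz : (0 : ℤ) < N := by exact_mod_cast hN
    let g : ℤ → Fin N := fun p => ⟨((-p) % N).toNat, by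
      have h1 := Int.emod_nonneg (-p) hNz.ne'
      have h2 := Int.emod_lt_of_pos (-p) hNz
      omega⟩
    have hg : ∀ p : ℤ, (((g p : Fin N) : ℕ) : ℤ) = (-p) % N := by
      intro p
      have h1 := Int.emod_nonneg (-p) hNz.ne'
      simp only [g]
      omega
    have hgk : ∀ p : ℤ, -p = (((g p : Fin N) : ℕ) : ℤ) + ((-p) / N) * N := by
      intro p
      rw [hg]
      have := Int.emod_add_mul_ediv (-p) N
      linarith
    have hinj : InjOn g {p : ℤ | -(N / (2 * Real.pi)) * F (-p) = t} := by
      intro p hp q hq hpq
      simp only [mem_ofPred_eq, hyt] at hp hq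
      rw [hgk p, PHS_shift F h.per] at hp
      rw [hgk q, PHS_shift F h.per, ← hpq] at hq
      have h7 : (((-p) / N : ℤ) : ℝ) * (2 * Real.pi) = (((-q) / N : ℤ) : ℝ) * (2 * Real.pi) := by
        linarith
      have h8 := mul_right_cancel₀ (by positivity) h7
      have h9 : (-p) / (N : ℤ) = (-q) / N := by exact_mod_cast h8
      have h10 := hgk p
      have h11 := hgk q
      rw [h9, hpq, ← h11] at h10
      linarith
    rw [← hinj.encard_image]
    have himg : g '' {p : ℤ | -(N / (2 * Real.pi)) * F (-p) = t} =
        {a : Fin N | 1 - z * Complex.exp (F ((a : ℕ) : ℤ) * Complex.I) = 0} := by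
      ext a
      constructor
      · rintro ⟨p, hp, rfl⟩
        simp only [mem_ofPred_eq] at hp ⊢
        rw [hyt, hgk p] at hp
        rw [key]
        exact ⟨_, hp⟩
      · intro ha
        simp only [mem_ofPred_eq] at ha
        rw [key] at ha
        obtain ⟨k, hk⟩ := ha
        refine ⟨-(((a : ℕ) : ℤ) + k * N), ?_, ?_⟩
        · simp only [mem_ofPred_eq]
          rw [hyt, neg_neg, hk]
        · apply Fin.ext
          have h12 := hg (-(((a : ℕ) : ℤ) + k * N))
          rw [neg_neg, Int.add_mul_emod_self_right, Int.emod_eq_of_lt (by positivity)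
            (by exact_mod_cast a.2)] at h12
          exact_mod_cast h12
    rw [himg, encard_eq_coe_toFinset_card]
    congr 1
    rw [Set.toFinset_card]
    exact Fintype.card_congr (Equiv.refl _)

theorem phases_spec {N : ℕ} (hN : 0 < N) (W : Uni N) : IsPhases W.1 (phases W.1) := by
  have hdet : ‖W.1.det‖ = 1 := by
    have hV : W.1 * W.1.conjTranspose = 1 := by
      have := W.2
      rw [Matrix.mem_unitaryGroup_iff] at this
      exact this
    have h := congrArg Matrix.det hV
    rw [Matrix.det_mul, Matrix.det_one, Matrix.det_conjTranspose] at h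
    have h2 := congrArg norm h
    rw [norm_mul, norm_star, norm_one] at h2
    nlinarith [norm_nonneg W.1.det]
  have hS : W.1.det = Complex.exp ((Complex.arg W.1.det : ℝ) * Complex.I) := by
    have := Complex.norm_mul_exp_arg_mul_I W.1.det
    rw [hdet, Complex.ofReal_one, one_mul] at this
    exact this.symm
  obtain ⟨F, hF, -⟩ := dia_exists hN W _ hS
  exact Classical.epsilon_spec ⟨_, dia_phases hN W F hF⟩

end QGr
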