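import Pool.Agent.LibQGr.Def2

open MeasureTheory Set Filter Topology

namespace QGr

/-- The trigonometric polynomial `∑ c k j e(t_k) conj e(t_j)`. -/
noncomputable def zet {N : ℕ} (c : Fin N → Fin N → ℂ) (t : Fin N → UnitAddCircle) : ℂ :=
  ∑ k, ∑ j, c k j * ((AddCircle.toCircle (t k) : Circle) : ℂ)
    * (starRingEnd ℂ) ((AddCircle.toCircle (t j) : Circle) : ℂ)

/-- The local functional of the spacing sum, with `M = N * 1`. -/
noncomputable def hsp (N : ℕ) (f : ℝ → ℝ) (v : Fin (2 * (N * 1) + 1) → ℝ) : ℝ :=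
  if h : N + 1 < 2 * (N * 1) + 1 then f (v ⟨N + 1, h⟩) else 0

end QGr
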