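import Pool.Agent.LibQGr.R_ZER

/-! Row COR: correlation sums as local functionals. -/

open MeasureTheory Set Filter Topology

namespace QGr


theorem COR_card (p M : ℕ) : (Fintype.card {r : Fin (p + 1) → Fin (2 * M + 1) //
    Function.Injective r ∧ ∀ i, (r i).val ≠ M} : ℝ) ≤ (2 * M + 1) ^ (p + 1) := by
  have h := Fintype.card_subtype_le (fun r : Fin (p + 1) → Fin (2 * M + 1) =>
    Function.Injective r ∧ ∀ i, (r i).val ≠ M)
  have h2 : Fintype.card (Fin (p + 1) → Fin (2 * M + 1)) = (2 * M + 1) ^ (p + 1) := by simp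
  rw [h2] at h
  exact_mod_cast h

theorem hco_lip (p M : ℕ) (f : (Fin (p + 1) → ℝ) → ℝ) (L K : ℝ)
    (hL : ∀ u v, |f u - f v| ≤ L * dist u v) (hK : ∀ v, |f v| ≤ K) :
    (∀ u v, |hco p M f u - hco p M f v| ≤ (2 * M + 1) ^ (p + 1) * L * dist u v) ∧
      ∀ v, |hco p M f v| ≤ (2 * M + 1) ^ (p + 1) * K := by
  have hK0 : 0 ≤ K := (abs_nonneg _).trans (hK 0)
  have hL0 : 0 ≤ L := by
    have h1 := (abs_nonneg _).trans (hL 0 1)
    have h2 : 0 < dist (0 : Fin (p + 1) → ℝ) 1 := dist_pos.2 zero_ne_one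
    exact (mul_nonneg_iff_of_pos_right h2).1 h1
  constructor
  · intro u v
    unfold hco
    rw [← Finset.sum_sub_distrib]
    refine (Finset.abs_sum_le_sum_abs _ _).trans ?_
    refine (Finset.sum_le_sum (g := fun _ => L * dist u v) fun r _ => ?_).trans ?_
    · refine (hL _ _).trans (mul_le_mul_of_nonneg_left ?_ hL0)
      rw [dist_pi_le_iff dist_nonneg]
      intro i
      exact dist_le_pi_dist u v (r.1 i)
    · rw [Finset.sum_const, nsmul_eq_mul, Finset.card_univ, mul_assoc]
      exact mul_le_mul_of_nonneg_right (COR_card p M) (mul_nonneg hL0 dist_nonneg)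
  · intro v
    unfold hco
    refine (Finset.abs_sum_le_sum_abs _ _).trans ?_
    refine (Finset.sum_le_sum (g := fun _ => K) fun r _ => hK _).trans ?_
    rw [Finset.sum_const, nsmul_eq_mul, Finset.card_univ]
    exact mul_le_mul_of_nonneg_right (COR_card p M) hK0

theorem COR_iter {N : ℕ} {c : ℝ} (y : ℤ → ℝ) (hy : ∀ p, c * N ≤ y (p + N) - y p) (p : ℤ) (k : ℕ) :
    c * N * k ≤ y (p + k * N) - y p := by
  induction k with
  | zero => simp
  | succ n ih =>
    have h1 : p + ((n + 1 : ℕ) : ℤ) * N = (p + n * N) + N := by push_cast; ring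
    rw [h1]
    have h2 := hy (p + n * N)
    push_cast
    linarith

theorem far_of {N Q : ℕ} (hN : 0 < N) {c : ℝ} (hc : 0 < c) (B : ℝ) (hQ : B < c * Q)
    (y : ℤ → ℝ) (hy : Monotone y) (hg : ∀ p, c * N ≤ y (p + N) - y p) : Far (N * Q) B y := by
  have hNR : (1 : ℝ) ≤ N := by exact_mod_cast hN
  have hQ0 : (0 : ℝ) ≤ Q := Nat.cast_nonneg Q
  have hBN : B < c * N * Q := by
    have h1 : c * Q ≤ c * N * Q := by
      have : c * Q * 1 ≤ c * Q * N := mul_le_mul_of_nonneg_left hNR (by positivity)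
      nlinarith
    linarith
  intro q r hr
  rcases le_or_gt 0 r with h0 | h0
  · rw [abs_of_nonneg h0] at hr
    push_cast at hr
    have h1 := COR_iter y hg q Q
    have h2 : y (q + Q * N) ≤ y (q + r) := hy (by linarith)
    refine lt_of_lt_of_le ?_ (le_abs_self _)
    linarith
  · rw [abs_of_neg h0] at hr
    push_cast at hr
    have h1 := COR_iter y hg (q + r) Q
    have h2 : y (q + r + Q * N) ≤ y q := hy (by linarith)
    refine lt_of_lt_of_le ?_ (neg_le_abs _)
    linarith

/-- The tuple with first entry `a` and differences `r i - M`. -/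
def COR_mk {p M : ℕ} (a : ℤ) (r : Fin (p + 1) → Fin (2 * M + 1)) : Fin (p + 2) → ℤ :=
  Fin.cons a fun i => a + (r i : ℕ) - M

theorem COR_mk_zero {p M : ℕ} (a : ℤ) (r : Fin (p + 1) → Fin (2 * M + 1)) : COR_mk a r 0 = a := rfl

theorem COR_mk_succ {p M : ℕ} (a : ℤ) (r : Fin (p + 1) → Fin (2 * M + 1)) (i : Fin (p + 1)) :
    COR_mk a r i.succ = a + (r i : ℕ) - M := rfl

theorem COR_mk_inj {p M : ℕ} (a : ℤ) (r : Fin (p + 1) → Fin (2 * M + 1)) (hr : Function.Injective r)
    (h0 : ∀ i, (r i).val ≠ M) : Function.Injective (COR_mk a r) := by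
  unfold COR_mk
  rw [Fin.cons_injective_iff]
  constructor
  · rintro ⟨i, hi⟩
    have hi' : a + ((r i : ℕ) : ℤ) - M = a := hi
    exact h0 i (by omega)
  · intro i j hij
    refine hr (Fin.ext ?_)
    have : a + ((r i : ℕ) : ℤ) - M = a + ((r j : ℕ) : ℤ) - M := hij
    omega

theorem COR_mk_inj2 {p M : ℕ} (a a' : ℤ) (r r' : Fin (p + 1) → Fin (2 * M + 1))
    (h : COR_mk a r = COR_mk a' r') : a = a' ∧ r = r' := by
  have h1 : a = a' := by
    have := congrFun h 0
    simpa [COR_mk_zero] using this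
  subst h1
  refine ⟨rfl, funext fun i => Fin.ext ?_⟩
  have := congrFun h i.succ
  rw [COR_mk_succ, COR_mk_succ] at this
  omega

/-- Sums over injective tuples regrouped by the first index. -/
theorem COR_sum {p M : ℕ} (f : (Fin (p + 1) → ℝ) → ℝ) (B : ℝ)
    (hB : ∀ v, (∃ i, B < |v i|) → f v = 0) (y : ℤ → ℝ) (hy : Far M B y)
    (P : (Fin (p + 2) → ℤ) → Prop) [DecidablePred P] (A : Finset ℤ) (hP : ∀ j, P j → j 0 ∈ A) :
    ∑ᶠ j : {j : Fin (p + 2) → ℤ // Function.Injective j ∧ P j}, (f fun i => y (j.1 i.succ) - y (j.1 0)) =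
      ∑ a ∈ A, ∑ r : {r : Fin (p + 1) → Fin (2 * M + 1) // Function.Injective r ∧ ∀ i, (r i).val ≠ M},
        if P (COR_mk a r.1) then f fun i => y (a + (r.1 i : ℕ) - M) - y a else 0 := by
  classical
  have h1 := finsum_subtype_eq_finsum_cond (f := fun j : Fin (p + 2) → ℤ => f fun i => y (j i.succ) - y (j 0))
    (fun j => Function.Injective j ∧ P j)
  rw [h1]
  obtain ⟨t, ht⟩ : ∃ t : Finset (Fin (p + 2) → ℤ), t = ((A ×ˢ (Finset.univ : Finset
    {r : Fin (p + 1) → Fin (2 * M + 1) // Function.Injective r ∧ ∀ i, (r i).val ≠ M})).filter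
      (fun q => P (COR_mk q.1 q.2.1))).image (fun q => COR_mk q.1 q.2.1) := ⟨_, rfl⟩
  have h2 : ∑ᶠ j ∈ {j : Fin (p + 2) → ℤ | Function.Injective j ∧ P j},
      (fun j : Fin (p + 2) → ℤ => f fun i => y (j i.succ) - y (j 0)) j =
      ∑ j ∈ t, (fun j : Fin (p + 2) → ℤ => f fun i => y (j i.succ) - y (j 0)) j := by
    refine finsum_mem_eq_sum_of_inter_support_eq _ ?_
    ext j
    constructor
    · rintro ⟨⟨hj, hPj⟩, hs⟩
      refine ⟨?_, hs⟩
      have h3 : ∀ i : Fin (p + 1), |j i.succ - j 0| ≤ M := by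
        intro i
        by_contra hcon
        rw [not_le] at hcon
        have h4 := hy (j 0) (j i.succ - j 0) hcon
        rw [add_sub_cancel] at h4
        exact hs (hB _ ⟨i, h4⟩)
      have h4 : ∀ i : Fin (p + 1), j i.succ ≠ j 0 := fun i h => (Fin.succ_ne_zero i) (hj h)
      rw [Finset.mem_coe, ht, Finset.mem_image]
      have hb : ∀ i : Fin (p + 1), (j i.succ - j 0 + M).toNat < 2 * M + 1 := by
        intro i
        have := abs_le.1 (h3 i)
        omega
      have hval : ∀ i : Fin (p + 1), (((j i.succ - j 0 + M).toNat : ℕ) : ℤ) = j i.succ - j 0 + M := by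
        intro i
        have := abs_le.1 (h3 i)
        omega
      have hmk : COR_mk (M := M) (j 0) (fun i => ⟨(j i.succ - j 0 + M).toNat, hb i⟩) = j := by
        funext i
        refine Fin.cases ?_ (fun i => ?_) i
        · rfl
        · rw [COR_mk_succ]
          have := hval i
          simp only at this ⊢
          omega
      refine ⟨(j 0, ⟨fun i => ⟨(j i.succ - j 0 + M).toNat, hb i⟩, ?_, ?_⟩), ?_, hmk⟩
      · intro i i' h
        have h5 := congrArg Fin.val h
        simp only at h5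
        have h6 := hval i
        have h7 := hval i'
        have h8 : j i.succ = j i'.succ := by omega
        exact Fin.succ_injective _ (hj h8)
      · intro i h
        simp only at h
        have h6 := hval i
        exact h4 i (by omega)
      · rw [Finset.mem_filter, Finset.mem_product]
        refine ⟨⟨hP j hPj, Finset.mem_univ _⟩, ?_⟩
        rw [hmk]
        exact hPj
    · rintro ⟨hj, hs⟩
      refine ⟨?_, hs⟩
      rw [Finset.mem_coe, ht, Finset.mem_image] at hj
      obtain ⟨q, hq, rfl⟩ := hj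
      rw [Finset.mem_filter] at hq
      exact ⟨COR_mk_inj q.1 q.2.1 q.2.2.1 q.2.2.2, hq.2⟩
  refine h2.trans ?_
  rw [ht, Finset.sum_image, Finset.sum_filter, Finset.sum_product]
  · rfl
  · intro q _ q' _ h
    obtain ⟨h5, h6⟩ := COR_mk_inj2 _ _ _ _ h
    exact Prod.ext h5 (Subtype.ext h6)

theorem pcorr_loc {N p M : ℕ} (hN : 0 < N) (f : (Fin (p + 1) → ℝ) → ℝ) (B : ℝ)
    (hB : ∀ v, (∃ i, B < |v i|) → f v = 0) (y : ℤ → ℝ) (hy : Far M B y) :
    pcorr N p f y = loc N M (hco p M f) y := by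
  unfold pcorr loc hco
  congr 1
  rw [COR_sum f B hB y hy (fun j => 0 ≤ j 0 ∧ j 0 < N) (Finset.Ico 0 (N : ℤ))
    (fun j hj => Finset.mem_Ico.2 hj)]
  have h1 : Finset.Ico (0 : ℤ) N = (Finset.range N).map Nat.castEmbedding := by
    ext a
    simp only [Finset.mem_Ico, Finset.mem_map, Finset.mem_range, Nat.castEmbedding_apply]
    constructor
    · rintro ⟨h1, h2⟩
      exact ⟨a.toNat, by omega, by omega⟩
    · rintro ⟨b, hb, rfl⟩
      omega
  rw [h1, Finset.sum_map]
  refine Finset.sum_congr rfl fun a ha => Finset.sum_congr rfl fun r _ => ?_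
  rw [if_pos]
  · rfl
  · rw [COR_mk_zero]
    have := Finset.mem_range.1 ha
    simp only [Nat.castEmbedding_apply]
    omega

theorem corr_loc {p M : ℕ} (f : (Fin (p + 1) → ℝ) → ℝ) (B K : ℝ)
    (hB : ∀ v, (∃ i, B < |v i|) → f v = 0) (hK : ∀ v, |f v| ≤ K) (X : ℤ → ℝ) (hm : Monotone X)
    (hX : Far M B X) (x : ℕ → ℝ) (s : ℤ) (hx : ∀ n : ℕ, x n = X (n + s))
    (ht : Tendsto x atTop atTop) :
    ∃ C, ∀ T : ℝ, 0 < T → |corr p f x T - (1 / T) * ∑ k ∈ Finset.range (cnt x T),
      hco p M f (fun j => X (s + k + j - M) - X (s + k))| ≤ C / T := by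
  classical
  have hxm : Monotone x := by
    intro a b hab
    rw [hx, hx]
    exact hm (by omega)
  have hK0 : 0 ≤ K := (abs_nonneg _).trans (hK 0)
  refine ⟨2 * M * (∑ _r : {r : Fin (p + 1) → Fin (2 * M + 1) // Function.Injective r ∧
    ∀ i, (r i).val ≠ M}, K), ?_⟩
  intro T hT
  obtain ⟨n, hn⟩ : ∃ n, n = cnt x T := ⟨_, rfl⟩
  have hcnt : ∀ k : ℕ, x k ≤ T ↔ k < n := fun k => by rw [hn]; exact (cnt_iff x hxm ht T k).symm
  -- the correlation sum as a sum over tuples of integers
  have hy : Far M B (fun q => X (s + q)) := by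
    intro q r hr
    have := hX (s + q) r hr
    have e : s + (q + r) = s + q + r := by ring
    simp only [e]
    exact this
  have e1 : ∑ᶠ j : {j : Fin (p + 2) → ℕ // Function.Injective j ∧ ∀ i, x (j i) ≤ T},
      (f fun i => x (j.1 i.succ) - x (j.1 0)) =
      ∑ᶠ j : {j : Fin (p + 2) → ℤ // Function.Injective j ∧ ∀ i, 0 ≤ j i ∧ j i < n},
      (f fun i => (fun q => X (s + q)) (j.1 i.succ) - (fun q => X (s + q)) (j.1 0)) := by
    refine finsum_eq_of_bijective (fun j => ⟨fun i => (j.1 i : ℤ), fun i i' h => j.2.1 (by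
      simpa using h), fun i => ⟨Int.natCast_nonneg _, by
        have := (hcnt (j.1 i)).1 (j.2.2 i)
        exact Int.ofNat_lt.2 this⟩⟩) ⟨?_, ?_⟩ ?_
    · intro j j' h
      refine Subtype.ext (funext fun i => ?_)
      have := congrFun (congrArg Subtype.val h) i
      simpa using this
    · intro j
      refine ⟨⟨fun i => (j.1 i).toNat, ?_, ?_⟩, ?_⟩
      · intro i i' h
        refine j.2.1 ?_
        have h1 := (j.2.2 i).1
        have h2 := (j.2.2 i').1
        simp only at h
        omega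
      · intro i
        rw [hcnt]
        have h1 := (j.2.2 i).1
        have h2 := (j.2.2 i).2
        simp only
        omega
      · refine Subtype.ext (funext fun i => ?_)
        have h1 := (j.2.2 i).1
        simp only
        omega
    · intro j
      simp only [hx]
      congr 1
      funext i
      rw [add_comm, add_comm _ s]
  have e2 := COR_sum f B hB (fun q => X (s + q)) hy (fun j => ∀ i, 0 ≤ j i ∧ j i < n)
    (Finset.Ico 0 (n : ℤ)) (fun j hj => Finset.mem_Ico.2 (hj 0))
  have h1 : Finset.Ico (0 : ℤ) n = (Finset.range n).map Nat.castEmbedding := by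
    ext a
    simp only [Finset.mem_Ico, Finset.mem_map, Finset.mem_range, Nat.castEmbedding_apply]
    constructor
    · rintro ⟨h1, h2⟩
      exact ⟨a.toNat, by omega, by omega⟩
    · rintro ⟨b, hb, rfl⟩
      omega
  rw [h1, Finset.sum_map] at e2
  have e3 : corr p f x T = (1 / T) * ∑ k ∈ Finset.range n,
      ∑ r : {r : Fin (p + 1) → Fin (2 * M + 1) // Function.Injective r ∧ ∀ i, (r i).val ≠ M},
        if ∀ i, 0 ≤ COR_mk (k : ℤ) r.1 i ∧ COR_mk (k : ℤ) r.1 i < n then
          f fun i => X (s + (k + (r.1 i : ℕ) - M)) - X (s + k) else 0 := by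
    unfold corr
    rw [e1, e2]
    rfl
  have hT1 : (0 : ℝ) < 1 / T := by positivity
  rw [e3, ← hn, ← mul_sub, abs_mul, abs_of_pos hT1]
  refine le_trans ?_ (one_div_mul_eq_div T _).le
  refine mul_le_mul_of_nonneg_left ?_ hT1.le
  rw [← Finset.sum_sub_distrib]
  -- the terms away from the boundary vanish
  have e4 : ∀ k ∈ Finset.range n, k ∉ (Finset.range M ∪ Finset.Ico (n - M) n) →
      (∑ r : {r : Fin (p + 1) → Fin (2 * M + 1) // Function.Injective r ∧ ∀ i, (r i).val ≠ M},
        if ∀ i, 0 ≤ COR_mk (k : ℤ) r.1 i ∧ COR_mk (k : ℤ) r.1 i < n then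
          (f fun i => X (s + (k + (r.1 i : ℕ) - M)) - X (s + k)) else 0) -
        hco p M f (fun j => X (s + k + j - M) - X (s + k)) = 0 := by
    intro k hk hk2
    rw [Finset.mem_union, Finset.mem_range, Finset.mem_Ico] at hk2
    rw [Finset.mem_range] at hk
    push Not at hk2
    unfold hco
    rw [sub_eq_zero]
    refine Finset.sum_congr rfl fun r _ => ?_
    rw [if_pos]
    · congr 1
      funext i
      have : s + ((k : ℤ) + (r.1 i : ℕ) - M) = s + k + (r.1 i : ℕ) - M := by ring
      rw [this]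
    · intro i
      refine Fin.cases ?_ (fun i => ?_) i
      · rw [COR_mk_zero]
        omega
      · rw [COR_mk_succ]
        have h2 := (r.1 i).2
        have h3 : k < n - M := by
          by_contra hcon
          exact absurd (hk2.2 (by omega)) (by omega)
        omega
  have e5 : ∀ k : ℕ, |(∑ r : {r : Fin (p + 1) → Fin (2 * M + 1) // Function.Injective r ∧ ∀ i, (r i).val ≠ M},
        if ∀ i, 0 ≤ COR_mk (k : ℤ) r.1 i ∧ COR_mk (k : ℤ) r.1 i < n then
          (f fun i => X (s + (k + (r.1 i : ℕ) - M)) - X (s + k)) else 0) -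
        hco p M f (fun j => X (s + k + j - M) - X (s + k))| ≤
      ∑ _r : {r : Fin (p + 1) → Fin (2 * M + 1) // Function.Injective r ∧ ∀ i, (r i).val ≠ M}, K := by
    intro k
    unfold hco
    rw [← Finset.sum_sub_distrib]
    refine (Finset.abs_sum_le_sum_abs _ _).trans (Finset.sum_le_sum fun r _ => ?_)
    split_ifs
    · have : (f fun i => X (s + ((k : ℤ) + (r.1 i : ℕ) - M)) - X (s + k)) =
          f fun i => X (s + k + (r.1 i : ℕ) - M) - X (s + k) := by
        congr 1
        funext i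
        have : s + ((k : ℤ) + (r.1 i : ℕ) - M) = s + k + (r.1 i : ℕ) - M := by ring
        rw [this]
      rw [this, sub_self, abs_zero]
      exact hK0
    · rw [zero_sub, abs_neg]
      exact hK _
  have e6 : ∑ k ∈ Finset.range n, ((∑ r : {r : Fin (p + 1) → Fin (2 * M + 1) // Function.Injective r ∧ ∀ i, (r i).val ≠ M},
        if ∀ i, 0 ≤ COR_mk (k : ℤ) r.1 i ∧ COR_mk (k : ℤ) r.1 i < n then
          (f fun i => X (s + (k + (r.1 i : ℕ) - M)) - X (s + k)) else 0) -
        hco p M f (fun j => X (s + k + j - M) - X (s + k))) =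
      ∑ k ∈ (Finset.range n).filter (fun k => k ∈ (Finset.range M ∪ Finset.Ico (n - M) n)),
        ((∑ r : {r : Fin (p + 1) → Fin (2 * M + 1) // Function.Injective r ∧ ∀ i, (r i).val ≠ M},
        if ∀ i, 0 ≤ COR_mk (k : ℤ) r.1 i ∧ COR_mk (k : ℤ) r.1 i < n then
          (f fun i => X (s + (k + (r.1 i : ℕ) - M)) - X (s + k)) else 0) -
        hco p M f (fun j => X (s + k + j - M) - X (s + k))) := by
    rw [Finset.sum_filter]
    refine Finset.sum_congr rfl fun k hk => ?_
    split_ifs with h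
    · rfl
    · exact e4 k hk h
  rw [e6]
  refine (Finset.abs_sum_le_sum_abs _ _).trans ?_
  refine (Finset.sum_le_sum fun k _ => e5 k).trans ?_
  rw [Finset.sum_const, nsmul_eq_mul]
  refine mul_le_mul_of_nonneg_right ?_ (Finset.sum_nonneg fun _ _ => hK0)
  have h7 : ((Finset.range n).filter (fun k => k ∈ (Finset.range M ∪ Finset.Ico (n - M) n))).card ≤ 2 * M := by
    calc ((Finset.range n).filter (fun k => k ∈ (Finset.range M ∪ Finset.Ico (n - M) n))).card
        ≤ (Finset.range M ∪ Finset.Ico (n - M) n).card := by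
          refine Finset.card_le_card fun k hk => ?_
          exact (Finset.mem_filter.1 hk).2
      _ ≤ (Finset.range M).card + (Finset.Ico (n - M) n).card := Finset.card_union_le _ _
      _ ≤ M + M := by
          rw [Finset.card_range, Nat.card_Ico]
          omega
      _ = 2 * M := by ring
  exact_mod_cast h7

end QGr
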