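import Pool.Agent.LibQGr.Def2

open MeasureTheory Set Filter Topology

namespace QGr

theorem DUN_floor {N : ℕ} (hN : 0 < N) (p : ℤ) :
    ∑ a ∈ Finset.range N, (p - a) / (N : ℤ) = p - N + 1 := by
  have hN' : (N : ℤ) ≠ 0 := by positivity
  have step : ∀ p : ℤ, ∑ a ∈ Finset.range N, (p + 1 - a) / (N : ℤ)
      = (∑ a ∈ Finset.range N, (p - a) / (N : ℤ)) + 1 := by
    intro p
    obtain ⟨k, rfl⟩ : ∃ k, N = k + 1 := ⟨N - 1, by omega⟩
    rw [Finset.sum_range_succ', Finset.sum_range_succ]
    have e1 : ∀ i ∈ Finset.range k, (p + 1 - ((i + 1 : ℕ) : ℤ)) / ((k + 1 : ℕ) : ℤ)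
        = (p - (i : ℤ)) / ((k + 1 : ℕ) : ℤ) := by
      intro i _
      congr 1
      push_cast
      ring
    rw [Finset.sum_congr rfl e1]
    have e2 : (p + 1 - ((0 : ℕ) : ℤ)) / ((k + 1 : ℕ) : ℤ)
        = (p - (k : ℤ)) / ((k + 1 : ℕ) : ℤ) + 1 := by
      have : (p + 1 - ((0 : ℕ) : ℤ)) = (p - (k : ℤ)) + 1 * ((k + 1 : ℕ) : ℤ) := by
        push_cast
        ring
      rw [this, Int.add_mul_ediv_right _ _ (by positivity)]
    rw [e2]
    ring
  have h0 : ∑ a ∈ Finset.range N, ((0 : ℤ) - a) / (N : ℤ) = 0 - N + 1 := by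
    obtain ⟨k, rfl⟩ : ∃ k, N = k + 1 := ⟨N - 1, by omega⟩
    rw [Finset.sum_range_succ']
    have e1 : ∀ i ∈ Finset.range k, ((0 : ℤ) - ((i + 1 : ℕ) : ℤ)) / ((k + 1 : ℕ) : ℤ) = -1 := by
      intro i hi
      have hi' := Finset.mem_range.1 hi
      have : ((0 : ℤ) - ((i + 1 : ℕ) : ℤ)) = ((k : ℤ) - i) + (-1) * ((k + 1 : ℕ) : ℤ) := by
        push_cast
        ring
      rw [this, Int.add_mul_ediv_right _ _ (by positivity),
        Int.ediv_eq_zero_of_lt (by omega) (by push_cast; omega)]
      ring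
    rw [Finset.sum_congr rfl e1]
    simp
  induction p using Int.induction_on with
  | zero => simpa using h0
  | succ i ih => rw [step, ih]; ring
  | pred i ih =>
    have := step (-(i : ℤ) - 1)
    have e : (-(i : ℤ) - 1 + 1) = -(i : ℤ) := by ring
    rw [e, ih] at this
    linarith

theorem DUN_perz {N : ℕ} {F : ℤ → ℝ} (h : ∀ p, F (p + N) = F p + 2 * Real.pi) (p q : ℤ) :
    F (p + q * N) = F p + 2 * Real.pi * q := by
  induction q using Int.induction_on with
  | zero => simp
  | succ i ih =>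
    have : p + ((i : ℤ) + 1) * N = (p + (i : ℤ) * N) + N := by ring
    rw [this, h, ih]
    push_cast
    ring
  | pred i ih =>
    have e : p + (-(i : ℤ)) * N = (p + (-(i : ℤ) - 1) * N) + N := by ring
    rw [e, h] at ih
    push_cast at ih ⊢
    linarith

/-- The counting function determines the sequence. -/
theorem DUN_cnt {N : ℕ} (hN : 0 < N) {F : ℤ → ℝ} (hm : Monotone F)
    (h : ∀ p, F (p + N) = F p + 2 * Real.pi) (p : ℤ) (t : ℝ) :
    F p ≤ t ↔ p - N + 1 ≤ ∑ a ∈ Finset.range N, ⌊(t - F a) / (2 * Real.pi)⌋ := by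
  have hπ : (0 : ℝ) < 2 * Real.pi := by positivity
  have hNz : (0 : ℤ) < N := by exact_mod_cast hN
  constructor
  · intro ht
    rw [← DUN_floor hN p]
    refine Finset.sum_le_sum fun a _ => ?_
    rw [Int.le_floor, le_div_iff₀ hπ]
    have h1 : ((a : ℕ) : ℤ) + (p - a) / N * N ≤ p := by
      have := Int.ediv_mul_le (p - a) hNz.ne'
      linarith
    have h2 := hm h1
    rw [DUN_perz h] at h2
    linarith
  · intro hc
    by_contra hlt
    push Not at hlt
    have : ∑ a ∈ Finset.range N, ⌊(t - F a) / (2 * Real.pi)⌋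
        ≤ ∑ a ∈ Finset.range N, (p - 1 - (a : ℤ)) / (N : ℤ) := by
      refine Finset.sum_le_sum fun a _ => ?_
      have h0 : ⌊(t - F a) / (2 * Real.pi)⌋ < (p - 1 - (a : ℤ)) / (N : ℤ) + 1 := by
        rw [Int.floor_lt, div_lt_iff₀ hπ]
        have h1 : p ≤ ((a : ℕ) : ℤ) + ((p - 1 - a) / N + 1) * N := by
          have := Int.lt_ediv_add_one_mul_self (p - 1 - a) hNz
          linarith
        have h2 := hm h1
        rw [DUN_perz h] at h2
        push_cast at h2 ⊢
        linarith
      linarith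
    rw [DUN_floor hN (p - 1)] at this
    linarith

theorem DUN_roots {N : ℕ} {W : Uni N} {F : ℤ → ℝ} (h : Dia W F) :
    W.1.charpoly.roots = Finset.univ.val.map fun a : Fin N =>
      Complex.exp (F (a : ℕ) * Complex.I) := by
  obtain ⟨V, hV⟩ := h.dia
  have hVV : V.1 * V.1.conjTranspose = 1 := by
    have := V.2
    rw [Matrix.mem_unitaryGroup_iff] at this
    exact this
  have hVV' : V.1.conjTranspose * V.1 = 1 := by
    have := V.2
    rw [Matrix.mem_unitaryGroup_iff'] at this
    exact this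
  rw [hV, Matrix.charpoly_mul_comm, ← mul_assoc, hVV', one_mul, Matrix.charpoly_diagonal]
  rw [Finset.prod_eq_multiset_prod]
  rw [show (Multiset.map (fun i : Fin N => Polynomial.X - Polynomial.C
      (Complex.exp (F (i : ℕ) * Complex.I))) Finset.univ.val)
      = Multiset.map (fun a => Polynomial.X - Polynomial.C a) (Finset.univ.val.map fun a : Fin N =>
      Complex.exp (F (a : ℕ) * Complex.I)) by rw [Multiset.map_map]; rfl]
  rw [Polynomial.roots_multiset_prod_X_sub_C]

theorem DUN_arg (x : ℝ) : ∃ k : ℤ, x = Complex.arg (Complex.exp (x * Complex.I))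
    + 2 * Real.pi * k := by
  have h1 : Complex.exp (x * Complex.I)
      = Complex.exp ((Complex.arg (Complex.exp (x * Complex.I)) : ℝ) * Complex.I) := by
    have h := Complex.norm_mul_exp_arg_mul_I (Complex.exp (x * Complex.I))
    rw [Complex.norm_exp_ofReal_mul_I] at h
    simpa using h.symm
  obtain ⟨k, hk⟩ := Complex.exp_eq_exp_iff_exists_int.1 h1
  refine ⟨k, ?_⟩
  have := congrArg Complex.im hk
  simpa [mul_comm] using this

theorem dia_unique {N : ℕ} (hN : 0 < N) (W : Uni N) (F F' : ℤ → ℝ) (h : Dia W F) (h' : Dia W F')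
    (hS : ∑ a ∈ Finset.range N, F a = ∑ a ∈ Finset.range N, F' a) : F = F' := by
  have hπ : (0 : ℝ) < 2 * Real.pi := by positivity
  have hr : (Finset.univ.val.map fun a : Fin N => Complex.exp (F (a : ℕ) * Complex.I))
      = Finset.univ.val.map fun a : Fin N => Complex.exp (F' (a : ℕ) * Complex.I) := by
    rw [← DUN_roots h, ← DUN_roots h']
  -- sums of functions of the eigenvalues agree
  have hsum : ∀ (G : Type) [AddCommMonoid G] (g : ℂ → G),
      ∑ a ∈ Finset.range N, g (Complex.exp (F a * Complex.I))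
        = ∑ a ∈ Finset.range N, g (Complex.exp (F' a * Complex.I)) := by
    intro G _ g
    rw [Finset.sum_range (fun a : ℕ => g (Complex.exp (F a * Complex.I))),
      Finset.sum_range (fun a : ℕ => g (Complex.exp (F' a * Complex.I)))]
    have := congrArg (fun s : Multiset ℂ => (s.map g).sum) hr
    simp only [Multiset.map_map] at this
    exact this
  choose k hk using fun a : ℕ => DUN_arg (F a)
  choose k' hk' using fun a : ℕ => DUN_arg (F' a)
  have hks : ∑ a ∈ Finset.range N, k a = ∑ a ∈ Finset.range N, k' a := by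
    have e := hS
    rw [Finset.sum_congr rfl fun (a : ℕ) _ => hk a,
      Finset.sum_congr rfl fun (a : ℕ) _ => hk' a,
      Finset.sum_add_distrib, Finset.sum_add_distrib, hsum ℝ Complex.arg, ← Finset.mul_sum,
      ← Finset.mul_sum] at e
    have e2 : (∑ a ∈ Finset.range N, (k a : ℝ)) = ∑ a ∈ Finset.range N, (k' a : ℝ) := by
      have := add_left_cancel e
      exact mul_left_cancel₀ hπ.ne' this
    exact_mod_cast e2
  have hfl : ∀ (t : ℝ), ∑ a ∈ Finset.range N, ⌊(t - F a) / (2 * Real.pi)⌋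
      = ∑ a ∈ Finset.range N, ⌊(t - F' a) / (2 * Real.pi)⌋ := by
    intro t
    have key : ∀ (x : ℝ) (j : ℤ), x = Complex.arg (Complex.exp (x * Complex.I))
        + 2 * Real.pi * j → ⌊(t - x) / (2 * Real.pi)⌋
          = ⌊(t - Complex.arg (Complex.exp (x * Complex.I))) / (2 * Real.pi)⌋ - j := by
      intro x j hx
      have : (t - x) / (2 * Real.pi)
          = (t - Complex.arg (Complex.exp (x * Complex.I))) / (2 * Real.pi) - j := by
        conv_lhs => rw [hx]
        field_simp
        ring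
      rw [this, Int.floor_sub_intCast]
    rw [Finset.sum_congr rfl fun (a : ℕ) _ => key _ _ (hk a),
      Finset.sum_congr rfl fun (a : ℕ) _ => key _ _ (hk' a),
      Finset.sum_sub_distrib, Finset.sum_sub_distrib, hks,
      hsum ℤ fun z => ⌊(t - Complex.arg z) / (2 * Real.pi)⌋]
  funext p
  apply le_antisymm
  · rw [DUN_cnt hN h.mono h.per, hfl, ← DUN_cnt hN h'.mono h'.per]
  · rw [DUN_cnt hN h'.mono h'.per, ← hfl, ← DUN_cnt hN h.mono h.per]

end QGr
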