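import Pool.Agent.LibQGr.R_DEX
import Pool.Agent.LibQGr.R_DUN
import Pool.Agent.LibQGr.R_PHS
import Pool.Agent.LibQGr.R_ENU

/-! Row LIM: compactness of diagonalisations, continuity of the phases and of local functionals. -/

open MeasureTheory Set Filter Topology

namespace QGr


theorem LIM_per_nat {N : ℕ} (F : ℤ → ℝ) (hp : ∀ p, F (p + N) = F p + 2 * Real.pi) (p : ℤ) (k : ℕ) :
    F (p + k * N) = F p + 2 * Real.pi * k := by
  induction k with
  | zero => simp
  | succ n ih =>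
    have h1 : p + ((n + 1 : ℕ) : ℤ) * N = (p + n * N) + N := by push_cast; ring
    rw [h1, hp, ih]
    push_cast
    ring

/-- Bounds for the entries. -/
theorem LIM_bound {N : ℕ} (hN : 0 < N) (F : ℤ → ℝ) (hm : Monotone F)
    (hp : ∀ p, F (p + N) = F p + 2 * Real.pi) (C : ℝ) (hC : |∑ a ∈ Finset.range N, F a| ≤ C) (p : ℤ) :
    F p ∈ Icc (-C - 2 * Real.pi - 2 * Real.pi * p.natAbs) (C + 2 * Real.pi * p.natAbs) := by
  have hpi := Real.pi_pos
  have hNR : (1 : ℝ) ≤ N := by exact_mod_cast hN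
  obtain ⟨hC1, hC2⟩ := abs_le.1 hC
  have h0 : F 0 ≤ C := by
    have h1 : ∑ a ∈ Finset.range N, F 0 ≤ ∑ a ∈ Finset.range N, F a :=
      Finset.sum_le_sum fun a _ => hm (Int.natCast_nonneg a)
    rw [Finset.sum_const, Finset.card_range, nsmul_eq_mul] at h1
    by_contra hcon
    rw [not_le] at hcon
    have hC0 : 0 ≤ C := (abs_nonneg _).trans hC
    nlinarith
  have h2 : -C - 2 * Real.pi ≤ F 0 := by
    have h1 : ∑ a ∈ Finset.range N, F a ≤ ∑ a ∈ Finset.range N, (F 0 + 2 * Real.pi) := by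
      refine Finset.sum_le_sum fun a ha => ?_
      have h3 := hp 0
      rw [← h3]
      refine hm ?_
      rw [zero_add]
      exact_mod_cast (Finset.mem_range.1 ha).le
    rw [Finset.sum_const, Finset.card_range, nsmul_eq_mul] at h1
    have hC0 : 0 ≤ C := (abs_nonneg _).trans hC
    by_contra hcon
    rw [not_le] at hcon
    nlinarith
  have hb : (p.natAbs : ℤ) ≤ (p.natAbs : ℤ) * N := by
    have : (1 : ℤ) ≤ N := by exact_mod_cast hN
    nlinarith [Int.natCast_nonneg p.natAbs]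
  have hb1 : p ≤ p.natAbs := Int.le_natAbs
  have hb2 : -(p.natAbs : ℤ) ≤ p := by
    have := Int.le_natAbs (a := -p)
    rw [Int.natAbs_neg] at this
    linarith
  constructor
  · have h3 := LIM_per_nat F hp (-((p.natAbs : ℤ) * N)) p.natAbs
    rw [neg_add_cancel] at h3
    have h4 : F (-((p.natAbs : ℤ) * N)) ≤ F p := hm (by linarith)
    linarith
  · have h3 := LIM_per_nat F hp 0 p.natAbs
    rw [zero_add] at h3
    have h4 : F p ≤ F ((p.natAbs : ℤ) * N) := hm (by linarith)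
    linarith

theorem LIM_diag_cont {N : ℕ} : Continuous fun q : Uni N × (Fin N → ℝ) =>
    q.1.1 * (Matrix.diagonal fun a : Fin N => Complex.exp (q.2 a * Complex.I)) * q.1.1.conjTranspose := by
  have h1 : Continuous fun q : Uni N × (Fin N → ℝ) => q.1.1 := continuous_subtype_val.comp continuous_fst
  have h2 : Continuous fun q : Uni N × (Fin N → ℝ) => (Matrix.diagonal fun a : Fin N =>
      Complex.exp (q.2 a * Complex.I)) := by
    refine Continuous.matrix_diagonal ?_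
    refine continuous_pi fun a => ?_
    have : Continuous fun q : Uni N × (Fin N → ℝ) => q.2 a := (continuous_apply a).comp continuous_snd
    exact Complex.continuous_exp.comp ((Complex.continuous_ofReal.comp this).mul continuous_const)
  exact (h1.matrix_mul h2).matrix_mul h1.matrix_conjTranspose

/-- Compactness, eventual version. -/
theorem LIM_dia_lim {N : ℕ} (hN : 0 < N) {ι : Type} (𝒰 : Ultrafilter ι) (W : ι → Uni N) (W₀ : Uni N)
    (hW : Tendsto W 𝒰 (𝓝 W₀)) (F : ι → ℤ → ℝ) (hF : ∀ i, Dia (W i) (F i)) (C : ℝ)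
    (hC : ∀ᶠ i in (𝒰 : Filter ι), |∑ a ∈ Finset.range N, F i a| ≤ C) :
    ∃ F₀, Dia W₀ F₀ ∧ ∀ p, Tendsto (fun i => F i p) 𝒰 (𝓝 (F₀ p)) := by
  have h1 : ∀ p : ℤ, ∃ x : ℝ, Tendsto (fun i => F i p) 𝒰 (𝓝 x) := by
    intro p
    have hc : IsCompact (Icc (-C - 2 * Real.pi - 2 * Real.pi * p.natAbs) (C + 2 * Real.pi * p.natAbs)) :=
      isCompact_Icc
    obtain ⟨x, _, hx⟩ := hc.ultrafilter_le_nhds (𝒰.map fun i => F i p) (by
      rw [le_principal_iff, Ultrafilter.coe_map, mem_map]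
      filter_upwards [hC] with i hi
      exact LIM_bound hN (F i) (hF i).mono (hF i).per C hi p)
    exact ⟨x, hx⟩
  choose F₀ hF₀ using h1
  refine ⟨F₀, ⟨?_, ?_, ?_⟩, hF₀⟩
  · intro p q hpq
    exact le_of_tendsto_of_tendsto' (hF₀ p) (hF₀ q) fun i => (hF i).mono hpq
  · intro p
    refine tendsto_nhds_unique (hF₀ (p + N)) ?_
    refine ((hF₀ p).add_const (2 * Real.pi)).congr fun i => ?_
    exact ((hF i).per p).symm
  · choose V hV using fun i => (hF i).dia
    obtain ⟨V₀, _, hV₀⟩ := isCompact_univ.ultrafilter_le_nhds (𝒰.map V) (by simp)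
    have hV₁ : Tendsto V 𝒰 (𝓝 V₀) := hV₀
    refine ⟨V₀, ?_⟩
    have h2 : Tendsto (fun i => (V i, fun a : Fin N => F i (a : ℕ))) 𝒰
        (𝓝 (V₀, fun a : Fin N => F₀ (a : ℕ))) :=
      hV₁.prodMk_nhds (tendsto_pi_nhds.2 fun a => hF₀ _)
    have h3 := (LIM_diag_cont (N := N)).continuousAt.tendsto.comp h2
    have h4 : Tendsto (fun i => (W i).1) 𝒰 (𝓝 W₀.1) :=
      (continuous_subtype_val.tendsto W₀).comp hW
    refine tendsto_nhds_unique h4 (h3.congr fun i => ?_)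
    exact (hV i).symm

/-- Compactness. -/
theorem dia_lim {N : ℕ} (hN : 0 < N) {ι : Type} (𝒰 : Ultrafilter ι) (W : ι → Uni N) (W₀ : Uni N)
    (hW : Tendsto W 𝒰 (𝓝 W₀)) (F : ι → ℤ → ℝ) (hF : ∀ i, Dia (W i) (F i)) (C : ℝ)
    (hC : ∀ i, |∑ a ∈ Finset.range N, F i a| ≤ C) :
    ∃ F₀, Dia W₀ F₀ ∧ ∀ p, Tendsto (fun i => F i p) 𝒰 (𝓝 (F₀ p)) :=
  LIM_dia_lim hN 𝒰 W W₀ hW F hF C (Eventually.of_forall hC)

theorem sel {N : ℕ} (hN : 0 < N) (W : ℝ → Uni N) (hW : Continuous W) (S : ℝ → ℝ)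
    (hS : Continuous S) (hd : ∀ k, (W k).1.det = Complex.exp (S k * Complex.I)) :
    ∃ F : ℤ → ℝ → ℝ, (∀ p, Continuous (F p)) ∧ ∀ k, Dia (W k) fun p => F p k := by
  choose F hF hsum using fun k => dia_exists hN (W k) (S k) (hd k)
  refine ⟨fun p k => F k p, ?_, hF⟩
  intro p
  rw [continuous_iff_continuousAt]
  intro k₀
  change Tendsto (fun k => F k p) (𝓝 k₀) (𝓝 (F k₀ p))
  rw [tendsto_iff_ultrafilter]
  intro 𝒰 h𝒰
  have hS1 : Tendsto S 𝒰 (𝓝 (S k₀)) := (hS.tendsto k₀).mono_left h𝒰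
  have hb : ∀ᶠ k in (𝒰 : Filter ℝ), |∑ a ∈ Finset.range N, F k a| ≤ |S k₀| + 1 := by
    have h1 := hS1.abs.eventually (eventually_le_nhds (show |S k₀| < |S k₀| + 1 by linarith))
    filter_upwards [h1] with k hk
    rw [hsum k]
    exact hk
  obtain ⟨F₀, hD, hlim⟩ := LIM_dia_lim hN 𝒰 W (W k₀) ((hW.tendsto k₀).mono_left h𝒰) F hF _ hb
  have h2 : ∑ a ∈ Finset.range N, F₀ a = S k₀ := by
    refine tendsto_nhds_unique ?_ hS1
    refine (tendsto_finsetSum (Finset.range N) fun a _ => hlim (a : ℤ)).congr fun k => ?_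
    exact hsum k
  have h3 : F₀ = F k₀ := dia_unique hN (W k₀) F₀ (F k₀) hD (hF k₀) (by rw [h2, hsum k₀])
  rw [← h3]
  exact hlim p

theorem LIM_det {N : ℕ} (W : Uni N) : W.1.det = Complex.exp ((Complex.arg W.1.det : ℝ) * Complex.I) := by
  have h1 := Matrix.det_of_mem_unitary W.2
  have h2 : ‖W.1.det‖ = 1 := by
    have h3 : star W.1.det * W.1.det = 1 := h1.1
    have h4 : ‖star W.1.det * W.1.det‖ = 1 := by rw [h3, norm_one]
    rw [norm_mul, norm_star] at h4
    nlinarith [norm_nonneg W.1.det]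
  have h3 := Complex.norm_mul_exp_arg_mul_I W.1.det
  rw [h2, Complex.ofReal_one, one_mul] at h3
  exact h3.symm

theorem loc_cont {N M : ℕ} (hN : 0 < N) (h : (Fin (2 * M + 1) → ℝ) → ℝ) (hh : Continuous h) :
    Continuous fun W : Uni N => loc N M h (phases W.1) := by
  choose F hF hsum using fun W : Uni N => dia_exists hN W _ (LIM_det W)
  have heq : ∀ W : Uni N, loc N M h (fun p => -(N / (2 * Real.pi)) * F W (-p)) = loc N M h (phases W.1) :=
    fun W => loc_phases hN h W.1 _ (dia_phases hN W (F W) (hF W))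
  rw [continuous_iff_continuousAt]
  intro W₀
  change Tendsto (fun W : Uni N => loc N M h (phases W.1)) (𝓝 W₀) (𝓝 (loc N M h (phases W₀.1)))
  rw [tendsto_iff_ultrafilter]
  intro 𝒰 h𝒰
  have hb : ∀ᶠ W in (𝒰 : Filter (Uni N)), |∑ a ∈ Finset.range N, F W a| ≤ Real.pi :=
    Eventually.of_forall fun W => by
      rw [hsum W]
      exact Complex.abs_arg_le_pi _
  obtain ⟨F₀, hD, hlim⟩ := LIM_dia_lim hN 𝒰 (fun W => W) W₀ (tendsto_id.mono_left h𝒰) F hF _ hb
  rw [← loc_phases hN h W₀.1 _ (dia_phases hN W₀ F₀ hD)]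
  refine Tendsto.congr (fun W => heq W) ?_
  unfold loc
  refine Tendsto.const_mul _ ?_
  refine tendsto_finsetSum _ fun a _ => ?_
  refine (hh.tendsto _).comp ?_
  refine tendsto_pi_nhds.2 fun s => ?_
  exact ((hlim _).const_mul _).sub ((hlim _).const_mul _)

end QGr
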