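import Pool.Agent.LibQGr.Def2

open MeasureTheory Set Filter Topology

namespace QGr

/-- Integration of slope bounds. -/
theorem slope_int (f : ℝ → ℝ) (hf : Continuous f) (g : ℝ → ℝ) (hg : Continuous g)
    (h : ∀ (k₀ : ℝ) (𝒰 : Ultrafilter ℝ), (𝒰 : Filter ℝ) ≤ 𝓝[≠] k₀ →
      ∃ s, Tendsto (fun k => (f k - f k₀) / (k - k₀)) 𝒰 (𝓝 s) ∧ s ≤ g k₀) (x y : ℝ) (hxy : x ≤ y) :
    f y - f x ≤ ∫ t in x..y, g t := by
  have key : ∀ k₀ r : ℝ, g k₀ < r → ∀ᶠ k in 𝓝[≠] k₀, (f k - f k₀) / (k - k₀) < r := by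
    intro k₀ r hr
    by_contra hcon
    rw [Filter.not_eventually] at hcon
    have hne : (𝓝[≠] k₀ ⊓ 𝓟 {k | ¬ (f k - f k₀) / (k - k₀) < r}).NeBot := by
      rw [Filter.inf_principal_neBot_iff]
      intro U hU
      exact hcon.and_eventually (Filter.mem_of_superset hU fun _ h => h) |>.exists.imp
        fun k hk => ⟨hk.2, hk.1⟩
    obtain ⟨s, hs, hsg⟩ := h k₀
      (Ultrafilter.of (𝓝[≠] k₀ ⊓ 𝓟 {k | ¬ (f k - f k₀) / (k - k₀) < r}))
      ((Ultrafilter.of_le _).trans inf_le_left)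
    have h1 : ∀ᶠ k in (Ultrafilter.of (𝓝[≠] k₀ ⊓ 𝓟 {k | ¬ (f k - f k₀) / (k - k₀) < r}) :
        Filter ℝ), r ≤ (f k - f k₀) / (k - k₀) := by
      have h2 : (Ultrafilter.of (𝓝[≠] k₀ ⊓ 𝓟 {k | ¬ (f k - f k₀) / (k - k₀) < r}) : Filter ℝ)
          ≤ 𝓟 {k | ¬ (f k - f k₀) / (k - k₀) < r} := (Ultrafilter.of_le _).trans inf_le_right
      filter_upwards [h2 (Filter.mem_principal_self _)] with k hk
      exact not_lt.1 hk
    have := ge_of_tendsto hs h1
    linarith
  have hB : ∀ t, HasDerivAt (fun t => f x + ∫ u in x..t, g u) (g t) t := by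
    intro t
    exact (intervalIntegral.integral_hasDerivAt_right (hg.intervalIntegrable _ _)
      hg.aestronglyMeasurable.stronglyMeasurableAtFilter hg.continuousAt).const_add _
  have := image_le_of_liminf_slope_right_le_deriv_boundary (f := f) (a := x) (b := y)
    hf.continuousOn (B := fun t => f x + ∫ u in x..t, g u) (B' := g) (by simp)
    (fun t _ => (hB t).continuousAt.continuousWithinAt)
    (fun t _ => (hB t).hasDerivWithinAt) (by
      intro t _ r hr
      have h1 := key t r hr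
      have h2 : ∀ᶠ k in 𝓝[>] t, (f k - f t) / (k - t) < r :=
        h1.filter_mono (nhdsWithin_mono _ fun k hk => ne_of_gt hk)
      refine (h2.mono fun k hk => ?_).frequently
      rw [slope_def_field]
      exact hk) (right_mem_Icc.2 hxy)
  linarith

end QGr
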