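import Pool.Agent.LibQGr.R_SLG
import Pool.Agent.LibQGr.R_INT
import Pool.Agent.LibQGr.R_LIM
import Pool.Agent.LibQGr.R_HRT

open MeasureTheory Set Filter Topology

namespace QGr

theorem PLP_mul {N : ℕ} {A B : ℝ → Matrix (Fin N) (Fin N) ℂ} {A' B' : Matrix (Fin N) (Fin N) ℂ}
    {s : ℝ} (hA : ∀ i j, HasDerivAt (fun s => A s i j) (A' i j) s)
    (hB : ∀ i j, HasDerivAt (fun s => B s i j) (B' i j) s) (i j : Fin N) :
    HasDerivAt (fun s => (A s * B s) i j) ((A' * B s + A s * B') i j) s := by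
  have h := HasDerivAt.fun_sum (u := Finset.univ) fun a (_ : a ∈ Finset.univ) =>
    (hA i a).mul (hB a j)
  simp only [Matrix.mul_apply, Matrix.add_apply]
  rw [← Finset.sum_add_distrib]
  exact h

/-- The path of diagonal unitary matrices. -/
noncomputable def PLP_t {N : ℕ} (φ : Fin N → ℝ) (s : ℝ) : Fin N → UnitAddCircle :=
  fun a => ((s * φ a / (2 * Real.pi) : ℝ) : UnitAddCircle)

theorem PLP_dg {N : ℕ} (φ : Fin N → ℝ) (s : ℝ) : (dg (PLP_t φ s)).1
    = Matrix.diagonal fun a => Complex.exp ((s * φ a : ℝ) * Complex.I) := by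
  have h : (dg (PLP_t φ s)).1 = Matrix.diagonal fun a =>
    ((AddCircle.toCircle (PLP_t φ s a) : Circle) : ℂ) := rfl
  rw [h]
  congr 1
  funext a
  unfold PLP_t
  rw [AddCircle.toCircle_apply_mk, Circle.coe_exp]
  have h1 : (2 * Real.pi / 1 * (s * φ a / (2 * Real.pi)) : ℝ) = s * φ a := by field_simp
  rw [h1]

theorem PLP_dgd {N : ℕ} (φ : Fin N → ℝ) (s : ℝ) (i j : Fin N) :
    HasDerivAt (fun s => (dg (PLP_t φ s)).1 i j)
      ((Complex.I • ((Matrix.diagonal fun a => (φ a : ℂ)) * (dg (PLP_t φ s)).1)) i j) s := by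
  simp only [PLP_dg]
  rw [Matrix.diagonal_mul_diagonal]
  by_cases h : i = j
  · subst h
    simp only [Matrix.smul_apply, Matrix.diagonal_apply_eq, smul_eq_mul]
    have h1 : HasDerivAt (fun s : ℝ => ((s * φ i : ℝ) : ℂ) * Complex.I)
        ((φ i : ℂ) * Complex.I) s := by
      have h2 : HasDerivAt (fun s : ℝ => s * φ i) (φ i) s := by
        simpa using (hasDerivAt_id s).mul_const (φ i)
      exact h2.ofReal_comp.mul_const Complex.I
    have h3 := h1.cexp
    convert h3 using 1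
    ring
  · simp only [Matrix.smul_apply, Matrix.diagonal_apply_ne _ h, smul_zero]
    exact hasDerivAt_const _ _

/-- The transposed unitary matrix. -/
noncomputable def PLP_T {N : ℕ} (A : Uni N) : Uni N :=
  ⟨A.1.transpose, by
    rw [Matrix.mem_unitaryGroup_iff]
    have := A.2
    rw [Matrix.mem_unitaryGroup_iff'] at this
    have h2 := congrArg Matrix.transpose this
    rw [Matrix.transpose_mul, Matrix.transpose_one] at h2
    have h3 : star A.1.transpose = (star A.1).transpose := by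
      ext i j; simp [Matrix.star_apply]
    rw [h3]
    exact h2⟩

theorem PLP_fro_conj {N : ℕ} (U V : Uni N) (M : Matrix (Fin N) (Fin N) ℂ) :
    fro (U.1 * M * V.1) = fro M := by
  unfold fro
  rw [DS_right, DS_left]

theorem PLP_fro_tr {N : ℕ} (H : Matrix (Fin N) (Fin N) ℂ) :
    fro (H.transpose + H) ≤ 2 * fro H := by
  unfold fro
  have h1 : ∑ i, ∑ j, ‖(H.transpose + H) i j‖ ^ 2 ≤ 2 ^ 2 * ∑ i, ∑ j, ‖H i j‖ ^ 2 := by
    have h2 : ∀ i j, ‖(H.transpose + H) i j‖ ^ 2 ≤ 2 * ‖H j i‖ ^ 2 + 2 * ‖H i j‖ ^ 2 := by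
      intro i j
      have h3 : ‖(H.transpose + H) i j‖ ≤ ‖H j i‖ + ‖H i j‖ := norm_add_le _ _
      have h4 := pow_le_pow_left₀ (norm_nonneg _) h3 2
      nlinarith [sq_nonneg (‖H j i‖ - ‖H i j‖)]
    calc ∑ i, ∑ j, ‖(H.transpose + H) i j‖ ^ 2
        ≤ ∑ i, ∑ j, (2 * ‖H j i‖ ^ 2 + 2 * ‖H i j‖ ^ 2) :=
          Finset.sum_le_sum fun i _ => Finset.sum_le_sum fun j _ => h2 i j
      _ = 2 * (∑ i, ∑ j, ‖H j i‖ ^ 2) + 2 * ∑ i, ∑ j, ‖H i j‖ ^ 2 := by
          simp only [Finset.sum_add_distrib, Finset.mul_sum]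
      _ = 2 ^ 2 * ∑ i, ∑ j, ‖H i j‖ ^ 2 := by
          rw [Finset.sum_comm]; ring
  calc √(∑ i, ∑ j, ‖(H.transpose + H) i j‖ ^ 2) ≤ √(2 ^ 2 * ∑ i, ∑ j, ‖H i j‖ ^ 2) :=
        Real.sqrt_le_sqrt h1
    _ = 2 * √(∑ i, ∑ j, ‖H i j‖ ^ 2) := by
        rw [Real.sqrt_mul (by norm_num), Real.sqrt_sq (by norm_num)]

theorem PLP_fro_diag {N : ℕ} (φ : Fin N → ℝ) :
    fro (Matrix.diagonal fun a => (φ a : ℂ)) = √(∑ a, φ a ^ 2) := by
  unfold fro
  congr 1
  refine Finset.sum_congr rfl fun i _ => ?_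
  rw [Finset.sum_eq_single i]
  · rw [Matrix.diagonal_apply_eq]
    simp
  · intro j _ hj
    rw [Matrix.diagonal_apply_ne _ hj.symm]
    simp
  · intro h; exact absurd (Finset.mem_univ _) h

theorem PLP_cont {N : ℕ} (φ : Fin N → ℝ) : Continuous fun s => dg (PLP_t φ s) := by
  refine dg_cont.comp ?_
  refine continuous_pi fun a => ?_
  refine (AddCircle.continuous_mk' (1 : ℝ)).comp ?_
  fun_prop

theorem PLP_main {N : ℕ} (hN : 0 < N) (V : Uni N) (φ : Fin N → ℝ) (A : Uni N) :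
    ∃ F : ℤ → ℝ → ℝ, (∀ s, Dia (sy (V * dg (PLP_t φ s) * V⁻¹ * A)) fun p => F p s) ∧
      ∀ p, |F p 1 - F p 0| ≤ 2 * √(∑ a, φ a ^ 2) := by
  set C : ℝ → Uni N := fun s => V * dg (PLP_t φ s) * V⁻¹ * A with hC
  have hCc : Continuous C := by
    have := PLP_cont φ
    fun_prop
  have hW : Continuous fun s => sy (C s) := sy_cont.comp hCc
  have hdet : ∀ s, (sy (C s)).1.det = Complex.exp ((2 * (s * ∑ a, φ a + Complex.arg A.1.det) : ℝ)
      * Complex.I) := by
    intro s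
    have h1 : (sy (C s)).1.det = (C s).1.det * (C s).1.det := by
      change ((C s).1.transpose * (C s).1).det = _
      rw [Matrix.det_mul, Matrix.det_transpose]
    have h2 : (C s).1.det = Complex.exp ((s * ∑ a, φ a : ℝ) * Complex.I) * A.1.det := by
      change (V.1 * (dg (PLP_t φ s)).1 * (V⁻¹).1 * A.1).det = _
      rw [Matrix.det_mul, Matrix.det_mul, Matrix.det_mul, PLP_dg, Matrix.det_diagonal]
      have h3 : V.1.det * (V⁻¹).1.det = 1 := by
        rw [← Matrix.det_mul]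
        have : V.1 * (V⁻¹).1 = 1 := by
          have h := congrArg Subtype.val (mul_inv_cancel V)
          exact h
        rw [this, Matrix.det_one]
      rw [← Complex.exp_sum]
      have h4 : ∑ a, ((s * φ a : ℝ) : ℂ) * Complex.I = ((s * ∑ a, φ a : ℝ) : ℂ) * Complex.I := by
        rw [← Finset.sum_mul]
        congr 1
        push_cast
        rw [Finset.mul_sum]
      rw [h4]
      calc V.1.det * Complex.exp (((s * ∑ a, φ a : ℝ) : ℂ) * Complex.I) * (V⁻¹).1.det * A.1.det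
          = (V.1.det * (V⁻¹).1.det) * (Complex.exp (((s * ∑ a, φ a : ℝ) : ℂ) * Complex.I)
              * A.1.det) := by ring
        _ = _ := by rw [h3, one_mul]
    rw [h1, h2, LIM_det A]
    have h5 : Complex.arg (Complex.exp ((Complex.arg A.1.det : ℝ) * Complex.I))
        = Complex.arg A.1.det := by rw [← LIM_det A]
    rw [h5, ← Complex.exp_add, ← Complex.exp_add]
    congr 1
    push_cast
    ring
  obtain ⟨F, hF, hD⟩ := sel hN (fun s => sy (C s)) hW
    (fun s => 2 * (s * ∑ a, φ a + Complex.arg A.1.det)) (by fun_prop) hdet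
  refine ⟨F, hD, ?_⟩
  -- the derivative
  set H : Matrix (Fin N) (Fin N) ℂ := V.1 * (Matrix.diagonal fun a => (φ a : ℂ)) * (V⁻¹).1 with hH
  have hCd : ∀ s i j, HasDerivAt (fun s => (C s).1 i j)
      ((Complex.I • (H * (C s).1)) i j) s := by
    intro s i j
    have z : ∀ (M : Matrix (Fin N) (Fin N) ℂ) (i j : Fin N),
        HasDerivAt (fun _ : ℝ => M i j) ((0 : Matrix (Fin N) (Fin N) ℂ) i j) s :=
      fun M i j => by simpa using hasDerivAt_const s (M i j)
    have h1 := PLP_mul (PLP_mul (PLP_mul (z V.1) (PLP_dgd φ s)) (z (V⁻¹).1)) (z A.1) i j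
    have hVV : (V⁻¹).1 * V.1 = 1 := congrArg Subtype.val (inv_mul_cancel V)
    have e1 : V.1 * (Matrix.diagonal fun a => (φ a : ℂ)) * (V⁻¹).1
          * (V.1 * (dg (PLP_t φ s)).1 * (V⁻¹).1 * A.1)
        = V.1 * ((Matrix.diagonal fun a => (φ a : ℂ)) * (dg (PLP_t φ s)).1) * (V⁻¹).1 * A.1 := by
      calc V.1 * (Matrix.diagonal fun a => (φ a : ℂ)) * (V⁻¹).1
          * (V.1 * (dg (PLP_t φ s)).1 * (V⁻¹).1 * A.1)
          = V.1 * (Matrix.diagonal fun a => (φ a : ℂ)) * ((V⁻¹).1 * V.1)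
            * ((dg (PLP_t φ s)).1 * (V⁻¹).1 * A.1) := by simp only [Matrix.mul_assoc]
        _ = _ := by
            rw [hVV]
            simp only [Matrix.mul_assoc, Matrix.one_mul]
    have e2 : Complex.I • (H * (C s).1) =
        (((0 * (dg (PLP_t φ s)).1 + V.1 * Complex.I • ((Matrix.diagonal fun a => (φ a : ℂ))
          * (dg (PLP_t φ s)).1)) * (V⁻¹).1 + V.1 * (dg (PLP_t φ s)).1 * 0) * A.1
          + V.1 * (dg (PLP_t φ s)).1 * (V⁻¹).1 * 0) := by
      change Complex.I • (V.1 * (Matrix.diagonal fun a => (φ a : ℂ)) * (V⁻¹).1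
        * (V.1 * (dg (PLP_t φ s)).1 * (V⁻¹).1 * A.1)) = _
      rw [e1]
      simp only [Matrix.zero_mul, Matrix.mul_zero, zero_add, add_zero, Matrix.mul_smul,
        Matrix.smul_mul]
    rw [e2]
    exact h1
  have hWd : ∀ s i j, HasDerivAt (fun s => (sy (C s)).1 i j)
      ((Complex.I • ((C s).1.transpose * (H.transpose + H) * (C s).1)) i j) s := by
    intro s i j
    have h1 := PLP_mul (A := fun s => (C s).1.transpose) (B := fun s => (C s).1)
      (A' := (Complex.I • (H * (C s).1)).transpose) (B' := Complex.I • (H * (C s).1))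
      (s := s) (fun i j => hCd s j i) (hCd s) i j
    have e2 : Complex.I • ((C s).1.transpose * (H.transpose + H) * (C s).1)
        = (Complex.I • (H * (C s).1)).transpose * (C s).1
          + (C s).1.transpose * Complex.I • (H * (C s).1) := by
      rw [Matrix.transpose_smul, Matrix.transpose_mul H (C s).1, Matrix.mul_smul, Matrix.smul_mul,
        ← smul_add, Matrix.mul_add, Matrix.add_mul, Matrix.mul_assoc (C s).1.transpose H]
    rw [e2]
    exact h1
  set G : ℝ := 2 * √(∑ a, φ a ^ 2) with hG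
  have hfro : ∀ s, fro (Complex.I • ((C s).1.transpose * (H.transpose + H) * (C s).1)) ≤ G := by
    intro s
    have h1 : fro (Complex.I • ((C s).1.transpose * (H.transpose + H) * (C s).1))
        = fro ((PLP_T (C s)).1 * (H.transpose + H) * (C s).1) := by
      unfold fro
      congr 1
      refine Finset.sum_congr rfl fun i _ => Finset.sum_congr rfl fun j _ => ?_
      rw [Matrix.smul_apply, smul_eq_mul, norm_mul, Complex.norm_I, one_mul]
      rfl
    rw [h1, PLP_fro_conj]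
    refine (PLP_fro_tr H).trans ?_
    rw [hH, PLP_fro_conj, PLP_fro_diag]
  have hsl : ∀ (p : ℤ) (k₀ : ℝ) (𝒰 : Ultrafilter ℝ), (𝒰 : Filter ℝ) ≤ 𝓝[≠] k₀ →
      ∃ s, Tendsto (fun k => (F p k - F p k₀) / (k - k₀)) 𝒰 (𝓝 s) ∧ |s| ≤ G := by
    intro p k₀ 𝒰 h𝒰
    obtain ⟨s, v, h1, h2, -, h4⟩ := slope_gen hN (fun s => sy (C s)) _ k₀ hW
      (fun i j => hWd k₀ i j) F hF hD p 𝒰 h𝒰
    refine ⟨s, h1, ?_⟩
    have h5 := fro_form (Complex.I • ((C k₀).1.transpose * (H.transpose + H) * (C k₀).1)) v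
    rw [← h4, h2, mul_one, norm_mul, norm_mul, Complex.norm_exp_ofReal_mul_I, Complex.norm_I,
      mul_one, mul_one, Complex.norm_real, Real.norm_eq_abs] at h5
    exact h5.trans (hfro k₀)
  intro p
  rw [abs_le]
  constructor
  · have h := slope_int (fun k => -F p k) (hF p).neg (fun _ => G) continuous_const
      (fun k₀ 𝒰 h => by
        obtain ⟨s, h1, h2⟩ := hsl p k₀ 𝒰 h
        refine ⟨-s, ?_, ?_⟩
        · refine (h1.neg).congr fun k => ?_
          rw [← neg_div]; ring_nf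
        · have := (abs_le.1 h2).1
          linarith) 0 1 zero_le_one
    rw [intervalIntegral.integral_const, smul_eq_mul] at h
    linarith
  · have h := slope_int (F p) (hF p) (fun _ => G) continuous_const
      (fun k₀ 𝒰 h => by
        obtain ⟨s, h1, h2⟩ := hsl p k₀ 𝒰 h
        exact ⟨s, h1, (abs_le.1 h2).2⟩) 0 1 zero_le_one
    rw [intervalIntegral.integral_const, smul_eq_mul] at h
    linarith

/-- The eigenphases of `Aᵀ A` are Lipschitz along a geodesic of the unitary group. -/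
theorem phase_lip {N : ℕ} (hN : 0 < N) (A B : Uni N) : ∃ y y' : ℤ → ℝ,
    IsPhases (sy A).1 y ∧ IsPhases (sy B).1 y' ∧ ∀ p, |y p - y' p| ≤ N / 2 * √(ds A B) := by
  obtain ⟨V, φ, hφ, hVφ⟩ := HRT_diag (B * A⁻¹)
  obtain ⟨F, hD, hF⟩ := PLP_main hN V φ A
  have hNR : (0 : ℝ) < N := by exact_mod_cast hN
  have hpi := Real.pi_pos
  have e0 : V * dg (PLP_t φ 0) * V⁻¹ * A = A := by
    have : PLP_t φ 0 = 0 := by
      funext a
      unfold PLP_t
      simp
    rw [this, dg_zero]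
    simp
  have e1 : V * dg (PLP_t φ 1) * V⁻¹ * A = B := by
    have : PLP_t φ 1 = fun a => ((φ a / (2 * Real.pi) : ℝ) : UnitAddCircle) := by
      funext a
      unfold PLP_t
      rw [one_mul]
    rw [this, ← hVφ]
    simp
  have hA := hD 0
  have hB := hD 1
  rw [e0] at hA
  rw [e1] at hB
  refine ⟨_, _, dia_phases hN _ _ hA, dia_phases hN _ _ hB, fun p => ?_⟩
  have h1 : ∑ a, φ a ^ 2 ≤ (Real.pi / 2) ^ 2 * ds A B := by
    rw [ds_qot, hVφ, qot_conj, HRT_qot, Finset.mul_sum, Finset.mul_sum]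
    refine Finset.sum_le_sum fun a _ => ?_
    have h2 := Real.cos_le_one_sub_mul_cos_sq (hφ a)
    have h3 : 2 / Real.pi ^ 2 * φ a ^ 2 ≤ 1 - Real.cos (φ a) := by linarith
    rw [div_mul_eq_mul_div, div_le_iff₀ (by positivity)] at h3
    nlinarith
  have h2 : √(∑ a, φ a ^ 2) ≤ Real.pi / 2 * √(ds A B) := by
    calc √(∑ a, φ a ^ 2) ≤ √((Real.pi / 2) ^ 2 * ds A B) := Real.sqrt_le_sqrt h1
      _ = _ := by rw [Real.sqrt_mul (by positivity), Real.sqrt_sq (by positivity)]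
  have h3 := hF (-p)
  have h4 : -(N / (2 * Real.pi)) * F (-p) 0 - -(N / (2 * Real.pi)) * F (-p) 1
      = N / (2 * Real.pi) * (F (-p) 1 - F (-p) 0) := by ring
  change |-(N / (2 * Real.pi)) * F (-p) 0 - -(N / (2 * Real.pi)) * F (-p) 1| ≤ _
  rw [h4, abs_mul, abs_of_pos (by positivity : (0 : ℝ) < N / (2 * Real.pi))]
  calc N / (2 * Real.pi) * |F (-p) 1 - F (-p) 0|
      ≤ N / (2 * Real.pi) * (2 * (Real.pi / 2 * √(ds A B))) := by gcongr; linarith
    _ = _ := by field_simp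

theorem loc_lip {N M : ℕ} (hN : 0 < N) (h : (Fin (2 * M + 1) → ℝ) → ℝ) (Λ : ℝ) (hΛ : 0 ≤ Λ)
    (hh : ∀ u v, |h u - h v| ≤ Λ * dist u v) (A B : Uni N) :
    |loc N M h (phases (sy A).1) - loc N M h (phases (sy B).1)| ≤ Λ * N * √(ds A B) := by
  obtain ⟨y, y', hy, hy', hd⟩ := phase_lip hN A B
  have hNR : (0 : ℝ) < N := by exact_mod_cast hN
  rw [← loc_phases hN h (sy A).1 y hy, ← loc_phases hN h (sy B).1 y' hy']
  unfold loc
  rw [← mul_sub, ← Finset.sum_sub_distrib, abs_mul, abs_of_pos (by positivity)]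
  have hds : 0 ≤ √(ds A B) := Real.sqrt_nonneg _
  have h1 : ∀ a ∈ Finset.range N, |(h fun s => y (a + s - M) - y a)
      - (h fun s => y' (a + s - M) - y' a)| ≤ Λ * (N * √(ds A B)) := by
    intro a _
    refine (hh _ _).trans (mul_le_mul_of_nonneg_left ?_ hΛ)
    rw [dist_pi_le_iff (by positivity)]
    intro s
    rw [Real.dist_eq]
    have h2 := hd (a + s - M)
    have h3 := hd a
    rw [abs_le] at h2 h3 ⊢
    constructor <;> linarith [h2.1, h2.2, h3.1, h3.2]
  calc 1 / (N : ℝ) * |∑ a ∈ Finset.range N, ((h fun s => y (a + s - M) - y a)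
        - (h fun s => y' (a + s - M) - y' a))|
      ≤ 1 / (N : ℝ) * ∑ a ∈ Finset.range N, Λ * (N * √(ds A B)) := by
        refine mul_le_mul_of_nonneg_left ?_ (by positivity)
        exact (Finset.abs_sum_le_sum_abs _ _).trans (Finset.sum_le_sum h1)
    _ = Λ * N * √(ds A B) := by
        rw [Finset.sum_const, Finset.card_range, nsmul_eq_mul]
        field_simp

end QGr
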