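import Pool.Agent.LibQGr.R_ENU

/-! Row ZER: the levels of a system of phase functions. -/

open MeasureTheory Set Filter Topology

namespace QGr


section

variable {N : ℕ} {c : ℝ} {Φ : ℤ → ℝ → ℝ} {w : ℝ → ℝ}

theorem ZER_lt (hc : 0 < c) (hS : Sys N c Φ w) (p : ℤ) {s t : ℝ} (h : s < t) : Φ p s < Φ p t := by
  have h1 := hS.low p s t h.le
  have h2 : 0 < c * (t - s) := mul_pos hc (sub_pos.2 h)
  linarith

theorem ZER_inj (hc : 0 < c) (hS : Sys N c Φ w) (p : ℤ) {s t : ℝ} (h : Φ p s = Φ p t) :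
    s = t := by
  rcases lt_trichotomy s t with h1 | h1 | h1
  · exact absurd h (ZER_lt hc hS p h1).ne
  · exact h1
  · exact absurd h (ZER_lt hc hS p h1).ne'

theorem ZER_zero (hc : 0 < c) (hS : Sys N c Φ w) (p : ℤ) : ∃ t, Φ p t = 0 := by
  set R := |Φ p 0| / c with hR
  have hR0 : 0 ≤ R := by positivity
  have hcR : c * R = |Φ p 0| := by rw [hR]; field_simp
  have h1 := hS.low p 0 R hR0
  have h2 := hS.low p (-R) 0 (by linarith)
  have h3 := neg_abs_le (Φ p 0)
  have h4 := le_abs_self (Φ p 0)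
  have h5 : c * (R - 0) = |Φ p 0| := by rw [sub_zero, hcR]
  have h6 : c * (0 - -R) = |Φ p 0| := by rw [zero_sub, neg_neg, hcR]
  rw [h5] at h1
  rw [h6] at h2
  have h7 := intermediate_value_Icc (f := Φ p) (a := -R) (b := R) (by linarith)
    (hS.cont p).continuousOn
  obtain ⟨t, _, ht⟩ := h7 (show (0 : ℝ) ∈ Icc (Φ p (-R)) (Φ p R) from
    ⟨by linarith, by linarith⟩)
  exact ⟨t, ht⟩

theorem ZER_step (hS : Sys N c Φ w) (X : ℤ → ℝ)
    (hX : ∀ p, Φ (-p) (X p) = 0) (hm : Monotone X) (p : ℤ) :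
    c * N ≤ X (p + N) - X p ∧ c * (X (p + N) - X p) ≤ N := by
  have h1 : X p ≤ X (p + N) := hm (by omega)
  have h2 : Φ (-p) (X (p + N)) = N := by
    have h3 := hS.per (-(p + N)) (X (p + N))
    rw [hX, zero_add] at h3
    have h4 : -(p + N) + (N : ℤ) = -p := by ring
    rw [h4] at h3
    exact h3
  have h5 := hS.up (-p) _ _ h1
  have h6 := hS.low (-p) _ _ h1
  rw [h2, hX, sub_zero] at h5 h6
  exact ⟨h5, h6⟩

theorem zeros {N : ℕ} (hN : 0 < N) {c : ℝ} (hc : 0 < c) {Φ : ℤ → ℝ → ℝ} {w : ℝ → ℝ}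
    (hS : Sys N c Φ w) : ∃ X : ℤ → ℝ, (∀ p, Φ (-p) (X p) = 0) ∧ Monotone X ∧
      ∀ p, c * N ≤ X (p + N) - X p ∧ c * (X (p + N) - X p) ≤ N := by
  have h1 := fun p : ℤ => ZER_zero hc hS (-p)
  choose X hX using h1
  have hm : Monotone X := by
    intro p p' hp
    by_contra hcon
    push Not at hcon
    have h2 : Φ (-p') (X p') ≤ Φ (-p) (X p') := hS.mono (X p') (neg_le_neg hp)
    have h3 := ZER_lt hc hS (-p) hcon
    rw [hX] at h2 h3
    linarith
  exact ⟨X, hX, hm, ZER_step hS X hX hm⟩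

theorem ZER_up (hS : Sys N c Φ w) (X : ℤ → ℝ)
    (hX : ∀ p, Φ (-p) (X p) = 0) (hm : Monotone X) (k : ℕ) (p : ℤ) :
    X p + k * (c * N) ≤ X (p + k * N) := by
  induction k with
  | zero => simp
  | succ k ih =>
    have h1 := (ZER_step hS X hX hm (p + k * N)).1
    have h2 : p + ((k + 1 : ℕ) : ℤ) * N = p + k * N + N := by push_cast; ring
    rw [h2]
    push_cast
    linarith

/-- The first positive level. -/
theorem ZER_first (hN : 0 < N) (hc : 0 < c) (hS : Sys N c Φ w) (X : ℤ → ℝ)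
    (hX : ∀ p, Φ (-p) (X p) = 0) (hm : Monotone X) : ∃ s : ℤ, 0 < X s ∧ X (s - 1) ≤ 0 := by
  have hcN : 0 < c * N := mul_pos hc (by exact_mod_cast hN)
  obtain ⟨k, hk⟩ := exists_nat_gt (|X 0| / (c * N))
  rw [div_lt_iff₀ hcN] at hk
  have h1 := ZER_up hS X hX hm k 0
  have h2 := ZER_up hS X hX hm k (-(k * N))
  have h3 := neg_abs_le (X 0)
  have h4 := le_abs_self (X 0)
  have e : -((k : ℤ) * N) + k * N = 0 := by ring
  rw [e] at h2
  obtain ⟨s, hs1, hs2⟩ := Int.exists_least_of_bdd (P := fun z => 0 < X z)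
    ⟨-(k * N), fun z hz => by
      by_contra hcon
      push Not at hcon
      have h5 : X z ≤ X (-((k : ℤ) * N)) := hm hcon.le
      have h6 : 0 < X z := hz
      linarith⟩
    ⟨0 + k * N, by
      have : 0 < X (0 + (k : ℤ) * N) := by linarith
      exact this⟩
  refine ⟨s, hs1, ?_⟩
  by_contra hcon
  push Not at hcon
  have := hs2 (s - 1) hcon
  omega

theorem ZER_mult (hc : 0 < c) (hS : Sys N c Φ w) (X : ℤ → ℝ)
    (hX : ∀ p, Φ (-p) (X p) = 0) (hm : Monotone X) (s : ℤ) (hs : X (s - 1) ≤ 0) (t : ℝ)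
    (ht : 0 < t) : {n : ℕ | X (n + s) = t}.encard = {p : ℤ | Φ p t = 0}.encard := by
  have himg : {p : ℤ | Φ p t = 0} = (fun n : ℕ => -((n : ℤ) + s)) '' {n : ℕ | X (n + s) = t} := by
    ext p
    rw [mem_setOf_eq, mem_image]
    constructor
    · intro hp
      have h1 : X (-p) = t := by
        apply ZER_inj hc hS p
        have h2 := hX (-p)
        rw [neg_neg] at h2
        rw [h2, hp]
      have h3 : s ≤ -p := by
        by_contra hcon
        push Not at hcon
        have h4 : X (-p) ≤ X (s - 1) := hm (by omega)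
        linarith
      refine ⟨(-p - s).toNat, ?_, ?_⟩
      · rw [mem_setOf_eq, Int.toNat_of_nonneg (by omega)]
        rw [sub_add_cancel]
        exact h1
      · rw [Int.toNat_of_nonneg (by omega)]
        ring
    · rintro ⟨n, hn, rfl⟩
      rw [mem_setOf_eq] at hn
      have h1 := hX (n + s)
      rw [hn] at h1
      exact h1
  rw [himg, Function.Injective.encard_image]
  intro a b hab
  simp only [neg_inj, add_left_inj, Nat.cast_inj] at hab
  exact hab

theorem lists_exist {N : ℕ} (hN : 0 < N) {c : ℝ} (hc : 0 < c) {Φ : ℤ → ℝ → ℝ} {w : ℝ → ℝ}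
    (hS : Sys N c Φ w) : ∃ x, Lists Φ x := by
  obtain ⟨X, hX, hm, _⟩ := zeros hN hc hS
  obtain ⟨s, hs1, hs2⟩ := ZER_first hN hc hS X hX hm
  refine ⟨fun n => X (n + s), ?_, ?_, ?_⟩
  · intro a b hab
    exact hm (by omega)
  · intro n
    exact hs1.trans_le (hm (by omega))
  · intro t ht
    exact ZER_mult hc hS X hX hm s hs2 t ht

theorem lists_eq {N : ℕ} (hN : 0 < N) {c : ℝ} (hc : 0 < c) {Φ : ℤ → ℝ → ℝ} {w : ℝ → ℝ}
    (hS : Sys N c Φ w) (X : ℤ → ℝ) (hX : ∀ p, Φ (-p) (X p) = 0) (hm : Monotone X)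
    (x : ℕ → ℝ) (hx : Lists Φ x) : ∃ s : ℤ, (∀ n : ℕ, x n = X (n + s)) ∧ X (s - 1) ≤ 0 := by
  obtain ⟨s, hs1, hs2⟩ := ZER_first hN hc hS X hX hm
  refine ⟨s, fun n => ?_, hs2⟩
  have h1 : x = fun n : ℕ => X (n + s) := by
    apply enum_eq
    · exact hx.mono
    · intro a b hab
      exact hm (by omega)
    · intro t
      rcases lt_or_ge 0 t with ht | ht
      · rw [hx.mult t ht, ZER_mult hc hS X hX hm s hs2 t ht]
      · have e1 : {n : ℕ | x n = t} = ∅ := by
          rw [eq_empty_iff_forall_notMem]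
          intro n hn
          rw [mem_setOf_eq] at hn
          have := hx.pos n
          linarith
        have e2 : {n : ℕ | X (n + s) = t} = ∅ := by
          rw [eq_empty_iff_forall_notMem]
          intro n hn
          rw [mem_setOf_eq] at hn
          have h3 : X s ≤ X (n + s) := hm (by omega)
          linarith
        rw [e1, e2]
  exact congrFun h1 n

end

theorem cnt_iff (x : ℕ → ℝ) (hx : Monotone x) (ht : Tendsto x atTop atTop) (T : ℝ) (n : ℕ) :
    n < cnt x T ↔ x n ≤ T := by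
  classical
  have hex : ∃ m, T < x m := (ht.eventually (eventually_gt_atTop T)).exists
  have h1 : {n | x n ≤ T} = (Finset.range (Nat.find hex) : Set ℕ) := by
    ext k
    rw [mem_setOf_eq, Finset.coe_range, mem_Iio, Nat.lt_find_iff]
    constructor
    · intro hk m hm
      exact not_lt.2 ((hx hm).trans hk)
    · intro hk
      exact not_lt.1 (hk k le_rfl)
  have h2 : cnt x T = Nat.find hex := by
    unfold cnt
    rw [h1, Set.ncard_coe_finset, Finset.card_range]
  have h3 : x n ≤ T ↔ n ∈ {n | x n ≤ T} := Iff.rfl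
  rw [h3, h1, h2, Finset.coe_range, mem_Iio]

end QGr
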