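import Pool.Agent.LibQGr.R_AV2
import Pool.Agent.LibQGr.R_COR
import Pool.Agent.LibQGr.R_LIM
import Pool.Agent.LibQGr.R_PHS
import Pool.Agent.LibQGr.R_PLP
import Pool.Agent.LibQGr.R_ZER
import Pool.Agent.LibQGr.Def3

/-! Rows SPA: spacings and correlations from the averages of local functionals, explicit constants. -/

open MeasureTheory Set Filter Topology

namespace QGr


theorem SPA_hsp {N : ℕ} (hN : 0 < N) (f : ℝ → ℝ) (y : ℤ → ℝ) (a : ℤ) :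
    hsp N f (fun j => y (a + j - (N * 1 : ℕ)) - y a) = f (y (a + 1) - y a) := by
  have h : N + 1 < 2 * (N * 1) + 1 := by omega
  have h2 : a + ((N + 1 : ℕ) : ℤ) - ((N * 1 : ℕ) : ℤ) = a + 1 := by
    rw [mul_one]
    omega
  unfold hsp
  rw [dif_pos h]
  change f (y (a + ((N + 1 : ℕ) : ℤ) - ((N * 1 : ℕ) : ℤ)) - y a) = _
  rw [h2]

theorem spac_loc {N : ℕ} (hN : 0 < N) (f : ℝ → ℝ) (K : ℝ) (hK : ∀ v, |f v| ≤ K) (X : ℤ → ℝ)
    (hm : Monotone X) (x : ℕ → ℝ) (s : ℤ) (hx : ∀ n : ℕ, x n = X (n + s))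
    (ht : Tendsto x atTop atTop) :
    ∃ C, ∀ T : ℝ, 0 < T → |spac f x T - (1 / T) * ∑ k ∈ Finset.range (cnt x T),
      hsp N f (fun j => X (s + k + j - (N * 1 : ℕ)) - X (s + k))| ≤ C / T := by
  have hK0 : 0 ≤ K := (abs_nonneg _).trans (hK 0)
  have hxm : Monotone x := by
    intro a b hab
    rw [hx, hx]
    exact hm (by omega)
  refine ⟨K, fun T hT => ?_⟩
  have hterm : ∀ k : ℕ, hsp N f
      (fun j => X (s + k + j - (N * 1 : ℕ)) - X (s + k)) = f (x (k + 1) - x k) := by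
    intro k
    rw [SPA_hsp hN f X (s + k), hx, hx]
    congr 3
    · push_cast
      ring
    · ring
  rw [Finset.sum_congr rfl fun k _ => hterm k]
  have hset : {k : ℕ | x (k + 1) ≤ T} = ↑(Finset.range (cnt x T - 1)) := by
    ext k
    rw [Set.mem_ofPred_eq, Finset.coe_range, Set.mem_Iio, ← cnt_iff x hxm ht T (k + 1)]
    omega
  have hsp : spac f x T = (1 / T) * ∑ k ∈ Finset.range (cnt x T - 1), f (x (k + 1) - x k) := by
    unfold spac
    congr 1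
    have h1 := finsum_set_coe_eq_finsum_mem (M := ℝ) {k : ℕ | x (k + 1) ≤ T}
      (f := fun k => f (x (k + 1) - x k))
    rw [hset, finsum_mem_coe_finset] at h1
    rw [← h1, ← hset]
    rfl
  rw [hsp, ← mul_sub, abs_mul, abs_of_pos (one_div_pos.mpr hT), div_eq_mul_one_div K T, mul_comm K]
  refine mul_le_mul_of_nonneg_left ?_ (one_div_pos.mpr hT).le
  rcases Nat.eq_zero_or_pos (cnt x T) with h0 | h0
  · rw [h0]
    simpa using hK0
  · obtain ⟨q, hq⟩ : ∃ q, cnt x T = q + 1 := ⟨cnt x T - 1, by omega⟩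
    rw [hq, Nat.add_sub_cancel, Finset.sum_range_succ, sub_add_cancel_left, abs_neg]
    exact hK _

theorem pspac_loc {N : ℕ} (hN : 0 < N) (f : ℝ → ℝ) (y : ℤ → ℝ) :
    pspac N f y = loc N (N * 1) (hsp N f) y := by
  unfold pspac loc
  congr 1
  refine Finset.sum_congr rfl fun a _ => ?_
  exact (SPA_hsp hN f y a).symm

theorem SPA_hsp_lip (N : ℕ) (f : ℝ → ℝ) (L : ℝ) (hL0 : 0 ≤ L)
    (hL : ∀ u v, |f u - f v| ≤ L * dist u v) (u v : Fin (2 * (N * 1) + 1) → ℝ) :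
    |hsp N f u - hsp N f v| ≤ L * dist u v := by
  unfold hsp
  split_ifs with h
  · exact (hL _ _).trans (mul_le_mul_of_nonneg_left (dist_le_pi_dist u v _) hL0)
  · simpa using mul_nonneg hL0 dist_nonneg

theorem SPA_cont {n : ℕ} (h : (Fin n → ℝ) → ℝ) (Λ : ℝ) (hΛ : 0 ≤ Λ)
    (hh : ∀ u v, |h u - h v| ≤ Λ * dist u v) : Continuous h := by
  have h1 : LipschitzWith ⟨Λ, hΛ⟩ h := LipschitzWith.of_dist_le_mul fun u v => by
    rw [Real.dist_eq]
    exact hh u v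
  exact h1.continuous

theorem hsp_lip (N : ℕ) (f : ℝ → ℝ) (L K : ℝ) (hL0 : 0 ≤ L) (hK0 : 0 ≤ K)
    (hL : ∀ u v, |f u - f v| ≤ L * dist u v)
    (hK : ∀ v, |f v| ≤ K) : (∀ u v, |hsp N f u - hsp N f v| ≤ L * dist u v) ∧
      ∀ v, |hsp N f v| ≤ K := by
  refine ⟨SPA_hsp_lip N f L hL0 hL, fun v => ?_⟩
  unfold hsp
  split_ifs with h
  · exact hK _
  · simpa using hK0

theorem SPA_tend {N : ℕ} (hN : 0 < N) {c : ℝ} (hc : 0 < c) (X : ℤ → ℝ) (hm : Monotone X)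
    (hX : ∀ p, c * N ≤ X (p + N) - X p) (x : ℕ → ℝ) (s : ℤ) (hx : ∀ n : ℕ, x n = X (n + s)) :
    Tendsto x atTop atTop := by
  have hxm : Monotone x := by
    intro a b hab
    rw [hx, hx]
    exact hm (by omega)
  have h1 : ∀ k : ℕ, X s + k * (c * N) ≤ X (s + k * N) := by
    intro k
    induction k with
    | zero => simp
    | succ k ih =>
      have h2 := hX (s + k * N)
      have h3 : s + ((k + 1 : ℕ) : ℤ) * N = s + k * N + N := by push_cast; ring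
      rw [h3]
      push_cast
      linarith
  refine tendsto_atTop_atTop_of_monotone hxm fun b => ?_
  have hcN : 0 < c * N := by positivity
  obtain ⟨k, hk⟩ := exists_nat_ge ((b - X s) / (c * N))
  refine ⟨k * N, ?_⟩
  rw [div_le_iff₀ hcN] at hk
  have h4 : x (k * N) = X (s + k * N) := by
    rw [hx]
    congr 1
    push_cast
    ring
  rw [h4]
  linarith [h1 k]

theorem SPA_y {N : ℕ} {c : ℝ} (hc1 : c ≤ 1) {Φ : ℤ → ℝ → ℝ} {w : ℝ → ℝ}
    (hS : Sys N c Φ w) (t : ℝ) : Monotone (fun q => -Φ (-q) t) ∧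
      ∀ p, c * N ≤ (fun q => -Φ (-q) t) (p + N) - (fun q => -Φ (-q) t) p := by
  constructor
  · intro a b hab
    have := hS.mono t (neg_le_neg hab)
    exact neg_le_neg this
  · intro p
    have h1 := hS.per (-(p + N)) t
    have h2 : -(p + (N : ℤ)) + N = -p := by ring
    rw [h2] at h1
    change c * N ≤ -Φ (-(p + N)) t - -Φ (-p) t
    rw [h1]
    have h3 : (0 : ℝ) ≤ N := Nat.cast_nonneg N
    nlinarith

theorem corrg {N Q : ℕ} (hN : 0 < N) {c : ℝ} (hc : 0 < c) (hc1 : c ≤ 1) (p : ℕ)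
    (f : (Fin (p + 1) → ℝ) → ℝ) (L K B : ℝ) (hL0 : 0 ≤ L)
    (hL : ∀ u v, |f u - f v| ≤ L * dist u v) (hK : ∀ v, |f v| ≤ K)
    (hB : ∀ v, (∃ i, B < |v i|) → f v = 0) (hQ : B < c * Q)
    (Φ : ℤ → ℝ → ℝ) (w : ℝ → ℝ) (hS : Sys N c Φ w) (x : ℕ → ℝ) (hx : Lists Φ x) (g₀ w₀ : ℝ)
    (hg : Tendsto (fun T : ℝ => (1 / T) * ∫ t in (0 : ℝ)..T, pcorr N p f fun q => -Φ (-q) t)
        atTop (𝓝 g₀))
    (hw : Tendsto (fun T : ℝ => (1 / T) * ∫ t in (0 : ℝ)..T, w t) atTop (𝓝 w₀))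
    (ε : ℝ) (hε : 0 < ε) :
      ∀ᶠ T : ℝ in atTop, |corr p f x T - g₀| ≤
        (2 * N * ((2 * (N * Q : ℕ) + 1) ^ (p + 1) * L) / c + (2 * (N * Q : ℕ) + 1) ^ (p + 1) * K)
          * (2 * Q + 1) * w₀ + ε := by
  obtain ⟨h1L, h1K⟩ := hco_lip p (N * Q) f L K hL hK
  have hC2 := avg2 (Q := Q) hN hc (hco p (N * Q) f) _ (by positivity) h1L _ h1K Φ w hS
  obtain ⟨X, hX0, hXm, hX1⟩ := zeros hN hc hS
  obtain ⟨s, hs1, hs2⟩ := lists_eq hN hc hS X hX0 hXm x hx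
  have ht : Tendsto x atTop atTop := SPA_tend hN hc X hXm (fun q => (hX1 q).1) x s hs1
  have hg' : Tendsto (fun T : ℝ => (1 / T) * ∫ t in (0 : ℝ)..T,
      loc N (N * Q) (hco p (N * Q) f) fun q => -Φ (-q) t) atTop (𝓝 g₀) := by
    have h1 : ∀ t, pcorr N p f (fun q => -Φ (-q) t) =
        loc N (N * Q) (hco p (N * Q) f) fun q => -Φ (-q) t := fun t =>
      pcorr_loc hN f B hB _ (far_of hN hc B hQ _ (SPA_y hc1 hS t).1 (SPA_y hc1 hS t).2)
    simpa only [h1] using hg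
  have h1 := hC2 X hX0 hXm x s hs1 hx.pos g₀ w₀ hg' hw (ε / 2) (by linarith)
  obtain ⟨C1, hC1⟩ := corr_loc f B K hB hK X hXm
    (far_of hN hc B hQ X hXm fun q => (hX1 q).1) x s hs1 ht
  have h2 : ∀ᶠ T : ℝ in atTop, C1 / T ≤ ε / 2 := by
    have h3 : Tendsto (fun T : ℝ => C1 / T) atTop (𝓝 0) := tendsto_const_nhds.div_atTop tendsto_id
    exact h3.eventually_le_const (by linarith)
  filter_upwards [h1, h2, eventually_gt_atTop (0 : ℝ)] with T h1 h2 h3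
  have h4 := hC1 T h3
  have h5 := abs_sub_le (corr p f x T) ((1 / T) * ∑ k ∈ Finset.range (cnt x T),
      hco p (N * Q) f (fun j => X (s + k + j - (N * Q : ℕ)) - X (s + k))) g₀
  linarith

theorem spacg {N : ℕ} (hN : 0 < N) {c : ℝ} (hc : 0 < c)
    (f : ℝ → ℝ) (L K : ℝ) (hL0 : 0 ≤ L) (hL : ∀ u v, |f u - f v| ≤ L * dist u v)
    (hK : ∀ v, |f v| ≤ K)
    (Φ : ℤ → ℝ → ℝ) (w : ℝ → ℝ) (hS : Sys N c Φ w) (x : ℕ → ℝ) (hx : Lists Φ x) (g₀ w₀ : ℝ)
    (hg : Tendsto (fun T : ℝ => (1 / T) * ∫ t in (0 : ℝ)..T, pspac N f fun q => -Φ (-q) t)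
        atTop (𝓝 g₀))
    (hw : Tendsto (fun T : ℝ => (1 / T) * ∫ t in (0 : ℝ)..T, w t) atTop (𝓝 w₀))
    (ε : ℝ) (hε : 0 < ε) :
      ∀ᶠ T : ℝ in atTop, |spac f x T - g₀| ≤ (2 * N * L / c + K) * 3 * w₀ + ε := by
  have hK0 : 0 ≤ K := (abs_nonneg _).trans (hK 0)
  obtain ⟨h1L, h1K⟩ := hsp_lip N f L K hL0 hK0 hL hK
  have hC2 := avg2 (Q := 1) hN hc (hsp N f) L hL0 h1L K h1K Φ w hS
  obtain ⟨X, hX0, hXm, hX1⟩ := zeros hN hc hS
  obtain ⟨s, hs1, hs2⟩ := lists_eq hN hc hS X hX0 hXm x hx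
  have ht : Tendsto x atTop atTop := SPA_tend hN hc X hXm (fun q => (hX1 q).1) x s hs1
  have hg' : Tendsto (fun T : ℝ => (1 / T) * ∫ t in (0 : ℝ)..T,
      loc N (N * 1) (hsp N f) fun q => -Φ (-q) t) atTop (𝓝 g₀) := by
    simpa only [pspac_loc hN] using hg
  have h1 := hC2 X hX0 hXm x s hs1 hx.pos g₀ w₀ hg' hw (ε / 2) (by linarith)
  obtain ⟨C1, hC1⟩ := spac_loc hN f K hK X hXm x s hs1 ht
  have h2 : ∀ᶠ T : ℝ in atTop, C1 / T ≤ ε / 2 := by
    have h3 : Tendsto (fun T : ℝ => C1 / T) atTop (𝓝 0) := tendsto_const_nhds.div_atTop tendsto_id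
    exact h3.eventually_le_const (by linarith)
  filter_upwards [h1, h2, eventually_gt_atTop (0 : ℝ)] with T h1 h2 h3
  have h4 := hC1 T h3
  have h5 := abs_sub_le (spac f x T) ((1 / T) * ∑ k ∈ Finset.range (cnt x T),
      hsp N f (fun j => X (s + k + j - (N * 1 : ℕ)) - X (s + k))) g₀
  have h6 : (2 * N * L / c + K) * (2 * ((1 : ℕ) : ℝ) + 1) * w₀ = (2 * N * L / c + K) * 3 * w₀ := by
    push_cast
    ring
  rw [h6] at h1
  linarith

theorem SPA_ph {N : ℕ} {W : Matrix (Fin N) (Fin N) ℂ} {y : ℤ → ℝ} (hy : IsPhases W y) :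
    IsPhases W (phases W) := Classical.epsilon_spec ⟨y, hy⟩

theorem SPA_bd (p : ℕ) (f : (Fin (p + 1) → ℝ) → ℝ) (L B : ℝ) (hL0 : 0 ≤ L)
    (hL : ∀ u v, |f u - f v| ≤ L * dist u v) (hB : ∀ v, (∃ i, B < |v i|) → f v = 0) :
    ∀ v, |f v| ≤ L * (2 * |B| + 1) := by
  intro v
  by_cases h : ∃ i, B < |v i|
  · rw [hB v h, abs_zero]
    positivity
  · push Not at h
    have h1 : f (fun _ => |B| + 1) = 0 := by
      refine hB _ ⟨0, ?_⟩
      rw [abs_of_pos (by positivity)]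
      linarith [le_abs_self B]
    have h2 := hL v fun _ => |B| + 1
    rw [h1, sub_zero] at h2
    refine h2.trans (mul_le_mul_of_nonneg_left ?_ hL0)
    rw [dist_pi_le_iff (by positivity)]
    intro i
    rw [Real.dist_eq]
    have h3 := h i
    have h4 := le_abs_self B
    have h5 := abs_le.mp h3
    rw [abs_le]
    constructor <;> linarith [h5.1, h5.2]

theorem pcorr_lip {N Q : ℕ} (hN : 0 < N) (p : ℕ) (f : (Fin (p + 1) → ℝ) → ℝ) (L B : ℝ)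
    (hL0 : 0 ≤ L) (hL : ∀ u v, |f u - f v| ≤ L * dist u v)
    (hB : ∀ v, (∃ i, B < |v i|) → f v = 0) (hQ : B < Q) :
    (Continuous fun W : Uni N => pcorr N p f (phases W.1)) ∧
    (∀ (W : Matrix (Fin N) (Fin N) ℂ) (y : ℤ → ℝ), IsPhases W y →
        pcorr N p f y = pcorr N p f (phases W)) ∧
    ∀ A B : Uni N, |pcorr N p f (phases (sy A).1) - pcorr N p f (phases (sy B).1)| ≤
      (2 * (N * Q : ℕ) + 1) ^ (p + 1) * L * N * √(ds A B) := by
  have hK := SPA_bd p f L B hL0 hL hB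
  obtain ⟨h1L, h1K⟩ := hco_lip p (N * Q) f L _ hL hK
  have hΛ : (0 : ℝ) ≤ (2 * (N * Q : ℕ) + 1) ^ (p + 1) * L := by positivity
  have hl : ∀ (W : Matrix (Fin N) (Fin N) ℂ) (y : ℤ → ℝ), IsPhases W y →
      pcorr N p f y = loc N (N * Q) (hco p (N * Q) f) y := by
    intro W y hy
    refine pcorr_loc hN f B hB y (far_of hN one_pos B (by rwa [one_mul]) y hy.mono fun q => ?_)
    rw [hy.per]
    linarith
  refine ⟨?_, ?_, ?_⟩
  · have h1 : (fun W : Uni N => pcorr N p f (phases W.1)) =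
        fun W : Uni N => loc N (N * Q) (hco p (N * Q) f) (phases W.1) :=
      funext fun W => hl W.1 _ (phases_spec hN W)
    rw [h1]
    exact loc_cont hN _ (SPA_cont _ _ hΛ h1L)
  · intro W y hy
    rw [hl W y hy, hl W _ (SPA_ph hy), loc_phases hN _ W y hy]
  · intro A B'
    rw [hl _ _ (phases_spec hN (sy A)), hl _ _ (phases_spec hN (sy B'))]
    exact loc_lip hN _ _ hΛ h1L A B'

theorem pspac_lip {N : ℕ} (hN : 0 < N) (f : ℝ → ℝ) (L : ℝ)
    (hL0 : 0 ≤ L) (hL : ∀ u v, |f u - f v| ≤ L * dist u v) :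
    (Continuous fun W : Uni N => pspac N f (phases W.1)) ∧
    (∀ (W : Matrix (Fin N) (Fin N) ℂ) (y : ℤ → ℝ), IsPhases W y →
        pspac N f y = pspac N f (phases W)) ∧
    ∀ A B : Uni N, |pspac N f (phases (sy A).1) - pspac N f (phases (sy B).1)| ≤
      L * N * √(ds A B) := by
  have h1 := SPA_hsp_lip N f L hL0 hL
  refine ⟨?_, ?_, ?_⟩
  · simp only [pspac_loc hN]
    exact loc_cont hN _ (SPA_cont _ _ hL0 h1)
  · intro W y hy
    rw [pspac_loc hN, pspac_loc hN, loc_phases hN _ W y hy]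
  · intro A B
    rw [pspac_loc hN, pspac_loc hN]
    exact loc_lip hN _ _ hL0 h1 A B

end QGr
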