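import Pool.Agent.LibQGr.R_AVG
import Pool.Agent.LibQGr.R_BAS
import Pool.Agent.LibQGr.R_SKW

/-! Row LLN: law of large numbers for the delay matrix (version 2: general orthogonal mixers,
explicit constants). Adapted from helper3's QG_LLN. -/

open MeasureTheory Set Filter Topology

namespace QGr


/-- The classical averaging step. -/
noncomputable def LLN_stp {N : ℕ} (O : Orth N) (ψ : Fin N → ℝ) : Fin N → ℝ :=
  fun i => ∑ i', O.1 i' i ^ 2 * ψ i'

/-! ### Algebra -/

theorem LLN_star {N : ℕ} (A : Uni N) : A.1.conjTranspose * A.1 = 1 := by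
  have h := A.2
  rw [Matrix.mem_unitaryGroup_iff'] at h
  exact h

theorem LLN_star' {N : ℕ} (A : Uni N) : A.1 * A.1.conjTranspose = 1 := by
  have h := A.2
  rw [Matrix.mem_unitaryGroup_iff] at h
  exact h

theorem LLN_center {N : ℕ} (O : ℕ → Orth N) (m : ℕ) (l : Fin (m + 1) → Fin N → ℝ)
    (θ : Fin (m + 1) → Fin N → UnitAddCircle) :
    Bm O m l θ - ((len l / (N : ℕ) : ℝ) : ℂ) • 1 =
      Bm O m (fun j i => l j i - (∑ i', l j i') / N) θ := by
  induction m with
  | zero =>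
    ext i j
    have h : len l = ∑ i', l 0 i' := by
      unfold len
      rw [Fin.sum_univ_one]
    rw [Matrix.sub_apply, Matrix.smul_apply, Bm, Bm, h]
    by_cases hij : i = j
    · subst hij
      rw [Matrix.diagonal_apply_eq, Matrix.diagonal_apply_eq, Matrix.one_apply_eq, smul_eq_mul,
        mul_one]
      push_cast
      ring
    · rw [Matrix.diagonal_apply_ne _ hij, Matrix.diagonal_apply_ne _ hij, Matrix.one_apply_ne hij,
        smul_zero, sub_zero]
  | succ m ih =>
    have h : len l = len (fun j : Fin (m + 1) => l j.castSucc) + ∑ i', l (Fin.last (m + 1)) i' := by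
      unfold len
      rw [Fin.sum_univ_castSucc]
    have e : (Matrix.diagonal fun i => ((l (Fin.last (m + 1)) i -
        (∑ i', l (Fin.last (m + 1)) i') / N : ℝ) : ℂ)) =
        (Matrix.diagonal fun i => (l (Fin.last (m + 1)) i : ℂ)) -
        (((∑ i', l (Fin.last (m + 1)) i') / N : ℝ) : ℂ) •
          (1 : Matrix (Fin N) (Fin N) ℂ) := by
      ext i j
      rw [Matrix.sub_apply, Matrix.smul_apply]
      by_cases hij : i = j
      · subst hij
        rw [Matrix.diagonal_apply_eq, Matrix.diagonal_apply_eq, Matrix.one_apply_eq, smul_eq_mul,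
          mul_one, Complex.ofReal_sub]
      · rw [Matrix.diagonal_apply_ne _ hij, Matrix.diagonal_apply_ne _ hij, Matrix.one_apply_ne hij,
          smul_zero, sub_zero]
    have ih' := ih (fun j => l j.castSucc) (fun j => θ j.castSucc)
    rw [Bm, Bm, ← ih', e, h, mul_sub, sub_mul, Matrix.mul_smul, Matrix.smul_mul, mul_one,
      LLN_star, add_div, Complex.ofReal_add, add_smul]
    abel

theorem LLN_herm {N : ℕ} (O : ℕ → Orth N) (m : ℕ) (l : Fin (m + 1) → Fin N → ℝ)
    (θ : Fin (m + 1) → Fin N → UnitAddCircle) : (Bm O m l θ).conjTranspose = Bm O m l θ := by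
  have hd : ∀ v : Fin N → ℝ, (Matrix.diagonal fun i => (v i : ℂ)).conjTranspose =
      Matrix.diagonal fun i => (v i : ℂ) := by
    intro v
    rw [Matrix.diagonal_conjTranspose]
    congr 1
    ext i
    simp
  induction m with
  | zero => rw [Bm, hd]
  | succ m ih =>
    rw [Bm, Matrix.conjTranspose_add, ih, Matrix.conjTranspose_mul, Matrix.conjTranspose_mul,
      Matrix.conjTranspose_conjTranspose, hd, Matrix.mul_assoc]

theorem LLN_fro_sq {N : ℕ} (M : Matrix (Fin N) (Fin N) ℂ) (h : M.conjTranspose = M) :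
    fro M ^ 2 = (Matrix.trace (M * M)).re := by
  have h0 : 0 ≤ ∑ i, ∑ j, ‖M i j‖ ^ 2 :=
    Finset.sum_nonneg fun i _ => Finset.sum_nonneg fun j _ => sq_nonneg _
  have h1 : M * M = M * M.conjTranspose := by rw [h]
  rw [h1]
  unfold fro
  rw [Real.sq_sqrt h0, Matrix.trace, Complex.re_sum]
  refine Finset.sum_congr rfl fun i _ => ?_
  rw [Matrix.diag_apply, Matrix.mul_apply, Complex.re_sum]
  refine Finset.sum_congr rfl fun j _ => ?_
  rw [Matrix.conjTranspose_apply, Complex.star_def, Complex.mul_conj, Complex.normSq_eq_norm_sq,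
    Complex.ofReal_re]

/-- `tr (A^* L A A^* X A) = tr (L X)`. -/
theorem LLN_trace {N : ℕ} (A : Uni N) (L X : Matrix (Fin N) (Fin N) ℂ) :
    Matrix.trace ((A.1.conjTranspose * L * A.1) * (A.1.conjTranspose * X * A.1)) =
      Matrix.trace (L * X) := by
  have h : (A.1.conjTranspose * L * A.1) * (A.1.conjTranspose * X * A.1) =
      A.1.conjTranspose * (L * X * A.1) := by
    calc (A.1.conjTranspose * L * A.1) * (A.1.conjTranspose * X * A.1)
        = A.1.conjTranspose * L * (A.1 * A.1.conjTranspose) * X * A.1 := by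
          simp only [Matrix.mul_assoc]
      _ = A.1.conjTranspose * (L * X * A.1) := by
          rw [LLN_star']
          simp only [Matrix.mul_assoc, Matrix.mul_one, Matrix.one_mul]
  rw [h, Matrix.trace_mul_comm, Matrix.mul_assoc, LLN_star', mul_one]

theorem LLN_trace_diag {N : ℕ} (v : Fin N → ℝ) (X : Matrix (Fin N) (Fin N) ℂ) (ψ : Fin N → ℝ)
    (hX : ∀ i, X i i = ψ i) :
    (Matrix.trace ((Matrix.diagonal fun i => (v i : ℂ)) * X)).re = ∑ i, v i * ψ i := by
  rw [Matrix.trace, Complex.re_sum]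
  refine Finset.sum_congr rfl fun i _ => ?_
  rw [Matrix.diag_apply, Matrix.diagonal_mul, hX, ← Complex.ofReal_mul, Complex.ofReal_re]

/-! ### Integration of one layer -/

theorem LLN_integrable {M N : ℕ} (f : (Fin M → Fin N → UnitAddCircle) → ℝ) (hf : Continuous f) :
    Integrable f := hf.integrable_of_hasCompactSupport (HasCompactSupport.of_compactSpace f)

theorem LLN_integrable1 {N : ℕ} (f : (Fin N → UnitAddCircle) → ℝ) (hf : Continuous f) :
    Integrable f := hf.integrable_of_hasCompactSupport (HasCompactSupport.of_compactSpace f)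

theorem LLN_circ_half : (AddCircle.toCircle (((1 / 2 : ℝ) : UnitAddCircle)) : ℂ) = -1 := by
  rw [AddCircle.toCircle_apply_mk, Circle.coe_exp]
  have h : ((2 * Real.pi / 1 * (1 / 2) : ℝ) : ℂ) * Complex.I = Real.pi * Complex.I := by
    push_cast; ring
  rw [h, Complex.exp_pi_mul_I]

theorem LLN_cont_circ : Continuous fun t : UnitAddCircle => (AddCircle.toCircle t : ℂ) :=
  continuous_subtype_val.comp AddCircle.continuous_toCircle

theorem LLN_off {N : ℕ} (x y : Fin N) (hxy : x ≠ y) (c : ℂ) :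
    ∫ t : Fin N → UnitAddCircle,
      (c * (starRingEnd ℂ (AddCircle.toCircle (t x)) * (AddCircle.toCircle (t y) : ℂ))).re = 0 := by
  obtain ⟨f, hf⟩ : ∃ f : (Fin N → UnitAddCircle) → ℝ, f = fun t =>
      (c * (starRingEnd ℂ (AddCircle.toCircle (t x)) * (AddCircle.toCircle (t y) : ℂ))).re :=
    ⟨_, rfl⟩
  rw [← hf]
  have h1 := integral_add_right_eq_self (μ := (volume : Measure (Fin N → UnitAddCircle))) f
    (Pi.single x ((1 / 2 : ℝ) : UnitAddCircle))
  have h2 : ∀ t, f (t + Pi.single x ((1 / 2 : ℝ) : UnitAddCircle)) = -f t := by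
    intro t
    rw [hf]
    beta_reduce
    rw [Pi.add_apply, Pi.add_apply, Pi.single_eq_same, Pi.single_eq_of_ne (Ne.symm hxy), add_zero,
      AddCircle.toCircle_add, Circle.coe_mul, LLN_circ_half, mul_neg, mul_one, map_neg, neg_mul,
      mul_neg, Complex.neg_re]
  simp only [h2] at h1
  rw [integral_neg] at h1
  linarith

theorem LLN_on {N : ℕ} (x : Fin N) (c : ℂ) :
    ∫ t : Fin N → UnitAddCircle,
      (c * (starRingEnd ℂ (AddCircle.toCircle (t x)) * (AddCircle.toCircle (t x) : ℂ))).re =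
        c.re := by
  have h : ∀ t : Fin N → UnitAddCircle,
      (c * (starRingEnd ℂ (AddCircle.toCircle (t x)) * (AddCircle.toCircle (t x) : ℂ))).re =
        c.re := by
    intro t
    rw [mul_comm (starRingEnd ℂ _), Complex.mul_conj, Complex.normSq_eq_norm_sq, Circle.norm_coe]
    simp
  simp only [h]
  rw [integral_const]
  simp

theorem LLN_int_diag {N : ℕ} (Y X : Matrix (Fin N) (Fin N) ℂ) :
    ∫ t : Fin N → UnitAddCircle,
      (Matrix.trace (Y * ((dg t).1.conjTranspose * X * (dg t).1))).re =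
      (Matrix.trace (Y * Matrix.diagonal fun i => X i i)).re := by
  have h1 : ∀ t : Fin N → UnitAddCircle,
      (Matrix.trace (Y * ((dg t).1.conjTranspose * X * (dg t).1))).re =
      ∑ i, ∑ j, (Y i j * X j i *
        (starRingEnd ℂ (AddCircle.toCircle (t j)) * (AddCircle.toCircle (t i) : ℂ))).re := by
    intro t
    rw [Matrix.trace, Complex.re_sum]
    refine Finset.sum_congr rfl fun i _ => ?_
    rw [Matrix.diag_apply, Matrix.mul_apply, Complex.re_sum]
    refine Finset.sum_congr rfl fun j _ => ?_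
    congr 1
    unfold dg
    rw [Matrix.mul_diagonal, Matrix.diagonal_conjTranspose, Matrix.diagonal_mul, Pi.star_apply,
      Complex.star_def]
    ring
  have hc : ∀ i j : Fin N, Continuous fun t : Fin N → UnitAddCircle => (Y i j * X j i *
        (starRingEnd ℂ (AddCircle.toCircle (t j)) * (AddCircle.toCircle (t i) : ℂ))).re := by
    intro i j
    refine Complex.continuous_re.comp (continuous_const.mul (Continuous.mul ?_ ?_))
    · exact Complex.continuous_conj.comp (LLN_cont_circ.comp (continuous_apply j))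
    · exact LLN_cont_circ.comp (continuous_apply i)
  simp only [h1]
  rw [integral_finsetSum _ fun i _ => integrable_finsetSum _ fun j _ => LLN_integrable1 _ (hc i j),
    Matrix.trace, Complex.re_sum]
  refine Finset.sum_congr rfl fun i _ => ?_
  rw [integral_finsetSum _ fun j _ => LLN_integrable1 _ (hc i j), Matrix.diag_apply,
    Matrix.mul_diagonal]
  rw [Finset.sum_eq_single i]
  · rw [LLN_on]
  · intro j _ hj
    exact LLN_off j i hj _
  · intro h
    exact absurd (Finset.mem_univ i) h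

/-- Integration of the last layer. -/
theorem LLN_layer {N : ℕ} (B X : Matrix (Fin N) (Fin N) ℂ) (O A : Uni N) :
    ∫ t : Fin N → UnitAddCircle,
      (Matrix.trace (B * ((dg t * O * A).1.conjTranspose * X * (dg t * O * A).1))).re =
      (Matrix.trace (B * (A.1.conjTranspose * (O.1.conjTranspose *
        (Matrix.diagonal fun i => X i i) * O.1) * A.1))).re := by
  have h1 : ∀ Z : Matrix (Fin N) (Fin N) ℂ,
      Matrix.trace (B * (A.1.conjTranspose * (O.1.conjTranspose * Z * O.1) * A.1)) =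
      Matrix.trace ((O.1 * A.1 * B * A.1.conjTranspose * O.1.conjTranspose) * Z) := by
    intro Z
    have e1 : B * (A.1.conjTranspose * (O.1.conjTranspose * Z * O.1) * A.1) =
        (B * A.1.conjTranspose * O.1.conjTranspose * Z) * (O.1 * A.1) := by
      simp only [Matrix.mul_assoc]
    rw [e1, Matrix.trace_mul_comm]
    simp only [Matrix.mul_assoc]
  rw [h1, ← LLN_int_diag]
  refine integral_congr_ae (Filter.Eventually.of_forall fun t => ?_)
  beta_reduce
  rw [← h1]
  congr 3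
  have e2 : (dg t * O * A).1 = (dg t).1 * O.1 * A.1 := rfl
  rw [e2, Matrix.conjTranspose_mul, Matrix.conjTranspose_mul]
  simp only [Matrix.mul_assoc]

theorem LLN_snoc (N M : ℕ)
    (F : (Fin M → Fin N → UnitAddCircle) → (Fin N → UnitAddCircle) → ℝ)
    (hF : Continuous fun q : (Fin M → Fin N → UnitAddCircle) × (Fin N → UnitAddCircle)
      => F q.1 q.2) :
    ∫ θ : Fin (M + 1) → Fin N → UnitAddCircle, F (fun j => θ j.castSucc) (θ (Fin.last M)) =
      ∫ θ, ∫ t, F θ t := by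
  have h0 : Continuous fun θ : Fin (M + 1) → Fin N → UnitAddCircle =>
      ((fun j : Fin M => θ j.castSucc), θ (Fin.last M)) := by fun_prop
  have h := snoc_int (X := Fin N → UnitAddCircle) M
    (fun θ => F (fun j => θ j.castSucc) (θ (Fin.last M))) (hF.comp h0)
  rw [h]
  simp only [Fin.snoc_castSucc, Fin.snoc_last]

/-! ### The recursion -/

noncomputable def LLN_H {N : ℕ} (O : ℕ → Orth N) : (m : ℕ) → (Fin (m + 1) → Fin N → ℝ) →
    (Fin N → ℝ) → ℝ
  | 0, l, ψ => ∑ x, l 0 x * ψ x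
  | m + 1, l, ψ => ∑ x, l (Fin.last (m + 1)) x * ψ x + LLN_H O m (fun j => l j.castSucc) (LLN_stp (O m) ψ)

theorem LLN_stp_eq {N : ℕ} (O : ℕ → Orth N) (m : ℕ) (X : Matrix (Fin N) (Fin N) ℂ) (ψ : Fin N → ℝ)
    (hX : ∀ i, X i i = ψ i) (i : Fin N) :
    ((cx (O m)).1.conjTranspose * (Matrix.diagonal fun i => X i i) * (cx (O m)).1) i i =
      LLN_stp (O m) ψ i := by
  rw [Matrix.mul_apply]
  unfold LLN_stp
  rw [Complex.ofReal_sum]
  refine Finset.sum_congr rfl fun i' _ => ?_
  rw [Matrix.mul_diagonal, Matrix.conjTranspose_apply, cx_apply, hX, Complex.star_def,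
    Complex.conj_ofReal]
  push_cast
  ring

theorem LLN_cont_aux {N : ℕ} (O : ℕ → Orth N) (m : ℕ) (X : Matrix (Fin N) (Fin N) ℂ)
    (l : Fin (m + 1) → Fin N → ℝ) :
    Continuous fun θ : Fin (m + 1) → Fin N → UnitAddCircle =>
      (Matrix.trace (Bm O m l θ * ((tr O m θ).1.conjTranspose * X * (tr O m θ).1))).re := by
  have h1 : Continuous fun θ => (tr O m θ).1 := continuous_subtype_val.comp (tr_cont O m)
  have h2 := Bm_cont O m l
  fun_prop

theorem LLN_cont_dg {N : ℕ} : Continuous fun t : Fin N → UnitAddCircle => (dg t).1 := by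
  unfold dg
  refine continuous_matrix fun i j => ?_
  by_cases h : i = j
  · subst h
    simp only [Matrix.diagonal_apply_eq]
    exact LLN_cont_circ.comp (continuous_apply i)
  · simp only [Matrix.diagonal_apply_ne _ h]
    exact continuous_const

theorem LLN_step {N : ℕ} (O : ℕ → Orth N) (m : ℕ) (l : Fin (m + 1) → Fin N → ℝ)
    (ih : ∀ (X : Matrix (Fin N) (Fin N) ℂ) (ψ : Fin N → ℝ),
      (∀ i, X i i = ψ i) → ∫ θ, (Matrix.trace (Bm O m l θ * ((tr O m θ).1.conjTranspose * X *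
        (tr O m θ).1))).re = LLN_H O m l ψ)
    (X : Matrix (Fin N) (Fin N) ℂ) (ψ : Fin N → ℝ) (hX : ∀ i, X i i = ψ i) :
    ∫ θ : Fin (m + 1 + 1) → Fin N → UnitAddCircle,
      (Matrix.trace (Bm O m l (fun j => θ j.castSucc) * ((tr O (m + 1) θ).1.conjTranspose * X *
        (tr O (m + 1) θ).1))).re = LLN_H O m l (LLN_stp (O m) ψ) := by
  have h1 := LLN_snoc N (m + 1) (fun θ t => (Matrix.trace (Bm O m l θ *
    ((dg t * cx (O m) * tr O m θ).1.conjTranspose * X * (dg t * cx (O m) * tr O m θ).1))).re) (by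
      have e : ∀ (t : Fin N → UnitAddCircle) (θ : Fin (m + 1) → Fin N → UnitAddCircle),
        (dg t * cx (O m) * tr O m θ).1 = (dg t).1 * (cx (O m)).1 * (tr O m θ).1 := fun _ _ => rfl
      simp only [e]
      have h1 := tr_cont O m
      have h2 := Bm_cont O m l
      have h3 : Continuous (dg : (Fin N → UnitAddCircle) → Uni N) :=
        continuous_induced_rng.2 LLN_cont_dg
      fun_prop)
  have h2 : ∀ θ : Fin (m + 1 + 1) → Fin N → UnitAddCircle, tr O (m + 1) θ =
    dg (θ (Fin.last (m + 1))) * cx (O m) * tr O m fun j => θ j.castSucc := fun θ => rfl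
  simp only [h2]
  rw [h1]
  simp only [LLN_layer]
  exact ih _ _ (LLN_stp_eq O m X ψ hX)

theorem LLN_form {N : ℕ} (O : ℕ → Orth N) (m : ℕ) : ∀ (l : Fin (m + 1) → Fin N → ℝ)
    (X : Matrix (Fin N) (Fin N) ℂ) (ψ : Fin N → ℝ), (∀ i, X i i = ψ i) →
    ∫ θ, (Matrix.trace (Bm O m l θ * ((tr O m θ).1.conjTranspose * X * (tr O m θ).1))).re =
      LLN_H O m l ψ := by
  induction m with
  | zero =>
    intro l X ψ hX
    have h : ∀ θ : Fin (0 + 1) → Fin N → UnitAddCircle,
        (Matrix.trace (Bm O 0 l θ * ((tr O 0 θ).1.conjTranspose * X * (tr O 0 θ).1))).re =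
        ∑ x, l 0 x * ψ x := by
      intro θ
      have h1 : Bm O 0 l θ = (tr O 0 θ).1.conjTranspose *
          (Matrix.diagonal fun i => (l 0 i : ℂ)) * (tr O 0 θ).1 := by
        rw [Bm, tr]
        unfold dg
        rw [Matrix.diagonal_conjTranspose, Matrix.diagonal_mul_diagonal,
          Matrix.diagonal_mul_diagonal]
        congr 1
        ext i
        rw [Pi.star_apply, Complex.star_def, mul_right_comm, mul_comm (starRingEnd ℂ _),
          Complex.mul_conj, Complex.normSq_eq_norm_sq, Circle.norm_coe]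
        simp
      rw [h1, LLN_trace]
      exact LLN_trace_diag _ X ψ hX
    simp only [h]
    rw [integral_const, LLN_H]
    simp
  | succ m ih =>
    intro l X ψ hX
    have h : ∀ θ : Fin (m + 1 + 1) → Fin N → UnitAddCircle,
        (Matrix.trace (Bm O (m + 1) l θ * ((tr O (m + 1) θ).1.conjTranspose * X *
          (tr O (m + 1) θ).1))).re =
        ∑ x, l (Fin.last (m + 1)) x * ψ x +
          (Matrix.trace (Bm O m (fun j => l j.castSucc) (fun j => θ j.castSucc) *
            ((tr O (m + 1) θ).1.conjTranspose * X * (tr O (m + 1) θ).1))).re := by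
      intro θ
      rw [Bm, add_mul, Matrix.trace_add, Complex.add_re, LLN_trace, LLN_trace_diag _ X ψ hX]
    simp only [h]
    have hc : Continuous fun θ : Fin (m + 1 + 1) → Fin N → UnitAddCircle =>
        (Matrix.trace (Bm O m (fun j => l j.castSucc) (fun j => θ j.castSucc) *
            ((tr O (m + 1) θ).1.conjTranspose * X * (tr O (m + 1) θ).1))).re := by
      have h1 : Continuous fun θ => (tr O (m + 1) θ).1 :=
        continuous_subtype_val.comp (tr_cont O (m + 1))
      have h2 := Bm_cont O m (fun j => l j.castSucc)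
      fun_prop
    rw [integral_add (LLN_integrable _ continuous_const) (LLN_integrable _ hc),
      LLN_step O m _ (ih _) X ψ hX, integral_const, LLN_H]
    simp

/-- The recursion for the second moment. -/
theorem LLN_rec {N : ℕ} (O : ℕ → Orth N) (m : ℕ) (l : Fin (m + 1 + 1) → Fin N → ℝ) :
    ∫ θ, fro (Bm O (m + 1) l θ) ^ 2 =
      (∫ θ, fro (Bm O m (fun j => l j.castSucc) θ) ^ 2) +
        2 * LLN_H O m (fun j => l j.castSucc) (LLN_stp (O m) (l (Fin.last (m + 1)))) +
        ∑ x, l (Fin.last (m + 1)) x * l (Fin.last (m + 1)) x := by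
  obtain ⟨L, hL⟩ : ∃ L : Matrix (Fin N) (Fin N) ℂ,
    L = Matrix.diagonal fun i => (l (Fin.last (m + 1)) i : ℂ) := ⟨_, rfl⟩
  have hLd : ∀ i, L i i = (l (Fin.last (m + 1)) i : ℂ) := by
    intro i
    rw [hL, Matrix.diagonal_apply_eq]
  have h : ∀ θ : Fin (m + 1 + 1) → Fin N → UnitAddCircle,
      fro (Bm O (m + 1) l θ) ^ 2 =
      (∑ x, l (Fin.last (m + 1)) x * l (Fin.last (m + 1)) x +
      2 * (Matrix.trace (Bm O m (fun j => l j.castSucc) (fun j => θ j.castSucc) *
            ((tr O (m + 1) θ).1.conjTranspose * L * (tr O (m + 1) θ).1))).re) +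
      fro (Bm O m (fun j => l j.castSucc) (fun j => θ j.castSucc)) ^ 2 := by
    intro θ
    rw [LLN_fro_sq _ (LLN_herm _ _ _ _), LLN_fro_sq _ (LLN_herm _ _ _ _), Bm, ← hL, add_mul,
      mul_add, mul_add, Matrix.trace_add, Matrix.trace_add, Matrix.trace_add, LLN_trace,
      Complex.add_re, Complex.add_re, Complex.add_re]
    rw [Matrix.trace_mul_comm ((tr O (m + 1) θ).1.conjTranspose * L * (tr O (m + 1) θ).1)
      (Bm O m (fun j => l j.castSucc) (fun j => θ j.castSucc))]
    have h2 : (Matrix.trace (L * L)).re =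
        ∑ x, l (Fin.last (m + 1)) x * l (Fin.last (m + 1)) x := by
      conv_lhs => rw [hL]
      rw [← hL]
      conv_lhs => enter [1, 1, 1]; rw [hL]
      exact LLN_trace_diag _ L _ hLd
    rw [h2]
    ring
  simp only [h]
  have hc1 : Continuous fun θ : Fin (m + 1 + 1) → Fin N → UnitAddCircle =>
        (Matrix.trace (Bm O m (fun j => l j.castSucc) (fun j => θ j.castSucc) *
            ((tr O (m + 1) θ).1.conjTranspose * L * (tr O (m + 1) θ).1))).re := by
    have h1 : Continuous fun θ => (tr O (m + 1) θ).1 :=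
      continuous_subtype_val.comp (tr_cont O (m + 1))
    have h2 := Bm_cont O m (fun j => l j.castSucc)
    fun_prop
  have hfro : Continuous fun θ => fro (Bm O m (fun j => l j.castSucc) θ) ^ 2 := by
    have h2 := Bm_cont O m (fun j => l j.castSucc)
    have h3 : ∀ θ, fro (Bm O m (fun j => l j.castSucc) θ) ^ 2 =
        (Matrix.trace (Bm O m (fun j => l j.castSucc) θ * Bm O m (fun j => l j.castSucc) θ)).re :=
      fun θ => LLN_fro_sq _ (LLN_herm _ _ _ _)
    simp only [h3]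
    fun_prop
  have hc2 : Continuous fun θ : Fin (m + 1 + 1) → Fin N → UnitAddCircle =>
      fro (Bm O m (fun j => l j.castSucc) (fun j => θ j.castSucc)) ^ 2 :=
    hfro.comp (f := fun θ : Fin (m + 1 + 1) → Fin N → UnitAddCircle =>
      fun j : Fin (m + 1) => θ j.castSucc) (by fun_prop)
  have hI2 : ∫ θ : Fin (m + 1 + 1) → Fin N → UnitAddCircle,
      fro (Bm O m (fun j => l j.castSucc) (fun j => θ j.castSucc)) ^ 2 =
      ∫ θ, fro (Bm O m (fun j => l j.castSucc) θ) ^ 2 := by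
    have h1 := LLN_snoc N (m + 1) (fun θ _ => fro (Bm O m (fun j => l j.castSucc) θ) ^ 2)
      (hfro.comp continuous_fst)
    rw [h1]
    simp only [integral_const]
    simp
  have hA : Integrable fun θ : Fin (m + 1 + 1) → Fin N → UnitAddCircle =>
      ∑ x, l (Fin.last (m + 1)) x * l (Fin.last (m + 1)) x +
      2 * (Matrix.trace (Bm O m (fun j => l j.castSucc) (fun j => θ j.castSucc) *
            ((tr O (m + 1) θ).1.conjTranspose * L * (tr O (m + 1) θ).1))).re :=
    (LLN_integrable _ continuous_const).add ((LLN_integrable _ hc1).const_mul 2)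
  rw [integral_add hA (LLN_integrable _ hc2),
    integral_add (LLN_integrable _ continuous_const) ((LLN_integrable _ hc1).const_mul 2),
    integral_const_mul, LLN_step O m _ (LLN_form O m _) L _ hLd, hI2, integral_const]
  simp only [probReal_univ, one_smul]
  ring


/-! ### Bounds -/

theorem LLN_row {N : ℕ} (O : Orth N) (x : Fin N) : ∑ z, O.1 x z ^ 2 = 1 := by
  have h := O.2
  rw [Matrix.mem_orthogonalGroup_iff] at h
  have h1 := congrFun (congrFun h x) x
  rw [Matrix.mul_apply, Matrix.one_apply_eq] at h1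
  rw [← h1]
  refine Finset.sum_congr rfl fun z _ => ?_
  rw [Matrix.transpose_apply, sq]

theorem LLN_col {N : ℕ} (O : Orth N) (x : Fin N) : ∑ z, O.1 z x ^ 2 = 1 := by
  have h := O.2
  rw [Matrix.mem_orthogonalGroup_iff'] at h
  have h1 := congrFun (congrFun h x) x
  rw [Matrix.mul_apply, Matrix.one_apply_eq] at h1
  rw [← h1]
  refine Finset.sum_congr rfl fun z _ => ?_
  rw [Matrix.transpose_apply, sq]

theorem LLN_stp_sum {N : ℕ} (O : Orth N) (ψ : Fin N → ℝ) : ∑ i, LLN_stp O ψ i = ∑ i, ψ i := by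
  unfold LLN_stp
  rw [Finset.sum_comm]
  refine Finset.sum_congr rfl fun x _ => ?_
  rw [← Finset.sum_mul, LLN_row, one_mul]

/-- Contraction in `ℓ²`. -/
theorem LLN_contract {N : ℕ} (O : Orth N) (γ : ℝ) (hγ : Overlap γ O) (ψ : Fin N → ℝ)
    (hψ : ∑ i, ψ i = 0) : ∑ i, LLN_stp O ψ i ^ 2 ≤ (1 - γ * N) * ∑ i, ψ i ^ 2 := by
  set Q : Fin N → Fin N → ℝ := fun x y => ∑ i, O.1 x i ^ 2 * O.1 y i ^ 2 with hQ
  have hQγ : ∀ x y, γ ≤ Q x y := fun x y => (hγ x y).2
  have hQs : ∀ x, ∑ y, Q x y = 1 := by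
    intro x
    simp only [hQ]
    rw [Finset.sum_comm]
    simp only [← Finset.mul_sum, LLN_col, mul_one]
    exact LLN_row O x
  have hQc : ∀ x y, Q x y = Q y x := fun x y => Finset.sum_congr rfl fun i _ => mul_comm _ _
  have e1 : ∑ i, LLN_stp O ψ i ^ 2 = ∑ x, ∑ y, Q x y * (ψ x * ψ y) := by
    have h1 : ∀ i, LLN_stp O ψ i ^ 2 = ∑ x, ∑ y, O.1 x i ^ 2 * O.1 y i ^ 2 * (ψ x * ψ y) := by
      intro i
      unfold LLN_stp
      rw [sq, Finset.sum_mul_sum]
      refine Finset.sum_congr rfl fun x _ => Finset.sum_congr rfl fun y _ => ?_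
      ring
    simp only [h1]
    rw [Finset.sum_comm]
    refine Finset.sum_congr rfl fun x _ => ?_
    rw [Finset.sum_comm]
    refine Finset.sum_congr rfl fun y _ => ?_
    rw [← Finset.sum_mul]
  have e2 : ∑ x, ∑ y, Q x y * (ψ x * ψ y) =
      ∑ i, ψ i ^ 2 - 1 / 2 * ∑ x, ∑ y, Q x y * (ψ x - ψ y) ^ 2 := by
    have a1 : ∑ x, ∑ y, Q x y * ψ x ^ 2 = ∑ i, ψ i ^ 2 := by
      refine Finset.sum_congr rfl fun x _ => ?_
      rw [← Finset.sum_mul, hQs, one_mul]
    have a2 : ∑ x, ∑ y, Q x y * ψ y ^ 2 = ∑ i, ψ i ^ 2 := by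
      rw [Finset.sum_comm]
      refine Finset.sum_congr rfl fun y _ => ?_
      simp only [hQc _ y]
      rw [← Finset.sum_mul, hQs, one_mul]
    have a3 : ∑ x, ∑ y, Q x y * (ψ x - ψ y) ^ 2 =
        ∑ x, ∑ y, Q x y * ψ x ^ 2 + ∑ x, ∑ y, Q x y * ψ y ^ 2 -
          2 * ∑ x, ∑ y, Q x y * (ψ x * ψ y) := by
      rw [Finset.mul_sum, ← Finset.sum_add_distrib, ← Finset.sum_sub_distrib]
      refine Finset.sum_congr rfl fun x _ => ?_
      rw [Finset.mul_sum, ← Finset.sum_add_distrib, ← Finset.sum_sub_distrib]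
      refine Finset.sum_congr rfl fun y _ => ?_
      ring
    rw [a3, a1, a2]
    ring
  have e3 : ∑ x, ∑ y, (ψ x - ψ y) ^ 2 = 2 * N * ∑ i, ψ i ^ 2 := by
    have a1 : ∀ x y : Fin N, (ψ x - ψ y) ^ 2 = ψ x ^ 2 + ψ y ^ 2 - 2 * (ψ x * ψ y) := by
      intro x y
      ring
    simp only [a1, Finset.sum_sub_distrib, Finset.sum_add_distrib, ← Finset.mul_sum,
      Finset.sum_const, Finset.card_univ, Fintype.card_fin, nsmul_eq_mul, hψ, mul_zero,
      sub_zero]
    ring
  have e4 : γ * ∑ x, ∑ y, (ψ x - ψ y) ^ 2 ≤ ∑ x, ∑ y, Q x y * (ψ x - ψ y) ^ 2 := by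
    rw [Finset.mul_sum]
    refine Finset.sum_le_sum fun x _ => ?_
    rw [Finset.mul_sum]
    refine Finset.sum_le_sum fun y _ => ?_
    exact mul_le_mul_of_nonneg_right (hQγ x y) (sq_nonneg _)
  rw [e1, e2]
  rw [e3] at e4
  nlinarith

theorem LLN_cs {N : ℕ} (v ψ : Fin N → ℝ) (A B : ℝ) (hA : 0 ≤ A) (hB : 0 ≤ B)
    (hv : ∑ x, v x ^ 2 ≤ A ^ 2) (hψ : ∑ x, ψ x ^ 2 ≤ B ^ 2) : |∑ x, v x * ψ x| ≤ A * B := by
  have h := Finset.sum_mul_sq_le_sq_mul_sq Finset.univ v ψ
  refine abs_le_of_sq_le_sq ?_ (mul_nonneg hA hB)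
  calc (∑ x, v x * ψ x) ^ 2 ≤ (∑ x, v x ^ 2) * ∑ x, ψ x ^ 2 := h
    _ ≤ A ^ 2 * B ^ 2 := mul_le_mul hv hψ (Finset.sum_nonneg fun _ _ => sq_nonneg _) (sq_nonneg _)
    _ = (A * B) ^ 2 := by ring

theorem LLN_H_bound {N : ℕ} (O : ℕ → Orth N) (γ q : ℝ) (hγ : ∀ j, Overlap γ (O j))
    (hq0 : 0 ≤ q) (hq1 : q < 1) (hq : q ^ 2 = 1 - γ * N) (A : ℝ) (hA : 0 ≤ A) (m : ℕ) :
    ∀ (l : Fin (m + 1) → Fin N → ℝ) (ψ : Fin N → ℝ) (B : ℝ), (∀ j, ∑ i, l j i ^ 2 ≤ A ^ 2) →
      ∑ i, ψ i = 0 → 0 ≤ B → ∑ i, ψ i ^ 2 ≤ B ^ 2 → |LLN_H O m l ψ| ≤ A * B / (1 - q) := by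
  have h1q : 0 < 1 - q := by linarith
  induction m with
  | zero =>
    intro l ψ B hl _ hB hψ
    rw [LLN_H]
    refine (LLN_cs _ _ A B hA hB (hl 0) hψ).trans ?_
    rw [le_div_iff₀ h1q]
    nlinarith [mul_nonneg (mul_nonneg hA hB) hq0]
  | succ m ih =>
    intro l ψ B hl hs hB hψ
    rw [LLN_H]
    have h1 := LLN_cs _ _ A B hA hB (hl (Fin.last (m + 1))) hψ
    have h2 := ih (fun j => l j.castSucc) (LLN_stp (O m) ψ) (q * B) (fun j => hl _)
      ((LLN_stp_sum (O m) ψ).trans hs) (mul_nonneg hq0 hB) (by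
        refine (LLN_contract (O m) γ (hγ m) ψ hs).trans ?_
        rw [mul_pow, hq]
        exact mul_le_mul_of_nonneg_left hψ (by rw [← hq]; exact sq_nonneg q))
    have h3 : A * B + A * (q * B) / (1 - q) = A * B / (1 - q) := by
      field_simp
      ring
    calc _ ≤ _ := abs_add_le _ _
      _ ≤ A * B + A * (q * B) / (1 - q) := add_le_add h1 h2
      _ = _ := h3

theorem LLN_moment {N : ℕ} (hN : 0 < N) (O : ℕ → Orth N) (γ : ℝ) (h0 : 0 < γ)
    (hγ : ∀ j, Overlap γ (O j)) (M : ℝ) (hM : 0 ≤ M) : ∀ (m : ℕ)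
    (l : Fin (m + 1) → Fin N → ℝ), (∀ j i, |l j i| ≤ M) → (∀ j, ∑ i, l j i = 0) →
      ∫ θ, fro (Bm O m l θ) ^ 2 ≤ 5 * M ^ 2 / γ * (m + 1) := by
  have hNr : (0 : ℝ) < N := by exact_mod_cast hN
  have hγN : γ * N ≤ 1 := gamma_le hN (O 0) γ (hγ 0)
  have hγN0 : 0 < γ * N := mul_pos h0 hNr
  set q : ℝ := √(1 - γ * N) with hqd
  have hq0 : 0 ≤ q := Real.sqrt_nonneg _
  have hq : q ^ 2 = 1 - γ * N := Real.sq_sqrt (by linarith)
  have hq1 : q < 1 := by
    by_contra hcon
    push Not at hcon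
    nlinarith
  have h1q : 0 < 1 - q := by linarith
  set A : ℝ := √N * M with hAd
  have hA : 0 ≤ A := mul_nonneg (Real.sqrt_nonneg _) hM
  have hA2 : A ^ 2 = N * M ^ 2 := by rw [hAd, mul_pow, Real.sq_sqrt hNr.le]
  have hl2 : ∀ v : Fin N → ℝ, (∀ i, |v i| ≤ M) → ∑ i, v i ^ 2 ≤ A ^ 2 := by
    intro v hv
    rw [hA2]
    calc ∑ i, v i ^ 2 ≤ ∑ _i : Fin N, M ^ 2 :=
          Finset.sum_le_sum fun i _ => sq_le_sq' (by linarith [(abs_le.1 (hv i)).1])
            (abs_le.1 (hv i)).2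
      _ = N * M ^ 2 := by simp
  -- the two constants
  have hN1 : (N : ℝ) * M ^ 2 ≤ M ^ 2 / γ := by
    rw [le_div_iff₀ h0]
    nlinarith [sq_nonneg M]
  have hqq : A * (q * A) / (1 - q) ≤ 2 * (M ^ 2 / γ) := by
    have e : A * (q * A) / (1 - q) = N * M ^ 2 * (q / (1 - q)) := by
      rw [← hA2]
      field_simp
    rw [e]
    have h1 : q / (1 - q) ≤ 2 / (γ * N) := by
      rw [div_le_div_iff₀ h1q hγN0]
      nlinarith
    calc (N : ℝ) * M ^ 2 * (q / (1 - q)) ≤ N * M ^ 2 * (2 / (γ * N)) :=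
          mul_le_mul_of_nonneg_left h1 (by positivity)
      _ = 2 * (M ^ 2 / γ) := by
          field_simp
  intro m
  induction m with
  | zero =>
    intro l hl _
    have h : ∀ θ : Fin (0 + 1) → Fin N → UnitAddCircle, fro (Bm O 0 l θ) ^ 2 =
        ∑ x, l 0 x * l 0 x := by
      intro θ
      rw [LLN_fro_sq _ (LLN_herm _ _ _ _), Bm]
      exact LLN_trace_diag _ _ _ fun i => Matrix.diagonal_apply_eq _ i
    simp only [h]
    rw [integral_const]
    simp only [probReal_univ, one_smul]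
    have h1 := hl2 (l 0) (hl 0)
    simp only [sq (l 0 _)] at h1
    have h2 : (0 : ℝ) ≤ M ^ 2 / γ := by positivity
    have h3 : 5 * M ^ 2 / γ * (((0 : ℕ) : ℝ) + 1) = 5 * (M ^ 2 / γ) := by
      push_cast
      ring
    rw [h3]
    linarith [hA2]
  | succ m ih =>
    intro l hl hs
    rw [LLN_rec]
    have h1 := ih (fun j => l j.castSucc) (fun j i => hl _ _) (fun j => hs _)
    have hlast := hl2 (l (Fin.last (m + 1))) (hl _)
    have hstp : ∑ i, LLN_stp (O m) (l (Fin.last (m + 1))) i ^ 2 ≤ (q * A) ^ 2 := by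
      refine (LLN_contract (O m) γ (hγ m) _ (hs _)).trans ?_
      rw [mul_pow, hq]
      exact mul_le_mul_of_nonneg_left hlast (by rw [← hq]; exact sq_nonneg q)
    have h2 := (abs_le.1 (LLN_H_bound O γ q hγ hq0 hq1 hq A hA m (fun j => l j.castSucc)
      (LLN_stp (O m) (l (Fin.last (m + 1)))) (q * A) (fun j => hl2 _ (hl _))
      ((LLN_stp_sum _ _).trans (hs _)) (mul_nonneg hq0 hA) hstp)).2
    simp only [sq (l (Fin.last (m + 1)) _)] at hlast
    have h3 : 5 * M ^ 2 / γ * (((m + 1 : ℕ) : ℝ) + 1) =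
        5 * M ^ 2 / γ * ((m : ℝ) + 1) + 5 * (M ^ 2 / γ) := by
      push_cast
      ring
    rw [h3]
    linarith [hA2]

theorem lln_fro {N : ℕ} (hN : 0 < N) (O : ℕ → Orth N) (γ : ℝ) (h0 : 0 < γ)
    (hγ : ∀ j, Overlap γ (O j)) (a b : ℝ) (ha : 0 < a) (hab : a ≤ b) (m : ℕ)
    (l : Fin (m + 1) → Fin N → ℝ) (hl : ∀ j i, l j i ∈ Icc a b) :
    ∫ θ, fro (Bm O m l θ - ((len l / N : ℝ) : ℂ) • 1) ^ 2 ≤ 5 * (b - a) ^ 2 / γ * (m + 1) := by
  simp only [LLN_center]
  have hn : (0 : ℝ) < (N : ℕ) := by exact_mod_cast hN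
  refine LLN_moment hN O γ h0 hγ (b - a) (by linarith) m _ ?_ ?_
  · intro j i
    have h1 : (N : ℕ) * a ≤ ∑ i', l j i' := by
      have := Finset.sum_le_sum fun (i' : Fin N) (_ : i' ∈ Finset.univ) => (hl j i').1
      simpa using this
    have h2 : ∑ i', l j i' ≤ (N : ℕ) * b := by
      have := Finset.sum_le_sum fun (i' : Fin N) (_ : i' ∈ Finset.univ) => (hl j i').2
      simpa using this
    have h3 : a ≤ (∑ i', l j i') / (N : ℕ) := by rw [le_div_iff₀ hn]; linarith
    have h4 : (∑ i', l j i') / (N : ℕ) ≤ b := by rw [div_le_iff₀ hn]; linarith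
    have h5 := hl j i
    rw [abs_le]
    constructor <;> linarith [h5.1, h5.2]
  · intro j
    rw [Finset.sum_sub_distrib, Finset.sum_const, Finset.card_univ, Fintype.card_fin,
      nsmul_eq_mul]
    field_simp
    ring

theorem lln {N : ℕ} (hN : 0 < N) (O : ℕ → Orth N) (γ : ℝ) (h0 : 0 < γ)
    (hγ : ∀ j, Overlap γ (O j)) (a b : ℝ) (ha : 0 < a) (hab : a ≤ b) (m : ℕ)
    (l : Fin (m + 1) → Fin N → ℝ) (hl : ∀ j i, l j i ∈ Icc a b) :
    ∫ θ, dev O m l θ ≤ 3 * (b / a) / √(γ * (m + 1)) := by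
  have hb : 0 < b := lt_of_lt_of_le ha hab
  have hn : (0 : ℝ) < N := by exact_mod_cast hN
  have hm : (0 : ℝ) < (m : ℝ) + 1 := by positivity
  set r : ℝ := √(γ * (m + 1)) with hr
  have hr0 : 0 < r := Real.sqrt_pos.2 (by positivity)
  have hrr : r ^ 2 = γ * (m + 1) := Real.sq_sqrt (by positivity)
  set s : ℝ := 3 * b * ((m : ℝ) + 1) / r with hs
  have hs0 : 0 < s := by positivity
  have hlen : ((m : ℝ) + 1) * (N * a) ≤ len l := by
    unfold len
    have h1 : ∀ j : Fin (m + 1), (N : ℝ) * a ≤ ∑ i', l j i' := by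
      intro j
      have := Finset.sum_le_sum fun (i' : Fin N) (_ : i' ∈ Finset.univ) => (hl j i').1
      simpa using this
    have h2 := Finset.sum_le_sum fun (j : Fin (m + 1)) (_ : j ∈ Finset.univ) => h1 j
    rw [Finset.sum_const, Finset.card_univ, Fintype.card_fin, nsmul_eq_mul] at h2
    push_cast at h2 ⊢
    exact h2
  have hlen0 : 0 < len l := lt_of_lt_of_le (by positivity) hlen
  obtain ⟨f, hf⟩ : ∃ f : (Fin (m + 1) → Fin N → UnitAddCircle) → ℝ,
    f = fun θ => fro (Bm O m l θ - ((len l / (N : ℕ) : ℝ) : ℂ) • 1) := ⟨_, rfl⟩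
  have hdev : ∀ θ, dev O m l θ = N / len l * f θ := by
    intro θ
    rw [hf]
    rfl
  have hfc : Continuous f := by
    rw [hf]
    exact fro_cont.comp ((Bm_cont O m l).sub continuous_const)
  have h3 : ∫ θ, f θ ^ 2 ≤ s ^ 2 := by
    have h := lln_fro hN O γ h0 hγ a b ha hab m l hl
    have e : ∫ θ, f θ ^ 2 = ∫ θ, fro (Bm O m l θ - ((len l / N : ℝ) : ℂ) • 1) ^ 2 := by
      rw [hf]
    rw [e]
    refine h.trans ?_
    have e2 : s ^ 2 = 9 * b ^ 2 / γ * ((m : ℝ) + 1) := by
      rw [hs, div_pow, hrr]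
      field_simp
      ring
    rw [e2]
    refine mul_le_mul_of_nonneg_right ?_ hm.le
    refine div_le_div_of_nonneg_right ?_ h0.le
    nlinarith
  have hI : ∫ θ, f θ ≤ s := by
    have h1 : ∀ θ, f θ ≤ (1 / (2 * s)) * f θ ^ 2 + s / 2 := by
      intro θ
      have h2 : 0 ≤ (f θ - s) ^ 2 / (2 * s) := by positivity
      have h3 : (f θ - s) ^ 2 / (2 * s) = (1 / (2 * s)) * f θ ^ 2 + s / 2 - f θ := by
        field_simp
        ring
      linarith
    have h2 : ∫ θ, f θ ≤ ∫ θ, ((1 / (2 * s)) * f θ ^ 2 + s / 2) :=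
      integral_mono (LLN_integrable _ hfc)
        (((LLN_integrable _ (hfc.pow 2)).const_mul _).add (LLN_integrable _ continuous_const)) h1
    have hA : Integrable fun θ => (1 / (2 * s)) * f θ ^ 2 :=
      (LLN_integrable _ (hfc.pow 2)).const_mul _
    rw [integral_add hA (LLN_integrable _ continuous_const), integral_const_mul,
      integral_const] at h2
    simp only [probReal_univ, one_smul] at h2
    have h4 : (1 / (2 * s)) * ∫ θ, f θ ^ 2 ≤ (1 / (2 * s)) * s ^ 2 :=
      mul_le_mul_of_nonneg_left h3 (by positivity)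
    have h5 : (1 / (2 * s)) * s ^ 2 = s / 2 := by
      field_simp
    linarith
  simp only [hdev]
  rw [integral_const_mul]
  calc (N : ℝ) / len l * ∫ θ, f θ ≤ N / len l * s :=
        mul_le_mul_of_nonneg_left hI (by positivity)
    _ ≤ N / (((m : ℝ) + 1) * (N * a)) * s := by
        refine mul_le_mul_of_nonneg_right ?_ hs0.le
        exact div_le_div_of_nonneg_left hn.le (by positivity) hlen
    _ = 3 * (b / a) / r := by
        rw [hs]
        field_simp

end QGr
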