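import Pool.Agent.LibQGr.Def3

/-! Row ZET: orthogonality of characters. -/

open MeasureTheory Set Filter Topology

namespace QGr


/-- The character `e(t_k) conj e(t_j)`. -/
noncomputable def ZET_chi {N : ℕ} (p : Fin N × Fin N) (t : Fin N → UnitAddCircle) : ℂ :=
  ((AddCircle.toCircle (t p.1) : Circle) : ℂ)
    * (starRingEnd ℂ) ((AddCircle.toCircle (t p.2) : Circle) : ℂ)

theorem ZET_chi_cont {N : ℕ} (p : Fin N × Fin N) : Continuous (ZET_chi p) := by
  unfold ZET_chi
  have h : ∀ k : Fin N, Continuous fun t : Fin N → UnitAddCircle =>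
      ((AddCircle.toCircle (t k) : Circle) : ℂ) := fun k =>
    continuous_subtype_val.comp (AddCircle.continuous_toCircle.comp (continuous_apply k))
  exact (h _).mul (Complex.continuous_conj.comp (h _))

theorem ZET_int {N : ℕ} {f : (Fin N → UnitAddCircle) → ℂ} (hf : Continuous f) :
    Integrable f :=
  hf.integrable_of_hasCompactSupport (HasCompactSupport.of_compactSpace f)

theorem ZET_zero {N : ℕ} (f : (Fin N → UnitAddCircle) → ℂ) (s : Fin N → UnitAddCircle) (c : ℂ)
    (hc : c ≠ 1) (h : ∀ t, f (t + s) = c * f t) : ∫ t, f t = 0 := by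
  have h1 : ∫ t, f (t + s) = ∫ t, f t := integral_add_right_eq_self f s
  simp only [h] at h1
  rw [integral_const_mul] at h1
  have h2 : (c - 1) * ∫ t, f t = 0 := by rw [sub_mul, h1]; ring
  rcases mul_eq_zero.1 h2 with h3 | h3
  · exact absurd (sub_eq_zero.1 h3) hc
  · exact h3

theorem ZET_norm (x : UnitAddCircle) : ((AddCircle.toCircle x : Circle) : ℂ) *
    (starRingEnd ℂ) ((AddCircle.toCircle x : Circle) : ℂ) = 1 := by
  rw [Complex.mul_conj, Complex.normSq_eq_norm_sq, Circle.norm_coe]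
  simp

/-- A quarter turn in the coordinate `k`. -/
noncomputable def ZET_q {N : ℕ} (k : Fin N) : Fin N → UnitAddCircle :=
  Pi.single k (((1 / 4 : ℝ)) : UnitAddCircle)

theorem ZET_q_self {N : ℕ} (k : Fin N) :
    ((AddCircle.toCircle (ZET_q k k) : Circle) : ℂ) = Complex.I := by
  unfold ZET_q
  rw [Pi.single_eq_same, AddCircle.toCircle_apply_mk, Circle.coe_exp]
  have : (((2 * Real.pi / 1 * (1 / 4) : ℝ) : ℂ)) * Complex.I = Real.pi / 2 * Complex.I := by
    push_cast; ring
  rw [this, Complex.exp_pi_div_two_mul_I]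

theorem ZET_q_ne {N : ℕ} {k j : Fin N} (h : j ≠ k) :
    ((AddCircle.toCircle (ZET_q k j) : Circle) : ℂ) = 1 := by
  unfold ZET_q
  rw [Pi.single_eq_of_ne h]
  simp

theorem ZET_chi_add {N : ℕ} (p : Fin N × Fin N) (t s : Fin N → UnitAddCircle) :
    ZET_chi p (t + s) = ZET_chi p s * ZET_chi p t := by
  unfold ZET_chi
  rw [Pi.add_apply, Pi.add_apply, AddCircle.toCircle_add, AddCircle.toCircle_add, Circle.coe_mul,
    Circle.coe_mul, map_mul]
  ring

theorem ZET_one {N : ℕ} (p : Fin N × Fin N) :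
    ∫ t, ZET_chi p t = if p.1 = p.2 then 1 else 0 := by
  by_cases h : p.1 = p.2
  · rw [if_pos h]
    have : ∀ t, ZET_chi p t = 1 := fun t => by
      unfold ZET_chi
      rw [h, ZET_norm]
    simp only [this]
    simp
  · rw [if_neg h]
    refine ZET_zero _ (ZET_q p.1) Complex.I ?_ fun t => ?_
    · intro h1
      have := congrArg Complex.re h1
      simp at this
    · rw [ZET_chi_add]
      congr 1
      unfold ZET_chi
      rw [ZET_q_self, ZET_q_ne (Ne.symm h)]
      simp

theorem ZET_two {N : ℕ} (p q : Fin N × Fin N) (hp : p.1 ≠ p.2) (hq : q.1 ≠ q.2) :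
    ∫ t, ZET_chi p t * (starRingEnd ℂ) (ZET_chi q t) = if p = q then 1 else 0 := by
  by_cases h : p = q
  · subst h
    rw [if_pos rfl]
    have : ∀ t, ZET_chi p t * (starRingEnd ℂ) (ZET_chi p t) = 1 := fun t => by
      unfold ZET_chi
      rw [map_mul, Complex.conj_conj]
      have h1 := ZET_norm (t p.1)
      have h2 := ZET_norm (t p.2)
      calc _ = (((AddCircle.toCircle (t p.1) : Circle) : ℂ) *
            (starRingEnd ℂ) ((AddCircle.toCircle (t p.1) : Circle) : ℂ)) *
            (((AddCircle.toCircle (t p.2) : Circle) : ℂ) *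
            (starRingEnd ℂ) ((AddCircle.toCircle (t p.2) : Circle) : ℂ)) := by ring
        _ = 1 := by rw [h1, h2, one_mul]
    simp only [this]
    simp
  · rw [if_neg h]
    have hadd : ∀ s t : Fin N → UnitAddCircle,
        ZET_chi p (t + s) * (starRingEnd ℂ) (ZET_chi q (t + s)) =
        (ZET_chi p s * (starRingEnd ℂ) (ZET_chi q s)) *
          (ZET_chi p t * (starRingEnd ℂ) (ZET_chi q t)) := fun s t => by
      rw [ZET_chi_add, ZET_chi_add, map_mul]
      ring
    by_cases h1 : p.1 = q.1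
    · have h2 : p.2 ≠ q.2 := fun h2 => h (Prod.ext h1 h2)
      refine ZET_zero _ (ZET_q p.2) _ ?_ (hadd (ZET_q p.2))
      unfold ZET_chi
      rw [ZET_q_self, ZET_q_ne hp, ← h1, ZET_q_ne hp, ZET_q_ne (Ne.symm h2)]
      intro h3
      have := congrArg Complex.re h3
      simp at this
    · refine ZET_zero _ (ZET_q p.1) _ ?_ (hadd (ZET_q p.1))
      unfold ZET_chi
      rw [ZET_q_self, ZET_q_ne (Ne.symm hp), ZET_q_ne (Ne.symm h1)]
      by_cases h3 : q.2 = p.1
      · rw [h3, ZET_q_self]
        intro h4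
        have := congrArg Complex.re h4
        simp at this
        norm_num at this
      · rw [ZET_q_ne h3]
        intro h4
        have := congrArg Complex.re h4
        simp at this

theorem ZET_eq {N : ℕ} (c : Fin N → Fin N → ℂ) (t : Fin N → UnitAddCircle) :
    zet c t = ∑ p : Fin N × Fin N, c p.1 p.2 * ZET_chi p t := by
  unfold zet ZET_chi
  rw [Fintype.sum_prod_type]
  simp only [mul_assoc]

theorem zet_re {N : ℕ} (c : Fin N → Fin N → ℂ) : ∫ t, (zet c t).re = ∑ k, (c k k).re := by
  have hc : ∀ p : Fin N × Fin N, Integrable fun t => c p.1 p.2 * ZET_chi p t := fun p =>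
    ZET_int (continuous_const.mul (ZET_chi_cont p))
  have hi : Integrable (zet c) := by
    have : zet c = fun t => ∑ p : Fin N × Fin N, c p.1 p.2 * ZET_chi p t :=
      funext (ZET_eq c)
    rw [this]
    exact integrable_finsetSum _ fun p _ => hc p
  have h1 : ∫ t, (zet c t).re = (∫ t, zet c t).re := by
    have := integral_re hi
    simpa using this
  rw [h1]
  simp only [ZET_eq]
  rw [integral_finsetSum _ fun p _ => hc p]
  simp only [integral_const_mul, ZET_one]
  rw [Fintype.sum_prod_type]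
  simp

theorem zet_im {N : ℕ} (c : Fin N → Fin N → ℂ) (h : ∀ k, (c k k).im = 0) :
    ∫ t, (zet c t).im ^ 2 = 1 / 4 * ∑ k, ∑ j, ‖c k j - (starRingEnd ℂ) (c j k)‖ ^ 2 := by
  set d : Fin N × Fin N → ℂ := fun p => c p.1 p.2 - (starRingEnd ℂ) (c p.2 p.1) with hd
  have hd0 : ∀ p : Fin N × Fin N, p.1 = p.2 → d p = 0 := by
    intro p hp
    simp only [hd]
    rw [hp, Complex.conj_eq_iff_im.2 (h _), sub_self]
  have hD : ∀ t, zet c t - (starRingEnd ℂ) (zet c t) = ∑ p, d p * ZET_chi p t := by
    intro t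
    rw [ZET_eq, map_sum]
    have e1 : ∑ p : Fin N × Fin N, (starRingEnd ℂ) (c p.1 p.2 * ZET_chi p t) =
        ∑ p : Fin N × Fin N, (starRingEnd ℂ) (c p.2 p.1) * ZET_chi p t := by
      rw [← Equiv.sum_comp (Equiv.prodComm (Fin N) (Fin N))]
      refine Finset.sum_congr rfl fun p _ => ?_
      unfold ZET_chi
      simp only [Equiv.prodComm_apply, Prod.fst_swap, Prod.snd_swap, map_mul, Complex.conj_conj]
      ring
    rw [e1, ← Finset.sum_sub_distrib]
    refine Finset.sum_congr rfl fun p _ => ?_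
    simp only [hd]
    ring
  have hsq : ∀ t, (zet c t).im ^ 2 = 1 / 4 * ((∑ p, d p * ZET_chi p t) *
      (starRingEnd ℂ) (∑ p, d p * ZET_chi p t)).re := by
    intro t
    rw [← hD t]
    have e2 : zet c t - (starRingEnd ℂ) (zet c t) = ((2 * (zet c t).im : ℝ) : ℂ) * Complex.I := by
      apply Complex.ext
      · simp
      · simp
        ring
    rw [e2]
    simp only [map_mul, Complex.conj_ofReal, Complex.conj_I]
    simp
    ring
  simp only [hsq]
  rw [integral_const_mul]
  congr 1
  have hterm : ∀ t, (∑ p, d p * ZET_chi p t) * (starRingEnd ℂ) (∑ p, d p * ZET_chi p t) =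
      ∑ p, ∑ q, (d p * (starRingEnd ℂ) (d q)) *
        (ZET_chi p t * (starRingEnd ℂ) (ZET_chi q t)) := by
    intro t
    rw [map_sum, Finset.sum_mul_sum]
    refine Finset.sum_congr rfl fun p _ => Finset.sum_congr rfl fun q _ => ?_
    rw [map_mul]
    ring
  simp only [hterm]
  have hcont : ∀ p q : Fin N × Fin N, Continuous fun t => (d p * (starRingEnd ℂ) (d q)) *
      (ZET_chi p t * (starRingEnd ℂ) (ZET_chi q t)) := fun p q =>
    continuous_const.mul ((ZET_chi_cont p).mul (Complex.continuous_conj.comp (ZET_chi_cont q)))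
  have hint : ∀ p q : Fin N × Fin N, Integrable fun t => (d p * (starRingEnd ℂ) (d q)) *
      (ZET_chi p t * (starRingEnd ℂ) (ZET_chi q t)) := fun p q => ZET_int (hcont p q)
  have hi : Integrable fun t => ∑ p, ∑ q, (d p * (starRingEnd ℂ) (d q)) *
      (ZET_chi p t * (starRingEnd ℂ) (ZET_chi q t)) :=
    integrable_finsetSum _ fun p _ => integrable_finsetSum _ fun q _ => hint p q
  have h1 : ∫ t, (∑ p, ∑ q, (d p * (starRingEnd ℂ) (d q)) *
      (ZET_chi p t * (starRingEnd ℂ) (ZET_chi q t))).re = (∫ t, ∑ p, ∑ q,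
      (d p * (starRingEnd ℂ) (d q)) * (ZET_chi p t * (starRingEnd ℂ) (ZET_chi q t))).re := by
    have := integral_re hi
    simpa using this
  rw [h1, integral_finsetSum _ fun p _ => integrable_finsetSum _ fun q _ => hint p q]
  have h2 : ∀ p : Fin N × Fin N, ∫ t, ∑ q, (d p * (starRingEnd ℂ) (d q)) *
      (ZET_chi p t * (starRingEnd ℂ) (ZET_chi q t)) = ((‖d p‖ ^ 2 : ℝ) : ℂ) := by
    intro p
    rw [integral_finsetSum _ fun q _ => hint p q]
    simp only [integral_const_mul]
    by_cases hp : p.1 = p.2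
    · simp [hd0 p hp]
    · rw [Finset.sum_eq_single p]
      · rw [ZET_two p p hp hp, if_pos rfl, mul_one, Complex.mul_conj, Complex.normSq_eq_norm_sq]
      · intro q _ hq
        by_cases hq2 : q.1 = q.2
        · simp [hd0 q hq2]
        · rw [ZET_two p q hp hq2, if_neg (Ne.symm hq), mul_zero]
      · simp
  simp only [h2]
  rw [← Complex.ofReal_sum, Complex.ofReal_re, Fintype.sum_prod_type]

end QGr
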