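import Pool.Agent.LibQGr.Def2

open MeasureTheory Set Filter Topology

namespace QGr

theorem EQU_flow_cont {N m : ℕ} (μ : Fin (m + 1) → Fin N → ℝ) :
    Continuous fun t : ℝ => ((fun j i => ((t * μ j i : ℝ) : UnitAddCircle)) :
      Fin (m + 1) → Fin N → UnitAddCircle) := by
  refine continuous_pi fun j => continuous_pi fun i => ?_
  exact (AddCircle.continuous_mk' 1).comp (continuous_id.mul continuous_const)

/-- The property that the time average tends to the space average. -/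
def EQU_P {N m : ℕ} (μ : Fin (m + 1) → Fin N → ℝ)
    (g : (Fin (m + 1) → Fin N → UnitAddCircle) → ℂ) : Prop :=
  Continuous g ∧ Tendsto (fun T : ℝ => ((1 / T : ℝ) : ℂ) *
    ∫ t in (0 : ℝ)..T, g fun j i => ((t * μ j i : ℝ) : UnitAddCircle)) atTop (𝓝 (∫ θ, g θ))

theorem EQU_int {N m : ℕ} {g : (Fin (m + 1) → Fin N → UnitAddCircle) → ℂ} (hg : Continuous g) :
    Integrable g := by
  refine hg.integrable_of_hasCompactSupport ?_
  exact HasCompactSupport.of_compactSpace g

theorem EQU_add {N m : ℕ} {μ : Fin (m + 1) → Fin N → ℝ}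
    {g h : (Fin (m + 1) → Fin N → UnitAddCircle) → ℂ} (hg : EQU_P μ g) (hh : EQU_P μ h) :
    EQU_P μ (fun θ => g θ + h θ) := by
  refine ⟨hg.1.add hh.1, ?_⟩
  have e : ∀ T : ℝ, (∫ t in (0 : ℝ)..T, (g (fun j i => ((t * μ j i : ℝ) : UnitAddCircle))
      + h (fun j i => ((t * μ j i : ℝ) : UnitAddCircle))))
      = (∫ t in (0 : ℝ)..T, g (fun j i => ((t * μ j i : ℝ) : UnitAddCircle)))
      + ∫ t in (0 : ℝ)..T, h (fun j i => ((t * μ j i : ℝ) : UnitAddCircle)) := by
    intro T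
    exact intervalIntegral.integral_add ((hg.1.comp (EQU_flow_cont μ)).intervalIntegrable _ _)
      ((hh.1.comp (EQU_flow_cont μ)).intervalIntegrable _ _)
  simp only [e, mul_add]
  rw [integral_add (EQU_int hg.1) (EQU_int hh.1)]
  exact hg.2.add hh.2

theorem EQU_smul {N m : ℕ} {μ : Fin (m + 1) → Fin N → ℝ}
    {g : (Fin (m + 1) → Fin N → UnitAddCircle) → ℂ} (c : ℂ) (hg : EQU_P μ g) :
    EQU_P μ (fun θ => c * g θ) := by
  refine ⟨continuous_const.mul hg.1, ?_⟩
  simp only [intervalIntegral.integral_const_mul, integral_const_mul]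
  have := hg.2.const_mul c
  refine this.congr fun T => ?_
  ring

theorem EQU_fourier_int {k : ℤ} (hk : k ≠ 0) : ∫ x : UnitAddCircle, fourier k x = 0 :=
  integral_eq_zero_of_add_right_eq_neg (fourier_add_half_inv_index hk one_pos)

theorem EQU_char {N m : ℕ} (μ : Fin (m + 1) → Fin N → ℝ)
    (hμ : LinearIndependent ℚ fun q : Fin (m + 1) × Fin N => μ q.1 q.2)
    (n : Fin (m + 1) × Fin N → ℤ) :
    EQU_P μ (fun θ => ∏ j, ∏ i, fourier (n (j, i)) (θ j i)) := by
  have hc : Continuous (fun θ : Fin (m + 1) → Fin N → UnitAddCircle =>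
      ∏ j, ∏ i, fourier (n (j, i)) (θ j i)) := by fun_prop
  refine ⟨hc, ?_⟩
  by_cases hn : n = 0
  · subst hn
    have e1 : ∀ T : ℝ, 0 < T → ((1 / T : ℝ) : ℂ) * ∫ t in (0 : ℝ)..T,
        ∏ j : Fin (m + 1), ∏ i : Fin N, (fourier ((0 : Fin (m + 1) × Fin N → ℤ) (j, i)))
          ((t * μ j i : ℝ) : UnitAddCircle) = 1 := by
      intro T hT
      simp [hT.ne']
    have e2 : (∫ θ : Fin (m + 1) → Fin N → UnitAddCircle, ∏ j : Fin (m + 1), ∏ i : Fin N,
        (fourier ((0 : Fin (m + 1) × Fin N → ℤ) (j, i))) (θ j i) : ℂ) = 1 := by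
      simp
    rw [e2]
    refine tendsto_const_nhds.congr' ?_
    filter_upwards [eventually_gt_atTop 0] with T hT
    exact (e1 T hT).symm
  · -- the frequency
    set κ : ℝ := ∑ q : Fin (m + 1) × Fin N, n q * μ q.1 q.2 with hκ
    have hκ0 : κ ≠ 0 := by
      intro h0
      apply hn
      have := Fintype.linearIndependent_iff.1 hμ (fun q => (n q : ℚ)) (by
        have : (∑ q : Fin (m + 1) × Fin N, ((n q : ℚ)) • μ q.1 q.2) = κ := by
          rw [hκ]
          refine Finset.sum_congr rfl fun q _ => ?_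
          rw [Rat.smul_def]; push_cast; rfl
        rw [this, h0])
      funext q
      exact_mod_cast this q
    have e1 : ∀ t : ℝ, (∏ j : Fin (m + 1), ∏ i : Fin N, (fourier (n (j, i)))
        ((t * μ j i : ℝ) : UnitAddCircle)) = Complex.exp ((2 * Real.pi * κ * Complex.I) * t) := by
      intro t
      have : ∀ (j : Fin (m + 1)) (i : Fin N), (fourier (n (j, i)))
        ((t * μ j i : ℝ) : UnitAddCircle) = Complex.exp (2 * Real.pi * Complex.I * (n (j, i) * μ j i) * t) := by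
        intro j i
        rw [fourier_coe_apply]
        congr 1
        push_cast
        ring
      simp only [this, ← Complex.exp_sum]
      congr 1
      rw [hκ, Fintype.sum_prod_type]
      push_cast
      simp only [Finset.mul_sum, Finset.sum_mul]
      refine Finset.sum_congr rfl fun j _ => Finset.sum_congr rfl fun i _ => ?_
      ring
    simp only [e1]
    have e2 : (∫ θ : Fin (m + 1) → Fin N → UnitAddCircle, ∏ j : Fin (m + 1), ∏ i : Fin N,
        (fourier (n (j, i))) (θ j i) : ℂ) = 0 := by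
      rw [integral_fintype_prod_volume_eq_prod (fun (j : Fin (m + 1)) (x : Fin N → UnitAddCircle) =>
        ∏ i : Fin N, fourier (n (j, i)) (x i))]
      obtain ⟨q, hq⟩ := Function.ne_iff.1 hn
      refine Finset.prod_eq_zero (Finset.mem_univ q.1) ?_
      rw [integral_fintype_prod_volume_eq_prod (fun (i : Fin N) (x : UnitAddCircle) =>
        fourier (n (q.1, i)) x)]
      refine Finset.prod_eq_zero (Finset.mem_univ q.2) ?_
      exact EQU_fourier_int hq
    rw [e2]
    set z : ℂ := 2 * Real.pi * κ * Complex.I with hz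
    have hz0 : z ≠ 0 := by
      rw [hz]
      simp [hκ0, Real.pi_ne_zero]
    have e3 : ∀ T : ℝ, (∫ t in (0 : ℝ)..T, Complex.exp (z * t)) = (Complex.exp (z * T) - 1) / z := by
      intro T
      rw [integral_exp_mul_complex hz0]
      simp
    simp only [e3]
    refine squeeze_zero_norm' (a := fun T : ℝ => (1 / T) * (2 / ‖z‖)) ?_ ?_
    · filter_upwards [eventually_gt_atTop 0] with T hT
      rw [norm_mul, norm_div]
      have h1 : ‖((1 / T : ℝ) : ℂ)‖ = 1 / T := by
        rw [Complex.norm_real, Real.norm_of_nonneg (by positivity)]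
      rw [h1]
      have h2 : ‖Complex.exp (z * T) - 1‖ ≤ 2 := by
        refine (norm_sub_le _ _).trans ?_
        have : z * T = ((2 * Real.pi * κ * T : ℝ) : ℂ) * Complex.I := by
          rw [hz]; push_cast; ring
        rw [this, Complex.norm_exp_ofReal_mul_I]
        norm_num
      have h3 : 0 < ‖z‖ := norm_pos_iff.2 hz0
      gcongr
    · have h0 : Tendsto (fun T : ℝ => 1 / T) atTop (𝓝 0) := by
        simpa using (tendsto_inv_atTop_zero : Tendsto (fun r : ℝ => r⁻¹) atTop (𝓝 0))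
      have := h0.mul_const (2 / ‖z‖)
      rwa [zero_mul] at this

theorem EQU_span {N m : ℕ} (μ : Fin (m + 1) → Fin N → ℝ)
    (hμ : LinearIndependent ℚ fun q : Fin (m + 1) × Fin N => μ q.1 q.2)
    (G : C(UnitAddTorus (Fin (m + 1) × Fin N), ℂ))
    (hG : G ∈ Submodule.span ℂ (range (UnitAddTorus.mFourier (d := Fin (m + 1) × Fin N)))) :
    EQU_P μ (fun θ => G fun q => θ q.1 q.2) := by
  induction hG using Submodule.span_induction with
  | mem G h =>
    obtain ⟨n, rfl⟩ := h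
    have := EQU_char μ hμ n
    simpa only [UnitAddTorus.mFourier, ContinuousMap.coe_mk, Fintype.prod_prod_type] using this
  | zero =>
    refine ⟨continuous_const, ?_⟩
    simp
  | add G H _ _ h1 h2 => exact EQU_add h1 h2
  | smul c G _ h => exact EQU_smul c h

theorem equi (N m : ℕ) (μ : Fin (m + 1) → Fin N → ℝ)
    (hμ : LinearIndependent ℚ fun q : Fin (m + 1) × Fin N => μ q.1 q.2)
    (F : (Fin (m + 1) → Fin N → UnitAddCircle) → ℝ) (hF : Continuous F) :
    Tendsto (fun T : ℝ => (1 / T) * ∫ t in (0 : ℝ)..T, F fun j i => ((t * μ j i : ℝ) : UnitAddCircle))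
      atTop (𝓝 (∫ θ, F θ)) := by
  -- approximate by trigonometric polynomials
  set F' : C(UnitAddTorus (Fin (m + 1) × Fin N), ℂ) :=
    ⟨fun x => (F fun j i => x (j, i) : ℂ), by fun_prop⟩ with hF'
  rw [Metric.tendsto_atTop]
  intro ε hε
  have hmem : F' ∈ (Submodule.span ℂ (range (UnitAddTorus.mFourier
      (d := Fin (m + 1) × Fin N)))).topologicalClosure := by
    rw [UnitAddTorus.span_mFourier_closure_eq_top]; trivial
  obtain ⟨G, hG, hd⟩ := Metric.mem_closure_iff.1 hmem (ε / 4) (by positivity)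
  have hP := EQU_span μ hμ G hG
  have hbd : ∀ θ : Fin (m + 1) → Fin N → UnitAddCircle,
      ‖(F θ : ℂ) - G fun q => θ q.1 q.2‖ ≤ ε / 4 := by
    intro θ
    have := (F' - G).norm_coe_le_norm fun q => θ q.1 q.2
    rw [dist_eq_norm] at hd
    exact (this.trans hd.le)
  obtain ⟨T₀, hT₀⟩ := Metric.tendsto_atTop.1 hP.2 (ε / 4) (by positivity)
  refine ⟨max T₀ 1, fun T hT => ?_⟩
  have hT1 : 0 < T := lt_of_lt_of_le one_pos ((le_max_right _ _).trans hT)
  have h1 := hT₀ T ((le_max_left _ _).trans hT)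
  rw [dist_eq_norm] at h1 ⊢
  have hcf : Continuous fun θ => (F θ : ℂ) := Complex.continuous_ofReal.comp hF
  -- space averages
  have h2 : ‖(∫ θ, (F θ : ℂ)) - ∫ θ : Fin (m + 1) → Fin N → UnitAddCircle,
      (G fun q => θ q.1 q.2)‖ ≤ ε / 4 := by
    rw [← integral_sub (EQU_int hcf) (EQU_int hP.1)]
    refine (norm_integral_le_of_norm_le_const (C := ε / 4) (ae_of_all _ hbd)).trans ?_
    simp
  -- time averages
  have h3 : ‖((1 / T : ℝ) : ℂ) * (∫ t in (0 : ℝ)..T,
      (F fun j i => ((t * μ j i : ℝ) : UnitAddCircle) : ℂ)) - ((1 / T : ℝ) : ℂ) *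
      ∫ t in (0 : ℝ)..T, (G fun q => ((t * μ q.1 q.2 : ℝ) : UnitAddCircle))‖ ≤ ε / 4 := by
    have hi1 : IntervalIntegrable (fun t : ℝ => (F fun j i => ((t * μ j i : ℝ) : UnitAddCircle) : ℂ))
      volume 0 T := (hcf.comp (EQU_flow_cont μ)).intervalIntegrable _ _
    have hi2 : IntervalIntegrable (fun t : ℝ => (G fun q => ((t * μ q.1 q.2 : ℝ) : UnitAddCircle)))
      volume 0 T := (hP.1.comp (EQU_flow_cont μ)).intervalIntegrable _ _
    rw [← mul_sub, ← intervalIntegral.integral_sub hi1 hi2, norm_mul]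
    have h1 : ‖((1 / T : ℝ) : ℂ)‖ = 1 / T := by
      rw [Complex.norm_real, Real.norm_of_nonneg (by positivity)]
    rw [h1]
    have := intervalIntegral.norm_integral_le_of_norm_le_const (a := 0) (b := T)
      (f := fun t : ℝ => (F fun j i => ((t * μ j i : ℝ) : UnitAddCircle) : ℂ)
        - G fun q => ((t * μ q.1 q.2 : ℝ) : UnitAddCircle)) (C := ε / 4)
      (fun t _ => hbd fun j i => ((t * μ j i : ℝ) : UnitAddCircle))
    rw [sub_zero, abs_of_pos hT1] at this
    calc 1 / T * _ ≤ 1 / T * (ε / 4 * T) := by gcongr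
      _ = ε / 4 := by field_simp
  have h4 : ((1 / T * ∫ t in (0 : ℝ)..T, F fun j i => ((t * μ j i : ℝ) : UnitAddCircle) : ℝ) : ℂ)
      = ((1 / T : ℝ) : ℂ) * (∫ t in (0 : ℝ)..T,
      (F fun j i => ((t * μ j i : ℝ) : UnitAddCircle) : ℂ)) := by
    rw [Complex.ofReal_mul, intervalIntegral.integral_ofReal]
  have h5 : ((∫ θ, F θ : ℝ) : ℂ) = ∫ θ, (F θ : ℂ) := integral_ofReal.symm
  have h6 : ‖(1 / T * ∫ t in (0 : ℝ)..T, F fun j i => ((t * μ j i : ℝ) : UnitAddCircle))
      - ∫ θ, F θ‖ = ‖((1 / T : ℝ) : ℂ) * (∫ t in (0 : ℝ)..T,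
      (F fun j i => ((t * μ j i : ℝ) : UnitAddCircle) : ℂ)) - ∫ θ, (F θ : ℂ)‖ := by
    rw [← h4, ← h5, ← Complex.ofReal_sub, Complex.norm_real]
  rw [h6]
  set a := ((1 / T : ℝ) : ℂ) * (∫ t in (0 : ℝ)..T,
      (F fun j i => ((t * μ j i : ℝ) : UnitAddCircle) : ℂ))
  set b := ((1 / T : ℝ) : ℂ) *
      ∫ t in (0 : ℝ)..T, (G fun q => ((t * μ q.1 q.2 : ℝ) : UnitAddCircle))
  set c := ∫ θ, (F θ : ℂ)
  set d := ∫ θ : Fin (m + 1) → Fin N → UnitAddCircle, (G fun q => θ q.1 q.2)
  have h1' : ‖b - d‖ < ε / 4 := h1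
  have : a - c = (a - b) + (b - d) - (c - d) := by ring
  rw [this]
  calc ‖(a - b) + (b - d) - (c - d)‖ ≤ ‖(a - b) + (b - d)‖ + ‖c - d‖ := norm_sub_le _ _
    _ ≤ ‖a - b‖ + ‖b - d‖ + ‖c - d‖ := by gcongr; exact norm_add_le _ _
    _ < ε := by linarith

end QGr
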