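import Pool.Agent.LibQGr.R_LVL
import Pool.Agent.LibQGr.R_HRT
import Pool.Agent.LibQGr.R_LLN
import Pool.Agent.LibQGr.R_EQU
import Pool.Agent.LibQGr.R_SPA

open MeasureTheory Set Filter Topology

namespace QGr


theorem FIN_equi {N m : ℕ} (l : Fin (m + 1) → Fin N → ℝ) (hlen : 0 < len l)
    (hi : LinearIndependent ℚ fun q : Fin (m + 1) × Fin N => l q.1 q.2)
    (F : (Fin (m + 1) → Fin N → UnitAddCircle) → ℝ) (hF : Continuous F) :
    Tendsto (fun T : ℝ => (1 / T) * ∫ t in (0 : ℝ)..T, F (fl l (Real.pi * t / len l)))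
      atTop (𝓝 (∫ θ, F θ)) := by
  have hc : (1 / (2 * len l) : ℝ) ≠ 0 := by positivity
  have hμ : LinearIndependent ℚ
      fun q : Fin (m + 1) × Fin N => (fun j i => l j i * (1 / (2 * len l))) q.1 q.2 := by
    have := hi.map' ((LinearMap.mulRight ℚ (1 / (2 * len l) : ℝ))) (by
      rw [LinearMap.ker_eq_bot]
      intro x y hxy
      simpa [LinearMap.mulRight_apply, hlen.ne'] using hxy)
    exact this
  have h := equi N m (fun j i => l j i * (1 / (2 * len l))) hμ F hF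
  refine h.congr fun T => ?_
  congr 1
  refine intervalIntegral.integral_congr fun t _ => ?_
  congr 1
  funext j i
  unfold fl
  congr 1
  have := Real.pi_ne_zero
  field_simp

/-- The rate of the random walk against the rate of the law of large numbers. -/
theorem FIN_rate (γ : ℝ) (h0 : 0 < γ) (h1 : γ ≤ 1) (m : ℕ) :
    √(1 - γ / 2) ^ (m - 1) ≤ 2 / √(γ * (m + 1)) := by
  have hpos : 0 < γ * (m + 1) := by positivity
  have hs : 0 < √(γ * (m + 1)) := Real.sqrt_pos.2 hpos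
  rw [le_div_iff₀ hs]
  refine le_of_sq_le_sq ?_ (by norm_num)
  rw [mul_pow, Real.sq_sqrt hpos.le, ← pow_mul, mul_comm (m - 1) 2, pow_mul,
    Real.sq_sqrt (by linarith)]
  rcases Nat.eq_zero_or_pos m with hm | hm
  · subst hm
    simp
    linarith
  · have e1 : ((m : ℝ) + 1) = ((m - 1 : ℕ) : ℝ) + 2 := by
      rw [Nat.cast_sub hm]; push_cast; ring
    have e2 : 1 + ((m - 1 : ℕ) : ℝ) * (γ / 2) ≤ (1 + γ / 2) ^ (m - 1) :=
      one_add_mul_le_pow (by linarith) _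
    have e3 : (1 - γ / 2) ^ (m - 1) * (1 + γ / 2) ^ (m - 1) ≤ 1 := by
      rw [← mul_pow]
      refine pow_le_one₀ ?_ ?_
      · nlinarith
      · nlinarith
    have e4 : 0 ≤ (1 - γ / 2) ^ (m - 1) := pow_nonneg (by linarith) _
    rw [e1]
    have e5 : γ * (((m - 1 : ℕ) : ℝ) + 2) ≤ 2 * (1 + ((m - 1 : ℕ) : ℝ) * (γ / 2)) := by
      linarith
    calc (1 - γ / 2) ^ (m - 1) * (γ * (((m - 1 : ℕ) : ℝ) + 2))
        ≤ (1 - γ / 2) ^ (m - 1) * (2 * (1 + γ / 2) ^ (m - 1)) := by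
          refine mul_le_mul_of_nonneg_left ?_ e4
          linarith
      _ = 2 * ((1 - γ / 2) ^ (m - 1) * (1 + γ / 2) ^ (m - 1)) := by ring
      _ ≤ 2 ^ 2 := by linarith

theorem FIN_gamma {N : ℕ} (hN : 0 < N) (O : Orth N) (γ : ℝ) (h0 : 0 < γ) (hγ : Overlap γ O) :
    γ ≤ 1 := by
  have h := gamma_le hN O γ hγ
  have : (1 : ℝ) ≤ N := by exact_mod_cast hN
  nlinarith

theorem main_corr (a b : ℝ) (ha : 0 < a) (hab : a ≤ b) (p : ℕ)
    (f : (Fin (p + 1) → ℝ) → ℝ) (L K B : ℝ) (hL0 : 0 ≤ L)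
    (hL : ∀ u v, |f u - f v| ≤ L * dist u v) (hK : ∀ v, |f v| ≤ K)
    (hB : ∀ v, (∃ i, B < |v i|) → f v = 0) :
    ∃ C, 0 ≤ C ∧ ∀ (N : ℕ), 0 < N → ∀ (γ : ℝ), 0 < γ → ∀ (O : ℕ → Orth N), (∀ j, Overlap γ (O j)) →
      ∀ (m : ℕ) (l : Fin (m + 1) → Fin N → ℝ), (∀ j i, l j i ∈ Icc a b) →
      LinearIndependent ℚ (fun q : Fin (m + 1) × Fin N => l q.1 q.2) →
      ∀ κ, IsLevels N m O l κ → ∀ ε : ℝ, 0 < ε →
        ∀ᶠ T : ℝ in atTop, |corr p f (unf l κ) T - coeCorr N p f| ≤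
          C * N ^ (p + 3) / √(γ * (m + 1)) + ε := by
  have hb : 0 < b := lt_of_lt_of_le ha hab
  have hK0 : 0 ≤ K := le_trans (abs_nonneg _) (hK 0)
  set c : ℝ := a / b with hcdef
  have hc : 0 < c := by positivity
  have hc1 : c ≤ 1 := (div_le_one hb).2 hab
  obtain ⟨Q, hQ⟩ : ∃ Q : ℕ, B / c < Q := exists_nat_gt _
  obtain ⟨Q, hQ1, hQ⟩ : ∃ Q : ℕ, 1 ≤ Q ∧ B < c * Q := by
    refine ⟨max Q 1, le_max_right _ _, ?_⟩
    rw [div_lt_iff₀ hc] at hQ
    have : (Q : ℝ) ≤ (max Q 1 : ℕ) := by exact_mod_cast le_max_left _ _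
    calc B < Q * c := hQ
      _ ≤ (max Q 1 : ℕ) * c := mul_le_mul_of_nonneg_right this hc.le
      _ = _ := by ring
  have hQR : (1 : ℝ) ≤ Q := by exact_mod_cast hQ1
  have hQ' : B < Q := lt_of_lt_of_le hQ (by nlinarith)
  refine ⟨(3 * Q) ^ (p + 1) * ((2 * L / c + K) * (3 * Q) * (3 * (b / a)) + 8 * L), by positivity, ?_⟩
  intro N hN γ h0 O hγ m l hl hi κ hκ ε hε
  have hNR : (1 : ℝ) ≤ N := by exact_mod_cast hN
  have hγ1 := FIN_gamma hN (O 0) γ h0 (hγ 0)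
  obtain ⟨Φ, hS, hΦ⟩ := sys hN O m l a b ha hab hl
  have hlen := LVL_len_pos hN l a b ha hl
  have hLs := (levels_lists hN O m l a b ha hab hl Φ hΦ κ).1 hκ
  have hpc := pcorr_lip (Q := Q) hN p f L B hL0 hL hB hQ'
  have hg := FIN_equi l hlen hi (fun θ => pcorr N p f (phases (sy (tr O m θ)).1))
    ((hpc.1.comp sy_cont).comp (tr_cont O m))
  have hw := FIN_equi l hlen hi (dev O m l) (dev_cont O m l)
  have hg' : Tendsto (fun T : ℝ => (1 / T) * ∫ t in (0 : ℝ)..T,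
      pcorr N p f fun q => -Φ (-q) t) atTop
      (𝓝 (∫ θ, pcorr N p f (phases (sy (tr O m θ)).1))) := by
    refine hg.congr fun T => ?_
    congr 1
    refine intervalIntegral.integral_congr fun t _ => ?_
    exact (hpc.2.1 _ _ (hΦ t)).symm
  have h3 := haar_rate hN O γ h0 hγ (fun A => pcorr N p f (phases (sy A).1))
    (hpc.1.comp sy_cont) ((2 * (N * Q : ℕ) + 1) ^ (p + 1) * L * N) (by positivity) hpc.2.2 m
  have h4 := lln hN O γ h0 hγ a b ha hab m l hl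
  have h5 := FIN_rate γ h0 hγ1 m
  have hsp : 0 < √(γ * (m + 1)) := Real.sqrt_pos.2 (by positivity)
  set s := √(γ * (m + 1)) with hs
  -- elementary bounds
  have e1 : (2 * (N * Q : ℕ) + 1 : ℝ) ^ (p + 1) ≤ (3 * Q) ^ (p + 1) * N ^ (p + 1) := by
    rw [← mul_pow]
    refine pow_le_pow_left₀ (by positivity) ?_ _
    push_cast
    nlinarith
  have e2 : (0 : ℝ) ≤ (2 * (N * Q : ℕ) + 1 : ℝ) ^ (p + 1) := by positivity
  filter_upwards [corrg hN hc hc1 p f L K B hL0 hL hK hB hQ Φ _ hS _ hLs _ _ hg' hw ε hε]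
    with T hT
  have h6 : (2 * N * ((2 * (N * Q : ℕ) + 1) ^ (p + 1) * L) / c + (2 * (N * Q : ℕ) + 1) ^ (p + 1) * K)
          * (2 * Q + 1) * ∫ θ, dev O m l θ ≤
      (3 * Q) ^ (p + 1) * ((2 * L / c + K) * (3 * Q) * (3 * (b / a))) * N ^ (p + 3) / s := by
    have i1 : (2 * N * ((2 * (N * Q : ℕ) + 1) ^ (p + 1) * L) / c
        + (2 * (N * Q : ℕ) + 1) ^ (p + 1) * K)
        = (2 * (N * Q : ℕ) + 1) ^ (p + 1) * (2 * N * L / c + K) := by ring
    rw [i1]
    have i2 : (2 * N * L / c + K) ≤ N * (2 * L / c + K) := by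
      have : K ≤ N * K := by nlinarith
      calc (2 * N * L / c + K) ≤ 2 * N * L / c + N * K := by linarith
        _ = _ := by ring
    have i3 : (2 * Q + 1 : ℝ) ≤ 3 * Q := by linarith
    have i4 : (0 : ℝ) ≤ ∫ θ, dev O m l θ := by
      refine integral_nonneg fun θ => ?_
      unfold dev
      exact mul_nonneg (by positivity) (SYS_fro_nonneg _)
    calc (2 * (N * Q : ℕ) + 1) ^ (p + 1) * (2 * N * L / c + K) * (2 * Q + 1) * ∫ θ, dev O m l θ
        ≤ ((3 * Q) ^ (p + 1) * N ^ (p + 1)) * (N * (2 * L / c + K)) * (3 * Q)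
            * (3 * (b / a) / s) := by gcongr
      _ = ((3 * Q) ^ (p + 1) * ((2 * L / c + K) * (3 * Q) * (3 * (b / a)))) *
            (N ^ (p + 2)) / s := by ring
      _ ≤ ((3 * Q) ^ (p + 1) * ((2 * L / c + K) * (3 * Q) * (3 * (b / a)))) *
            (N ^ (p + 3)) / s := by
          gcongr
          norm_num
      _ = _ := by ring
  have h7 : |(∫ θ, pcorr N p f (phases (sy (tr O m θ)).1)) - coeCorr N p f| ≤
      (3 * Q) ^ (p + 1) * (8 * L) * N ^ (p + 3) / s := by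
    refine le_trans h3 ?_
    calc 4 * N * ((2 * (N * Q : ℕ) + 1) ^ (p + 1) * L * N) * √(1 - γ / 2) ^ (m - 1)
        ≤ 4 * N * (((3 * Q) ^ (p + 1) * N ^ (p + 1)) * L * N) * (2 / s) := by gcongr
      _ = _ := by ring
  have h8 : |corr p f (unf l κ) T - coeCorr N p f| ≤
      |corr p f (unf l κ) T - ∫ θ, pcorr N p f (phases (sy (tr O m θ)).1)| +
      |(∫ θ, pcorr N p f (phases (sy (tr O m θ)).1)) - coeCorr N p f| := abs_sub_le _ _ _
  calc |corr p f (unf l κ) T - coeCorr N p f|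
      ≤ _ := h8
    _ ≤ ((3 * Q) ^ (p + 1) * ((2 * L / c + K) * (3 * Q) * (3 * (b / a))) * N ^ (p + 3) / s + ε)
        + (3 * Q) ^ (p + 1) * (8 * L) * N ^ (p + 3) / s := by linarith
    _ = _ := by ring

theorem main_spac (a b : ℝ) (ha : 0 < a) (hab : a ≤ b)
    (f : ℝ → ℝ) (L K : ℝ) (hL0 : 0 ≤ L)
    (hL : ∀ u v, |f u - f v| ≤ L * dist u v) (hK : ∀ v, |f v| ≤ K) :
    ∃ C, 0 ≤ C ∧ ∀ (N : ℕ), 0 < N → ∀ (γ : ℝ), 0 < γ → ∀ (O : ℕ → Orth N), (∀ j, Overlap γ (O j)) →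
      ∀ (m : ℕ) (l : Fin (m + 1) → Fin N → ℝ), (∀ j i, l j i ∈ Icc a b) →
      LinearIndependent ℚ (fun q : Fin (m + 1) × Fin N => l q.1 q.2) →
      ∀ κ, IsLevels N m O l κ → ∀ ε : ℝ, 0 < ε →
        ∀ᶠ T : ℝ in atTop, |spac f (unf l κ) T - coeSpac N f| ≤
          C * N ^ 2 / √(γ * (m + 1)) + ε := by
  have hb : 0 < b := lt_of_lt_of_le ha hab
  have hK0 : 0 ≤ K := le_trans (abs_nonneg _) (hK 0)
  set c : ℝ := a / b with hcdef
  have hc : 0 < c := by positivity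
  refine ⟨(2 * L / c + K) * 3 * (3 * (b / a)) + 8 * L, by positivity, ?_⟩
  intro N hN γ h0 O hγ m l hl hi κ hκ ε hε
  have hNR : (1 : ℝ) ≤ N := by exact_mod_cast hN
  have hγ1 := FIN_gamma hN (O 0) γ h0 (hγ 0)
  obtain ⟨Φ, hS, hΦ⟩ := sys hN O m l a b ha hab hl
  have hlen := LVL_len_pos hN l a b ha hl
  have hLs := (levels_lists hN O m l a b ha hab hl Φ hΦ κ).1 hκ
  have hpc := pspac_lip hN f L hL0 hL
  have hg := FIN_equi l hlen hi (fun θ => pspac N f (phases (sy (tr O m θ)).1))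
    ((hpc.1.comp sy_cont).comp (tr_cont O m))
  have hw := FIN_equi l hlen hi (dev O m l) (dev_cont O m l)
  have hg' : Tendsto (fun T : ℝ => (1 / T) * ∫ t in (0 : ℝ)..T,
      pspac N f fun q => -Φ (-q) t) atTop
      (𝓝 (∫ θ, pspac N f (phases (sy (tr O m θ)).1))) := by
    refine hg.congr fun T => ?_
    congr 1
    refine intervalIntegral.integral_congr fun t _ => ?_
    exact (hpc.2.1 _ _ (hΦ t)).symm
  have h3 := haar_rate hN O γ h0 hγ (fun A => pspac N f (phases (sy A).1))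
    (hpc.1.comp sy_cont) (L * N) (by positivity) hpc.2.2 m
  have h4 := lln hN O γ h0 hγ a b ha hab m l hl
  have h5 := FIN_rate γ h0 hγ1 m
  have hsp : 0 < √(γ * (m + 1)) := Real.sqrt_pos.2 (by positivity)
  set s := √(γ * (m + 1)) with hs
  filter_upwards [spacg hN hc f L K hL0 hL hK Φ _ hS _ hLs _ _ hg' hw ε hε]
    with T hT
  have h6 : (2 * N * L / c + K) * 3 * ∫ θ, dev O m l θ ≤
      ((2 * L / c + K) * 3 * (3 * (b / a))) * N ^ 2 / s := by
    have i2 : (2 * N * L / c + K) ≤ N * (2 * L / c + K) := by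
      have : K ≤ N * K := by nlinarith
      calc (2 * N * L / c + K) ≤ 2 * N * L / c + N * K := by linarith
        _ = _ := by ring
    have i4 : (0 : ℝ) ≤ ∫ θ, dev O m l θ := by
      refine integral_nonneg fun θ => ?_
      unfold dev
      exact mul_nonneg (by positivity) (SYS_fro_nonneg _)
    calc (2 * N * L / c + K) * 3 * ∫ θ, dev O m l θ
        ≤ (N * (2 * L / c + K)) * 3 * (3 * (b / a) / s) := by gcongr
      _ = ((2 * L / c + K) * 3 * (3 * (b / a))) * N ^ 1 / s := by ring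
      _ ≤ ((2 * L / c + K) * 3 * (3 * (b / a))) * N ^ 2 / s := by
          gcongr
          norm_num
  have h7 : |(∫ θ, pspac N f (phases (sy (tr O m θ)).1)) - coeSpac N f| ≤
      (8 * L) * N ^ 2 / s := by
    refine le_trans h3 ?_
    calc 4 * N * (L * N) * √(1 - γ / 2) ^ (m - 1)
        ≤ 4 * N * (L * N) * (2 / s) := by gcongr
      _ = _ := by ring
  have h8 : |spac f (unf l κ) T - coeSpac N f| ≤
      |spac f (unf l κ) T - ∫ θ, pspac N f (phases (sy (tr O m θ)).1)| +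
      |(∫ θ, pspac N f (phases (sy (tr O m θ)).1)) - coeSpac N f| := abs_sub_le _ _ _
  calc |spac f (unf l κ) T - coeSpac N f|
      ≤ _ := h8
    _ ≤ (((2 * L / c + K) * 3 * (3 * (b / a))) * N ^ 2 / s + ε)
        + (8 * L) * N ^ 2 / s := by linarith
    _ = _ := by ring

end QGr
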