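import Pool.Agent.LibQGr.R_BAS

/-! Row DER: derivative of the transfer matrix, the delay matrix, the determinant. -/

open MeasureTheory Set Filter Topology

namespace QGr

theorem DER_circ (x : ℝ) :
    ((AddCircle.toCircle ((x / (2 * Real.pi) : ℝ) : UnitAddCircle) : Circle) : ℂ) =
      Complex.exp (x * Complex.I) := by
  have hpi : (2 * Real.pi) ≠ 0 := by positivity
  rw [AddCircle.toCircle_apply_mk, Circle.coe_exp]
  congr 2
  have : 2 * Real.pi / 1 * (x / (2 * Real.pi)) = x := by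
    rw [div_one]
    field_simp
  rw [this]

theorem DER_fl {N m : ℕ} (l : Fin (m + 1) → Fin N → ℝ) (k : ℝ) (j : Fin (m + 1)) (i : Fin N) :
    ((AddCircle.toCircle (fl l k j i) : Circle) : ℂ) =
      Complex.exp (((k * l j i : ℝ) : ℂ) * Complex.I) := DER_circ (k * l j i)

theorem DER_fl_castSucc {N m : ℕ} (l : Fin (m + 2) → Fin N → ℝ) (k : ℝ) :
    (fun j : Fin (m + 1) => fl l k j.castSucc) = fl (fun j => l j.castSucc) k := rfl

theorem DER_exp (a k : ℝ) :
    HasDerivAt (fun k : ℝ => Complex.exp (((k * a : ℝ) : ℂ) * Complex.I))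
      (Complex.exp (((k * a : ℝ) : ℂ) * Complex.I) * ((a : ℂ) * Complex.I)) k := by
  have h1 : HasDerivAt (fun k : ℝ => ((k * a : ℝ) : ℂ) * Complex.I) ((a : ℂ) * Complex.I) k := by
    have h2 : HasDerivAt (fun k : ℝ => k * a) a k := by
      simpa using (hasDerivAt_id k).mul_const a
    exact h2.ofReal_comp.mul_const Complex.I
  exact h1.cexp

theorem DER_tr_succ {N : ℕ} (O : ℕ → Orth N) (m : ℕ) (θ : Fin (m + 2) → Fin N → UnitAddCircle) :
    (tr O (m + 1) θ).1 = (dg (θ (Fin.last (m + 1)))).1 * ((cx (O m)).1 *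
      (tr O m fun j => θ j.castSucc).1) := by
  rw [← Matrix.mul_assoc]
  rfl

theorem DER_star_mul {N : ℕ} (A : Uni N) : A.1.conjTranspose * A.1 = 1 := by
  have h := A.2
  rw [Matrix.mem_unitaryGroup_iff'] at h
  exact h

theorem DER_mul_star {N : ℕ} (A : Uni N) : A.1 * A.1.conjTranspose = 1 := by
  have h := A.2
  rw [Matrix.mem_unitaryGroup_iff] at h
  exact h

theorem DER_mul_Bm {N : ℕ} (O : ℕ → Orth N) (m : ℕ) (l : Fin (m + 2) → Fin N → ℝ)
    (θ : Fin (m + 2) → Fin N → UnitAddCircle) :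
    (tr O (m + 1) θ).1 * Bm O (m + 1) l θ =
      (Matrix.diagonal fun i => (l (Fin.last (m + 1)) i : ℂ)) * (tr O (m + 1) θ).1 +
      (dg (θ (Fin.last (m + 1)))).1 * ((cx (O m)).1 * ((tr O m fun j => θ j.castSucc).1 *
        Bm O m (fun j => l j.castSucc) fun j => θ j.castSucc)) := by
  have h1 : Bm O (m + 1) l θ = (tr O (m + 1) θ).1.conjTranspose
      * (Matrix.diagonal fun i => (l (Fin.last (m + 1)) i : ℂ)) * (tr O (m + 1) θ).1
      + Bm O m (fun j => l j.castSucc) fun j => θ j.castSucc := rfl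
  rw [h1, Matrix.mul_add]
  congr 1
  · rw [← Matrix.mul_assoc, ← Matrix.mul_assoc, DER_mul_star, Matrix.one_mul]
  · rw [DER_tr_succ, Matrix.mul_assoc, Matrix.mul_assoc]

theorem tr_deriv {N : ℕ} (O : ℕ → Orth N) (m : ℕ) (l : Fin (m + 1) → Fin N → ℝ) (k : ℝ) (i i' : Fin N) :
    HasDerivAt (fun k => (tr O m (fl l k)).1 i i')
      (Complex.I * ((tr O m (fl l k)).1 * Bm O m l (fl l k)) i i') k := by
  induction m generalizing i i' with
  | zero =>
    have h1 : ∀ k : ℝ, (tr O 0 (fl l k)).1 = Matrix.diagonal fun x =>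
        Complex.exp (((k * l 0 x : ℝ) : ℂ) * Complex.I) := by
      intro k
      change Matrix.diagonal (fun x => ((AddCircle.toCircle (fl l k 0 x) : Circle) : ℂ)) = _
      congr 1
      funext x
      exact DER_fl l k 0 x
    have h2 : Bm O 0 l (fl l k) = Matrix.diagonal fun x => (l 0 x : ℂ) := rfl
    rw [h2, h1 k, Matrix.diagonal_mul_diagonal]
    simp only [h1, Matrix.diagonal_apply]
    by_cases h : i = i'
    · subst h
      simp only [if_true]
      have h3 := DER_exp (l 0 i) k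
      have h4 : Complex.I * (Complex.exp (((k * l 0 i : ℝ) : ℂ) * Complex.I) * (l 0 i : ℂ)) =
          Complex.exp (((k * l 0 i : ℝ) : ℂ) * Complex.I) * ((l 0 i : ℂ) * Complex.I) := by ring
      rw [h4]
      exact h3
    · simp only [if_neg h, mul_zero]
      exact hasDerivAt_const k 0
  | succ m ih =>
    have h1 : ∀ k : ℝ, (dg (fl l k (Fin.last (m + 1)))).1 = Matrix.diagonal fun x =>
        Complex.exp (((k * l (Fin.last (m + 1)) x : ℝ) : ℂ) * Complex.I) := by
      intro k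
      change Matrix.diagonal (fun x => ((AddCircle.toCircle (fl l k (Fin.last (m + 1)) x) :
        Circle) : ℂ)) = _
      congr 1
      funext x
      exact DER_fl l k _ x
    have h2 : ∀ k : ℝ, (tr O (m + 1) (fl l k)).1 i i' =
        Complex.exp (((k * l (Fin.last (m + 1)) i : ℝ) : ℂ) * Complex.I) *
          ∑ x, (cx (O m)).1 i x * (tr O m (fl (fun j => l j.castSucc) k)).1 x i' := by
      intro k
      rw [DER_tr_succ, h1, Matrix.diagonal_mul, Matrix.mul_apply, DER_fl_castSucc]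
    have h3 : ((tr O (m + 1) (fl l k)).1 * Bm O (m + 1) l (fl l k)) i i' =
        (l (Fin.last (m + 1)) i : ℂ) * (tr O (m + 1) (fl l k)).1 i i' +
        Complex.exp (((k * l (Fin.last (m + 1)) i : ℝ) : ℂ) * Complex.I) *
          ∑ x, (cx (O m)).1 i x * ((tr O m (fl (fun j => l j.castSucc) k)).1 *
            Bm O m (fun j => l j.castSucc) (fl (fun j => l j.castSucc) k)) x i' := by
      rw [DER_mul_Bm, Matrix.add_apply, Matrix.diagonal_mul, h1, Matrix.diagonal_mul,
        DER_fl_castSucc, Matrix.mul_apply]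
    rw [h3]
    simp only [h2]
    have h4 := (DER_exp (l (Fin.last (m + 1)) i) k).mul
      (HasDerivAt.fun_sum (u := Finset.univ) (fun x _ =>
        (ih (fun j => l j.castSucc) x i').const_mul ((cx (O m)).1 i x)))
    refine h4.congr_deriv ?_
    have h5 : ∑ x, (cx (O m)).1 i x * (Complex.I * ((tr O m (fl (fun j => l j.castSucc) k)).1 *
        Bm O m (fun j => l j.castSucc) (fl (fun j => l j.castSucc) k)) x i') =
        Complex.I * ∑ x, (cx (O m)).1 i x * ((tr O m (fl (fun j => l j.castSucc) k)).1 *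
        Bm O m (fun j => l j.castSucc) (fl (fun j => l j.castSucc) k)) x i' := by
      rw [Finset.mul_sum]
      exact Finset.sum_congr rfl fun x _ => by ring
    rw [h5]
    ring

theorem DER_diag_herm {N : ℕ} (d : Fin N → ℝ) :
    (Matrix.diagonal fun i => (d i : ℂ)).conjTranspose = Matrix.diagonal fun i => (d i : ℂ) := by
  rw [Matrix.diagonal_conjTranspose]
  congr 1
  funext i
  simp

theorem Bm_herm {N : ℕ} (O : ℕ → Orth N) (m : ℕ) (l : Fin (m + 1) → Fin N → ℝ)
    (θ : Fin (m + 1) → Fin N → UnitAddCircle) :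
    (Bm O m l θ).conjTranspose = Bm O m l θ := by
  induction m with
  | zero => exact DER_diag_herm (l 0)
  | succ m ih =>
    have h1 : Bm O (m + 1) l θ = (tr O (m + 1) θ).1.conjTranspose
        * (Matrix.diagonal fun i => (l (Fin.last (m + 1)) i : ℂ)) * (tr O (m + 1) θ).1
        + Bm O m (fun j => l j.castSucc) fun j => θ j.castSucc := rfl
    rw [h1, Matrix.conjTranspose_add, ih, Matrix.conjTranspose_mul, Matrix.conjTranspose_mul,
      Matrix.conjTranspose_conjTranspose, DER_diag_herm, Matrix.mul_assoc]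

theorem DER_self {N : ℕ} (v : Fin N → ℂ) : (star v ⬝ᵥ v).re = ∑ i, ‖v i‖ ^ 2 := by
  unfold dotProduct
  rw [Complex.re_sum]
  refine Finset.sum_congr rfl fun i _ => ?_
  rw [Pi.star_apply, Complex.star_def, ← Complex.normSq_eq_conj_mul_self, Complex.ofReal_re,
    Complex.normSq_eq_norm_sq]

theorem DER_norm {N : ℕ} (A : Uni N) (v : Fin N → ℂ) :
    ∑ i, ‖(A.1.mulVec v) i‖ ^ 2 = ∑ i, ‖v i‖ ^ 2 := by
  rw [← DER_self, ← DER_self, Matrix.star_mulVec, ← Matrix.dotProduct_mulVec, Matrix.mulVec_mulVec,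
    DER_star_mul, Matrix.one_mulVec]

theorem DER_diag_form {N : ℕ} (d : Fin N → ℝ) (v : Fin N → ℂ) :
    (star v ⬝ᵥ (Matrix.diagonal fun i => (d i : ℂ)).mulVec v).re = ∑ i, d i * ‖v i‖ ^ 2 := by
  unfold dotProduct
  rw [Complex.re_sum]
  refine Finset.sum_congr rfl fun i _ => ?_
  rw [Matrix.mulVec_diagonal, Pi.star_apply, Complex.star_def, mul_left_comm,
    ← Complex.normSq_eq_conj_mul_self, Complex.re_ofReal_mul, Complex.ofReal_re,
    Complex.normSq_eq_norm_sq]

theorem DER_diag_bounds {N : ℕ} (d : Fin N → ℝ) (a b : ℝ) (hd : ∀ i, d i ∈ Icc a b)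
    (v : Fin N → ℂ) : a * ∑ i, ‖v i‖ ^ 2 ≤
      (star v ⬝ᵥ (Matrix.diagonal fun i => (d i : ℂ)).mulVec v).re ∧
    (star v ⬝ᵥ (Matrix.diagonal fun i => (d i : ℂ)).mulVec v).re ≤ b * ∑ i, ‖v i‖ ^ 2 := by
  rw [DER_diag_form, Finset.mul_sum, Finset.mul_sum]
  exact ⟨Finset.sum_le_sum fun i _ => mul_le_mul_of_nonneg_right (hd i).1 (by positivity),
    Finset.sum_le_sum fun i _ => mul_le_mul_of_nonneg_right (hd i).2 (by positivity)⟩

theorem Bm_form {N : ℕ} (O : ℕ → Orth N) (m : ℕ) (l : Fin (m + 1) → Fin N → ℝ) (a b : ℝ)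
    (hl : ∀ j i, l j i ∈ Icc a b) (θ : Fin (m + 1) → Fin N → UnitAddCircle)
    (v : Fin N → ℂ) :
    (m + 1) * a * ∑ i, ‖v i‖ ^ 2 ≤ (star v ⬝ᵥ (Bm O m l θ).mulVec v).re ∧
    (star v ⬝ᵥ (Bm O m l θ).mulVec v).re ≤ (m + 1) * b * ∑ i, ‖v i‖ ^ 2 := by
  induction m with
  | zero =>
    have h1 := DER_diag_bounds (l 0) a b (hl 0) v
    have h2 : Bm O 0 l θ = Matrix.diagonal fun i => (l 0 i : ℂ) := rfl
    rw [h2]
    simpa using h1
  | succ m ih =>
    have h1 : Bm O (m + 1) l θ = (tr O (m + 1) θ).1.conjTranspose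
        * ((Matrix.diagonal fun i => (l (Fin.last (m + 1)) i : ℂ)) * (tr O (m + 1) θ).1)
        + Bm O m (fun j => l j.castSucc) fun j => θ j.castSucc := by
      rw [← Matrix.mul_assoc]; rfl
    have h2 := ih (fun j => l j.castSucc) (fun j i => hl j.castSucc i) (fun j => θ j.castSucc)
    have h3 := DER_diag_bounds (l (Fin.last (m + 1))) a b (hl _)
      ((tr O (m + 1) θ).1.mulVec v)
    rw [DER_norm] at h3
    have h4 : star v ⬝ᵥ ((tr O (m + 1) θ).1.conjTranspose
        * ((Matrix.diagonal fun i => (l (Fin.last (m + 1)) i : ℂ)) * (tr O (m + 1) θ).1)).mulVec v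
        = star ((tr O (m + 1) θ).1.mulVec v) ⬝ᵥ
          (Matrix.diagonal fun i => (l (Fin.last (m + 1)) i : ℂ)).mulVec
            ((tr O (m + 1) θ).1.mulVec v) := by
      rw [Matrix.star_mulVec, ← Matrix.dotProduct_mulVec, Matrix.mulVec_mulVec,
        Matrix.mulVec_mulVec, Matrix.mul_assoc]
    rw [h1, Matrix.add_mulVec, dotProduct_add, Complex.add_re, h4]
    push_cast
    constructor <;> linarith [h2.1, h2.2, h3.1, h3.2]

theorem fro_form {N : ℕ} (M : Matrix (Fin N) (Fin N) ℂ) (v : Fin N → ℂ) :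
    ‖star v ⬝ᵥ M.mulVec v‖ ≤ fro M * ∑ i, ‖v i‖ ^ 2 := by
  have h1 : ‖star v ⬝ᵥ M.mulVec v‖ ≤ ∑ q : Fin N × Fin N, ‖M q.1 q.2‖ * (‖v q.1‖ * ‖v q.2‖) := by
    rw [Fintype.sum_prod_type]
    unfold dotProduct Matrix.mulVec dotProduct
    refine (norm_sum_le _ _).trans (Finset.sum_le_sum fun i _ => ?_)
    rw [norm_mul, Pi.star_apply, norm_star]
    calc ‖v i‖ * ‖∑ j, M i j * v j‖ ≤ ‖v i‖ * ∑ j, ‖M i j * v j‖ :=
          mul_le_mul_of_nonneg_left (norm_sum_le _ _) (norm_nonneg _)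
      _ = ∑ j, ‖M i j‖ * (‖v i‖ * ‖v j‖) := by
          rw [Finset.mul_sum]
          refine Finset.sum_congr rfl fun j _ => ?_
          rw [norm_mul]
          ring
  have h2 := Real.sum_mul_le_sqrt_mul_sqrt (Finset.univ : Finset (Fin N × Fin N))
    (fun q => ‖M q.1 q.2‖) (fun q => ‖v q.1‖ * ‖v q.2‖)
  have h3 : ∑ q : Fin N × Fin N, ‖M q.1 q.2‖ ^ 2 = ∑ i, ∑ j, ‖M i j‖ ^ 2 :=
    Fintype.sum_prod_type _
  have h4 : ∑ q : Fin N × Fin N, (‖v q.1‖ * ‖v q.2‖) ^ 2 = (∑ i, ‖v i‖ ^ 2) ^ 2 := by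
    rw [Fintype.sum_prod_type, pow_two, Finset.sum_mul_sum]
    exact Finset.sum_congr rfl fun i _ => Finset.sum_congr rfl fun j _ => by ring
  rw [h3, h4, Real.sqrt_sq (by positivity)] at h2
  exact h1.trans h2

theorem DER_det_dg {N m : ℕ} (l : Fin (m + 1) → Fin N → ℝ) (k : ℝ) (j : Fin (m + 1)) :
    (dg (fl l k j)).1.det = Complex.exp (((k * ∑ i, l j i : ℝ) : ℂ) * Complex.I) := by
  change (Matrix.diagonal (fun x => ((AddCircle.toCircle (fl l k j x) : Circle) : ℂ))).det = _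
  rw [Matrix.det_diagonal]
  simp only [DER_fl]
  rw [← Complex.exp_sum, ← Finset.sum_mul]
  congr 2
  rw [Finset.mul_sum]
  push_cast
  rfl

theorem DER_det_cx {N : ℕ} (O : Orth N) : (cx O).1.det ^ 2 = 1 := by
  have h2 := O.2
  rw [Matrix.mem_orthogonalGroup_iff] at h2
  have h3 : O.1.det ^ 2 = 1 := by
    have := congrArg Matrix.det h2
    rw [Matrix.det_one] at this
    rw [← this, Matrix.det_mul]
    first
      | rw [Matrix.det_transpose, pow_two]
      | rw [Matrix.star_eq_conjTranspose, Matrix.det_conjTranspose, star_trivial, pow_two]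
  have h4 : (cx O).1.det = ((O.1.det : ℝ) : ℂ) := by
    change (O.1.map Complex.ofRealHom).det = _
    have := RingHom.map_det Complex.ofRealHom O.1
    rw [RingHom.mapMatrix_apply] at this
    rw [← this]
    rfl
  rw [h4, ← Complex.ofReal_pow, h3, Complex.ofReal_one]

theorem DER_det_tr {N : ℕ} (O : ℕ → Orth N) (m : ℕ) (l : Fin (m + 1) → Fin N → ℝ) (k : ℝ) :
    (tr O m (fl l k)).1.det ^ 2 = Complex.exp ((2 * k * len l : ℝ) * Complex.I) := by
  induction m with
  | zero =>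
    have h1 : (tr O 0 (fl l k)).1 = (dg (fl l k 0)).1 := rfl
    rw [h1, DER_det_dg, ← Complex.exp_nat_mul]
    congr 1
    unfold len
    rw [Fin.sum_univ_one]
    push_cast
    ring
  | succ m ih =>
    rw [DER_tr_succ, Matrix.det_mul, Matrix.det_mul, mul_pow, mul_pow, DER_det_cx, one_mul,
      DER_fl_castSucc, ih, DER_det_dg, ← Complex.exp_nat_mul, ← Complex.exp_add]
    congr 1
    unfold len
    rw [Fin.sum_univ_castSucc (n := m + 1)]
    push_cast
    ring

theorem det_sy {N : ℕ} (O : ℕ → Orth N) (m : ℕ) (l : Fin (m + 1) → Fin N → ℝ) (k : ℝ) :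
    (sy (tr O m (fl l k))).1.det = Complex.exp ((2 * k * len l : ℝ) * Complex.I) := by
  change ((tr O m (fl l k)).1.transpose * (tr O m (fl l k)).1).det = _
  rw [Matrix.det_mul, Matrix.det_transpose, ← pow_two, DER_det_tr]

end QGr
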