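import Pool.Agent.LibQGr.R_LIM
import Pool.Agent.LibQGr.R_DER
import Pool.Agent.LibQGr.R_UDI

open MeasureTheory Set Filter Topology

namespace QGr


/-- The columns of a unitary matrix have norm one. -/
theorem SLG_entry (N : ℕ) (V : Uni N) (a : Fin N) : ∑ i, ‖V.1 i a‖ ^ 2 = 1 := by
  have h := V.2
  rw [Matrix.mem_unitaryGroup_iff'] at h
  have h1 := congrFun (congrFun h a) a
  rw [Matrix.mul_apply] at h1
  simp only [Matrix.star_apply, Matrix.one_apply_eq] at h1
  have h2 : ((∑ i, ‖V.1 i a‖ ^ 2 : ℝ) : ℂ) = 1 := by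
    rw [← h1]
    push_cast
    refine Finset.sum_congr rfl fun i _ => ?_
    rw [← Complex.conj_mul']
    rfl
  exact_mod_cast h2

/-- The limit of the difference quotient from that of the exponentials. -/
theorem SLG_exp (𝒰 : Filter ℝ) [𝒰.NeBot] (k₀ : ℝ) (h𝒰 : 𝒰 ≤ 𝓝[≠] k₀) (F : ℝ → ℝ) (hF : Continuous F)
    (σ : ℂ) (h : Tendsto (fun k : ℝ => (Complex.exp (F k * Complex.I)
      - Complex.exp (F k₀ * Complex.I)) / ((k - k₀ : ℝ) : ℂ)) 𝒰
      (𝓝 (Complex.I * Complex.exp (F k₀ * Complex.I) * σ))) :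
    Tendsto (fun k => (F k - F k₀) / (k - k₀)) 𝒰 (𝓝 σ.re) ∧ ((σ.re : ℝ) : ℂ) = σ := by
  have hle : 𝒰 ≤ 𝓝 k₀ := h𝒰.trans nhdsWithin_le_nhds
  -- the function `ψ`
  set φ : ℂ → ℂ := fun z => Complex.exp (z * Complex.I) with hφ
  have hdφ : HasDerivAt φ Complex.I 0 := by
    have := (hasDerivAt_mul_const (x := (0 : ℂ)) Complex.I).cexp
    simpa [hφ] using this
  have hψ : ContinuousAt (dslope φ 0) 0 := by
    rw [continuousAt_dslope_same]
    exact hdφ.differentiableAt
  have hψ0 : dslope φ 0 0 = Complex.I := by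
    rw [dslope_same, hdφ.deriv]
  have hδ : Tendsto (fun k : ℝ => ((F k - F k₀ : ℝ) : ℂ)) 𝒰 (𝓝 0) := by
    have h1 : Tendsto (fun k : ℝ => ((F k - F k₀ : ℝ) : ℂ)) (𝓝 k₀) (𝓝 ((F k₀ - F k₀ : ℝ) : ℂ)) :=
      (Complex.continuous_ofReal.comp (hF.sub continuous_const)).tendsto k₀
    rw [sub_self, Complex.ofReal_zero] at h1
    exact h1.mono_left hle
  have hψδ : Tendsto (fun k : ℝ => dslope φ 0 ((F k - F k₀ : ℝ) : ℂ)) 𝒰 (𝓝 Complex.I) := by
    have := hψ.tendsto
    rw [hψ0] at this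
    exact this.comp hδ
  have hne : Complex.I * Complex.exp (F k₀ * Complex.I) ≠ 0 :=
    mul_ne_zero Complex.I_ne_zero (Complex.exp_ne_zero _)
  have hq : Tendsto (fun k : ℝ => ((Complex.exp (F k * Complex.I)
      - Complex.exp (F k₀ * Complex.I)) / ((k - k₀ : ℝ) : ℂ)) /
        (Complex.exp (F k₀ * Complex.I) * dslope φ 0 ((F k - F k₀ : ℝ) : ℂ))) 𝒰 (𝓝 σ) := by
    have h1 := h.div (tendsto_const_nhds.mul hψδ)
      (show Complex.exp (F k₀ * Complex.I) * Complex.I ≠ 0 from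
        mul_ne_zero (Complex.exp_ne_zero _) Complex.I_ne_zero)
    have h2 : Complex.I * Complex.exp (F k₀ * Complex.I) * σ
        / (Complex.exp (F k₀ * Complex.I) * Complex.I) = σ := by
      rw [mul_comm Complex.I, mul_comm _ σ, mul_div_assoc, div_self, mul_one]
      exact mul_ne_zero (Complex.exp_ne_zero _) Complex.I_ne_zero
    rw [h2] at h1
    exact h1
  have hψne : ∀ᶠ k : ℝ in 𝒰, dslope φ 0 ((F k - F k₀ : ℝ) : ℂ) ≠ 0 :=
    hψδ.eventually_ne Complex.I_ne_zero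
  have heq : ∀ᶠ k : ℝ in 𝒰, ((Complex.exp (F k * Complex.I)
      - Complex.exp (F k₀ * Complex.I)) / ((k - k₀ : ℝ) : ℂ)) /
        (Complex.exp (F k₀ * Complex.I) * dslope φ 0 ((F k - F k₀ : ℝ) : ℂ))
        = (((F k - F k₀) / (k - k₀) : ℝ) : ℂ) := by
    filter_upwards [hψne] with k hk
    have h1 : ((F k - F k₀ : ℝ) : ℂ) * dslope φ 0 ((F k - F k₀ : ℝ) : ℂ)
        = φ ((F k - F k₀ : ℝ) : ℂ) - φ 0 := by
      have := sub_smul_dslope φ 0 ((F k - F k₀ : ℝ) : ℂ)
      rwa [sub_zero, smul_eq_mul] at this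
    have h2 : Complex.exp (F k * Complex.I) - Complex.exp (F k₀ * Complex.I)
        = Complex.exp (F k₀ * Complex.I) * (φ ((F k - F k₀ : ℝ) : ℂ) - φ 0) := by
      simp only [hφ, zero_mul, Complex.exp_zero, mul_sub, mul_one]
      rw [← Complex.exp_add]
      congr 2
      push_cast
      ring
    rw [h2, ← h1]
    have h3 := Complex.exp_ne_zero (F k₀ * Complex.I)
    rw [show Complex.exp (F k₀ * Complex.I) * (((F k - F k₀ : ℝ) : ℂ)
      * dslope φ 0 ((F k - F k₀ : ℝ) : ℂ)) / ((k - k₀ : ℝ) : ℂ)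
      = ((F k - F k₀ : ℝ) : ℂ) / ((k - k₀ : ℝ) : ℂ) *
        (Complex.exp (F k₀ * Complex.I) * dslope φ 0 ((F k - F k₀ : ℝ) : ℂ)) by ring,
      mul_div_assoc, div_self (mul_ne_zero h3 hk), mul_one]
    push_cast
    rfl
  have h4 := (hq.congr' heq)
  have h5 := (Complex.continuous_re.tendsto σ).comp h4
  have h6 := (Complex.continuous_im.tendsto σ).comp h4
  have h7 : σ.im = 0 := by
    refine tendsto_nhds_unique h6 ?_
    refine tendsto_const_nhds.congr fun k => ?_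
    exact (Complex.ofReal_im _).symm
  refine ⟨h5.congr fun k => ?_, ?_⟩
  · exact Complex.ofReal_re _
  · apply Complex.ext
    · simp
    · simp [h7]

/-- The slope for an index in `[0, N)`. -/
theorem SLG_fin {N : ℕ} (W : ℝ → Uni N) (W' : Matrix (Fin N) (Fin N) ℂ) (k₀ : ℝ)
    (hd : ∀ i j, HasDerivAt (fun k => (W k).1 i j) (W' i j) k₀)
    (F : ℤ → ℝ → ℝ) (hF : ∀ p, Continuous (F p)) (hD : ∀ k, Dia (W k) fun p => F p k) (c : Fin N)
    (𝒰 : Ultrafilter ℝ) (h𝒰 : (𝒰 : Filter ℝ) ≤ 𝓝[≠] k₀) :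
    ∃ (s : ℝ) (v : Fin N → ℂ),
      Tendsto (fun k => (F (c : ℕ) k - F (c : ℕ) k₀) / (k - k₀)) 𝒰 (𝓝 s) ∧
      ∑ i, ‖v i‖ ^ 2 = 1 ∧ (W k₀).1.mulVec v = Complex.exp (F (c : ℕ) k₀ * Complex.I) • v ∧
      (s : ℂ) * Complex.I * Complex.exp (F (c : ℕ) k₀ * Complex.I) = star v ⬝ᵥ W'.mulVec v := by
  have hle : (𝒰 : Filter ℝ) ≤ 𝓝 k₀ := h𝒰.trans nhdsWithin_le_nhds
  choose V hV using fun k => (hD k).dia
  set e : ℝ → Fin N → ℂ := fun k a => Complex.exp (F (a : ℕ) k * Complex.I) with he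
  have hVk : ∀ k, (W k).1 = (V k).1 * Matrix.diagonal (e k) * (V k).1.conjTranspose := hV
  have hun : ∀ U : Uni N, U.1.conjTranspose * U.1 = 1 := fun U => by
    have := U.2
    rwa [Matrix.mem_unitaryGroup_iff'] at this
  -- limit of the eigenbases
  obtain ⟨V0, hV0⟩ : ∃ V0, Tendsto V 𝒰 (𝓝 V0) := by
    obtain ⟨V0, -, h0⟩ := isCompact_univ.ultrafilter_le_nhds (𝒰.map V) (by simp)
    exact ⟨V0, h0⟩
  have hV0e : ∀ i j, Tendsto (fun k => (V k).1 i j) 𝒰 (𝓝 (V0.1 i j)) := by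
    intro i j
    have hc : Continuous fun U : Uni N => U.1 i j :=
      (continuous_apply j).comp ((continuous_apply i).comp continuous_subtype_val)
    exact (hc.tendsto V0).comp hV0
  have hWe : ∀ i j, Tendsto (fun k => (W k).1 i j) 𝒰 (𝓝 ((W k₀).1 i j)) := fun i j =>
    (hd i j).continuousAt.tendsto.mono_left hle
  have hee : ∀ c, Tendsto (fun k => e k c) 𝒰 (𝓝 (e k₀ c)) := by
    intro c
    have hc : Continuous fun k => e k c := by
      simp only [he]
      exact Complex.continuous_exp.comp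
        ((Complex.continuous_ofReal.comp (hF _)).mul continuous_const)
    exact (hc.tendsto k₀).mono_left hle
  have hW0 : (W k₀).1 = V0.1 * Matrix.diagonal (e k₀) * V0.1.conjTranspose := by
    ext i j
    refine tendsto_nhds_unique (hWe i j) ?_
    have h1 : ∀ k, (W k).1 i j = ∑ r, (V k).1 i r * e k r * star ((V k).1 j r) := by
      intro k
      rw [hVk k, Matrix.mul_apply]
      refine Finset.sum_congr rfl fun r _ => ?_
      rw [Matrix.mul_diagonal, Matrix.conjTranspose_apply]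
    have h2 : (V0.1 * Matrix.diagonal (e k₀) * V0.1.conjTranspose) i j
        = ∑ r, V0.1 i r * e k₀ r * star (V0.1 j r) := by
      rw [Matrix.mul_apply]
      refine Finset.sum_congr rfl fun r _ => ?_
      rw [Matrix.mul_diagonal, Matrix.conjTranspose_apply]
    rw [h2]
    simp only [h1]
    refine tendsto_finsetSum _ fun r _ => ?_
    exact ((hV0e i r).mul (hee r)).mul ((continuous_star.tendsto _).comp (hV0e j r))
  -- the vector
  set v : Fin N → ℂ := fun i => V0.1 i c with hv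
  have hWk : ∀ k, (W k).1 * (V k).1 = (V k).1 * Matrix.diagonal (e k) := by
    intro k
    rw [hVk k, Matrix.mul_assoc, hun, Matrix.mul_one]
  have hW0r : (W k₀).1 * V0.1 = V0.1 * Matrix.diagonal (e k₀) := by
    rw [hW0, Matrix.mul_assoc, hun, Matrix.mul_one]
  have hW0l : V0.1.conjTranspose * (W k₀).1 = Matrix.diagonal (e k₀) * V0.1.conjTranspose := by
    rw [hW0, ← Matrix.mul_assoc, ← Matrix.mul_assoc, hun, Matrix.one_mul]
  have hid : ∀ k, (V0.1.conjTranspose * ((W k).1 - (W k₀).1) * (V k).1) c c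
      = (V0.1.conjTranspose * (V k).1) c c * (e k c - e k₀ c) := by
    intro k
    rw [Matrix.mul_sub, Matrix.sub_mul, Matrix.mul_assoc, hWk, ← Matrix.mul_assoc, hW0l,
      Matrix.mul_assoc (Matrix.diagonal (e k₀)), Matrix.sub_apply, Matrix.mul_diagonal,
      Matrix.diagonal_mul]
    ring
  have hq : ∀ i j, Tendsto (fun k : ℝ => ((W k).1 i j - (W k₀).1 i j) / ((k - k₀ : ℝ) : ℂ)) 𝒰
      (𝓝 (W' i j)) := by
    intro i j
    have h1 := (hasDerivAt_iff_tendsto_slope.1 (hd i j)).mono_left h𝒰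
    refine h1.congr fun k => ?_
    rw [slope_def_module, Complex.real_smul, Complex.ofReal_inv, div_eq_inv_mul]
  have hL : Tendsto (fun k : ℝ => (V0.1.conjTranspose * ((W k).1 - (W k₀).1) * (V k).1) c c
      / ((k - k₀ : ℝ) : ℂ)) 𝒰 (𝓝 ((V0.1.conjTranspose * W' * V0.1) c c)) := by
    have h1 : ∀ k : ℝ, (V0.1.conjTranspose * ((W k).1 - (W k₀).1) * (V k).1) c c
        / ((k - k₀ : ℝ) : ℂ)
        = ∑ j, ∑ i, star (V0.1 i c) * (((W k).1 i j - (W k₀).1 i j) / ((k - k₀ : ℝ) : ℂ))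
            * (V k).1 j c := by
      intro k
      rw [Matrix.mul_apply, Finset.sum_div]
      refine Finset.sum_congr rfl fun j _ => ?_
      rw [Matrix.mul_apply, Finset.sum_mul, Finset.sum_div]
      refine Finset.sum_congr rfl fun i _ => ?_
      rw [Matrix.conjTranspose_apply, Matrix.sub_apply]
      ring
    have h2 : (V0.1.conjTranspose * W' * V0.1) c c
        = ∑ j, ∑ i, star (V0.1 i c) * W' i j * V0.1 j c := by
      rw [Matrix.mul_apply]
      refine Finset.sum_congr rfl fun j _ => ?_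
      rw [Matrix.mul_apply, Finset.sum_mul]
      refine Finset.sum_congr rfl fun i _ => ?_
      rw [Matrix.conjTranspose_apply]
    rw [h2]
    simp only [h1]
    refine tendsto_finsetSum _ fun j _ => tendsto_finsetSum _ fun i _ => ?_
    exact (tendsto_const_nhds.mul (hq i j)).mul (hV0e j c)
  set τ : ℂ := (V0.1.conjTranspose * W' * V0.1) c c with hτ
  have hO : Tendsto (fun k => (V0.1.conjTranspose * (V k).1) c c) 𝒰 (𝓝 1) := by
    have h1 : ∀ k, (V0.1.conjTranspose * (V k).1) c c = ∑ i, star (V0.1 i c) * (V k).1 i c := by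
      intro k
      rw [Matrix.mul_apply]
      rfl
    have h2 : (1 : ℂ) = ∑ i, star (V0.1 i c) * V0.1 i c := by
      have := congrFun (congrFun (hun V0) c) c
      rw [Matrix.mul_apply, Matrix.one_apply_eq] at this
      exact this.symm
    rw [h2]
    simp only [h1]
    exact tendsto_finsetSum _ fun i _ => tendsto_const_nhds.mul (hV0e i c)
  have hne0 : Complex.I * e k₀ c ≠ 0 := mul_ne_zero Complex.I_ne_zero (Complex.exp_ne_zero _)
  have hexp : Tendsto (fun k : ℝ => (e k c - e k₀ c) / ((k - k₀ : ℝ) : ℂ)) 𝒰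
      (𝓝 (Complex.I * e k₀ c * (τ / (Complex.I * e k₀ c)))) := by
    have h1 := hL.div hO one_ne_zero
    rw [div_one] at h1
    have hne : ∀ᶠ k in (𝒰 : Filter ℝ), (V0.1.conjTranspose * (V k).1) c c ≠ 0 :=
      hO.eventually_ne one_ne_zero
    rw [mul_div_cancel₀ _ hne0]
    refine h1.congr' ?_
    filter_upwards [hne] with k hk
    simp only [Pi.div_apply]
    rw [hid k, mul_div_assoc, mul_comm, mul_div_assoc, div_self hk, mul_one]
  obtain ⟨hs1, hs2⟩ := SLG_exp 𝒰 k₀ h𝒰 (F (c : ℕ)) (hF _) _ hexp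
  refine ⟨_, v, hs1, SLG_entry N V0 c, ?_, ?_⟩
  · funext i
    have h1 := congrFun (congrFun hW0r i) c
    rw [Matrix.mul_apply, Matrix.mul_diagonal] at h1
    rw [Matrix.mulVec, dotProduct, Pi.smul_apply, smul_eq_mul, mul_comm]
    exact h1
  · rw [hs2]
    have h1 : τ / (Complex.I * e k₀ c) * Complex.I * e k₀ c = τ := by
      rw [mul_assoc, div_mul_cancel₀ _ hne0]
    change τ / (Complex.I * e k₀ c) * Complex.I * e k₀ c = _
    rw [h1, hτ, Matrix.mul_assoc]
    simp only [Matrix.mul_apply, dotProduct, Matrix.mulVec]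
    rfl

/-- Quasi-periodicity by several periods. -/
theorem SLG_per {N : ℕ} (G : ℤ → ℝ) (h : ∀ p, G (p + N) = G p + 2 * Real.pi) (p q : ℤ) :
    G (p + N * q) = G p + 2 * Real.pi * q := by
  induction q using Int.induction_on with
  | zero => simp
  | succ i ih =>
    rw [show p + N * ((i : ℤ) + 1) = p + N * (i : ℤ) + N by ring, h, ih]
    push_cast
    ring
  | pred i ih =>
    have := h (p + N * (-(i : ℤ) - 1))
    rw [show p + N * (-(i : ℤ) - 1) + N = p + N * (-(i : ℤ)) by ring, ih] at this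
    push_cast at this ⊢
    linarith

/-- Limit points of difference quotients of an eigenphase along a differentiable path. -/
theorem slope_gen {N : ℕ} (hN : 0 < N) (W : ℝ → Uni N) (W' : Matrix (Fin N) (Fin N) ℂ) (k₀ : ℝ)
    (hW : Continuous W) (hd : ∀ i j, HasDerivAt (fun k => (W k).1 i j) (W' i j) k₀)
    (F : ℤ → ℝ → ℝ) (hF : ∀ p, Continuous (F p)) (hD : ∀ k, Dia (W k) fun p => F p k) (p : ℤ)
    (𝒰 : Ultrafilter ℝ) (h𝒰 : (𝒰 : Filter ℝ) ≤ 𝓝[≠] k₀) :
    ∃ (s : ℝ) (v : Fin N → ℂ), Tendsto (fun k => (F p k - F p k₀) / (k - k₀)) 𝒰 (𝓝 s) ∧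
      ∑ i, ‖v i‖ ^ 2 = 1 ∧ (W k₀).1.mulVec v = Complex.exp (F p k₀ * Complex.I) • v ∧
      (s : ℂ) * Complex.I * Complex.exp (F p k₀ * Complex.I) = star v ⬝ᵥ W'.mulVec v := by
  have hpos : (0 : ℤ) < (N : ℤ) := by exact_mod_cast hN
  set r : ℕ := (p % (N : ℤ)).toNat with hr
  have hr0 : ((r : ℕ) : ℤ) = p % (N : ℤ) :=
    Int.toNat_of_nonneg (Int.emod_nonneg _ hpos.ne')
  have hrlt : r < N := by
    have := Int.emod_lt_of_pos p hpos
    rw [← hr0] at this
    exact_mod_cast this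
  have hp : p = (r : ℤ) + (N : ℤ) * (p / (N : ℤ)) := by
    rw [hr0]
    exact (Int.emod_add_mul_ediv p _).symm
  have hper : ∀ k, F p k = F (r : ℤ) k + 2 * Real.pi * ((p / (N : ℤ) : ℤ) : ℝ) := by
    intro k
    have := SLG_per (N := N) (fun p => F p k) (hD k).per r (p / (N : ℤ))
    rw [← hp] at this
    exact this
  have hexp : Complex.exp (F p k₀ * Complex.I) = Complex.exp (F (r : ℤ) k₀ * Complex.I) := by
    rw [hper k₀, Complex.exp_eq_exp_iff_exists_int]
    refine ⟨p / (N : ℤ), ?_⟩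
    push_cast
    ring
  obtain ⟨s, v, hs, h1, h2, h3⟩ := SLG_fin W W' k₀ hd F hF hD ⟨r, hrlt⟩ 𝒰 h𝒰
  refine ⟨s, v, ?_, h1, ?_, ?_⟩
  · refine hs.congr fun k => ?_
    rw [hper k, hper k₀]
    congr 1
    ring
  · rw [hexp]
    exact h2
  · rw [hexp]
    exact h3

/-- Entrywise derivative of `Aᵀ A`. -/
theorem SLG_deriv {N : ℕ} (O : ℕ → Orth N) (m : ℕ) (l : Fin (m + 1) → Fin N → ℝ) (k : ℝ)
    (i j : Fin N) :
    HasDerivAt (fun k => (sy (tr O m (fl l k))).1 i j)
      ((Complex.I • ((Bm O m l (fl l k)).transpose * (sy (tr O m (fl l k))).1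
        + (sy (tr O m (fl l k))).1 * Bm O m l (fl l k))) i j) k := by
  set A : ℝ → Matrix (Fin N) (Fin N) ℂ := fun k => (tr O m (fl l k)).1 with hA
  set B := Bm O m l (fl l k) with hB
  have hd : ∀ i i', HasDerivAt (fun k => A k i i') (Complex.I * (A k * B) i i') k :=
    fun i i' => tr_deriv O m l k i i'
  have h1 : (fun k => (sy (tr O m (fl l k))).1 i j) = fun k => ∑ r, A k r i * A k r j := by
    ext k
    simp only [sy, Matrix.mul_apply, Matrix.transpose_apply, hA]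
  rw [h1]
  have h2 := HasDerivAt.fun_sum (u := Finset.univ)
    (fun (r : Fin N) _ => (hd r i).mul (hd r j))
  refine HasDerivAt.congr_deriv (f := fun k => ∑ r, A k r i * A k r j) h2 ?_
  have h3 : (sy (tr O m (fl l k))).1 = (A k).transpose * A k := rfl
  rw [h3, Matrix.smul_apply, smul_eq_mul, Matrix.add_apply, ← Matrix.mul_assoc,
    ← Matrix.transpose_mul, Matrix.mul_assoc,
    Matrix.mul_apply (M := (A k * B).transpose), Matrix.mul_apply (M := (A k).transpose),
    ← Finset.sum_add_distrib, Finset.mul_sum]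
  refine Finset.sum_congr rfl fun r _ => ?_
  simp only [Matrix.transpose_apply]
  ring

/-- All limit points of the difference quotients of an eigenphase lie in an interval. -/
theorem slope {N : ℕ} (hN : 0 < N) (O : ℕ → Orth N) (m : ℕ) (l : Fin (m + 1) → Fin N → ℝ)
    (a b : ℝ) (ha : 0 < a)
    (hl : ∀ j i, l j i ∈ Icc a b) (F : ℤ → ℝ → ℝ) (hF : ∀ p, Continuous (F p))
    (hd : ∀ k, Dia (sy (tr O m (fl l k))) fun p => F p k) (p : ℤ) (k₀ : ℝ)
    (𝒰 : Ultrafilter ℝ) (h𝒰 : (𝒰 : Filter ℝ) ≤ 𝓝[≠] k₀) :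
    ∃ s, Tendsto (fun k => (F p k - F p k₀) / (k - k₀)) 𝒰 (𝓝 s) ∧
      2 * (m + 1) * a ≤ s ∧ s ≤ 2 * (m + 1) * b ∧
      |s - 2 * (len l / N)| ≤
        2 * fro (Bm O m l (fl l k₀) - ((len l / N : ℝ) : ℂ) • 1) := by
  set W : ℝ → Uni N := fun k => sy (tr O m (fl l k)) with hWdef
  set B := Bm O m l (fl l k₀) with hB
  have hWc : Continuous W := by
    apply Continuous.subtype_mk
    refine continuous_matrix fun i j => ?_
    rw [continuous_iff_continuousAt]
    exact fun k => (SLG_deriv O m l k i j).continuousAt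
  obtain ⟨s, v, hs, hvn, hev, hsv⟩ := slope_gen hN W _ k₀ hWc
    (fun i j => SLG_deriv O m l k₀ i j) F hF hd p 𝒰 h𝒰
  refine ⟨s, hs, ?_⟩
  set ε : ℂ := Complex.exp (F p k₀ * Complex.I) with hε
  have hε0 : ε ≠ 0 := Complex.exp_ne_zero _
  have hεn : star ε * ε = 1 := by
    rw [hε]
    change (starRingEnd ℂ) _ * _ = _
    rw [Complex.conj_mul', Complex.norm_exp_ofReal_mul_I]
    simp
  -- left eigenvector
  have hun : (W k₀).1.conjTranspose * (W k₀).1 = 1 := by
    have := (W k₀).2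
    rwa [Matrix.mem_unitaryGroup_iff'] at this
  have hl1 : (W k₀).1.conjTranspose.mulVec v = star ε • v := by
    have h1 : (W k₀).1.conjTranspose.mulVec ((W k₀).1.mulVec v) = v := by
      rw [Matrix.mulVec_mulVec, hun, Matrix.one_mulVec]
    rw [hev, Matrix.mulVec_smul] at h1
    have h2 := congrArg (fun u => star ε • u) h1
    simp only [smul_smul, hεn, one_smul] at h2
    exact h2
  have hl2 : Matrix.vecMul (star v) (W k₀).1 = ε • star v := by
    have h1 := congrArg star hl1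
    rw [Matrix.star_mulVec, Matrix.conjTranspose_conjTranspose, star_smul, star_star] at h1
    exact h1
  have hWd : (Complex.I • ((Bm O m l (fl l k₀)).transpose * (sy (tr O m (fl l k₀))).1
        + (sy (tr O m (fl l k₀))).1 * Bm O m l (fl l k₀)))
      = Complex.I • (B.transpose * (W k₀).1 + (W k₀).1 * B) := rfl
  set w : Fin N → ℂ := star v with hw
  have hwn : ∑ i, ‖w i‖ ^ 2 = 1 := by
    rw [← hvn]
    refine Finset.sum_congr rfl fun i _ => ?_
    simp [hw]
  have hσ : (s : ℂ) = star w ⬝ᵥ B.mulVec w + star v ⬝ᵥ B.mulVec v := by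
    rw [hWd] at hsv
    have h1 : star v ⬝ᵥ (Complex.I • (B.transpose * (W k₀).1 + (W k₀).1 * B)).mulVec v
        = Complex.I * (ε * (star v ⬝ᵥ B.transpose.mulVec v) + ε * (star v ⬝ᵥ B.mulVec v)) := by
      rw [Matrix.smul_mulVec, dotProduct_smul, smul_eq_mul, Matrix.add_mulVec, dotProduct_add,
        ← Matrix.mulVec_mulVec, hev, Matrix.mulVec_smul, dotProduct_smul, smul_eq_mul,
        ← Matrix.mulVec_mulVec, Matrix.dotProduct_mulVec (star v) (W k₀).1, hl2, smul_dotProduct,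
        smul_eq_mul]
    rw [h1] at hsv
    have h2 : star v ⬝ᵥ B.transpose.mulVec v = star w ⬝ᵥ B.mulVec w := by
      rw [hw, star_star, Matrix.mulVec_transpose, Matrix.dotProduct_mulVec v B (star v)]
      exact dotProduct_comm _ _
    rw [h2] at hsv
    have h3 : Complex.I * ε ≠ 0 := mul_ne_zero Complex.I_ne_zero hε0
    apply mul_right_cancel₀ h3
    rw [← mul_assoc, hsv]
    ring
  have hb1 := Bm_form O m l a b hl (fl l k₀) v
  have hb2 := Bm_form O m l a b hl (fl l k₀) w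
  rw [hvn] at hb1
  rw [hwn] at hb2
  have hσre : s = (star w ⬝ᵥ B.mulVec w).re + (star v ⬝ᵥ B.mulVec v).re := by
    have := congrArg Complex.re hσ
    rwa [Complex.ofReal_re, Complex.add_re] at this
  refine ⟨by rw [hσre]; linarith [hb1.1, hb2.1], by rw [hσre]; linarith [hb1.2, hb2.2], ?_⟩
  set t : ℝ := len l / N with ht
  have hsub : ∀ u : Fin N → ℂ, ∑ i, ‖u i‖ ^ 2 = 1 →
      star u ⬝ᵥ (B - (t : ℂ) • 1).mulVec u = star u ⬝ᵥ B.mulVec u - t := by
    intro u hu
    rw [Matrix.sub_mulVec, dotProduct_sub, Matrix.smul_mulVec, Matrix.one_mulVec,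
      dotProduct_smul]
    have h1 : star u ⬝ᵥ u = 1 := by
      have : ((∑ i, ‖u i‖ ^ 2 : ℝ) : ℂ) = 1 := by rw [hu]; simp
      rw [← this]
      push_cast
      simp only [dotProduct]
      refine Finset.sum_congr rfl fun i _ => ?_
      rw [← Complex.conj_mul']
      rfl
    rw [h1, smul_eq_mul, mul_one]
  have hf1 := fro_form (B - (t : ℂ) • 1) v
  have hf2 := fro_form (B - (t : ℂ) • 1) w
  rw [hvn, mul_one, hsub v hvn] at hf1
  rw [hwn, mul_one, hsub w hwn] at hf2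
  have h1 : |(star v ⬝ᵥ B.mulVec v).re - t| ≤ fro (B - (t : ℂ) • 1) := by
    refine le_trans ?_ hf1
    have := Complex.abs_re_le_norm (star v ⬝ᵥ B.mulVec v - t)
    simpa using this
  have h2 : |(star w ⬝ᵥ B.mulVec w).re - t| ≤ fro (B - (t : ℂ) • 1) := by
    refine le_trans ?_ hf2
    have := Complex.abs_re_le_norm (star w ⬝ᵥ B.mulVec w - t)
    simpa using this
  rw [hσre, show (star w ⬝ᵥ B.mulVec w).re + (star v ⬝ᵥ B.mulVec v).re - 2 * t
    = ((star w ⬝ᵥ B.mulVec w).re - t) + ((star v ⬝ᵥ B.mulVec v).re - t) by ring]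
  refine (abs_add_le _ _).trans ?_
  linarith

end QGr
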