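import Pool.Agent.LibQGr.R_AVG
import Pool.Agent.LibQGr.R_LIM
import Pool.Agent.LibQGr.R_DER
import Pool.Agent.LibQGr.R_INT
import Pool.Agent.LibQGr.R_SLG

open MeasureTheory Set Filter Topology

namespace QGr


theorem SYS_len_pos {N m : ℕ} (hN : 0 < N) (l : Fin (m + 1) → Fin N → ℝ) (a b : ℝ) (ha : 0 < a)
    (hl : ∀ j i, l j i ∈ Icc a b) : 0 < len l := by
  unfold len
  refine Finset.sum_pos (fun j _ => Finset.sum_pos (fun i _ => ?_) ?_) ?_
  · exact lt_of_lt_of_le ha (hl j i).1
  · exact ⟨⟨0, hN⟩, Finset.mem_univ _⟩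
  · exact ⟨0, Finset.mem_univ _⟩

theorem SYS_len_le {N m : ℕ} (hN : 0 < N) (l : Fin (m + 1) → Fin N → ℝ) (a b : ℝ)
    (hl : ∀ j i, l j i ∈ Icc a b) : len l ≤ (m + 1) * (N * b) := by
  unfold len
  calc ∑ j, ∑ i, l j i ≤ ∑ _j : Fin (m + 1), ∑ _i : Fin N, b :=
        Finset.sum_le_sum fun j _ => Finset.sum_le_sum fun i _ => (hl j i).2
    _ = _ := by simp

theorem SYS_le_len {N m : ℕ} (hN : 0 < N) (l : Fin (m + 1) → Fin N → ℝ) (a b : ℝ)
    (hl : ∀ j i, l j i ∈ Icc a b) : (m + 1) * (N * a) ≤ len l := by
  unfold len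
  calc (m + 1) * (N * a) = ∑ _j : Fin (m + 1), ∑ _i : Fin N, a := by simp
    _ ≤ _ := Finset.sum_le_sum fun j _ => Finset.sum_le_sum fun i _ => (hl j i).1

theorem SYS_fro_nonneg {N : ℕ} (M : Matrix (Fin N) (Fin N) ℂ) : 0 ≤ fro M := Real.sqrt_nonneg _

theorem SYS_fro_cont {N : ℕ} : Continuous (fro : Matrix (Fin N) (Fin N) ℂ → ℝ) := by
  unfold fro
  refine Real.continuous_sqrt.comp ?_
  refine continuous_finsetSum _ fun i _ => continuous_finsetSum _ fun j _ => ?_
  exact ((continuous_id.matrix_elem i j).norm).pow 2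

/-- The graph as a system of phase functions of the unfolded variable. -/
theorem sys {N : ℕ} (hN : 0 < N) (O : ℕ → Orth N) (m : ℕ) (l : Fin (m + 1) → Fin N → ℝ)
    (a b : ℝ) (ha : 0 < a) (hab : a ≤ b)
    (hl : ∀ j i, l j i ∈ Icc a b) :
    ∃ Φ : ℤ → ℝ → ℝ, Sys N (a / b) Φ (fun t => dev O m l (fl l (Real.pi * t / len l))) ∧
      ∀ t, IsPhases (sy (tr O m (fl l (Real.pi * t / len l)))).1 fun p => -Φ (-p) t := by
  have hb : 0 < b := lt_of_lt_of_le ha hab
  have hL := SYS_len_pos hN l a b ha hl
  have hL1 := SYS_len_le hN l a b hl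
  have hL2 := SYS_le_len hN l a b hl
  have hpi := Real.pi_pos
  have hNR : (0 : ℝ) < N := by exact_mod_cast hN
  obtain ⟨F, hF, hD⟩ := sel hN (fun k => sy (tr O m (fl l k)))
    (sy_cont.comp ((tr_cont O m).comp (fl_cont l))) (fun k => 2 * k * len l) (by fun_prop)
    (fun k => det_sy O m l k)
  set L := len l with hLdef
  set fr : ℝ → ℝ := fun k => fro (Bm O m l (fl l k) - ((L / N : ℝ) : ℂ) • 1) with hfr
  have hfrc : Continuous fr := by
    refine SYS_fro_cont.comp ?_
    exact ((Bm_cont O m l).comp (fl_cont l)).sub continuous_const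
  -- slopes
  have s1 : ∀ p x y, x ≤ y → F p y - F p x ≤ 2 * (m + 1) * b * (y - x) := by
    intro p x y hxy
    have := slope_int (F p) (hF p) (fun _ => 2 * (m + 1) * b) continuous_const
      (fun k₀ 𝒰 h => by
        obtain ⟨s, h1, -, h3, -⟩ := slope hN O m l a b ha hl F hF hD p k₀ 𝒰 h
        exact ⟨s, h1, h3⟩) x y hxy
    rw [intervalIntegral.integral_const, smul_eq_mul] at this
    linarith
  have hneg : ∀ p (g : ℝ → ℝ), Continuous g → (∀ (k₀ : ℝ) (s : ℝ), 2 * (m + 1) * a ≤ s →
      |s - 2 * (L / N)| ≤ 2 * fr k₀ → -s ≤ g k₀) → ∀ x y, x ≤ y →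
      -(F p y - F p x) ≤ ∫ t in x..y, g t := by
    intro p g hg hh x y hxy
    have := slope_int (fun k => -F p k) (hF p).neg g hg
      (fun k₀ 𝒰 h => by
        obtain ⟨s, h1, h2, -, h4⟩ := slope hN O m l a b ha hl F hF hD p k₀ 𝒰 h
        refine ⟨-s, ?_, hh k₀ s h2 h4⟩
        refine (h1.neg).congr fun k => ?_
        rw [← neg_div]; ring_nf) x y hxy
    linarith
  have s2 : ∀ p x y, x ≤ y → 2 * (m + 1) * a * (y - x) ≤ F p y - F p x := by
    intro p x y hxy
    have := hneg p (fun _ => -(2 * (m + 1) * a)) continuous_const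
      (fun k₀ s h1 _ => by linarith) x y hxy
    rw [intervalIntegral.integral_const, smul_eq_mul] at this
    nlinarith
  have hic : ∀ x y, IntervalIntegrable (fun k => 2 * fr k) volume x y := fun x y =>
    (hfrc.const_mul 2).intervalIntegrable x y
  have s3 : ∀ p x y, x ≤ y →
      F p y - F p x ≤ 2 * (L / N) * (y - x) + ∫ k in x..y, 2 * fr k := by
    intro p x y hxy
    have := slope_int (F p) (hF p) (fun k => 2 * (L / N) + 2 * fr k)
      (continuous_const.add (hfrc.const_mul 2))
      (fun k₀ 𝒰 h => by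
        obtain ⟨s, h1, -, -, h4⟩ := slope hN O m l a b ha hl F hF hD p k₀ 𝒰 h
        refine ⟨s, h1, ?_⟩
        have := (abs_le.1 h4).2
        simp only [hfr]; linarith) x y hxy
    rw [intervalIntegral.integral_add (by simp) (hic x y), intervalIntegral.integral_const,
      smul_eq_mul] at this
    linarith
  have s4 : ∀ p x y, x ≤ y →
      2 * (L / N) * (y - x) - ∫ k in x..y, 2 * fr k ≤ F p y - F p x := by
    intro p x y hxy
    have := hneg p (fun k => -(2 * (L / N)) + 2 * fr k)
      (continuous_const.add (hfrc.const_mul 2))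
      (fun k₀ s _ h4 => by
        have := (abs_le.1 h4).1
        linarith) x y hxy
    rw [intervalIntegral.integral_add (by simp) (hic x y), intervalIntegral.integral_const,
      smul_eq_mul] at this
    linarith
  -- change of variables
  have hcv : ∀ x y : ℝ, ((N : ℝ) / (2 * Real.pi)) *
      ∫ k in (Real.pi * x / L)..(Real.pi * y / L), 2 * fr k
        = ∫ t in x..y, dev O m l (fl l (Real.pi * t / L)) := by
    intro x y
    have h1 := intervalIntegral.integral_comp_mul_left (a := x) (b := y) (fun k => 2 * fr k)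
      (c := Real.pi / L) (by positivity)
    have e1 : Real.pi / L * x = Real.pi * x / L := by ring
    have e2 : Real.pi / L * y = Real.pi * y / L := by ring
    rw [e1, e2, smul_eq_mul] at h1
    have h2 : ∫ k in (Real.pi * x / L)..(Real.pi * y / L), 2 * fr k
        = (Real.pi / L) * ∫ t in x..y, 2 * fr (Real.pi / L * t) := by
      rw [h1]; field_simp
    rw [h2, ← mul_assoc, ← intervalIntegral.integral_const_mul]
    refine intervalIntegral.integral_congr fun t _ => ?_
    change _ = dev O m l (fl l (Real.pi * t / L))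
    unfold dev
    have e3 : Real.pi / L * t = Real.pi * t / L := by ring
    simp only [e3, hfr, ← hLdef]
    field_simp
  have hdiv : ∀ x y : ℝ, x ≤ y → Real.pi * x / L ≤ Real.pi * y / L := by
    intro x y hxy
    gcongr
  refine ⟨fun p t => (N : ℝ) / (2 * Real.pi) * F p (Real.pi * t / L), ?_, ?_⟩
  · refine ⟨?_, ?_, ?_, ?_, ?_, ?_, ?_, ?_⟩
    · intro p
      refine continuous_const.mul ((hF p).comp ?_)
      fun_prop
    · intro t p q hpq
      exact mul_le_mul_of_nonneg_left ((hD _).mono hpq) (by positivity)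
    · intro p t
      have := (hD (Real.pi * t / L)).per p
      rw [this]
      field_simp
    · intro p s t hst
      have h1 := s2 p _ _ (hdiv s t hst)
      have h2 : (N : ℝ) / (2 * Real.pi) * (2 * (m + 1) * a *
          (Real.pi * t / L - Real.pi * s / L)) ≤
          (N : ℝ) / (2 * Real.pi) * (F p (Real.pi * t / L) - F p (Real.pi * s / L)) :=
        mul_le_mul_of_nonneg_left h1 (by positivity)
      have h3 : (N : ℝ) / (2 * Real.pi) * (2 * (m + 1) * a *
          (Real.pi * t / L - Real.pi * s / L)) = ((m + 1) * (N * a)) / L * (t - s) := by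
        field_simp
      have h4 : a / b ≤ ((m + 1) * (N * a)) / L := by
        rw [div_le_div_iff₀ hb hL]
        calc a * L ≤ a * ((m + 1) * (N * b)) := mul_le_mul_of_nonneg_left hL1 ha.le
          _ = _ := by ring
      have h5 : a / b * (t - s) ≤ ((m + 1) * (N * a)) / L * (t - s) :=
        mul_le_mul_of_nonneg_right h4 (by linarith)
      rw [← mul_sub]
      linarith
    · intro p s t hst
      have h1 := s1 p _ _ (hdiv s t hst)
      have h2 : (N : ℝ) / (2 * Real.pi) * (F p (Real.pi * t / L) - F p (Real.pi * s / L)) ≤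
          (N : ℝ) / (2 * Real.pi) * (2 * (m + 1) * b *
          (Real.pi * t / L - Real.pi * s / L)) :=
        mul_le_mul_of_nonneg_left h1 (by positivity)
      have h3 : (N : ℝ) / (2 * Real.pi) * (2 * (m + 1) * b *
          (Real.pi * t / L - Real.pi * s / L)) = ((m + 1) * (N * b)) / L * (t - s) := by
        field_simp
      have h4 : a / b * (((m + 1) * (N * b)) / L) ≤ 1 := by
        rw [div_mul_div_comm, div_le_one (by positivity)]
        calc a * ((m + 1) * (N * b)) = b * ((m + 1) * (N * a)) := by ring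
          _ ≤ b * L := mul_le_mul_of_nonneg_left hL2 hb.le
      rw [← mul_sub]
      calc a / b * ((N : ℝ) / (2 * Real.pi) *
            (F p (Real.pi * t / L) - F p (Real.pi * s / L)))
          ≤ a / b * (((m + 1) * (N * b)) / L * (t - s)) := by
            refine mul_le_mul_of_nonneg_left ?_ (by positivity)
            linarith
        _ = a / b * (((m + 1) * (N * b)) / L) * (t - s) := by ring
        _ ≤ 1 * (t - s) := mul_le_mul_of_nonneg_right h4 (by linarith)
        _ = t - s := one_mul _
    · refine (dev_cont O m l).comp ((fl_cont l).comp ?_)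
      fun_prop
    · intro t
      unfold dev
      exact mul_nonneg (by positivity) (SYS_fro_nonneg _)
    · intro p s t hst
      have h1 := s3 p _ _ (hdiv s t hst)
      have h2 := s4 p _ _ (hdiv s t hst)
      have h3 : (N : ℝ) / (2 * Real.pi) * (2 * (L / N) *
          (Real.pi * t / L - Real.pi * s / L)) = t - s := by
        field_simp
      have hc : (0 : ℝ) ≤ (N : ℝ) / (2 * Real.pi) := by positivity
      have h1' := mul_le_mul_of_nonneg_left h1 hc
      have h2' := mul_le_mul_of_nonneg_left h2 hc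
      rw [mul_add, h3, hcv s t] at h1'
      rw [mul_sub, h3, hcv s t] at h2'
      rw [← mul_sub, abs_le]
      constructor <;> linarith
  · intro t
    have := dia_phases hN _ _ (hD (Real.pi * t / L))
    refine ⟨?_, ?_, ?_⟩
    · have h := this.mono
      intro p q hpq
      have := h hpq
      simp only at this ⊢
      linarith
    · intro p
      have h := this.per p
      simp only at h ⊢
      linarith
    · intro x
      have h := this.mult x
      rw [← h]
      congr 1
      ext p
      simp only [mem_ofPred_eq, neg_mul]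

end QGr
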