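import Pool.Agent.LibQGr.R_DER

/-! Row SEC: the secular equation. -/

open MeasureTheory Set Filter Topology

namespace QGr

/-- The complex amplitude `u - i u' / k`. -/
noncomputable def SEC_al (k : ℝ) (f : ℝ → ℝ) (t : ℝ) : ℂ :=
  (f t : ℂ) - Complex.I * ((deriv f t : ℝ) : ℂ) / k

theorem SEC_flow (k : ℝ) (hk : 0 < k) (f : ℝ → ℝ) (hf : ContDiff ℝ 2 f)
    (he : ∀ t, deriv (deriv f) t = -(k ^ 2) * f t) (t : ℝ) :
    SEC_al k f t = SEC_al k f 0 * Complex.exp (k * t * Complex.I) := by
  have hk' : (k : ℂ) ≠ 0 := by exact_mod_cast hk.ne'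
  have hd : ∀ t : ℝ, HasDerivAt (fun s : ℝ => SEC_al k f s * Complex.exp (-(k * s * Complex.I))) 0
      t := by
    intro t
    have h1 : HasDerivAt (fun s : ℝ => (f s : ℂ)) ((deriv f t : ℝ) : ℂ) t :=
      ((hf.differentiable (by simp)) t).hasDerivAt.ofReal_comp
    have h2 : HasDerivAt (fun s : ℝ => ((deriv f s : ℝ) : ℂ)) ((-(k ^ 2) * f t : ℝ) : ℂ) t := by
      have := (hf.differentiable_deriv_two t).hasDerivAt
      rw [he t] at this
      exact this.ofReal_comp
    have h3 : HasDerivAt (fun s : ℝ => SEC_al k f s)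
        (((deriv f t : ℝ) : ℂ) - Complex.I * ((-(k ^ 2) * f t : ℝ) : ℂ) / k) t :=
      h1.sub ((h2.const_mul Complex.I).div_const _)
    have h4 : HasDerivAt (fun s : ℝ => Complex.exp (-(k * s * Complex.I)))
        (Complex.exp (-(k * t * Complex.I)) * (-(k * 1 * Complex.I))) t := by
      have h5 : HasDerivAt (fun s : ℝ => (s : ℂ)) 1 t := by
        simpa using (hasDerivAt_id t).ofReal_comp
      exact (((h5.const_mul (k : ℂ)).mul_const Complex.I).neg).cexp
    have h6 : ((((deriv f t : ℝ) : ℂ) - Complex.I * ((-(k ^ 2) * f t : ℝ) : ℂ) / k) *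
        Complex.exp (-(k * t * Complex.I)) + SEC_al k f t *
        (Complex.exp (-(k * t * Complex.I)) * (-(k * 1 * Complex.I)))) = 0 := by
      unfold SEC_al
      push_cast
      field_simp
      ring_nf
      simp only [Complex.I_sq]
      ring
    rw [← h6]
    exact h3.mul h4
  have hc := is_const_of_deriv_eq_zero (fun t => (hd t).differentiableAt) (fun t => (hd t).deriv) t 0
  simp only [Complex.ofReal_zero, mul_zero, zero_mul, neg_zero, Complex.exp_zero, mul_one] at hc
  rw [← hc, mul_assoc, ← Complex.exp_add, neg_add_cancel, Complex.exp_zero, mul_one]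

theorem SEC_al_re (k : ℝ) (f : ℝ → ℝ) (t : ℝ) : (SEC_al k f t).re = f t := by
  unfold SEC_al
  rw [mul_div_assoc, ← Complex.ofReal_div]
  simp

theorem SEC_al_im (k : ℝ) (f : ℝ → ℝ) (t : ℝ) : (SEC_al k f t).im = -(deriv f t / k) := by
  unfold SEC_al
  rw [mul_div_assoc, ← Complex.ofReal_div]
  simp

/-- The wave with amplitude `z` at `0`. -/
noncomputable def SEC_wv (k : ℝ) (z : ℂ) (t : ℝ) : ℝ := (z * Complex.exp (k * t * Complex.I)).re

theorem SEC_wv_deriv (k : ℝ) (z : ℂ) (t : ℝ) :
    HasDerivAt (SEC_wv k z) (SEC_wv k (z * (k * Complex.I)) t) t := by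
  have h5 : HasDerivAt (fun s : ℝ => (s : ℂ)) 1 t := by
    simpa using (hasDerivAt_id t).ofReal_comp
  have h4 : HasDerivAt (fun s : ℝ => z * Complex.exp (k * s * Complex.I))
      (z * (Complex.exp (k * t * Complex.I) * (k * 1 * Complex.I))) t :=
    (((h5.const_mul (k : ℂ)).mul_const Complex.I).cexp).const_mul z
  have h6 := (Complex.reCLM.hasFDerivAt.comp_hasDerivAt t h4)
  have e : SEC_wv k (z * (k * Complex.I)) t =
      Complex.reCLM (z * (Complex.exp (k * t * Complex.I) * (k * 1 * Complex.I))) := by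
    unfold SEC_wv
    rw [Complex.reCLM_apply]
    congr 1
    ring
  rw [e]
  exact h6

theorem SEC_wv_deriv' (k : ℝ) (z : ℂ) : deriv (SEC_wv k z) = SEC_wv k (z * (k * Complex.I)) :=
  funext fun t => (SEC_wv_deriv k z t).deriv

theorem SEC_wv_smooth (k : ℝ) (z : ℂ) : ContDiff ℝ 2 (SEC_wv k z) := by
  have h1 : ContDiff ℝ 2 (fun s : ℝ => z * Complex.exp (k * s * Complex.I)) := by
    have h0 : ContDiff ℝ 2 (fun s : ℝ => (s : ℂ)) := Complex.ofRealCLM.contDiff
    exact contDiff_const.mul (((contDiff_const.mul h0).mul contDiff_const).cexp)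
  exact Complex.reCLM.contDiff.comp h1

theorem SEC_wv_eqn (k : ℝ) (z : ℂ) (t : ℝ) :
    deriv (deriv (SEC_wv k z)) t = -(k ^ 2) * SEC_wv k z t := by
  rw [SEC_wv_deriv', SEC_wv_deriv']
  unfold SEC_wv
  have : z * (k * Complex.I) * (k * Complex.I) * Complex.exp (k * t * Complex.I) =
      ((-(k ^ 2) : ℝ) : ℂ) * (z * Complex.exp (k * t * Complex.I)) := by
    push_cast
    ring_nf
    rw [Complex.I_sq]
    ring
  rw [this, Complex.re_ofReal_mul]

theorem SEC_wv_al (k : ℝ) (hk : 0 < k) (z : ℂ) (t : ℝ) :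
    SEC_al k (SEC_wv k z) t = z * Complex.exp (k * t * Complex.I) := by
  apply Complex.ext
  · rw [SEC_al_re]; rfl
  · rw [SEC_al_im, SEC_wv_deriv']
    unfold SEC_wv
    rw [show z * (k * Complex.I) * Complex.exp (k * t * Complex.I) =
      ((k : ℝ) : ℂ) * (Complex.I * (z * Complex.exp (k * t * Complex.I))) by ring,
      Complex.re_ofReal_mul, Complex.I_mul_re]
    field_simp

/-- Partial eigenfunctions: no condition at the right ends of the last layer. -/
structure SEC_Part (N m : ℕ) (O : ℕ → Orth N) (l : Fin (m + 1) → Fin N → ℝ) (k : ℝ)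
    (u : Fin (m + 1) → Fin N → ℝ → ℝ) : Prop where
  smooth : ∀ j i, ContDiff ℝ 2 (u j i)
  eqn : ∀ j i t, deriv (deriv (u j i)) t = -(k ^ 2) * u j i t
  left : ∀ i, deriv (u 0 i) 0 = 0
  val : ∀ (j : Fin m) (i : Fin N),
    u j.succ i 0 = ∑ i', (O j).1 i i' * u j.castSucc i' (l j.castSucc i')
  flux : ∀ (j : Fin m) (i : Fin N),
    deriv (u j.succ i) 0 = ∑ i', (O j).1 i i' * deriv (u j.castSucc i') (l j.castSucc i')

theorem SEC_mix {N m : ℕ} {O : ℕ → Orth N} {l : Fin (m + 1) → Fin N → ℝ} {k : ℝ}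
    {u : Fin (m + 1) → Fin N → ℝ → ℝ} (hu : SEC_Part N m O l k u) (j : Fin m) (i : Fin N) :
    SEC_al k (u j.succ i) 0 =
      ∑ i', ((O j).1 i i' : ℂ) * SEC_al k (u j.castSucc i') (l j.castSucc i') := by
  unfold SEC_al
  rw [hu.val, hu.flux]
  push_cast
  simp_rw [mul_sub, Finset.sum_sub_distrib]
  congr 1
  rw [Finset.mul_sum, Finset.sum_div]
  exact Finset.sum_congr rfl fun _ _ => by ring

theorem SEC_circ (x : ℝ) :
    ((AddCircle.toCircle (((x / (2 * Real.pi) : ℝ)) : UnitAddCircle) : Circle) : ℂ) =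
      Complex.exp (x * Complex.I) := by
  rw [AddCircle.toCircle_apply_mk, Circle.coe_exp]
  congr 2
  have : (Real.pi : ℝ) ≠ 0 := Real.pi_ne_zero
  push_cast
  have h2 : (Real.pi : ℂ) ≠ 0 := by exact_mod_cast this
  field_simp

/-- The amplitudes at the right ends of the last layer. -/
theorem SEC_amp {N : ℕ} (O : ℕ → Orth N) (k : ℝ) (hk : 0 < k) : ∀ (m : ℕ) (l : Fin (m + 1) → Fin N → ℝ)
    (u : Fin (m + 1) → Fin N → ℝ → ℝ), SEC_Part N m O l k u → ∀ i,
      SEC_al k (u (Fin.last m) i) (l (Fin.last m) i) =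
        ∑ i', (tr O m (fl l k)).1 i i' * (u 0 i' 0 : ℂ) := by
  intro m
  induction m with
  | zero =>
    intro l u hu i
    rw [SEC_flow k hk _ (hu.smooth _ i) (hu.eqn _ i)]
    have h0 : SEC_al k (u (Fin.last 0) i) 0 = (u 0 i 0 : ℂ) := by
      unfold SEC_al
      rw [show (Fin.last 0 : Fin 1) = 0 from rfl, hu.left i]
      simp
    rw [h0]
    have h1 : ∀ i', (tr O 0 (fl l k)).1 i i' =
        if i = i' then Complex.exp (k * l 0 i * Complex.I) else 0 := by
      intro i'
      change (dg (fl l k 0)).1 i i' = _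
      unfold dg
      simp only [Matrix.diagonal_apply]
      split_ifs with h
      · unfold fl
        rw [SEC_circ]
        push_cast
        rfl
      · rfl
    simp_rw [h1]
    rw [Finset.sum_eq_single i]
    · rw [if_pos rfl, mul_comm]; rfl
    · intro b _ hb
      rw [if_neg (Ne.symm hb), zero_mul]
    · intro h; exact absurd (Finset.mem_univ _) h
  | succ m ih =>
    intro l u hu i
    rw [SEC_flow k hk _ (hu.smooth _ i) (hu.eqn _ i)]
    have hp : SEC_Part N m O (fun j => l j.castSucc) k (fun j => u j.castSucc) := by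
      refine ⟨fun j i => hu.smooth _ i, fun j i => hu.eqn _ i, fun i => hu.left i, ?_, ?_⟩
      · intro j i
        exact hu.val j.castSucc i
      · intro j i
        exact hu.flux j.castSucc i
    have h2 := ih _ _ hp
    have h3 := SEC_mix hu (Fin.last m) i
    rw [Fin.succ_last] at h3
    rw [h3]
    have h4 : ∀ i', (tr O (m + 1) (fl l k)).1 i i' =
        Complex.exp (k * l (Fin.last (m + 1)) i * Complex.I) * ∑ x, ((O m).1 i x : ℂ) *
          (tr O m (fl (fun j => l j.castSucc) k)).1 x i' := by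
      intro i'
      change (dg (fl l k (Fin.last (m + 1))) * cx (O m) * tr O m fun j => fl l k j.castSucc).1 i i'
        = _
      rw [mul_assoc]
      change ((dg (fl l k (Fin.last (m + 1)))).1 * (cx (O m) * tr O m fun j =>
        fl l k j.castSucc).1) i i' = _
      unfold dg
      rw [Matrix.diagonal_mul]
      change _ * ((cx (O m)).1 * (tr O m fun j => fl l k j.castSucc).1) i i' = _
      rw [Matrix.mul_apply]
      rw [show ((AddCircle.toCircle (fl l k (Fin.last (m + 1)) i) : Circle) : ℂ) =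
          Complex.exp (k * l (Fin.last (m + 1)) i * Complex.I) by
        unfold fl
        rw [SEC_circ]
        push_cast
        rfl]
      exact congrArg _ (Finset.sum_congr rfl fun x _ => rfl)
    simp_rw [h4, Finset.mul_sum, Finset.sum_mul]
    rw [Finset.sum_comm]
    refine Finset.sum_congr rfl fun x _ => ?_
    rw [show SEC_al k (u (Fin.last m).castSucc x) (l (Fin.last m).castSucc x) =
      ∑ i', (tr O m (fl (fun j => l j.castSucc) k)).1 x i' * (u 0 i' 0 : ℂ) from h2 x]
    rw [Finset.mul_sum, Finset.sum_mul]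
    refine Finset.sum_congr rfl fun y _ => ?_
    rw [Fin.val_last]
    ring

theorem SEC_inj {N m : ℕ} {O : ℕ → Orth N} {l : Fin (m + 1) → Fin N → ℝ} {k : ℝ} (hk : 0 < k)
    {u : Fin (m + 1) → Fin N → ℝ → ℝ} (hu : SEC_Part N m O l k u) (h : ∀ i, u 0 i 0 = 0) :
    ∀ j i, SEC_al k (u j i) 0 = 0 := by
  intro j
  induction j using Fin.induction with
  | zero =>
    intro i
    unfold SEC_al
    rw [h i, hu.left i]
    simp
  | succ j ih =>
    intro i
    rw [SEC_mix hu]
    refine Finset.sum_eq_zero fun x _ => ?_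
    rw [SEC_flow k hk _ (hu.smooth _ x) (hu.eqn _ x), ih x]
    simp

/-- The amplitudes at the left ends, from their values on the first layer. -/
noncomputable def SEC_seq {N m : ℕ} (O : ℕ → Orth N) (l : Fin (m + 1) → Fin N → ℝ) (k : ℝ) (c : Fin N → ℝ) :
    Fin (m + 1) → Fin N → ℂ :=
  Fin.induction (fun i => (c i : ℂ)) fun j a i =>
    ∑ i', ((O j).1 i i' : ℂ) * (a i' * Complex.exp (k * l j.castSucc i' * Complex.I))

theorem SEC_exist {N m : ℕ} (O : ℕ → Orth N) (l : Fin (m + 1) → Fin N → ℝ) (k : ℝ) (hk : 0 < k) (c : Fin N → ℝ) :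
    ∃ u, SEC_Part N m O l k u ∧ ∀ i, u 0 i 0 = c i := by
  refine ⟨fun j i => SEC_wv k (SEC_seq O l k c j i), ⟨?_, ?_, ?_, ?_, ?_⟩, ?_⟩
  · intro j i; exact SEC_wv_smooth _ _
  · intro j i t; exact SEC_wv_eqn _ _ _
  · intro i
    have h := SEC_al_im k (SEC_wv k (SEC_seq O l k c 0 i)) 0
    rw [SEC_wv_al k hk] at h
    simp only [SEC_seq, Fin.induction_zero, Complex.ofReal_zero, mul_zero, zero_mul,
      Complex.exp_zero, mul_one, Complex.ofReal_im] at h
    have h2 : deriv (SEC_wv k (SEC_seq O l k c 0 i)) 0 / k = 0 := by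
      simp only [SEC_seq, Fin.induction_zero]
      linarith
    rcases div_eq_zero_iff.1 h2 with h3 | h3
    · exact h3
    · exact absurd h3 hk.ne'
  · intro j i
    have e1 : SEC_seq O l k c j.succ i = ∑ i', ((O j).1 i i' : ℂ) *
        (SEC_seq O l k c j.castSucc i' * Complex.exp (k * l j.castSucc i' * Complex.I)) := by
      unfold SEC_seq
      rw [Fin.induction_succ]
    change (SEC_seq O l k c j.succ i * Complex.exp (k * (0 : ℝ) * Complex.I)).re = _
    rw [e1]
    simp only [Complex.ofReal_zero, mul_zero, zero_mul, Complex.exp_zero, mul_one, Complex.re_sum,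
      Complex.re_ofReal_mul]
    rfl
  · intro j i
    have e1 : SEC_seq O l k c j.succ i = ∑ i', ((O j).1 i i' : ℂ) *
        (SEC_seq O l k c j.castSucc i' * Complex.exp (k * l j.castSucc i' * Complex.I)) := by
      unfold SEC_seq
      rw [Fin.induction_succ]
    have h1 := SEC_al_im k (SEC_wv k (SEC_seq O l k c j.succ i)) 0
    rw [SEC_wv_al k hk, e1] at h1
    simp only [Complex.ofReal_zero, mul_zero, zero_mul, Complex.exp_zero, mul_one, Complex.im_sum,
      Complex.im_ofReal_mul] at h1
    have h2 : ∀ i', (SEC_seq O l k c j.castSucc i' * Complex.exp (k * l j.castSucc i' *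
        Complex.I)).im = -(deriv (SEC_wv k (SEC_seq O l k c j.castSucc i')) (l j.castSucc i') / k) := by
      intro i'
      rw [← SEC_al_im, SEC_wv_al k hk]
    simp_rw [h2] at h1
    have h3 : deriv (SEC_wv k (SEC_seq O l k c j.succ i)) 0 / k = (∑ i', (O j).1 i i' *
        deriv (SEC_wv k (SEC_seq O l k c j.castSucc i')) (l j.castSucc i')) / k := by
      rw [← e1] at h1
      rw [Finset.sum_div]
      have : ∑ x, (O j).1 i x * -(deriv (SEC_wv k (SEC_seq O l k c j.castSucc x))
        (l j.castSucc x) / k) = -∑ x, (O j).1 i x * deriv (SEC_wv k (SEC_seq O l k c j.castSucc x))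
        (l j.castSucc x) / k := by
        rw [← Finset.sum_neg_distrib]
        exact Finset.sum_congr rfl fun _ _ => by ring
      linarith
    exact (div_left_inj' hk.ne').1 h3
  · intro i
    change (SEC_seq O l k c 0 i * Complex.exp (k * (0 : ℝ) * Complex.I)).re = _
    simp [SEC_seq]

/-- The imaginary part of a complex matrix. -/
noncomputable def SEC_im {N : ℕ} (A : Matrix (Fin N) (Fin N) ℂ) : Matrix (Fin N) (Fin N) ℝ :=
  fun i i' => (A i i').im

theorem SEC_real {N : ℕ} (O : ℕ → Orth N) (m : ℕ) (l : Fin (m + 1) → Fin N → ℝ) (k : ℝ) (hk : 0 < k) :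
    Module.finrank ℝ (eigSpace N m O l k) = Module.finrank ℝ (LinearMap.ker
      (Matrix.toLin' (SEC_im (tr O m (fl l k)).1))) := by
  let φ : eigSpace N m O l k →ₗ[ℝ] (Fin N → ℝ) :=
    { toFun := fun u i => u.1 0 i 0
      map_add' := fun u v => rfl
      map_smul' := fun c u => rfl }
  have hpart : ∀ u, IsEig N m O l k u → SEC_Part N m O l k u :=
    fun u hu => ⟨hu.smooth, hu.eqn, hu.left, hu.val, hu.flux⟩
  have hinj : Function.Injective φ := by
    rw [← LinearMap.ker_eq_bot, LinearMap.ker_eq_bot']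
    intro u hu
    have h1 := SEC_inj hk (hpart u.1 u.2) (fun i => congrFun hu i)
    apply Subtype.ext
    funext j i t
    have h2 := SEC_flow k hk (u.1 j i) (u.2.smooth j i) (u.2.eqn j i) t
    rw [h1, zero_mul] at h2
    have h3 := SEC_al_re k (u.1 j i) t
    rw [h2] at h3
    simpa using h3.symm
  have hkey : ∀ u, SEC_Part N m O l k u → ∀ i,
      (Matrix.toLin' (SEC_im (tr O m (fl l k)).1) (fun i => u 0 i 0)) i =
        -(deriv (u (Fin.last m) i) (l (Fin.last m) i) / k) := by
    intro u hu i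
    rw [← SEC_al_im, SEC_amp O k hk m l u hu i, Matrix.toLin'_apply, Complex.im_sum]
    unfold Matrix.mulVec SEC_im
    refine Finset.sum_congr rfl fun x _ => ?_
    rw [Complex.im_mul_ofReal]
  have hrange : LinearMap.range φ = LinearMap.ker (Matrix.toLin' (SEC_im (tr O m (fl l k)).1)) := by
    ext c
    rw [LinearMap.mem_range, LinearMap.mem_ker]
    constructor
    · rintro ⟨u, rfl⟩
      funext i
      have h1 := hkey u.1 (hpart u.1 u.2) i
      rw [u.2.right i, zero_div, neg_zero] at h1
      exact h1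
    · intro hc
      obtain ⟨u, hu, hu0⟩ := SEC_exist O l k hk c
      have hc' : (fun i => u 0 i 0) = c := funext hu0
      refine ⟨⟨u, ⟨hu.smooth, hu.eqn, hu.left, ?_, hu.val, hu.flux⟩⟩, hc'⟩
      intro i
      have h1 := hkey u hu i
      rw [hc', hc] at h1
      have h2 : deriv (u (Fin.last m) i) (l (Fin.last m) i) / k = 0 := by
        simp only [Pi.zero_apply] at h1
        linarith
      rcases div_eq_zero_iff.1 h2 with h3 | h3
      · exact h3
      · exact absurd h3 hk.ne'
  rw [← hrange]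
  exact (LinearMap.finrank_range_of_inj hinj).symm

/-- The kernel of a real matrix and of its complexification. -/
theorem SEC_cplx {N : ℕ} (B : Matrix (Fin N) (Fin N) ℝ) :
    Module.finrank ℂ (LinearMap.ker (Matrix.toLin' (B.map Complex.ofRealHom))) =
      Module.finrank ℝ (LinearMap.ker (Matrix.toLin' B)) := by
  have hre : ∀ (v : Fin N → ℂ) i, ((B.map Complex.ofRealHom).mulVec v i).re =
      B.mulVec (fun j => (v j).re) i := by
    intro v i
    unfold Matrix.mulVec dotProduct
    simp [Complex.re_sum]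
  have him : ∀ (v : Fin N → ℂ) i, ((B.map Complex.ofRealHom).mulVec v i).im =
      B.mulVec (fun j => (v j).im) i := by
    intro v i
    unfold Matrix.mulVec dotProduct
    simp [Complex.im_sum]
  let e : (LinearMap.ker (Matrix.toLin' (B.map Complex.ofRealHom))) ≃ₗ[ℝ]
      (LinearMap.ker (Matrix.toLin' B)) × (LinearMap.ker (Matrix.toLin' B)) :=
    { toFun := fun v => (⟨fun j => (v.1 j).re, by
          rw [LinearMap.mem_ker, Matrix.toLin'_apply]
          funext i
          rw [← hre, show (B.map Complex.ofRealHom).mulVec v.1 = 0 from v.2]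
          rfl⟩, ⟨fun j => (v.1 j).im, by
          rw [LinearMap.mem_ker, Matrix.toLin'_apply]
          funext i
          rw [← him, show (B.map Complex.ofRealHom).mulVec v.1 = 0 from v.2]
          rfl⟩)
      map_add' := fun v w => by
        apply Prod.ext <;> apply Subtype.ext <;> funext j <;> simp
      map_smul' := fun c v => by
        apply Prod.ext <;> apply Subtype.ext <;> funext j <;> simp
      invFun := fun p => ⟨fun j => ⟨p.1.1 j, p.2.1 j⟩, by
          rw [LinearMap.mem_ker, Matrix.toLin'_apply]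
          funext i
          apply Complex.ext
          · rw [hre]
            exact congrFun (show B.mulVec p.1.1 = 0 from p.1.2) i
          · rw [him]
            exact congrFun (show B.mulVec p.2.1 = 0 from p.2.2) i⟩
      left_inv := fun v => rfl
      right_inv := fun p => rfl }
  have h1 := e.finrank_eq
  rw [Module.finrank_prod] at h1
  have h2 := finrank_real_of_complex (LinearMap.ker (Matrix.toLin' (B.map Complex.ofRealHom)))
  omega

theorem SEC_ker {N : ℕ} (A : Uni N) :
    LinearMap.ker (Matrix.toLin' (1 - (sy A).1)) =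
      LinearMap.ker (Matrix.toLin' ((SEC_im A.1).map Complex.ofRealHom)) := by
  have hA : A.1.conjTranspose * A.1 = 1 := by
    have := A.2
    rwa [Matrix.mem_unitaryGroup_iff'] at this
  have hA' : A.1 * A.1.conjTranspose = 1 := by
    have := A.2
    rwa [Matrix.mem_unitaryGroup_iff] at this
  -- `conj A * A^T = 1` and `A^T * conj A = 1`
  have hc1 : A.1.conjTranspose.transpose * A.1.transpose = 1 := by
    rw [← Matrix.transpose_mul, hA', Matrix.transpose_one]
  have hc2 : A.1.transpose * A.1.conjTranspose.transpose = 1 := by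
    rw [← Matrix.transpose_mul, hA, Matrix.transpose_one]
  have hd : (2 * Complex.I) • ((SEC_im A.1).map Complex.ofRealHom) =
      A.1 - A.1.conjTranspose.transpose := by
    ext i j
    simp only [Matrix.smul_apply, Matrix.map_apply, SEC_im, smul_eq_mul, Matrix.sub_apply,
      Matrix.transpose_apply, Matrix.conjTranspose_apply]
    apply Complex.ext
    · simp
    · simp
      ring
  ext v
  rw [LinearMap.mem_ker, LinearMap.mem_ker, Matrix.toLin'_apply, Matrix.toLin'_apply]
  have e1 : (1 - (sy A).1).mulVec v = -(A.1.transpose.mulVec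
      ((A.1 - A.1.conjTranspose.transpose).mulVec v)) := by
    rw [Matrix.mulVec_mulVec, mul_sub, hc2]
    change (1 - A.1.transpose * A.1).mulVec v = _
    rw [← Matrix.neg_mulVec]
    congr 1
    abel
  rw [e1, ← hd, Matrix.smul_mulVec, Matrix.mulVec_smul, neg_eq_zero, smul_eq_zero]
  constructor
  · rintro (h | h)
    · exfalso
      have : (2 : ℂ) * Complex.I ≠ 0 := mul_ne_zero two_ne_zero Complex.I_ne_zero
      exact this h
    · have h2 := congrArg (A.1.conjTranspose.transpose.mulVec) h
      rwa [Matrix.mulVec_mulVec, hc1, Matrix.one_mulVec, Matrix.mulVec_zero] at h2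
  · intro h
    right
    rw [h, Matrix.mulVec_zero]

theorem sec {N : ℕ} (O : ℕ → Orth N) (m : ℕ) (l : Fin (m + 1) → Fin N → ℝ) (k : ℝ) (hk : 0 < k) :
    Module.finrank ℝ (eigSpace N m O l k) = Module.finrank ℂ (LinearMap.ker
      (Matrix.toLin' (1 - (sy (tr O m (fl l k))).1))) := by
  rw [SEC_real O m l k hk, SEC_ker, SEC_cplx]

end QGr
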