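import Pool.Agent.LibQGr.R_SYS
import Pool.Agent.LibQGr.R_SEC
import Pool.Agent.LibQGr.R_ZER

open MeasureTheory Set Filter Topology

namespace QGr


theorem LVL_len_pos {N m : ℕ} (hN : 0 < N) (l : Fin (m + 1) → Fin N → ℝ) (a b : ℝ) (ha : 0 < a)
    (hl : ∀ j i, l j i ∈ Icc a b) : 0 < len l := by
  unfold len
  refine Finset.sum_pos (fun j _ => Finset.sum_pos (fun i _ => ?_) ?_) ?_
  · exact lt_of_lt_of_le ha (hl j i).1
  · exact ⟨⟨0, hN⟩, Finset.mem_univ _⟩
  · exact ⟨0, Finset.mem_univ _⟩

theorem LVL_card {N : ℕ} (hN : 0 < N) (O : ℕ → Orth N) (m : ℕ) (l : Fin (m + 1) → Fin N → ℝ) (hL : 0 < len l)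
    (Φ : ℤ → ℝ → ℝ)
    (hΦ : ∀ t, IsPhases (sy (tr O m (fl l (Real.pi * t / len l)))).1 fun p => -Φ (-p) t)
    (t : ℝ) (ht : 0 < t) : {p : ℤ | Φ p t = 0}.encard
      = (Module.finrank ℝ (eigSpace N m O l (Real.pi * t / len l)) : ℕ∞) := by
  have hpi := Real.pi_pos
  rw [sec O m l _ (by positivity)]
  have h := (hΦ t).mult 0
  have e : (1 : Matrix (Fin N) (Fin N) ℂ) - Complex.exp (2 * Real.pi * (0 : ℝ) /
      (N : ℂ) * Complex.I) • (sy (tr O m (fl l (Real.pi * t / len l)))).1
      = 1 - (sy (tr O m (fl l (Real.pi * t / len l)))).1 := by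
    simp
  rw [e] at h
  rw [← h]
  have e2 : {p : ℤ | Φ p t = 0} = (fun p : ℤ => -p) '' {p : ℤ | -Φ (-p) t = 0} := by
    ext p
    simp only [mem_image, mem_ofPred_eq, neg_eq_zero]
    constructor
    · intro hp
      exact ⟨-p, by simpa using hp, by simp⟩
    · rintro ⟨q, hq, rfl⟩
      exact hq
  rw [e2]
  exact neg_injective.encard_image _

theorem levels_lists {N : ℕ} (hN : 0 < N) (O : ℕ → Orth N) (m : ℕ) (l : Fin (m + 1) → Fin N → ℝ) (a b : ℝ) (ha : 0 < a)
    (hab : a ≤ b) (hl : ∀ j i, l j i ∈ Icc a b) (Φ : ℤ → ℝ → ℝ)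
    (hΦ : ∀ t, IsPhases (sy (tr O m (fl l (Real.pi * t / len l)))).1 fun p => -Φ (-p) t)
    (κ : ℕ → ℝ) : IsLevels N m O l κ ↔ Lists Φ (unf l κ) := by
  have hL := LVL_len_pos hN l a b ha hl
  have hpi := Real.pi_pos
  have hset : ∀ t, {n | unf l κ n = t} = {n | κ n = Real.pi * t / len l} := by
    intro t
    ext q
    simp only [mem_ofPred_eq, unf]
    rw [div_eq_iff hpi.ne', eq_div_iff hL.ne']
    constructor <;> intro h <;> linarith
  constructor
  · intro h
    refine ⟨?_, ?_, ?_⟩
    · intro p q hpq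
      have := h.mono hpq
      unfold unf
      gcongr
    · intro q
      have := h.pos q
      unfold unf
      positivity
    · intro t ht
      rw [hset, h.mult _ (by positivity), LVL_card hN O m l hL Φ hΦ t ht]
  · intro h
    refine ⟨?_, ?_, ?_⟩
    · intro p q hpq
      have := h.mono hpq
      unfold unf at this
      rw [div_le_div_iff_of_pos_right hpi] at this
      exact le_of_mul_le_mul_left this hL
    · intro q
      have := h.pos q
      unfold unf at this
      by_contra hc
      have : len l * κ q / Real.pi ≤ 0 := by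
        apply div_nonpos_of_nonpos_of_nonneg _ hpi.le
        exact mul_nonpos_of_nonneg_of_nonpos hL.le (not_lt.1 hc)
      linarith
    · intro k hk
      have h1 := h.mult (len l * k / Real.pi) (by positivity)
      have e : Real.pi * (len l * k / Real.pi) / len l = k := by field_simp
      rw [hset, LVL_card hN O m l hL Φ hΦ _ (by positivity), e] at h1
      exact h1

theorem main_levels {N : ℕ} (hN : 0 < N) (O : ℕ → Orth N) (m : ℕ) (l : Fin (m + 1) → Fin N → ℝ) (a b : ℝ) (ha : 0 < a)
    (hab : a ≤ b) (hl : ∀ j i, l j i ∈ Icc a b) : ∃! κ, IsLevels N m O l κ := by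
  have hL := LVL_len_pos hN l a b ha hl
  have hpi := Real.pi_pos
  have hb : 0 < b := lt_of_lt_of_le ha hab
  obtain ⟨Φ, hS, hΦ⟩ := sys hN O m l a b ha hab hl
  obtain ⟨x, hx⟩ := lists_exist hN (c := a / b) (by positivity) hS
  have e : unf l (fun q => Real.pi * x q / len l) = x := by
    funext q
    unfold unf
    field_simp
  refine ⟨fun q => Real.pi * x q / len l, ?_, ?_⟩
  · refine (levels_lists hN O m l a b ha hab hl Φ hΦ _).2 ?_
    rw [e]
    exact hx
  · intro κ hκ
    have h1 := (levels_lists hN O m l a b ha hab hl Φ hΦ κ).1 hκ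
    have h2 : unf l κ = x := by
      refine enum_eq _ _ h1.mono hx.mono fun t => ?_
      by_cases ht : 0 < t
      · rw [h1.mult t ht, hx.mult t ht]
      · have e1 : {n | unf l κ n = t} = ∅ := by
          ext q
          simp only [mem_ofPred_eq, mem_empty_iff_false, iff_false]
          intro h; have := h1.pos q; linarith
        have e2 : {n | x n = t} = ∅ := by
          ext q
          simp only [mem_ofPred_eq, mem_empty_iff_false, iff_false]
          intro h; have := hx.pos q; linarith
        rw [e1, e2]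
    funext q
    rw [← h2]
    unfold unf
    field_simp

end QGr
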