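import Pool.Agent.LibQGr.Defs

/-! Internal objects for the proof. -/

open MeasureTheory Set Filter Topology

namespace QGr

/-- The complexification of a real orthogonal matrix. -/
noncomputable def cx {N : ℕ} (O : Orth N) : Uni N :=
  ⟨O.1.map Complex.ofRealHom, by
    rw [Matrix.mem_unitaryGroup_iff]
    have h : star (O.1.map Complex.ofRealHom) = O.1.transpose.map Complex.ofRealHom := by
      ext i j
      simp [Matrix.star_apply]
    have h2 := O.2
    rw [Matrix.mem_orthogonalGroup_iff] at h2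
    rw [h, ← Matrix.map_mul, h2]
    ext i j
    simp [Matrix.one_apply, apply_ite]⟩

theorem cx_apply {N : ℕ} (O : Orth N) (i j : Fin N) : (cx O).1 i j = ((O.1 i j : ℝ) : ℂ) := rfl

/-- Diagonal unitary matrices. -/
noncomputable def dg {N : ℕ} (t : Fin N → UnitAddCircle) : Uni N :=
  ⟨Matrix.diagonal fun i => ((AddCircle.toCircle (t i) : Circle) : ℂ), by
    rw [Matrix.mem_unitaryGroup_iff, Matrix.star_eq_conjTranspose,
      Matrix.diagonal_conjTranspose, Matrix.diagonal_mul_diagonal]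
    ext i j
    by_cases h : i = j
    · subst h
      simp [Complex.mul_conj, Complex.normSq_eq_norm_sq, Circle.norm_coe]
    · simp [h]⟩

/-- The symmetric unitary matrix `Aᵀ A`. -/
noncomputable def sy {N : ℕ} (A : Uni N) : Uni N :=
  ⟨A.1.transpose * A.1, by
    have h : A.1.transpose ∈ Matrix.unitaryGroup (Fin N) ℂ := by
      rw [Matrix.mem_unitaryGroup_iff]
      have := A.2
      rw [Matrix.mem_unitaryGroup_iff'] at this
      have h2 := congrArg Matrix.transpose this
      rw [Matrix.transpose_mul, Matrix.transpose_one] at h2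
      have h3 : star A.1.transpose = (star A.1).transpose := by
        ext i j; simp [Matrix.star_apply]
      rw [h3]
      exact h2
    exact Submonoid.mul_mem _ h A.2⟩

/-- The transfer matrix `D_m O_{m-1} D_{m-1} ⋯ O_0 D_0` as a function of the phases. -/
noncomputable def tr {N : ℕ} (O : ℕ → Orth N) :
    (m : ℕ) → (Fin (m + 1) → Fin N → UnitAddCircle) → Uni N
  | 0, θ => dg (θ 0)
  | m + 1, θ => dg (θ (Fin.last (m + 1))) * cx (O m) * tr O m fun j => θ j.castSucc

/-- The phases `k l / (2π) mod 1`. -/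
noncomputable def fl {N m : ℕ} (l : Fin (m + 1) → Fin N → ℝ) (k : ℝ) :
    Fin (m + 1) → Fin N → UnitAddCircle :=
  fun j i => ((k * l j i / (2 * Real.pi) : ℝ) : UnitAddCircle)

/-- The matrix `∑_j A_j^* L_j A_j`, `A_j` the transfer matrix up to the layer `j`. -/
noncomputable def Bm {N : ℕ} (O : ℕ → Orth N) : (m : ℕ) → (Fin (m + 1) → Fin N → ℝ) →
    (Fin (m + 1) → Fin N → UnitAddCircle) → Matrix (Fin N) (Fin N) ℂ
  | 0, l, _ => Matrix.diagonal fun i => (l 0 i : ℂ)
  | m + 1, l, θ => (tr O (m + 1) θ).1.conjTranspose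
      * (Matrix.diagonal fun i => (l (Fin.last (m + 1)) i : ℂ)) * (tr O (m + 1) θ).1
      + Bm O m (fun j => l j.castSucc) fun j => θ j.castSucc

/-- The Frobenius norm. -/
noncomputable def fro {N : ℕ} (M : Matrix (Fin N) (Fin N) ℂ) : ℝ := √(∑ i, ∑ j, ‖M i j‖ ^ 2)

/-- The relative deviation of the delay matrix from a scalar. -/
noncomputable def dev {N : ℕ} (O : ℕ → Orth N) (m : ℕ) (l : Fin (m + 1) → Fin N → ℝ)
    (θ : Fin (m + 1) → Fin N → UnitAddCircle) : ℝ :=
  N / len l * fro (Bm O m l θ - ((len l / N : ℝ) : ℂ) • 1)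

instance : IsProbabilityMeasure (volume : Measure UnitAddCircle) :=
  ⟨by rw [AddCircle.measure_univ]; simp⟩

/-- A system of phase functions. -/
structure Sys (N : ℕ) (c : ℝ) (Φ : ℤ → ℝ → ℝ) (w : ℝ → ℝ) : Prop where
  cont : ∀ p, Continuous (Φ p)
  mono : ∀ t, Monotone fun p => Φ p t
  per : ∀ p t, Φ (p + N) t = Φ p t + N
  low : ∀ p s t, s ≤ t → c * (t - s) ≤ Φ p t - Φ p s
  up : ∀ p s t, s ≤ t → c * (Φ p t - Φ p s) ≤ t - s
  wc : Continuous w
  wn : ∀ t, 0 ≤ w t
  err : ∀ p s t, s ≤ t → |Φ p t - Φ p s - (t - s)| ≤ ∫ x in s..t, w x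

/-- `x` lists the positive zeros of all `Φ p`, with multiplicity. -/
structure Lists (Φ : ℤ → ℝ → ℝ) (x : ℕ → ℝ) : Prop where
  mono : Monotone x
  pos : ∀ n, 0 < x n
  mult : ∀ t, 0 < t → {n | x n = t}.encard = {p : ℤ | Φ p t = 0}.encard

/-- Local functional of a quasi-periodic sequence. -/
noncomputable def loc (N M : ℕ) (h : (Fin (2 * M + 1) → ℝ) → ℝ) (y : ℤ → ℝ) : ℝ :=
  (1 / N) * ∑ a ∈ Finset.range N, h fun s => y (a + s - M) - y a

/-- Sum of squares distance on the unitary group. -/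
noncomputable def ds {N : ℕ} (A B : Uni N) : ℝ := ∑ i, ∑ j, ‖A.1 i j - B.1 i j‖ ^ 2

/-- Averaging operator of one layer. -/
noncomputable def avg {N : ℕ} (O : Orth N) (f : Uni N → ℝ) (g : Uni N) : ℝ :=
  ∫ t : Fin N → UnitAddCircle, f (dg t * cx O * g)

/-- `down O m f = avg (O 0) (avg (O 1) (⋯ (avg (O (m - 1)) f)))`. -/
noncomputable def down {N : ℕ} (O : ℕ → Orth N) : ℕ → (Uni N → ℝ) → Uni N → ℝ
  | 0, f => f
  | m + 1, f => down O m (avg (O m) f)

/-- `F` lists all real `t` such that `e^{it}` is an eigenvalue of `W`. -/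
structure Dia {N : ℕ} (W : Uni N) (F : ℤ → ℝ) : Prop where
  mono : Monotone F
  per : ∀ p, F (p + N) = F p + 2 * Real.pi
  dia : ∃ V : Uni N, W.1 = V.1 * (Matrix.diagonal fun a : Fin N =>
    Complex.exp (F (a : ℕ) * Complex.I)) * V.1.conjTranspose

/-- The number of levels up to `T`. -/
noncomputable def cnt (x : ℕ → ℝ) (T : ℝ) : ℕ := {n | x n ≤ T}.ncard

/-- The local functional of the correlation sum. -/
noncomputable def hco (p M : ℕ) (f : (Fin (p + 1) → ℝ) → ℝ) (v : Fin (2 * M + 1) → ℝ) : ℝ :=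
  ∑ r : {r : Fin (p + 1) → Fin (2 * M + 1) // Function.Injective r ∧ ∀ i, (r i).val ≠ M},
    f fun i => v (r.1 i)

/-- Indices further apart than `M` belong to points further apart than `B`. -/
def Far (M : ℕ) (B : ℝ) (y : ℤ → ℝ) : Prop := ∀ q r : ℤ, (M : ℤ) < |r| → B < |y (q + r) - y q|

/-- The potential `N - ∑ |X_ii|` of a unitary matrix. -/
noncomputable def pot {N : ℕ} (X : Uni N) : ℝ := N - ∑ i, ‖X.1 i i‖

/-- `N - Re tr X`. -/
noncomputable def qot {N : ℕ} (X : Uni N) : ℝ := N - ∑ i, (X.1 i i).re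

end QGr
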