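import Mathlib

/-! Compact quantum graphs with reflectionless vertices, their spectra and local statistics, and
the local statistics of the circular orthogonal ensemble. -/

open MeasureTheory Set Filter Topology

namespace QGr

/-- Real orthogonal matrices. -/
abbrev Orth (N : ℕ) : Type := Matrix.orthogonalGroup (Fin N) ℝ

/-- Any two channels on one side of the vertex have a common channel on the other side, with
overlap of the transmission probabilities `O x y ^ 2` at least `γ`. (If all entries of `O` have
absolute value at least `c`, this holds with `γ = N c ^ 4`; for a Hadamard matrix `γ = 1 / N`.) -/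
def Overlap {N : ℕ} (γ : ℝ) (O : Orth N) : Prop :=
  ∀ x y : Fin N, γ ≤ ∑ z, O.1 z x ^ 2 * O.1 z y ^ 2 ∧ γ ≤ ∑ z, O.1 x z ^ 2 * O.1 y z ^ 2

/-- `u` is an eigenfunction with wave number `k` of the Laplacian of the quantum graph with `N`
channels and `m + 1` layers. The edge `(j, i)` is the interval `[0, l j i]`; a solution of
`-u'' = k² u` on it is identified with its extension to the real line. The left ends of the edges
of the first layer and the right ends of the edges of the last layer are free (Neumann). The right
ends of the layer `j` and the left ends of the layer `j + 1` meet in one vertex of degree `2 N`,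
with the self-adjoint, scale invariant, real, reflectionless vertex condition: the values (the
derivatives) at the left ends of the layer `j + 1` are the orthogonal matrix `O j` applied to the
values (the derivatives) at the right ends of the layer `j`. -/
structure IsEig (N m : ℕ) (O : ℕ → Orth N) (l : Fin (m + 1) → Fin N → ℝ) (k : ℝ)
    (u : Fin (m + 1) → Fin N → ℝ → ℝ) : Prop where
  smooth : ∀ j i, ContDiff ℝ 2 (u j i)
  eqn : ∀ j i t, deriv (deriv (u j i)) t = -(k ^ 2) * u j i t
  left : ∀ i, deriv (u 0 i) 0 = 0
  right : ∀ i, deriv (u (Fin.last m) i) (l (Fin.last m) i) = 0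
  val : ∀ (j : Fin m) (i : Fin N),
    u j.succ i 0 = ∑ i', (O j).1 i i' * u j.castSucc i' (l j.castSucc i')
  flux : ∀ (j : Fin m) (i : Fin N),
    deriv (u j.succ i) 0 = ∑ i', (O j).1 i i' * deriv (u j.castSucc i') (l j.castSucc i')

/-- The space of eigenfunctions with wave number `k`. -/
def eigSpace (N m : ℕ) (O : ℕ → Orth N) (l : Fin (m + 1) → Fin N → ℝ) (k : ℝ) :
    Submodule ℝ (Fin (m + 1) → Fin N → ℝ → ℝ) where
  carrier := {u | IsEig N m O l k u}
  add_mem' := by
    intro u v hu hv
    have du : ∀ j i, Differentiable ℝ (u j i) := fun j i => (hu.smooth j i).differentiable (by simp)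
    have dv : ∀ j i, Differentiable ℝ (v j i) := fun j i => (hv.smooth j i).differentiable (by simp)
    have e : ∀ j i, deriv ((u + v) j i) = deriv (u j i) + deriv (v j i) := by
      intro j i; ext t; simp [Pi.add_apply, deriv_add (du j i t) (dv j i t)]
    have ddu : ∀ j i, Differentiable ℝ (deriv (u j i)) := fun j i =>
      (hu.smooth j i).differentiable_deriv_two
    have ddv : ∀ j i, Differentiable ℝ (deriv (v j i)) := fun j i =>
      (hv.smooth j i).differentiable_deriv_two
    refine ⟨fun j i => (hu.smooth j i).add (hv.smooth j i), ?_, ?_, ?_, ?_, ?_⟩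
    · intro j i t
      rw [e j i]
      rw [show deriv (deriv (u j i) + deriv (v j i)) t
        = deriv (deriv (u j i)) t + deriv (deriv (v j i)) t from
          deriv_add (ddu j i t) (ddv j i t), hu.eqn, hv.eqn]
      simp [Pi.add_apply]; ring
    · intro i; rw [e]; simp [hu.left, hv.left]
    · intro i; rw [e]; simp [hu.right, hv.right]
    · intro j i
      simp only [Pi.add_apply, hu.val j i, hv.val j i, mul_add, Finset.sum_add_distrib]
    · intro j i
      simp only [e]
      simp only [Pi.add_apply, hu.flux j i, hv.flux j i, mul_add, Finset.sum_add_distrib]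
  zero_mem' := by
    have e : ∀ (j : Fin (m + 1)) (i : Fin N),
        deriv ((0 : Fin (m + 1) → Fin N → ℝ → ℝ) j i) = 0 := by
      intro j i; ext t; simp
    refine ⟨fun j i => contDiff_const, ?_, ?_, ?_, ?_, ?_⟩
    · intro j i t
      rw [e]
      simp
    · intro i; rw [e]; simp
    · intro i; rw [e]; simp
    · intro j i; simp
    · intro j i; simp only [e]; simp
  smul_mem' := by
    intro c u hu
    have du : ∀ j i, Differentiable ℝ (u j i) := fun j i => (hu.smooth j i).differentiable (by simp)
    have ddu : ∀ j i, Differentiable ℝ (deriv (u j i)) := fun j i =>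
      (hu.smooth j i).differentiable_deriv_two
    have e : ∀ j i, deriv ((c • u) j i) = c • deriv (u j i) := by
      intro j i; ext t
      simp only [Pi.smul_apply, smul_eq_mul]
      exact deriv_const_mul c (du j i t)
    refine ⟨fun j i => (hu.smooth j i).const_smul c, ?_, ?_, ?_, ?_, ?_⟩
    · intro j i t
      rw [e j i]
      rw [show deriv (c • deriv (u j i)) t = c * deriv (deriv (u j i)) t from
          deriv_const_mul c (ddu j i t), hu.eqn]
      simp only [Pi.smul_apply, smul_eq_mul]; ring
    · intro i; rw [e]; simp [hu.left]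
    · intro i; rw [e]; simp [hu.right]
    · intro j i
      simp only [Pi.smul_apply, smul_eq_mul, hu.val j i, Finset.mul_sum]
      exact Finset.sum_congr rfl fun _ _ => by ring
    · intro j i
      simp only [e]
      simp only [Pi.smul_apply, smul_eq_mul, hu.flux j i, Finset.mul_sum]
      exact Finset.sum_congr rfl fun _ _ => by ring

/-- `κ 0 ≤ κ 1 ≤ ...` are the positive wave numbers `k` (the square roots of the positive
eigenvalues) of the graph, each repeated as often as its multiplicity. -/
structure IsLevels (N m : ℕ) (O : ℕ → Orth N) (l : Fin (m + 1) → Fin N → ℝ) (κ : ℕ → ℝ) : Prop where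
  mono : Monotone κ
  pos : ∀ n, 0 < κ n
  mult : ∀ k, 0 < k → {n | κ n = k}.encard = (Module.finrank ℝ (eigSpace N m O l k) : ℕ∞)

/-- The total length of the graph. -/
def len {N m : ℕ} (l : Fin (m + 1) → Fin N → ℝ) : ℝ := ∑ j, ∑ i, l j i

/-- The unfolded levels: by Weyl's law their mean spacing is one. -/
noncomputable def unf {N m : ℕ} (l : Fin (m + 1) → Fin N → ℝ) (κ : ℕ → ℝ) (n : ℕ) : ℝ :=
  len l * κ n / Real.pi

/-- The `(p + 2)`-point correlation sum of the levels up to `T`:
`(1/T) ∑ f(x_{j₁} - x_{j₀}, ..., x_{j_{p+1}} - x_{j₀})` over all tuples of distinct indices of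
levels at most `T`. -/
noncomputable def corr (p : ℕ) (f : (Fin (p + 1) → ℝ) → ℝ) (x : ℕ → ℝ) (T : ℝ) : ℝ :=
  (1 / T) * ∑ᶠ j : {j : Fin (p + 2) → ℕ // Function.Injective j ∧ ∀ i, x (j i) ≤ T},
    f fun i => x (j.1 i.succ) - x (j.1 0)

/-- The nearest-neighbour spacing sum of the levels up to `T`. -/
noncomputable def spac (f : ℝ → ℝ) (x : ℕ → ℝ) (T : ℝ) : ℝ :=
  (1 / T) * ∑ᶠ k : {k : ℕ // x (k + 1) ≤ T}, f (x (k.1 + 1) - x k.1)

/-- The unitary group. -/
abbrev Uni (N : ℕ) : Type := Matrix.unitaryGroup (Fin N) ℂ

/-- `y` lists, in increasing order and with multiplicity, the real `x` such that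
`det (1 - e^{2πix/N} W) = 0`: the (negative) eigenphases of `W`, at mean spacing one. -/
structure IsPhases {N : ℕ} (W : Matrix (Fin N) (Fin N) ℂ) (y : ℤ → ℝ) : Prop where
  mono : Monotone y
  per : ∀ p, y (p + N) = y p + N
  mult : ∀ t : ℝ, {p | y p = t}.encard = (Module.finrank ℂ (LinearMap.ker
    (Matrix.toLin' (1 - Complex.exp (2 * Real.pi * t / N * Complex.I) • W))) : ℕ∞)

/-- The eigenphases of a unitary matrix. -/
noncomputable def phases {N : ℕ} (W : Matrix (Fin N) (Fin N) ℂ) : ℤ → ℝ :=
  Classical.epsilon (IsPhases W)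

/-- The `(p + 2)`-point correlation sum of the eigenphases `y`, over one period. -/
noncomputable def pcorr (N p : ℕ) (f : (Fin (p + 1) → ℝ) → ℝ) (y : ℤ → ℝ) : ℝ :=
  (1 / N) * ∑ᶠ j : {j : Fin (p + 2) → ℤ // Function.Injective j ∧ 0 ≤ j 0 ∧ j 0 < N},
    f fun i => y (j.1 i.succ) - y (j.1 0)

/-- The nearest-neighbour spacing sum of the eigenphases `y`, over one period. -/
noncomputable def pspac (N : ℕ) (f : ℝ → ℝ) (y : ℤ → ℝ) : ℝ :=
  (1 / N) * ∑ a ∈ Finset.range N, f (y (a + 1) - y a)

noncomputable instance (N : ℕ) : MeasurableSpace (Uni N) := borel _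

instance (N : ℕ) : BorelSpace (Uni N) := ⟨rfl⟩

instance compact_uni (N : ℕ) : CompactSpace (Uni N) := by
  refine isCompact_iff_compactSpace.1 ?_
  have hc : IsClosed ((Matrix.unitaryGroup (Fin N) ℂ : Set (Matrix (Fin N) (Fin N) ℂ))) := by
    have : (Matrix.unitaryGroup (Fin N) ℂ : Set (Matrix (Fin N) (Fin N) ℂ))
        = {A | A * star A = 1} := by
      ext A; simp [Matrix.mem_unitaryGroup_iff]
    rw [this]
    exact isClosed_eq (by fun_prop) continuous_const
  have hk : IsCompact (Set.pi Set.univ fun _ : Fin N => Set.pi Set.univ fun _ : Fin N =>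
      Metric.closedBall (0 : ℂ) 1) :=
    isCompact_univ_pi fun _ => isCompact_univ_pi fun _ => isCompact_closedBall _ _
  refine hk.of_isClosed_subset hc ?_
  intro A hA i _ j _
  simpa using entry_norm_bound_of_unitary hA i j

/-- The Haar probability measure of the unitary group. -/
noncomputable def haarU (N : ℕ) : Measure (Uni N) :=
  Measure.haarMeasure ⟨⟨Set.univ, isCompact_univ⟩, by simp⟩

/-- The `(p + 2)`-point correlation of the circular orthogonal ensemble `COE(N)`, the law of
`Aᵀ A` for a Haar distributed unitary `A`. -/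
noncomputable def coeCorr (N p : ℕ) (f : (Fin (p + 1) → ℝ) → ℝ) : ℝ :=
  ∫ A : Uni N, pcorr N p f (phases (A.1.transpose * A.1)) ∂(haarU N)

/-- The nearest-neighbour spacing average of the circular orthogonal ensemble. -/
noncomputable def coeSpac (N : ℕ) (f : ℝ → ℝ) : ℝ :=
  ∫ A : Uni N, pspac N f (phases (A.1.transpose * A.1)) ∂(haarU N)

end QGr
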