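import Pool.Agent.LibQGr.R_LIM

open MeasureTheory Set Filter Topology

namespace QGr


theorem AV1_overlap (F : ℕ → ℝ) (hF : Monotone F) (N L J R : ℕ) (hN : 0 < N)
    (hR : ∀ j < J, j * N + L ≤ R) :
    ∑ j ∈ Finset.range J, (F (j * N + L) - F (j * N)) ≤ L * (F R - F 0) := by
  have h1 : ∀ j, F (j * N + L) - F (j * N)
      = ∑ i ∈ Finset.range L, (F (j * N + i + 1) - F (j * N + i)) := by
    intro j
    have h2 := Finset.sum_range_sub (fun i => F (j * N + i)) L
    simp only [add_zero] at h2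
    rw [← h2]
    rfl
  simp_rw [h1]
  rw [Finset.sum_comm]
  have h2 : ∀ i ∈ Finset.range L,
      ∑ j ∈ Finset.range J, (F (j * N + i + 1) - F (j * N + i)) ≤ F R - F 0 := by
    intro i hi
    have hinj : Set.InjOn (fun j => j * N + i) (Finset.range J : Set ℕ) := by
      intro x _ y _ hxy
      have h3 : x * N = y * N := by
        simp only at hxy
        omega
      exact Nat.eq_of_mul_eq_mul_right hN h3
    have e1 : ∑ j ∈ Finset.range J, (F (j * N + i + 1) - F (j * N + i))
        = ∑ r ∈ (Finset.range J).image (fun j => j * N + i), (F (r + 1) - F r) :=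
      (Finset.sum_image (f := fun r => F (r + 1) - F r) hinj).symm
    rw [e1, ← Finset.sum_range_sub F R]
    apply Finset.sum_le_sum_of_subset_of_nonneg
    · intro r hr
      rw [Finset.mem_image] at hr
      obtain ⟨j, hj, rfl⟩ := hr
      have h4 := hR j (Finset.mem_range.mp hj)
      have h5 := Finset.mem_range.mp hi
      rw [Finset.mem_range]
      omega
    · intro r _ _
      exact sub_nonneg.mpr (hF (Nat.le_succ r))
  calc ∑ i ∈ Finset.range L, ∑ j ∈ Finset.range J, (F (j * N + i + 1) - F (j * N + i))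
      ≤ ∑ i ∈ Finset.range L, (F R - F 0) := Finset.sum_le_sum h2
    _ = L * (F R - F 0) := by rw [Finset.sum_const, Finset.card_range, nsmul_eq_mul]

/-- Primitive of the weight. -/
theorem AV1_prim {w : ℝ → ℝ} (hw : Continuous w) (s t : ℝ) :
    ∫ x in s..t, w x = (∫ x in (0 : ℝ)..t, w x) - ∫ x in (0 : ℝ)..s, w x :=
  (intervalIntegral.integral_interval_sub_left (hw.intervalIntegrable _ _)
    (hw.intervalIntegrable _ _)).symm

theorem AV1_mono {w : ℝ → ℝ} (hw : Continuous w) (h0 : ∀ t, 0 ≤ w t) :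
    Monotone fun t => ∫ x in (0 : ℝ)..t, w x := by
  intro s t hst
  have h1 := AV1_prim hw s t
  have h2 : 0 ≤ ∫ x in s..t, w x := intervalIntegral.integral_nonneg hst fun x _ => h0 x
  simp only
  linarith

theorem AV1_err {N : ℕ} {c : ℝ} {Φ : ℤ → ℝ → ℝ} {w : ℝ → ℝ} (hS : Sys N c Φ w) (p : ℤ)
    (s t A B : ℝ) (hs : A ≤ s) (hs' : s ≤ B) (ht : A ≤ t) (ht' : t ≤ B) :
    |Φ p t - Φ p s - (t - s)| ≤ ∫ x in A..B, w x := by
  have hm := AV1_mono hS.wc hS.wn
  rw [AV1_prim hS.wc A B]
  rcases le_total s t with h | h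
  · have h1 := hS.err p s t h
    rw [AV1_prim hS.wc s t] at h1
    have h2 := hm hs
    have h3 := hm ht'
    simp only at h2 h3
    linarith
  · have h1 := hS.err p t s h
    rw [AV1_prim hS.wc t s] at h1
    have h2 := hm ht
    have h3 := hm hs'
    simp only at h2 h3
    have h4 : |Φ p t - Φ p s - (t - s)| = |Φ p s - Φ p t - (s - t)| := by
      rw [← abs_neg]
      congr 1
      ring
    linarith

theorem AV1_loc_cont {N M : ℕ} {c : ℝ} (h : (Fin (2 * M + 1) → ℝ) → ℝ) (hh : Continuous h)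
    {Φ : ℤ → ℝ → ℝ} {w : ℝ → ℝ} (hS : Sys N c Φ w) :
    Continuous fun t => loc N M h fun p => -Φ (-p) t := by
  unfold loc
  refine continuous_const.mul (continuous_finsetSum _ fun a _ => hh.comp ?_)
  refine continuous_pi fun s => ?_
  exact ((hS.cont _).neg).sub ((hS.cont _).neg)

theorem AV1_block {N M : ℕ} (hN : 0 < N) {c : ℝ} (hc : 0 < c) (h : (Fin (2 * M + 1) → ℝ) → ℝ)
    (hh : Continuous h) (K : ℝ) (hK : ∀ v, |h v| ≤ K) (Λ : ℝ) (hΛ : 0 ≤ Λ)
    (hlip : ∀ u v : Fin (2 * M + 1) → ℝ, |h u - h v| ≤ Λ * dist u v)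
    {Φ : ℤ → ℝ → ℝ} {w : ℝ → ℝ} (hS : Sys N c Φ w) (X : ℤ → ℝ)
    (hX : ∀ p, Φ (-p) (X p) = 0) (hm : Monotone X) (q : ℤ) :
    |∑ a ∈ Finset.range N, h (fun s => X (q + a + s - M) - X (q + a))
      - ∫ t in (X q)..(X (q + N)), loc N M h fun p => -Φ (-p) t| ≤
    (2 * N * Λ / c + K) * ∫ t in (X (q - M))..(X (q + N + M)), w t := by
  set D : ℝ := ∫ t in (X (q - M))..(X (q + N + M)), w t with hD
  set A : ℝ := ∑ a ∈ Finset.range N, h (fun s => X (q + a + s - M) - X (q + a)) with hA
  have hK0 : 0 ≤ K := le_trans (abs_nonneg _) (hK 0)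
  have hNr : (0 : ℝ) < N := by exact_mod_cast hN
  have hXle : X q ≤ X (q + N) := hm (by omega)
  have hD0 : 0 ≤ D := intervalIntegral.integral_nonneg (hm (by omega)) fun x _ => hS.wn x
  -- length of the block
  have hPhi : Φ (-q) (X (q + N)) = N := by
    have h1 := hX (q + N)
    have h2 := hS.per (-(q + N)) (X (q + N))
    have h3 : -(q + (N : ℤ)) + N = -q := by ring
    rw [h3, h1, zero_add] at h2
    exact h2
  have hlen : |X (q + N) - X q - N| ≤ D := by
    have h1 := AV1_err hS (-q) (X q) (X (q + N)) (X (q - M)) (X (q + N + M)) (hm (by omega))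
      (hm (by omega)) (hm (by omega)) (hm (by omega))
    rw [hPhi, hX q] at h1
    have h2 : |X (q + N) - X q - N| = |(N : ℝ) - 0 - (X (q + N) - X q)| := by
      rw [← abs_neg]
      congr 1
      ring
    rw [h2]
    exact h1
  have hlenc : X (q + N) - X q ≤ N / c := by
    have h1 := hS.low (-q) (X q) (X (q + N)) hXle
    rw [hPhi, hX q, sub_zero] at h1
    rw [le_div_iff₀ hc]
    linarith
  have hAle : |A| ≤ N * K := by
    rw [hA]
    calc |∑ a ∈ Finset.range N, h (fun s => X (q + a + s - M) - X (q + a))|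
        ≤ ∑ a ∈ Finset.range N, |h (fun s => X (q + a + s - M) - X (q + a))| :=
          Finset.abs_sum_le_sum_abs _ _
      _ ≤ ∑ _a ∈ Finset.range N, K := Finset.sum_le_sum fun a _ => hK _
      _ = N * K := by rw [Finset.sum_const, Finset.card_range, nsmul_eq_mul]
  -- pointwise comparison
  have hpt : ∀ t ∈ Icc (X q) (X (q + N)),
      |(loc N M h fun p => -Φ (-p) t) - A / N| ≤ Λ * (2 * D) := by
    intro t ht
    have hy : ∀ p : ℤ, (fun p => -Φ (-p) t) (p + N) = (fun p => -Φ (-p) t) p + N := by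
      intro p
      have h2 := hS.per (-(p + N)) t
      have h3 : -(p + (N : ℤ)) + N = -p := by ring
      rw [h3] at h2
      simp only
      rw [h2]
      ring
    have hloc := loc_shift hN h (fun p => -Φ (-p) t) hy q
    rw [← hloc]
    unfold loc
    have e1 : A / N = (1 / N) * A := by ring
    rw [e1, hA, ← mul_sub, ← Finset.sum_sub_distrib, abs_mul, abs_of_pos (by positivity)]
    have hterm : ∀ a ∈ Finset.range N,
        |h (fun s : Fin (2 * M + 1) => -Φ (-((a : ℤ) + s - M + q)) t - -Φ (-((a : ℤ) + q)) t)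
          - h (fun s : Fin (2 * M + 1) => X (q + a + s - M) - X (q + a))| ≤ Λ * (2 * D) := by
      intro a ha
      have ha' := Finset.mem_range.mp ha
      have hdiff : ∀ p : ℤ, q - M ≤ p → p ≤ q + N + M → |-Φ (-p) t - (X p - t)| ≤ D := by
        intro p hp1 hp2
        have h1 := AV1_err hS (-p) (X p) t (X (q - M)) (X (q + N + M)) (hm hp1) (hm hp2)
          (le_trans (hm (by omega)) ht.1) (le_trans ht.2 (hm (by omega)))
        rw [hX p] at h1
        have h2 : |-Φ (-p) t - (X p - t)| = |Φ (-p) t - 0 - (t - X p)| := by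
          rw [← abs_neg]
          congr 1
          ring
        rw [h2]
        exact h1
      have hcoord : ∀ s : Fin (2 * M + 1),
          |(-Φ (-((a : ℤ) + s - M + q)) t - -Φ (-((a : ℤ) + q)) t)
            - (X (q + a + s - M) - X (q + a))| ≤ 2 * D := by
        intro s
        have hs := s.2
        have h1 := hdiff ((a : ℤ) + s - M + q) (by omega) (by omega)
        have h2 := hdiff ((a : ℤ) + q) (by omega) (by omega)
        have e2 : X ((a : ℤ) + s - M + q) = X (q + a + s - M) := by congr 1; ring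
        have e3 : X ((a : ℤ) + q) = X (q + a) := by congr 1; ring
        rw [e2] at h1
        rw [e3] at h2
        rw [abs_le] at h1 h2 ⊢
        constructor <;> linarith [h1.1, h1.2, h2.1, h2.2]
      refine (hlip _ _).trans (mul_le_mul_of_nonneg_left ?_ hΛ)
      rw [dist_pi_le_iff (by positivity)]
      intro s
      rw [Real.dist_eq]
      exact hcoord s
    calc (1 / (N : ℝ)) * |∑ a ∈ Finset.range N,
          (h (fun s : Fin (2 * M + 1) => -Φ (-((a : ℤ) + s - M + q)) t - -Φ (-((a : ℤ) + q)) t)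
            - h (fun s : Fin (2 * M + 1) => X (q + a + s - M) - X (q + a)))|
        ≤ (1 / (N : ℝ)) * ∑ a ∈ Finset.range N, (Λ * (2 * D)) := by
          apply mul_le_mul_of_nonneg_left _ (by positivity)
          exact le_trans (Finset.abs_sum_le_sum_abs _ _) (Finset.sum_le_sum hterm)
      _ = Λ * (2 * D) := by
          rw [Finset.sum_const, Finset.card_range, nsmul_eq_mul]
          field_simp
  have hcont := AV1_loc_cont (N := N) (M := M) h hh hS
  have hint : ‖∫ t in (X q)..(X (q + N)), ((loc N M h fun p => -Φ (-p) t) - A / N)‖ ≤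
      (Λ * (2 * D)) * |X (q + N) - X q| := by
    apply intervalIntegral.norm_integral_le_of_norm_le_const
    intro t ht
    rw [uIoc_of_le hXle] at ht
    rw [Real.norm_eq_abs]
    exact hpt t ⟨ht.1.le, ht.2⟩
  rw [intervalIntegral.integral_sub (hcont.intervalIntegrable _ _)
    (continuous_const.intervalIntegrable _ _), intervalIntegral.integral_const, Real.norm_eq_abs,
    abs_of_nonneg (sub_nonneg.mpr hXle), smul_eq_mul] at hint
  have hlast : |(X (q + N) - X q) * (A / N) - A| ≤ K * D := by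
    have e1 : (X (q + N) - X q) * (A / N) - A = (X (q + N) - X q - N) * (A / N) := by
      field_simp
    rw [e1, abs_mul]
    have h1 : |A / N| ≤ K := by
      rw [abs_div, abs_of_pos hNr, div_le_iff₀ hNr]
      linarith
    calc |X (q + N) - X q - N| * |A / N| ≤ D * K :=
          mul_le_mul hlen h1 (abs_nonneg _) hD0
      _ = K * D := by ring
  have hprod : (Λ * (2 * D)) * (X (q + N) - X q) ≤ 2 * N * Λ / c * D := by
    have h1 : Λ * (2 * D) * (X (q + N) - X q) ≤ Λ * (2 * D) * (N / c) :=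
      mul_le_mul_of_nonneg_left hlenc (by positivity)
    refine h1.trans (le_of_eq ?_)
    ring
  set I : ℝ := ∫ t in (X q)..(X (q + N)), loc N M h fun p => -Φ (-p) t with hI
  have habs : |A - I| ≤ |I - (X (q + N) - X q) * (A / N)| + |(X (q + N) - X q) * (A / N) - A| := by
    have h1 : A - I = -((I - (X (q + N) - X q) * (A / N)) + ((X (q + N) - X q) * (A / N) - A)) := by
      ring
    rw [h1, abs_neg]
    exact abs_add_le _ _
  linarith

theorem AV1_main {N M Q : ℕ} (hMQ : M = N * Q) (hN : 0 < N) {c : ℝ} (hc : 0 < c)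
    (h : (Fin (2 * M + 1) → ℝ) → ℝ)
    (Λ : ℝ) (hΛ : 0 ≤ Λ) (hh : ∀ u v, |h u - h v| ≤ Λ * dist u v) (K : ℝ) (hK : ∀ v, |h v| ≤ K)
    (Φ : ℤ → ℝ → ℝ) (w : ℝ → ℝ) (hS : Sys N c Φ w) (X : ℤ → ℝ) (hX : ∀ p, Φ (-p) (X p) = 0)
    (hm : Monotone X) (q : ℤ) (J : ℕ) :
      |∑ k ∈ Finset.range (J * N), h (fun s => X (q + k + s - M) - X (q + k))
        - ∫ t in (X q)..(X (q + J * N)), loc N M h fun p => -Φ (-p) t| ≤
      (2 * N * Λ / c + K) * (2 * Q + 1) *
        ∫ t in (X (q - M))..(X (q + J * N + M)), w t := by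
  have hhc : Continuous h := by
    have h1 : LipschitzWith ⟨Λ, hΛ⟩ h := LipschitzWith.of_dist_le_mul fun u v => by
      rw [Real.dist_eq]
      exact hh u v
    exact h1.continuous
  have hK0 : 0 ≤ K := le_trans (abs_nonneg _) (hK 0)
  set C₀ : ℝ := 2 * N * Λ / c + K with hC₀
  have hC₀0 : 0 ≤ C₀ := by positivity
  set Wp : ℝ → ℝ := fun t => ∫ x in (0 : ℝ)..t, w x with hWp
  have hWm : Monotone Wp := AV1_mono hS.wc hS.wn
  set F : ℕ → ℝ := fun r => Wp (X (q - M + (r * N : ℕ))) with hF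
  have hFm : Monotone F := by
    intro r s hrs
    apply hWm
    apply hm
    have : r * N ≤ s * N := Nat.mul_le_mul_right N hrs
    omega
  have hcont := AV1_loc_cont (N := N) (M := M) h hhc hS
  -- induction on the number of blocks
  have hind : ∀ J : ℕ, |∑ k ∈ Finset.range (J * N), h (fun s => X (q + k + s - M) - X (q + k))
        - ∫ t in (X q)..(X (q + J * N)), loc N M h fun p => -Φ (-p) t| ≤
      C₀ * ∑ j ∈ Finset.range J, (F (j * 1 + (2 * Q + 1)) - F (j * 1)) := by
    intro J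
    induction J with
    | zero => simp
    | succ J ih =>
      have hb := AV1_block hN hc h hhc K hK Λ hΛ hh hS X hX hm (q + J * N)
      rw [← hC₀] at hb
      have e1 : (((J + 1 : ℕ) : ℤ)) * N = J * N + N := by push_cast; ring
      have e2 : q + (((J + 1 : ℕ) : ℤ)) * N = q + J * N + N := by rw [e1]; ring
      rw [e2, Nat.succ_mul, Finset.sum_range_add, Finset.sum_range_succ _ J]
      have e3 : ∑ x ∈ Finset.range N, h (fun s : Fin (2 * M + 1) =>
            X (q + ((J * N + x : ℕ) : ℤ) + s - M) - X (q + ((J * N + x : ℕ) : ℤ)))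
          = ∑ a ∈ Finset.range N, h (fun s : Fin (2 * M + 1) =>
            X (q + J * N + a + s - M) - X (q + J * N + a)) := by
        apply Finset.sum_congr rfl
        intro a _
        congr 1
        funext s
        have e4 : q + ((J * N + a : ℕ) : ℤ) = q + J * N + a := by push_cast; ring
        rw [e4]
      rw [e3]
      have e5 : (∫ t in (X (q + J * N - M))..(X (q + J * N + N + M)), w t)
          = F (J * 1 + (2 * Q + 1)) - F (J * 1) := by
        rw [AV1_prim hS.wc, hF]
        simp only [hWp]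
        have e6 : q - (M : ℤ) + (((J * 1 + (2 * Q + 1)) * N : ℕ) : ℤ) = q + J * N + N + M := by
          rw [hMQ]
          push_cast
          ring
        have e7 : q - (M : ℤ) + ((J * 1 * N : ℕ) : ℤ) = q + J * N - M := by push_cast; ring
        rw [e6, e7]
      rw [e5] at hb
      have e8 : (∫ t in (X q)..(X (q + J * N + N)), loc N M h fun p => -Φ (-p) t)
          = (∫ t in (X q)..(X (q + J * N)), loc N M h fun p => -Φ (-p) t)
            + ∫ t in (X (q + J * N))..(X (q + J * N + N)), loc N M h fun p => -Φ (-p) t :=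
        (intervalIntegral.integral_add_adjacent_intervals (hcont.intervalIntegrable _ _)
          (hcont.intervalIntegrable _ _)).symm
      rw [e8]
      rw [abs_le] at ih hb ⊢
      constructor <;> nlinarith [ih.1, ih.2, hb.1, hb.2]
  refine (hind J).trans ?_
  have hov : ∑ j ∈ Finset.range J, (F (j * 1 + (2 * Q + 1)) - F (j * 1))
      ≤ ((2 * Q + 1 : ℕ) : ℝ) * ∫ t in (X (q - M))..(X (q + J * N + M)), w t := by
    have h1 := AV1_overlap F hFm 1 (2 * Q + 1) J (J + 2 * Q) one_pos (by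
      intro j hj
      omega)
    refine h1.trans (le_of_eq ?_)
    rw [AV1_prim hS.wc, hF]
    simp only [hWp]
    have e6 : q - (M : ℤ) + (((J + 2 * Q) * N : ℕ) : ℤ) = q + J * N + M := by
      rw [hMQ]
      push_cast
      ring
    have e7 : q - (M : ℤ) + ((0 * N : ℕ) : ℤ) = q - M := by simp
    rw [e6, e7]
  have h4 := mul_le_mul_of_nonneg_left hov hC₀0
  rw [← mul_assoc] at h4
  push_cast at h4
  exact h4

theorem avg1 {N Q : ℕ} (hN : 0 < N) {c : ℝ} (hc : 0 < c) (h : (Fin (2 * (N * Q) + 1) → ℝ) → ℝ)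
    (Λ : ℝ) (hΛ : 0 ≤ Λ) (hh : ∀ u v, |h u - h v| ≤ Λ * dist u v) (K : ℝ) (hK : ∀ v, |h v| ≤ K)
    (Φ : ℤ → ℝ → ℝ) (w : ℝ → ℝ) (hS : Sys N c Φ w) (X : ℤ → ℝ) (hX : ∀ p, Φ (-p) (X p) = 0)
    (hm : Monotone X) (q : ℤ) (J : ℕ) :
      |∑ k ∈ Finset.range (J * N), h (fun s => X (q + k + s - (N * Q : ℕ)) - X (q + k))
        - ∫ t in (X q)..(X (q + J * N)), loc N (N * Q) h fun p => -Φ (-p) t| ≤
      (2 * N * Λ / c + K) * (2 * Q + 1) *
        ∫ t in (X (q - (N * Q : ℕ)))..(X (q + J * N + (N * Q : ℕ))), w t :=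
  AV1_main rfl hN hc h Λ hΛ hh K hK Φ w hS X hX hm q J

end QGr
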