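import Pool.Agent.LibQGr.R_AV1
import Pool.Agent.LibQGr.R_ZER

/-! ROW AV2 : averages over the levels up to `T`. -/

open MeasureTheory Set Filter Topology

namespace QGr


theorem AV2_step {N : ℕ} {c : ℝ} {Φ : ℤ → ℝ → ℝ} {w : ℝ → ℝ} (hS : Sys N c Φ w) {X : ℤ → ℝ}
    (hX : ∀ p, Φ (-p) (X p) = 0) (hm : Monotone X) (p : ℤ) :
    c * N ≤ X (p + N) - X p ∧ c * (X (p + N) - X p) ≤ N := by
  have h1 : Φ (-p) (X (p + N)) = N := by
    have h2 := hS.per (-(p + N)) (X (p + N))
    rw [hX, show -(p + (N : ℤ)) + N = -p by ring] at h2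
    rw [h2, zero_add]
  have h3 : X p ≤ X (p + N) := hm (by omega)
  have h4 := hS.low (-p) _ _ h3
  have h5 := hS.up (-p) _ _ h3
  rw [h1, hX, sub_zero] at h4 h5
  exact ⟨h5, h4⟩

theorem AV2_mult {N : ℕ} {c : ℝ} (hc : 0 < c) {Φ : ℤ → ℝ → ℝ} {w : ℝ → ℝ} (hS : Sys N c Φ w)
    {X : ℤ → ℝ} (hX : ∀ p, Φ (-p) (X p) = 0) (hm : Monotone X) (p : ℤ) (j : ℕ) :
    j * (c * N) ≤ X (p + j * N) - X p ∧ X (p + j * N) - X p ≤ j * (N / c) := by
  induction j with
  | zero => simp
  | succ j ih =>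
    have h := AV2_step hS hX hm (p + j * N)
    have e : p + ((j + 1 : ℕ) : ℤ) * N = p + j * N + N := by push_cast; ring
    rw [e]
    have h2 : X (p + j * N + N) - X (p + j * N) ≤ N / c := by
      rw [le_div_iff₀ hc]
      linarith [h.2]
    push_cast
    constructor
    · linarith [h.1, ih.1]
    · linarith [ih.2]

theorem AV2_loc_le {N M : ℕ} (hN : 0 < N) {h : (Fin (2 * M + 1) → ℝ) → ℝ} {K : ℝ}
    (hK : ∀ v, |h v| ≤ K) (y : ℤ → ℝ) : |loc N M h y| ≤ K := by
  have hN' : (0 : ℝ) < N := by exact_mod_cast hN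
  unfold loc
  rw [abs_mul, abs_of_pos (by positivity : (0 : ℝ) < 1 / N)]
  have h1 : |∑ a ∈ Finset.range N, h fun s => y (a + s - M) - y a| ≤ N * K := by
    refine (Finset.abs_sum_le_sum_abs _ _).trans ?_
    calc _ ≤ ∑ a ∈ Finset.range N, K := Finset.sum_le_sum fun a _ => hK _
      _ = N * K := by rw [Finset.sum_const, Finset.card_range, nsmul_eq_mul]
  calc 1 / (N : ℝ) * _ ≤ 1 / N * (N * K) := mul_le_mul_of_nonneg_left h1 (by positivity)
    _ = K := by field_simp

theorem AV2_loc_cont {N M : ℕ} {h : (Fin (2 * M + 1) → ℝ) → ℝ} (hc : Continuous h) {c : ℝ}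
    {Φ : ℤ → ℝ → ℝ} {w : ℝ → ℝ} (hS : Sys N c Φ w) :
    Continuous fun t => loc N M h fun p => -Φ (-p) t := by
  unfold loc
  refine continuous_const.mul (continuous_finsetSum _ fun a _ => hc.comp ?_)
  refine continuous_pi fun s => ?_
  exact ((hS.cont _).neg).sub ((hS.cont _).neg)

theorem AV2_int_le {f : ℝ → ℝ} {K : ℝ} (hK : ∀ t, |f t| ≤ K) (a b : ℝ) :
    |∫ t in a..b, f t| ≤ K * |b - a| := by
  have := intervalIntegral.norm_integral_le_of_norm_le_const (a := a) (b := b) (f := f) (C := K)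
    (fun t _ => by rw [Real.norm_eq_abs]; exact hK t)
  rwa [Real.norm_eq_abs] at this

theorem avg2 {N Q : ℕ} (hN : 0 < N) {c : ℝ} (hc : 0 < c) (h : (Fin (2 * (N * Q) + 1) → ℝ) → ℝ)
    (Λ : ℝ) (hΛ : 0 ≤ Λ) (hh : ∀ u v, |h u - h v| ≤ Λ * dist u v) (K : ℝ) (hK : ∀ v, |h v| ≤ K)
    (Φ : ℤ → ℝ → ℝ) (w : ℝ → ℝ) (hS : Sys N c Φ w) (X : ℤ → ℝ) (hX : ∀ p, Φ (-p) (X p) = 0)
    (hm : Monotone X) (x : ℕ → ℝ) (s₀ : ℤ) (hx : ∀ n : ℕ, x n = X (n + s₀)) (hp : ∀ n, 0 < x n)
    (g₀ w₀ : ℝ)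
    (hg : Tendsto (fun T : ℝ => (1 / T) * ∫ t in (0 : ℝ)..T, loc N (N * Q) h fun p => -Φ (-p) t)
      atTop (𝓝 g₀))
    (hw : Tendsto (fun T : ℝ => (1 / T) * ∫ t in (0 : ℝ)..T, w t) atTop (𝓝 w₀))
    (ε : ℝ) (hε : 0 < ε) :
      ∀ᶠ T : ℝ in atTop, |(1 / T) * ∑ k ∈ Finset.range (cnt x T),
        h (fun s => X (s₀ + k + s - (N * Q : ℕ)) - X (s₀ + k)) - g₀| ≤
          (2 * N * Λ / c + K) * (2 * Q + 1) * w₀ + ε := by
  have hA := avg1 (Q := Q) hN hc h Λ hΛ hh K hK Φ w hS X hX hm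
  have hN' : (0 : ℝ) < N := by exact_mod_cast hN
  have hK0 : 0 ≤ K := (abs_nonneg _).trans (hK fun _ => 0)
  set C : ℝ := (2 * N * Λ / c + K) * (2 * Q + 1) with hCdef
  have hC : 0 ≤ C := by positivity
  have hcont : Continuous h :=
    (LipschitzWith.of_dist_le_mul (K := ⟨Λ, hΛ⟩) fun u v => by
      rw [Real.dist_eq]
      exact hh u v).continuous
  set A : ℝ := N / c with hAdef
  have hA0 : 0 < A := by positivity
  -- monotonicity and growth of x
  have hxm : Monotone x := fun i j hij => by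
    rw [hx, hx]
    exact hm (by omega)
  have hxt : Tendsto x atTop atTop := by
    refine tendsto_atTop_atTop_of_monotone hxm fun b => ?_
    obtain ⟨j, hj⟩ := exists_nat_ge ((b - x 0) / (c * N))
    refine ⟨j * N, ?_⟩
    have h1 := (AV2_mult hc hS hX hm s₀ j).1
    have h2 : x (j * N) = X (s₀ + j * N) := by
      rw [hx]
      congr 1
      push_cast
      ring
    have h3 : x 0 = X s₀ := by
      rw [hx]
      simp
    rw [div_le_iff₀ (by positivity)] at hj
    rw [h2]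
    linarith
  -- position of the first level
  have hX0 : 0 < X s₀ := by
    have := hp 0
    rw [hx] at this
    simpa using this
  set L : ℝ := (Q + 1) * A with hL
  set D0 : ℝ := ∫ t in (X (s₀ - (N * Q : ℕ)))..(0 : ℝ), w t with hD0
  -- the main estimate
  have key : ∀ T : ℝ, 0 < T → X s₀ ≤ T → |(1 / T) * ∑ k ∈ Finset.range (cnt x T),
        h (fun s => X (s₀ + k + s - (N * Q : ℕ)) - X (s₀ + k)) - g₀| ≤
      (1 / T) * (N * K + (K * X s₀ + K * A) + C * D0)
        + C * ((1 / T) * ∫ t in (0 : ℝ)..(T + L), w t)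
        + |(1 / T) * (∫ t in (0 : ℝ)..T, loc N (N * Q) h fun p => -Φ (-p) t) - g₀| := by
    intro T hT hTX
    set n := cnt x T with hn
    set J := n / N with hJ
    have hJ1 : J * N ≤ n := Nat.div_mul_le_self n N
    have hJ2 : n < J * N + N := by
      have := Nat.lt_div_mul_add hN (a := n)
      rwa [← hJ] at this
    have hxn : T < X (s₀ + n) := by
      have h1 : ¬ n < cnt x T := lt_irrefl _
      rw [cnt_iff x hxm hxt, not_le, hx] at h1
      rwa [add_comm] at h1
    have hxn2 : X (s₀ + n) ≤ T + A := by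
      rcases Nat.eq_zero_or_pos n with h0 | h0
      · rw [h0]
        simp only [Nat.cast_zero, add_zero]
        linarith
      · have h1 : n - 1 < cnt x T := by omega
        rw [cnt_iff x hxm hxt, hx] at h1
        have h2 : X (s₀ + n) ≤ X (((n - 1 : ℕ) : ℤ) + s₀ + ((1 : ℕ) : ℤ) * N) := hm (by omega)
        have h3 := (AV2_mult hc hS hX hm (((n - 1 : ℕ) : ℤ) + s₀) 1).2
        rw [Nat.cast_one (R := ℝ), one_mul (N / c : ℝ), ← hAdef] at h3
        linarith
    have hJe : (((J * N : ℕ) : ℤ)) = (J : ℤ) * N := by push_cast; ring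
    have hXJ1 : X (s₀ + J * N) ≤ T + A := (hm (by
      have : ((J * N : ℕ) : ℤ) ≤ n := by exact_mod_cast hJ1
      linarith)).trans hxn2
    have hXJ2 : T - A ≤ X (s₀ + J * N) := by
      have h1 : X (s₀ + n) ≤ X (s₀ + J * N + ((1 : ℕ) : ℤ) * N) := hm (by
        have : ((n : ℕ) : ℤ) ≤ ((J * N + N : ℕ) : ℤ) := by exact_mod_cast hJ2.le
        push_cast at this ⊢
        linarith)
      have h2 := (AV2_mult hc hS hX hm (s₀ + J * N) 1).2
      rw [Nat.cast_one (R := ℝ), one_mul (N / c : ℝ), ← hAdef] at h2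
      linarith
    -- the sum
    have hs1 : |∑ k ∈ Finset.range n, h (fun s => X (s₀ + k + s - (N * Q : ℕ)) - X (s₀ + k)) -
        ∑ k ∈ Finset.range (J * N), h (fun s => X (s₀ + k + s - (N * Q : ℕ)) - X (s₀ + k))| ≤
        N * K := by
      rw [← Finset.sum_range_add_sum_Ico _ hJ1, add_sub_cancel_left]
      refine (Finset.abs_sum_le_sum_abs _ _).trans ?_
      calc _ ≤ ∑ k ∈ Finset.Ico (J * N) n, K := Finset.sum_le_sum fun a _ => hK _
        _ = (n - J * N : ℕ) * K := by rw [Finset.sum_const, Nat.card_Ico, nsmul_eq_mul]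
        _ ≤ N * K := by
          apply mul_le_mul_of_nonneg_right _ hK0
          exact_mod_cast (by omega : n - J * N ≤ N)
    have hs2 := hA s₀ J
    -- the integral of loc
    have hlc := AV2_loc_cont (N := N) (M := N * Q) hcont hS
    have hi : ∀ a b, IntervalIntegrable (fun t => loc N (N * Q) h fun p => -Φ (-p) t) volume a b :=
      fun a b => hlc.intervalIntegrable a b
    have hs3 : |(∫ t in (X s₀)..(X (s₀ + J * N)), loc N (N * Q) h fun p => -Φ (-p) t) -
        ∫ t in (0 : ℝ)..T, loc N (N * Q) h fun p => -Φ (-p) t| ≤ K * X s₀ + K * A := by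
      have e1 : (∫ t in (X s₀)..(X (s₀ + J * N)), loc N (N * Q) h fun p => -Φ (-p) t) =
          (∫ t in (0 : ℝ)..T, loc N (N * Q) h fun p => -Φ (-p) t)
            - (∫ t in (0 : ℝ)..(X s₀), loc N (N * Q) h fun p => -Φ (-p) t)
            + ∫ t in T..(X (s₀ + J * N)), loc N (N * Q) h fun p => -Φ (-p) t := by
        rw [← intervalIntegral.integral_add_adjacent_intervals (hi (X s₀) T) (hi T _),
          ← intervalIntegral.integral_add_adjacent_intervals (hi 0 (X s₀)) (hi (X s₀) T)]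
        ring
      rw [e1]
      have h1 := AV2_int_le (f := fun t => loc N (N * Q) h fun p => -Φ (-p) t)
        (fun t => AV2_loc_le hN hK _) 0 (X s₀)
      have h2 := AV2_int_le (f := fun t => loc N (N * Q) h fun p => -Φ (-p) t)
        (fun t => AV2_loc_le hN hK _) T (X (s₀ + J * N))
      have h3 : |X s₀ - 0| ≤ X s₀ := by
        rw [sub_zero, abs_of_pos hX0]
      have h4 : |X (s₀ + J * N) - T| ≤ A := by
        rw [abs_le]
        constructor <;> linarith
      have h5 := h1.trans (mul_le_mul_of_nonneg_left h3 hK0)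
      have h6 := h2.trans (mul_le_mul_of_nonneg_left h4 hK0)
      rw [abs_le] at h5 h6 ⊢
      constructor <;> linarith [h5.1, h5.2, h6.1, h6.2]
    -- the integral of w
    have hwi : ∀ a b, IntervalIntegrable w volume a b := fun a b => hS.wc.intervalIntegrable a b
    have hs4 : ∫ t in (X (s₀ - (N * Q : ℕ)))..(X (s₀ + J * N + (N * Q : ℕ))), w t ≤
        D0 + ∫ t in (0 : ℝ)..(T + L), w t := by
      have h1 : X (s₀ + J * N + (N * Q : ℕ)) ≤ T + L := by
        have h2 : s₀ + J * N + ((N * Q : ℕ) : ℤ) = s₀ + J * N + ((Q : ℕ) : ℤ) * N := by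
          push_cast
          ring
        have h3 := (AV2_mult hc hS hX hm (s₀ + J * N) Q).2
        rw [h2, hL]
        rw [← hAdef] at h3
        linarith
      have h2 : ∫ t in (X (s₀ + J * N + (N * Q : ℕ)))..(T + L), w t ≥ 0 :=
        intervalIntegral.integral_nonneg h1 fun t _ => hS.wn t
      rw [hD0, ← intervalIntegral.integral_add_adjacent_intervals
        (hwi (X (s₀ - (N * Q : ℕ))) 0) (hwi 0 _)]
      have h3 := intervalIntegral.integral_add_adjacent_intervals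
        (hwi 0 (X (s₀ + J * N + (N * Q : ℕ)))) (hwi (X (s₀ + J * N + (N * Q : ℕ))) (T + L))
      linarith
    -- together
    have hT' : 0 < 1 / T := by positivity
    have h1 : |∑ k ∈ Finset.range n, h (fun s => X (s₀ + k + s - (N * Q : ℕ)) - X (s₀ + k)) -
        ∫ t in (0 : ℝ)..T, loc N (N * Q) h fun p => -Φ (-p) t| ≤
        N * K + (K * X s₀ + K * A) + C * (D0 + ∫ t in (0 : ℝ)..(T + L), w t) := by
      have h3 := mul_le_mul_of_nonneg_left hs4 hC
      rw [abs_le] at hs1 hs2 hs3 ⊢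
      constructor <;> linarith [hs1.1, hs1.2, hs2.1, hs2.2, hs3.1, hs3.2]
    have h2 : (1 / T) * ∑ k ∈ Finset.range n,
          h (fun s => X (s₀ + k + s - (N * Q : ℕ)) - X (s₀ + k)) - g₀ =
        (1 / T) * (∑ k ∈ Finset.range n,
          h (fun s => X (s₀ + k + s - (N * Q : ℕ)) - X (s₀ + k)) -
          ∫ t in (0 : ℝ)..T, loc N (N * Q) h fun p => -Φ (-p) t) +
        ((1 / T) * (∫ t in (0 : ℝ)..T, loc N (N * Q) h fun p => -Φ (-p) t) - g₀) := by ring
    rw [h2]
    refine (abs_add_le _ _).trans ?_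
    gcongr
    rw [abs_mul, abs_of_pos hT']
    have h3 := mul_le_mul_of_nonneg_left h1 hT'.le
    refine h3.trans (le_of_eq ?_)
    ring
  -- the limit
  have hw2 : Tendsto (fun T : ℝ => (1 / T) * ∫ t in (0 : ℝ)..(T + L), w t) atTop (𝓝 w₀) := by
    have h1 : Tendsto (fun T : ℝ => (1 / (T + L)) * ∫ t in (0 : ℝ)..(T + L), w t) atTop (𝓝 w₀) :=
      hw.comp (tendsto_atTop_add_const_right atTop L tendsto_id)
    have h2 : Tendsto (fun T : ℝ => 1 + L * T⁻¹) atTop (𝓝 (1 + L * 0)) :=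
      (tendsto_inv_atTop_zero.const_mul L).const_add 1
    rw [mul_zero, add_zero] at h2
    have h3 := h2.mul h1
    rw [one_mul] at h3
    refine h3.congr' ?_
    have hL0 : 0 ≤ L := by positivity
    filter_upwards [eventually_gt_atTop (0 : ℝ)] with T hT
    have : T + L ≠ 0 := by positivity
    field_simp
  have hlim : Tendsto (fun T : ℝ => (1 / T) * (N * K + (K * X s₀ + K * A) + C * D0)
        + C * ((1 / T) * ∫ t in (0 : ℝ)..(T + L), w t)
        + |(1 / T) * (∫ t in (0 : ℝ)..T, loc N (N * Q) h fun p => -Φ (-p) t) - g₀|) atTop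
      (𝓝 (0 * (N * K + (K * X s₀ + K * A) + C * D0) + C * w₀ + |g₀ - g₀|)) := by
    have h0 : Tendsto (fun T : ℝ => 1 / T) atTop (𝓝 0) := by
      simpa using tendsto_inv_atTop_zero (𝕜 := ℝ)
    exact ((h0.mul_const _).add (hw2.const_mul C)).add ((hg.sub_const g₀).abs)
  rw [zero_mul, zero_add, sub_self, abs_zero, add_zero] at hlim
  have hlt : C * w₀ < C * w₀ + ε := by linarith
  filter_upwards [hlim.eventually (gt_mem_nhds hlt), eventually_gt_atTop (0 : ℝ),
    eventually_ge_atTop (X s₀)] with T h1 hT hT2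
  exact (key T hT hT2).trans h1.le

end QGr
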