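import Pool.Agent.LibQGr.R_ZET
import Pool.Agent.LibQGr.R_SKW

/-! Row CPL: the coupling. -/

open MeasureTheory Set Filter Topology

namespace QGr


theorem CPL_cont {N : ℕ} (c : Fin N → Fin N → ℂ) : Continuous (zet c) := by
  unfold zet
  refine continuous_finsetSum _ fun k _ => continuous_finsetSum _ fun j _ => ?_
  have h : ∀ k : Fin N, Continuous fun t : Fin N → UnitAddCircle =>
      ((AddCircle.toCircle (t k) : Circle) : ℂ) := fun k =>
    continuous_subtype_val.comp (AddCircle.continuous_toCircle.comp (continuous_apply k))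
  exact (continuous_const.mul (h k)).mul (Complex.continuous_conj.comp (h j))

theorem CPL_int {N : ℕ} (f : (Fin N → UnitAddCircle) → ℝ) (hf : Continuous f) :
    Integrable f :=
  hf.integrable_of_hasCompactSupport (HasCompactSupport.of_compactSpace f)

theorem CPL_col {N : ℕ} (O : Orth N) (k : Fin N) : ∑ i, O.1 i k ^ 2 = 1 := by
  have h := O.2
  rw [Matrix.mem_orthogonalGroup_iff'] at h
  have h1 := congrFun (congrFun h k) k
  rw [Matrix.mul_apply, Matrix.one_apply_eq] at h1
  rw [← h1]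
  refine Finset.sum_congr rfl fun i _ => ?_
  rw [Matrix.transpose_apply, pow_two]

theorem couple {N : ℕ} (O : Orth N) (γ : ℝ) (hγ : Overlap γ O) (M : Uni N)
    (hd : ∀ i, M.1 i i = (‖M.1 i i‖ : ℂ)) (hM : pot M < 1) :
    ∫ t, pot (cx O * (dg t * M * (dg t)⁻¹) * (cx O)⁻¹) ≤ (1 - γ / 2) * pot M := by
  set c : Fin N → Fin N → Fin N → ℂ := fun i k j => (O.1 i k : ℂ) * M.1 k j * (O.1 i j : ℂ)
    with hc
  have hre : ∀ i, (M.1 i i).re = ‖M.1 i i‖ := by
    intro i
    have h := congrArg Complex.re (hd i)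
    rwa [Complex.ofReal_re] at h
  have him : ∀ i, (M.1 i i).im = 0 := by
    intro i
    have h := congrArg Complex.im (hd i)
    rwa [Complex.ofReal_im] at h
  have hqp : qot M = pot M := by
    unfold qot pot
    congr 1
    exact Finset.sum_congr rfl fun i _ => hre i
  have hX : ∀ t, pot (cx O * (dg t * M * (dg t)⁻¹) * (cx O)⁻¹) = N - ∑ i, ‖zet (c i) t‖ := by
    intro t
    unfold pot
    congr 1
    exact Finset.sum_congr rfl fun i _ => by rw [conj_zet]
  have hnorm : ∀ t i, ‖zet (c i) t‖ ≤ 1 := by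
    intro t i
    rw [hc, ← conj_zet O M t i]
    exact entry_norm_bound_of_unitary (cx O * (dg t * M * (dg t)⁻¹) * (cx O)⁻¹).2 i i
  have hcim : ∀ i k, (c i k k).im = 0 := by
    intro i k
    have : c i k k = ((O.1 i k * ‖M.1 k k‖ * O.1 i k : ℝ) : ℂ) := by
      rw [hc]
      simp only
      rw [hd k]
      push_cast
      simp
    rw [this, Complex.ofReal_im]
  have hcre : ∀ i k, (c i k k).re = O.1 i k ^ 2 * ‖M.1 k k‖ := by
    intro i k
    have : c i k k = ((O.1 i k * ‖M.1 k k‖ * O.1 i k : ℝ) : ℂ) := by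
      rw [hc]
      simp only
      rw [hd k]
      push_cast
      simp
    rw [this, Complex.ofReal_re]
    ring
  have hcn : ∀ i k j, ‖c i k j - (starRingEnd ℂ) (c i j k)‖ ^ 2 =
      (O.1 i k ^ 2 * O.1 i j ^ 2) * ‖M.1 k j - (starRingEnd ℂ) (M.1 j k)‖ ^ 2 := by
    intro i k j
    have : c i k j - (starRingEnd ℂ) (c i j k) =
        ((O.1 i k * O.1 i j : ℝ) : ℂ) * (M.1 k j - (starRingEnd ℂ) (M.1 j k)) := by
      rw [hc]
      simp only [map_mul, Complex.conj_ofReal]
      push_cast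
      ring
    rw [this, norm_mul, Complex.norm_real, mul_pow, Real.norm_eq_abs, sq_abs]
    ring
  have hi1 : ∀ i, Integrable fun t => (zet (c i) t).re := fun i =>
    CPL_int _ (Complex.continuous_re.comp (CPL_cont (c i)))
  have hi2 : ∀ i, Integrable fun t => 1 / 2 * (zet (c i) t).im ^ 2 := fun i =>
    CPL_int _ (continuous_const.mul ((Complex.continuous_im.comp (CPL_cont (c i))).pow 2))
  have hi3 : ∀ i, Integrable fun t => (zet (c i) t).re + 1 / 2 * (zet (c i) t).im ^ 2 :=
    fun i => (hi1 i).add (hi2 i)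
  have hL : ∫ t, pot (cx O * (dg t * M * (dg t)⁻¹) * (cx O)⁻¹) ≤
      ∫ t, ((N : ℝ) - ∑ i, ((zet (c i) t).re + 1 / 2 * (zet (c i) t).im ^ 2)) := by
    simp only [hX]
    refine integral_mono ?_ ?_ ?_
    · exact CPL_int _ (continuous_const.sub (continuous_finsetSum _ fun i _ =>
        (CPL_cont (c i)).norm))
    · exact (integrable_const _).sub (integrable_finsetSum _ fun i _ => hi3 i)
    · intro t
      exact sub_le_sub_left (Finset.sum_le_sum fun i _ => norm_ge _ (hnorm t i)) _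
  have hR : ∫ t : Fin N → UnitAddCircle,
      ((N : ℝ) - ∑ i, ((zet (c i) t).re + 1 / 2 * (zet (c i) t).im ^ 2)) =
      N - ∑ i, (∑ k, (c i k k).re +
        1 / 2 * (1 / 4 * ∑ k, ∑ j, ‖c i k j - (starRingEnd ℂ) (c i j k)‖ ^ 2)) := by
    rw [integral_sub (integrable_const _) (integrable_finsetSum _ fun i _ => hi3 i),
      integral_const, probReal_univ, one_smul, integral_finsetSum _ fun i _ => hi3 i]
    congr 1
    refine Finset.sum_congr rfl fun i _ => ?_
    rw [integral_add (hi1 i) (hi2 i), zet_re, integral_const_mul, zet_im _ (hcim i)]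
  have hS1 : ∑ i, ∑ k, (c i k k).re = ∑ k, ‖M.1 k k‖ := by
    rw [Finset.sum_comm]
    refine Finset.sum_congr rfl fun k _ => ?_
    simp only [hcre]
    rw [← Finset.sum_mul, CPL_col, one_mul]
  set D : ℝ := ∑ k, ∑ j, ‖M.1 k j - (starRingEnd ℂ) (M.1 j k)‖ ^ 2 with hD
  have hD0 : 0 ≤ D := Finset.sum_nonneg fun _ _ => Finset.sum_nonneg fun _ _ => by positivity
  have hS2 : γ * D ≤ ∑ i, ∑ k, ∑ j, ‖c i k j - (starRingEnd ℂ) (c i j k)‖ ^ 2 ∧
      0 ≤ ∑ i, ∑ k, ∑ j, ‖c i k j - (starRingEnd ℂ) (c i j k)‖ ^ 2 := by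
    constructor
    · rw [Finset.sum_comm, hD, Finset.mul_sum]
      refine Finset.sum_le_sum fun k _ => ?_
      rw [Finset.sum_comm, Finset.mul_sum]
      refine Finset.sum_le_sum fun j _ => ?_
      simp only [hcn]
      rw [← Finset.sum_mul]
      exact mul_le_mul_of_nonneg_right (hγ k j).1 (by positivity)
    · exact Finset.sum_nonneg fun _ _ => Finset.sum_nonneg fun _ _ =>
        Finset.sum_nonneg fun _ _ => by positivity
  have hpot : pot M = N - ∑ k, ‖M.1 k k‖ := rfl
  have hfin : ∫ t, pot (cx O * (dg t * M * (dg t)⁻¹) * (cx O)⁻¹) ≤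
      pot M - 1 / 8 * ∑ i, ∑ k, ∑ j, ‖c i k j - (starRingEnd ℂ) (c i j k)‖ ^ 2 := by
    refine hL.trans (le_of_eq ?_)
    rw [hR, Finset.sum_add_distrib, hS1, ← Finset.mul_sum, ← Finset.mul_sum, hpot]
    ring
  have hp0 : 0 ≤ pot M := by
    rw [hpot, sub_nonneg]
    calc ∑ k, ‖M.1 k k‖ ≤ ∑ _k : Fin N, (1 : ℝ) :=
          Finset.sum_le_sum fun k _ => entry_norm_bound_of_unitary M.2 k k
      _ = N := by simp
  have hsk := skew M (by rw [hqp]; exact hM)
  rw [hqp] at hsk
  refine hfin.trans ?_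
  rcases le_total 0 γ with h0 | h0
  · have h1 := mul_le_mul_of_nonneg_left hsk h0
    have h2 := hS2.1
    rw [← hD] at h1
    nlinarith
  · have h2 := hS2.2
    nlinarith

end QGr
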