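import Pool.Agent.LibQGr.R_BAS
import Pool.Agent.LibQGr.R_DS
import Pool.Agent.LibQGr.R_CPL
import Pool.Agent.LibQGr.R_SKW
import Pool.Agent.LibQGr.R_AVG

open MeasureTheory Set Filter Topology

namespace QGr


theorem CLB_integrable {N : ℕ} (f : (Fin N → UnitAddCircle) → ℝ) (hf : Continuous f) :
    Integrable f := hf.integrable_of_hasCompactSupport (HasCompactSupport.of_compactSpace f)

theorem CLB_pot_cont {N : ℕ} : Continuous (pot : Uni N → ℝ) := by
  unfold pot
  have hc : Continuous fun X : Uni N => X.1 := continuous_subtype_val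
  refine continuous_const.sub (continuous_finsetSum _ fun i _ => ?_)
  exact (hc.matrix_elem i i).norm

/-- Translation of the phases of the last layer. -/
theorem CLB_shift {N : ℕ} (O : Orth N) (f : Uni N → ℝ) (s : Fin N → UnitAddCircle) (B : Uni N) :
    avg O f B = ∫ t : Fin N → UnitAddCircle, f (dg t * (dg s * cx O * B)) := by
  unfold avg
  have h := integral_add_right_eq_self (μ := (volume : Measure (Fin N → UnitAddCircle)))
    (fun t => f (dg t * cx O * B)) s
  rw [← h]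
  refine integral_congr_ae (Filter.Eventually.of_forall fun t => ?_)
  change f (dg (t + s) * cx O * B) = f (dg t * (dg s * cx O * B))
  rw [dg_add]
  congr 1
  simp only [mul_assoc]

theorem CLB_avg {N : ℕ} (O : Orth N) (f : Uni N → ℝ) (A : Uni N) :
    avg O f A = ∫ t : Fin N → UnitAddCircle, f (dg t * (cx O * A)) := by
  unfold avg
  refine integral_congr_ae (Filter.Eventually.of_forall fun t => ?_)
  change f (dg t * cx O * A) = _
  rw [mul_assoc]

/-- Comparison of two averages. -/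
theorem CLB_compare {N : ℕ} (O : Orth N) (f : Uni N → ℝ) (hf : Continuous f) (A B : Uni N)
    (s : Fin N → UnitAddCircle) (φ : (Fin N → UnitAddCircle) → ℝ) (hφ : Continuous φ)
    (h : ∀ t, |f (dg t * (cx O * A)) - f (dg t * (dg s * cx O * B))| ≤ φ t) :
    |avg O f A - avg O f B| ≤ ∫ t, φ t := by
  rw [CLB_shift O f s B, CLB_avg O f A]
  have c1 : Continuous fun t : Fin N → UnitAddCircle => f (dg t * (cx O * A)) :=
    hf.comp (dg_cont.mul continuous_const)
  have c2 : Continuous fun t : Fin N → UnitAddCircle => f (dg t * (dg s * cx O * B)) :=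
    hf.comp (dg_cont.mul continuous_const)
  rw [← integral_sub (CLB_integrable _ c1) (CLB_integrable _ c2)]
  calc |∫ t, (f (dg t * (cx O * A)) - f (dg t * (dg s * cx O * B)))|
      ≤ ∫ t, |f (dg t * (cx O * A)) - f (dg t * (dg s * cx O * B))| := abs_integral_le_integral_abs
    _ ≤ ∫ t, φ t := integral_mono (CLB_integrable _ (c1.sub c2).abs) (CLB_integrable _ hφ) h

/-- First averaging. -/
theorem class_base {N : ℕ} (O : Orth N) (f : Uni N → ℝ) (hf : Continuous f) (Λ : ℝ) (hΛ : 0 ≤ Λ)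
    (hL : ∀ A B, |f A - f B| ≤ Λ * √(ds A B)) (A B : Uni N) :
    |avg O f A - avg O f B| ≤ Λ * √(2 * pot (cx O * (B * A⁻¹) * (cx O)⁻¹)) := by
  obtain ⟨s, -, -, hs⟩ := pot_align (cx O * (B * A⁻¹) * (cx O)⁻¹)
  have h := CLB_compare O f hf A B s
    (fun _ => Λ * √(2 * pot (cx O * (B * A⁻¹) * (cx O)⁻¹))) continuous_const (by
      intro t
      refine (hL _ _).trans_eq ?_
      rw [ds_left, ds_qot]
      have e : dg s * cx O * B * (cx O * A)⁻¹ = dg s * (cx O * (B * A⁻¹) * (cx O)⁻¹) := by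
        rw [mul_inv_rev]
        simp only [mul_assoc]
      rw [e, hs])
  refine h.trans_eq ?_
  rw [integral_const]
  simp

/-- Jensen. -/
theorem CLB_jensen {N : ℕ} (φ : (Fin N → UnitAddCircle) → ℝ) (hφ : Continuous φ)
    (h0 : ∀ t, 0 ≤ φ t) : ∫ t, √(φ t) ≤ √(∫ t, φ t) := by
  have h := (Real.strictConcaveOn_sqrt.concaveOn).le_map_integral
    (μ := (volume : Measure (Fin N → UnitAddCircle))) (f := φ)
    Real.continuous_sqrt.continuousOn isClosed_Ici (Filter.Eventually.of_forall h0)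
    (CLB_integrable _ hφ) (CLB_integrable _ (Real.continuous_sqrt.comp hφ))
  exact h

/-- One more averaging contracts. -/
theorem class_step {N : ℕ} (hN : 0 < N) (O O' : Orth N) (γ : ℝ) (h0 : 0 < γ)
    (hγ : Overlap γ O') (g : Uni N → ℝ) (hg : Continuous g) (Λ : ℝ) (hΛ : 0 ≤ Λ)
    (h : ∀ A B : Uni N, qot (B * A⁻¹) < 1 →
      |g A - g B| ≤ Λ * √(2 * pot (cx O' * (B * A⁻¹) * (cx O')⁻¹))) (A B : Uni N)
    (hAB : qot (B * A⁻¹) < 1) :
    |avg O g A - avg O g B| ≤
      Λ * √(1 - γ / 2) * √(2 * pot (cx O * (B * A⁻¹) * (cx O)⁻¹)) := by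
  have hNr : (1 : ℝ) ≤ N := by exact_mod_cast hN
  have hγ1 : γ ≤ 1 := by
    have := gamma_le hN O' γ hγ
    nlinarith
  obtain ⟨X, hX⟩ : ∃ X, X = cx O * (B * A⁻¹) * (cx O)⁻¹ := ⟨_, rfl⟩
  obtain ⟨s, hs1, hs2, hs3⟩ := pot_align X
  obtain ⟨M, hM⟩ : ∃ M, M = dg s * X := ⟨_, rfl⟩
  rw [← hM] at hs1 hs2 hs3
  have hXq : qot X < 1 := by
    rw [hX, qot_conj]
    exact hAB
  have hMp : pot M < 1 := by
    rw [hs2]
    exact lt_of_le_of_lt (pot_le X) hXq
  have hMq : qot M < 1 := by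
    rw [hs3, ← hs2]
    exact hMp
  obtain ⟨φ, hφ⟩ : ∃ φ : (Fin N → UnitAddCircle) → ℝ, φ = fun t =>
    2 * pot (cx O' * (dg t * M * (dg t)⁻¹) * (cx O')⁻¹) := ⟨_, rfl⟩
  have hφc : Continuous φ := by
    rw [hφ]
    refine continuous_const.mul (CLB_pot_cont.comp ?_)
    exact (continuous_const.mul ((dg_cont.mul continuous_const).mul dg_cont.inv)).mul
      continuous_const
  have hφ0 : ∀ t, 0 ≤ φ t := by
    intro t
    rw [hφ]
    exact mul_nonneg zero_le_two (pot_nonneg _)
  have hcmp := CLB_compare O g hg A B s (fun t => Λ * √(φ t))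
    (continuous_const.mul (Real.continuous_sqrt.comp hφc)) (by
      intro t
      have e : dg t * (dg s * cx O * B) * (dg t * (cx O * A))⁻¹ = dg t * M * (dg t)⁻¹ := by
        rw [hM, hX, mul_inv_rev, mul_inv_rev]
        simp only [mul_assoc]
      have h1 := h (dg t * (cx O * A)) (dg t * (dg s * cx O * B)) (by
        rw [e, qot_conj]
        exact hMq)
      rw [e] at h1
      rw [hφ]
      exact h1)
  refine hcmp.trans ?_
  rw [integral_const_mul, mul_assoc]
  refine mul_le_mul_of_nonneg_left ?_ hΛ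
  refine (CLB_jensen φ hφc hφ0).trans ?_
  rw [← Real.sqrt_mul (by linarith : (0 : ℝ) ≤ 1 - γ / 2)]
  refine Real.sqrt_le_sqrt ?_
  have h2 : ∫ t, φ t = 2 * ∫ t, pot (cx O' * (dg t * M * (dg t)⁻¹) * (cx O')⁻¹) := by
    rw [hφ, integral_const_mul]
  have h3 := couple O' γ hγ M hs1 hMp
  rw [h2, ← hX]
  rw [hs2] at h3
  linarith

end QGr
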