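import Pool.Agent.LibQGr.Def2

open MeasureTheory Set Filter Topology

namespace QGr

/-- The functional `l ↦ ∑ c q l q`. -/
noncomputable def GEN_phi {N m : ℕ} (c : Fin (m + 1) × Fin N → ℚ) :
    (Fin (m + 1) → Fin N → ℝ) →ₗ[ℝ] ℝ where
  toFun l := ∑ q, (c q : ℝ) * l q.1 q.2
  map_add' u v := by simp [mul_add, Finset.sum_add_distrib]
  map_smul' a u := by
    simp only [Pi.smul_apply, smul_eq_mul, RingHom.id_apply, Finset.mul_sum]
    exact Finset.sum_congr rfl fun _ _ => by ring

theorem GEN_null {N m : ℕ} (c : Fin (m + 1) × Fin N → ℚ) (hc : c ≠ 0) :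
    volume {l : Fin (m + 1) → Fin N → ℝ | ∑ q, (c q : ℝ) * l q.1 q.2 = 0} = 0 := by
  obtain ⟨q₀, hq₀⟩ : ∃ q, c q ≠ 0 := by
    by_contra h
    push Not at h
    exact hc (funext h)
  have h := Measure.addHaar_submodule (volume : Measure (Fin (m + 1) → Fin N → ℝ))
    (LinearMap.ker (GEN_phi c)) (by
      intro ht
      have h1 : (Pi.single q₀.1 (Pi.single q₀.2 (1 : ℝ)) : Fin (m + 1) → Fin N → ℝ)
          ∈ LinearMap.ker (GEN_phi c) := by rw [ht]; trivial
      rw [LinearMap.mem_ker] at h1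
      have h2 : ∑ q : Fin (m + 1) × Fin N, (c q : ℝ) *
          (Pi.single q₀.1 (Pi.single q₀.2 (1 : ℝ)) : Fin (m + 1) → Fin N → ℝ) q.1 q.2 = 0 := h1
      rw [Finset.sum_eq_single q₀] at h2
      · simp at h2
        exact hq₀ h2
      · intro q _ hq
        by_cases h3 : q.1 = q₀.1
        · have h4 : q.2 ≠ q₀.2 := fun h4 => hq (Prod.ext h3 h4)
          rw [h3, Pi.single_eq_same, Pi.single_eq_of_ne h4, mul_zero]
        · rw [Pi.single_eq_of_ne h3]
          simp
      · intro h; exact absurd (Finset.mem_univ _) h)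
  exact h

/-- The condition on the lengths. -/
theorem GEN_iff {N m : ℕ} (l : Fin (m + 1) → Fin N → ℝ) :
    LinearIndependent ℚ (fun q : Fin (m + 1) × Fin N => l q.1 q.2) ↔
      ∀ c : {c : Fin (m + 1) × Fin N → ℚ // c ≠ 0}, ∑ q, (c.1 q : ℝ) * l q.1 q.2 ≠ 0 := by
  rw [Fintype.linearIndependent_iff]
  constructor
  · intro h c hc
    refine c.2 (funext fun q => h c.1 ?_ q)
    simpa [Rat.smul_def] using hc
  · intro h c hc q
    by_contra hq
    refine h ⟨c, fun h0 => hq (by rw [h0]; rfl)⟩ ?_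
    simpa [Rat.smul_def] using hc

/-- Almost all length vectors are rationally independent. -/
theorem gen_ae (N m : ℕ) : ∀ᵐ l : Fin (m + 1) → Fin N → ℝ,
    LinearIndependent ℚ (fun q : Fin (m + 1) × Fin N => l q.1 q.2) := by
  simp only [GEN_iff]
  rw [ae_all_iff]
  intro c
  rw [ae_iff]
  simpa using GEN_null c.1 c.2

/-- A generic length vector is rationally independent. -/
theorem gen_res (N m : ℕ) : ∀ᶠ l : Fin (m + 1) → Fin N → ℝ in residual _,
    LinearIndependent ℚ (fun q : Fin (m + 1) × Fin N => l q.1 q.2) := by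
  simp only [GEN_iff]
  rw [eventually_countable_forall]
  intro c
  have ho : IsOpen {l : Fin (m + 1) → Fin N → ℝ | ∑ q, (c.1 q : ℝ) * l q.1 q.2 ≠ 0} := by
    refine isOpen_ne_fun ?_ continuous_const
    fun_prop
  refine residual_of_dense_open ho ?_
  refine Measure.dense_of_ae (μ := volume) ?_
  rw [ae_iff]
  simpa using GEN_null c.1 c.2

end QGr
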